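import Pool.Agent.MP_1a6d78_lc.PR.Defs

/-! Acyclic digraphs drawn on a surface of bounded genus. -/

namespace Pool.Agent.MP_1a6d78_lc.PD

open PR

/-- The genera of the components add up to at most `g`: `V - E + F ≥ 2 (components) - 2 g`. -/
def Genus (g : ℕ) {n : ℕ} (σ α : Equiv.Perm (Fin n)) : Prop :=
  n + 2 * orb (Subgroup.closure {σ, α}) ≤
    orb (Subgroup.zpowers σ) + orb (Subgroup.zpowers α) + orb (Subgroup.zpowers (σ * α)) + 2 * g

/-- No directed cycle: the head of an arc never reaches its tail. -/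
def Acyclic {n : ℕ} (σ α : Equiv.Perm (Fin n)) (dir : Fin n → Bool) : Prop :=
  ∀ a, dir a = true → ¬Reach σ α dir (α a) a

end Pool.Agent.MP_1a6d78_lc.PD
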