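import Pool.Agent.MP_1a6d78_lc.SC.OSub
import Pool.Agent.MP_1a6d78_lc.PR.Basic
import Pool.Agent.MP_1a6d78_lc.PD.Defs

-- ======== part 0: formerly Pool.Agent.MP_1a6d78_lc.PD.Alg
section MrgPart0

/-! PROJECT PD: the algorithm.  Note: 1a6d78_SC_h69.md, prototype: 1a6d78_SC_h69_proto.py. -/

namespace Pool.Agent.MP_1a6d78_lc.PD

open Classical ED PR

noncomputable section

/-- A map: `ρ true` is the rotation, `ρ false` its inverse, `nd` names the vertex. -/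
structure Dm where
  n : ℕ
  ρ : Bool → ℕ → ℕ
  β : ℕ → ℕ
  dir : ℕ → Bool
  nd : ℕ → ℕ

/-- A segment: the path of side `s` from `p` to `q`, or (`ex`) the explicit pair `p, q`. -/
structure Sg where
  ex : Bool
  s : Bool
  p : ℕ
  q : ℕ

/-- The primitives of a level. -/
structure Pr where
  al : ℕ → Prop
  nx : Bool → ℕ → ℕ
  suc : Bool → ℕ → ℕ
  En : Bool → ℕ → ℕ
  FT : Bool → ℕ → ℕ
  F : Bool → ℕ → Sg → Sg → ℕ
  next : ℕ → ℕ
  cur : ℕ → Bool → ℕ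

/-- The least (`fl`) or largest index below `n` with `P`. -/
def pick (fl : Bool) (n : ℕ) (P : ℕ → Prop) : ℕ :=
  if fl then lst n P else n - 1 - lst n fun i => P (n - 1 - i)

/-- The single edge of the dart `d`. -/
def one (d : ℕ) : Sg := ⟨true, true, d, d⟩

/-- The mode `end a of the item = end b of the edge`. -/
def vm (a b : Bool) : ℕ := (if a then 2 else 0) + if b then 1 else 0

namespace Dm

variable (M : Dm)

/-! ### Static notions -/

/-- The first dart with `Q` strictly after `d` (`n` if there is none). -/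
def fst (s : Bool) (Q : ℕ → Prop) (d : ℕ) : ℕ :=
  if ∃ t < M.n, Q (it M.n (M.ρ s) (t + 1) d) then
    it M.n (M.ρ s) (lst M.n (fun t => Q (it M.n (M.ρ s) (t + 1) d)) + 1) d else M.n

/-- `b` is reached from `a` after `dist + 1` steps of the rotation (`n` if never). -/
def dist (s : Bool) (a b : ℕ) : ℕ :=
  lst (M.n + 1) fun t => t = M.n ∨ it M.n (M.ρ s) (t + 1) a = b

/-- Going from `a` in direction `s`, `z` comes strictly before `b`. -/
def Bt (s : Bool) (a z b : ℕ) : Prop := M.dist s a z < M.dist s a b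

/-- The nearest of the darts `f i`, `i < m`. -/
def best (s : Bool) (a : ℕ) (f : ℕ → ℕ) (m : ℕ) : ℕ := f (amin m fun i => M.dist s a (f i))

/-- The vertex of the dart of direction `δ` of the edge of `p`. -/
def en (δ : Bool) (p : ℕ) : ℕ := M.nd (if M.dir p = δ then p else M.β p)

/-- The modes: 5 sector of the passage `p, p'`; 4 same edge; 0..3 common end. -/
def R (r : ℕ) (s : Bool) (p p' b : ℕ) : Prop :=
  if r = 5 then M.Bt s (M.β p) b p' ∨ M.Bt s (M.β p) (M.β b) p'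
  else if r = 4 then b = p ∨ b = M.β p
  else M.en (decide (r = 2 ∨ r = 3)) p = M.en (decide (r = 1 ∨ r = 3)) b

/-- Slots: level 0 heads, level `l ≥ 1` entries, `0` is the end of a list. -/
def mk' (l e : ℕ) (s : Bool) : ℕ := (l * M.n + e) * 2 + (if s then 1 else 0) + 1

def ze (z : ℕ) : ℕ := (z - 1) / 2 % M.n

def zl (z : ℕ) : ℕ := (z - 1) / 2 / M.n

def hz (x : ℕ) : ℕ := M.mk' 0 x false

/-! ### The meaning of the primitives for the set `L` of alive darts -/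

variable (L : ℕ → Prop)

def nx (s : Bool) (d : ℕ) : ℕ := if L d then M.fst s L d else M.n

def suc (s : Bool) (p : ℕ) : ℕ :=
  if L p then M.fst s (fun q => L q ∧ M.dir q = M.dir p) (M.β p) else M.n

def pth (s : Bool) (p i : ℕ) : ℕ := it M.n (M.suc L s) i p

def En (s : Bool) (p : ℕ) : ℕ :=
  if L p then M.pth L s p (lst M.n fun i => M.suc L s (M.pth L s p i) = M.n) else M.n

def FT (s : Bool) (p : ℕ) : ℕ :=
  if L p then M.pth L s p (lst M.n fun i =>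
    M.dir (M.nx L s (M.β (M.pth L s p i))) ≠ M.dir (M.pth L s p i)) else M.n

def el (A : Sg) (i : ℕ) : ℕ := if A.ex then (if i = 0 then A.p else A.q) else M.pth L A.s A.p i

def ln (A : Sg) : ℕ := lst M.n fun i => M.el L A i = A.q

def ok (A : Sg) : Prop := L A.p ∧ L A.q ∧ ∃ i < M.n, M.el L A i = A.q

def hit (r : ℕ) (A B : Sg) (i : ℕ) : Prop :=
  (if r = 5 then i < M.ln L A else i ≤ M.ln L A) ∧
    ∃ k < M.ln L B + 1, M.R r A.s (M.el L A i) (M.el L A (i + 1)) (M.el L B k)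

def F (fl : Bool) (r : ℕ) (A B : Sg) : ℕ :=
  if M.ok L A ∧ M.ok L B ∧ ∃ i < M.n, M.hit L r A B i then
    M.el L A (pick fl M.n (M.hit L r A B)) else M.n

def sem : Pr := ⟨L, M.nx L, M.suc L, M.En L, M.FT L, M.F L, fun _ => 0, fun _ _ => 0⟩

/-- Sources and sinks. -/
def crit (x : ℕ) : Prop :=
  (∃ d < M.n, L d ∧ M.nd d = x) ∧ ∃ δ : Bool, ∀ d < M.n, L d → M.nd d = x → M.dir d = δ

end Dm

def zs (z : ℕ) : Bool := decide ((z - 1) % 2 = 1)

/-! ### Derived notions -/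

namespace Pr

variable (P : Pr) (M : Dm)

def own (s : Bool) (e : ℕ) : ℕ := M.nd (M.β (P.En s e))

def par (s : Bool) (e : ℕ) : ℕ :=
  if M.dir (P.nx s e) = M.dir e then P.nx s e else P.suc s (M.β (P.nx s e))

def val (e : ℕ) (s : Bool) : Prop :=
  P.al e ∧ if M.dir (P.nx (!s) e) = M.dir e then
    P.nx s (M.β (P.FT s e)) ≠ M.β (P.FT (!s) (P.par M (!s) e))
  else P.suc s (M.β e) ≠ P.nx s (P.par M (!s) e)

def On (d : ℕ) (A : Sg) : Prop := P.F true 4 A (one d) < M.n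

def full (s : Bool) (p : ℕ) : Sg := ⟨false, s, p, P.En s p⟩

/-- Cut `X` at the best hit found so far. -/
def shr (fl : Bool) (X : Sg) (a : ℕ) : Sg :=
  if a < M.n then (if fl then ⟨X.ex, X.s, X.p, a⟩ else ⟨X.ex, X.s, a, X.q⟩) else X

/-- The first or last hit of `X` with one of the segments `B i`, `i < m`. -/
def fo (fl : Bool) (r : ℕ) (X : Sg) (B : ℕ → Sg) (m : ℕ) : ℕ :=
  itr (fun i a => if P.F fl r (shr M fl X a) (B i) < M.n then P.F fl r (shr M fl X a) (B i) else a)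
    M.n m

def live (z : ℕ) : Prop := P.val M (M.ze z) (zs z) ∧ P.cur (M.ze z) (zs z) = M.zl z

/-- The `i`-th slot of the list of `x`. -/
def sl (q x i : ℕ) : ℕ := it q P.next (i + 1) (M.hz x)

def len (q x : ℕ) : ℕ := lst q fun i => P.sl M q x i = 0

/-- The potential. -/
def Phi (pr : ℕ → Prop) (c q : ℕ) : ℕ :=
  10 * c * cnt M.n (fun x => M.crit P.al x ∧ ¬pr x) +
    ∑ x ∈ Finset.range M.n, if M.crit P.al x then P.len M q x else 0

def rem (h : ℕ → Prop) (z : ℕ) : Prop := ¬P.live M z ∧ h z ∧ (P.next z = 0 ∨ ¬h (P.next z))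

/-- The garbage round. -/
def garb (h : ℕ → Prop) : Pr :=
  { P with next := fun z =>
      if P.next z ≠ 0 ∧ P.rem M h (P.next z) then P.next (P.next z) else P.next z }

def clip (q : ℕ) : Pr where
  al d := P.al (min d q)
  nx s d := min (P.nx s (min d q)) q
  suc s d := min (P.suc s (min d q)) q
  En s d := min (P.En s (min d q)) q
  FT s d := min (P.FT s (min d q)) q
  F fl r A B := min (P.F fl (min r q) ⟨A.ex, A.s, min A.p q, min A.q q⟩
    ⟨B.ex, B.s, min B.p q, min B.q q⟩) q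
  next z := min (P.next (min z q)) q
  cur e s := min (P.cur (min e q) s) q

end Pr

namespace Dm

variable (M : Dm) (L : ℕ → Prop)

def own : Bool → ℕ → ℕ := (M.sem L).own M

def par : Bool → ℕ → ℕ := (M.sem L).par M

def val : ℕ → Bool → Prop := (M.sem L).val M

/-- Level 0. -/
def base : Pr :=
  { M.sem L with
    next := fun z => lst (4 * M.n + 1) fun w => z ≠ 0 ∧ z < w ∧ M.zl w = 1 ∧
      M.val L (M.ze w) (zs w) ∧
      M.own L (zs w) (M.ze w) = if M.zl z = 0 then M.ze z else M.own L (zs z) (M.ze z)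
    cur := fun _ _ => 1 }

end Dm

/-! ### The kill round -/

/-- A round: paths of darts of direction `d0` run into the killed vertices. -/
structure Rd where
  M : Dm
  P : Pr
  j : ℕ
  d0 : Bool
  c : ℕ
  q : ℕ
  h : ℕ → Prop
  pr : ℕ → Prop

namespace Rd

variable (K : Rd)

def own : Bool → ℕ → ℕ := K.P.own K.M

def par : Bool → ℕ → ℕ := K.P.par K.M

def se (x i : ℕ) : ℕ := K.M.ze (K.P.sl K.M K.q x i)

def ss (x i : ℕ) : Bool := zs (K.P.sl K.M K.q x i)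

def us (x i : ℕ) : Prop :=
  K.P.sl K.M K.q x i ≠ 0 ∧ K.P.al (K.se x i) ∧ K.M.dir (K.se x i) = K.d0

/-- The owner of the partner of the `i`-th slot. -/
def po (x i : ℕ) : ℕ := K.own (!K.ss x i) (K.par (!K.ss x i) (K.se x i))

def sel (x : ℕ) : Prop :=
  ¬K.pr x ∧ K.h x ∧ K.P.sl K.M K.q x K.c = 0 ∧
    ∀ i < K.c, K.us x i → K.po x i = x ∨ ¬K.h (K.po x i)

def cand (x : ℕ) (s : Bool) (i : ℕ) : ℕ :=
  if K.us x i then
    if K.ss x i = s then
      (if K.M.dir (K.P.nx (!s) (K.se x i)) = K.d0 then K.M.n else K.P.nx (!s) (K.se x i))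
    else K.M.β (K.par s (K.se x i))
  else K.M.n

def nrm (p : ℕ) : ℕ := if K.M.dir p = K.d0 then p else K.M.β p

def meets (p b : ℕ) : Prop :=
  K.P.F true (vm (!K.d0) K.d0) (K.P.full true p) (K.P.full false b) < K.M.n

def S : ℕ → ℕ → ℕ → Prop
  | 0 => fun _ _ => False
  | k + 1 => fun x i => K.cand x true i < K.M.n ∧ (K.own true (K.M.β (K.cand x true i)) ≠ x ∨
      ∃ i' < K.c, S k x i' ∧ K.meets (K.M.β (K.cand x true i)) (K.cand x true i'))

def al' (p : ℕ) : Prop :=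
  K.P.al p ∧ (¬K.sel (K.own true (K.nrm p)) ∨ ∃ i < K.c, K.S K.c (K.own true (K.nrm p)) i ∧
    K.meets (K.nrm p) (K.cand (K.own true (K.nrm p)) true i))

def gd (x : ℕ) (s : Bool) (i : ℕ) : ℕ := if K.al' (K.cand x s i) then K.cand x s i else K.M.n

def wall (x : ℕ) (s : Bool) (i : ℕ) : Sg := K.P.full (!s) (K.gd x s i)

/-- The dart of direction `d0` of the wall at the vertex of `d`. -/
def At (x : ℕ) (s : Bool) (d i : ℕ) : ℕ :=
  if K.P.F true (vm K.d0 (K.M.dir d)) (K.wall x s i) (one d) < K.M.n then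
    K.M.β (K.P.F true (vm K.d0 (K.M.dir d)) (K.wall x s i) (one d)) else K.M.n

def suc' (s : Bool) (p : ℕ) : ℕ :=
  if K.al' p then
    if K.M.dir p ≠ K.d0 ∨ K.P.suc s p = K.M.n ∨ K.al' (K.P.suc s p) then K.P.suc s p
    else K.M.best s (K.M.β p) (K.At (K.own s (K.P.suc s p)) s (K.M.β p)) K.c
  else K.M.n

def nx' (s : Bool) (d : ℕ) : ℕ :=
  if K.al' d then
    if K.al' (K.P.nx s d) then K.P.nx s d
    else K.M.best s d (fun i => if i = K.c then K.P.suc s (K.M.β (K.P.nx s d))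
      else K.At (K.own s (K.P.nx s d)) s d i) (K.c + 1)
  else K.M.n

/-- The first hit of a wall in the sector of the path from `t`. -/
def fh (s : Bool) (t : ℕ) : ℕ :=
  K.P.fo K.M true 5 (K.P.full s t) (K.wall (K.own s (K.P.nx s (K.M.β t))) s) K.c

/-- The new first turn of an unchanged path. -/
def FTd (s : Bool) (p : ℕ) : ℕ :=
  if K.al' (K.P.nx s (K.M.β (K.P.FT s p))) then K.P.FT s p
  else if K.fh s (K.P.FT s p) < K.M.n then K.fh s (K.P.FT s p) else K.P.En s p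

def dq (s : Bool) (p : ℕ) : ℕ :=
  if K.sel (K.own s p) then
    K.P.fo K.M false (vm (!K.d0) K.d0) (K.P.full s p) (K.wall (K.own s p) s) K.c
  else K.P.En s p

def dg (s : Bool) (p : ℕ) : ℕ := K.suc' s (K.dq s p)

def db (s : Bool) (p : ℕ) : ℕ :=
  K.gd (K.own s p) s (lst K.c fun i => K.P.On K.M (K.dg s p)
    ⟨false, !s, K.gd (K.own s p) s i, K.FTd (!s) (K.gd (K.own s p) s i)⟩)

def dp (s : Bool) (p k : ℕ) : ℕ :=
  it K.M.n (fun a => if K.sel (K.own s a) then K.M.β (K.db s a) else a) k p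

def En' (s : Bool) (p : ℕ) : ℕ :=
  if K.al' p then K.P.En s (if K.M.dir p = K.d0 then K.dp s p K.c else p) else K.M.n

/-- The old first turn from `a` is the new one. -/
def old (s : Bool) (a : ℕ) : Prop := ¬K.sel (K.own s a) ∨ K.al' (K.P.suc s (K.P.FT s a))

def ft (s : Bool) (p : ℕ) : ℕ :=
  K.dp s p (lst (K.c + 1) fun k => K.old s (K.dp s p k) ∨
    K.M.dir (K.nx' s (K.M.β (K.dq s (K.dp s p k)))) ≠ K.d0)

def FT' (s : Bool) (p : ℕ) : ℕ :=
  if K.al' p then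
    if K.M.dir p = K.d0 then
      (if K.old s (K.ft s p) then K.P.FT s (K.ft s p) else K.dq s (K.ft s p))
    else K.FTd s p
  else K.M.n

/-- The pieces of the whole new path. -/
def pf (s : Bool) (p k : ℕ) : Sg :=
  if k % 3 = 0 then ⟨false, s, K.dp s p (k / 3), K.dq s (K.dp s p (k / 3))⟩
  else if k % 3 = 1 then ⟨true, s, K.dq s (K.dp s p (k / 3)), K.dg s (K.dp s p (k / 3))⟩
  else ⟨false, !s, K.db s (K.dp s p (k / 3)), K.M.β (K.dg s (K.dp s p (k / 3)))⟩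

def cut (A : Sg) (k : ℕ) : Prop :=
  (k % 3 = 0 ∨ (k % 3 = 2 ∧ K.sel (K.own A.s (K.dp A.s A.p (k / 3))))) ∧
    K.P.On K.M A.q (K.pf A.s A.p k)

def sim (A : Sg) : Prop := A.ex = true ∨ K.M.dir A.p ≠ K.d0

def ok' (A : Sg) : Prop :=
  K.al' A.p ∧ K.al' A.q ∧ (A.ex = true ∨ (K.M.dir A.q = K.M.dir A.p ∧
    if K.M.dir A.p = K.d0 then ∃ k < 3 * K.c + 1, K.cut A k
    else K.P.On K.M A.q (K.P.full A.s A.p)))

/-- The index of the last piece. -/
def np (A : Sg) : ℕ := if K.sim A then 0 else lst (3 * K.c + 1) (K.cut A)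

def pc (A : Sg) (k : ℕ) : Sg :=
  if K.sim A then A
  else if k = K.np A then
    (if k % 3 = 0 then ⟨false, A.s, (K.pf A.s A.p k).p, A.q⟩
    else ⟨false, !A.s, K.M.β A.q, (K.pf A.s A.p k).q⟩)
  else K.pf A.s A.p k

/-- Reversed pieces. -/
def rv (A : Sg) (k : ℕ) : Bool := decide (¬K.sim A ∧ k % 3 = 2)

def res (fl : Bool) (r : ℕ) (A B : Sg) (k : ℕ) : ℕ :=
  K.P.fo K.M (xor fl (K.rv A k)) r (K.pc A k) (K.pc B) (K.np B + 1)

def cv (fl : Bool) (r : ℕ) (A B : Sg) (k : ℕ) : ℕ :=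
  if K.rv A k then
    K.M.β (if r = 5 then K.P.suc (!A.s) (K.res fl r A B k) else K.res fl r A B k)
  else K.res fl r A B k

def F' (fl : Bool) (r : ℕ) (A B : Sg) : ℕ :=
  if K.ok' A ∧ K.ok' B ∧ ∃ k < K.np A + 1, K.res fl r A B k < K.M.n then
    K.cv fl r A B (pick fl (K.np A + 1) fun k => K.res fl r A B k < K.M.n) else K.M.n

/-- The new geometry with the old lists. -/
def N : Pr := ⟨K.al', K.nx', K.suc', K.En', K.FT', K.F', K.P.next, K.P.cur⟩

def ins (e : ℕ) (s : Bool) : Prop := K.M.dir e = K.d0 ∧ K.N.val K.M e s ∧ K.sel (K.own s e)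

/-- The entries that may have to be inserted: `5 c` per killed vertex. -/
def Cs (x i : ℕ) : Bool := if i / K.c = 0 then K.ss x i else decide (i / K.c % 2 = 1)

def Ce (x i : ℕ) : ℕ :=
  if i / K.c = 0 then K.se x i
  else if i / K.c < 3 then K.suc' (K.Cs x i) (K.M.β (K.gd x (K.Cs x i) (i % K.c)))
  else K.M.β (K.FTd (!K.Cs x i) (K.gd x (K.Cs x i) (i % K.c)))

def cd (x i : ℕ) : ℕ := K.M.mk' (K.j + 2) (K.Ce x i) (K.Cs x i)

/-- The `i`-th slot of `x` is a valid entry of `x` whose partner belongs to `y`. -/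
def ap (x y i : ℕ) : Prop :=
  K.us x i ∧ K.P.val K.M (K.se x i) (K.ss x i) ∧ K.own (K.ss x i) (K.se x i) = x ∧ K.po x i = y

/-- The live slot of the partner of the `i`-th slot. -/
def ps (x i : ℕ) : ℕ :=
  K.M.mk' (K.P.cur (K.par (!K.ss x i) (K.se x i)) (!K.ss x i)) (K.par (!K.ss x i) (K.se x i))
    (!K.ss x i)

/-- The anchor. -/
def anc (e : ℕ) (s : Bool) : ℕ :=
  K.ps (K.own s e) (lst K.c (K.ap (K.own s e) (K.N.own K.M s e)))

def cI (x z w i : ℕ) : Prop :=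
  K.ins (K.Ce x i) (K.Cs x i) ∧ K.anc (K.Ce x i) (K.Cs x i) = z ∧ w < K.cd x i

/-- The next slot inserted behind the anchor `z` after `w`. -/
def nI (x z w : ℕ) : ℕ :=
  if ∃ i < 5 * K.c, K.cI x z w i then
    K.cd x (amin (5 * K.c) fun i => if K.cI x z w i then K.cd x i else K.q) else K.P.next z

def kill : Pr :=
  { K.N with
    next := fun z => if K.M.zl z = K.j + 2 then
        K.nI (K.own (zs z) (K.M.ze z)) (K.anc (K.M.ze z) (zs z)) z
      else K.nI (K.own (!zs z) (K.par (!zs z) (K.M.ze z))) z 0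
    cur := fun e s => if K.ins e s then K.j + 2 else K.P.cur e s }

end Rd

/-! ### The levels -/

/-- The colour class of the seed `w`. -/
def colq (N K w y : ℕ) : Prop :=
  y < N ∧ w / (2 * N + 3) % (2 * N + 3) * y % (w % (2 * N + 3)) % K = w / (2 * N + 3) / (2 * N + 3)

/-- The number of seeds of one kind. -/
def hm (c q : ℕ) : ℕ := 4 * c * (2 * q + 3) ^ 2

/-- The round with the seed `w`. -/
def step (M : Dm) (pr : ℕ → Prop) (c q : ℕ) (P : Pr) (j w : ℕ) : Pr :=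
  if w % 3 = 0 then P.garb M (colq q (4 * c) (w / 3))
  else Rd.kill ⟨M, P, j, decide (w % 3 = 2), c, q, colq q (4 * c) (w / 3), pr⟩

/-- The arcs, without those into `s` and out of `t`. -/
def L0 (M : Dm) (s t d : ℕ) : Prop :=
  d < M.n ∧ M.dir (M.β d) = !M.dir d ∧ M.en false d ≠ s ∧ M.en true d ≠ t

def ans (M : Dm) (s t : ℕ) (P : Pr) : Prop := s = t ∨ ∃ d < M.n, P.al d ∧ M.nd d = t

/-- The map read from the input. -/
def im (x : List Bool) : Dm where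
  n := (inp x).n
  ρ s d := if s then (inp x).ρ d else lst (inp x).n fun e => (inp x).ρ e = d
  β := (inp x).β
  dir d := decide ((inp x).dir d)
  nd := (inp x).nd

def is (x : List Bool) : ℕ := (inp x).nd (inp x).s

def it' (x : List Bool) : ℕ := (inp x).nd (inp x).t

def cc (G : ℕ) : ℕ := 64 * (3 + G)

end

end Pool.Agent.MP_1a6d78_lc.PD

end MrgPart0

-- ======== part 1: formerly Pool.Agent.MP_1a6d78_lc.PD.Spec
section MrgPart1

/-! PROJECT PD: the module statements.  Blueprint: PD1a6d78_BLUEPRINT.md. -/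

namespace Pool.Agent.MP_1a6d78_lc.PD

open Classical ED PR Relation

noncomputable section

namespace Dm

variable (M : Dm) (L : ℕ → Prop)

structure Ok : Prop where
  pm : ∀ s, Pm M.n (M.ρ s)
  inv : ∀ s, ∀ d < M.n, M.ρ (!s) (M.ρ s d) = d
  iv : Iv M.n M.β
  nd : ∀ a < M.n, ∀ b < M.n, M.nd a = M.nd b ↔ Sc M.n (M.ρ true) a b
  ndl : ∀ a < M.n, M.nd a < M.n ∧ M.nd (M.nd a) = M.nd a

/-- A state: a set of arcs without directed cycle. -/
structure St : Prop where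
  ok : M.Ok
  lt : ∀ d, L d → d < M.n
  be : ∀ d, L d → L (M.β d)
  dir : ∀ d, L d → M.dir (M.β d) = !M.dir d
  rk : ∀ δ : Bool, ∃ f : ℕ → ℕ, ∀ d, L d → M.dir d = δ → f (M.nd (M.β d)) < f (M.nd d)

/-- ROT -/
structure RotK : Prop where
  dle : ∀ s a z, M.dist s a z ≤ M.n
  dlt : ∀ {s a z}, a < M.n → (M.dist s a z < M.n ↔ z < M.n ∧ M.nd z = M.nd a)
  lt : ∀ {s a z b}, a < M.n → M.Bt s a z b → z < M.n ∧ M.nd z = M.nd a
  tri : ∀ {s a z b}, a < M.n → z < M.n → M.nd z = M.nd a → M.Bt s a z b ∨ z = b ∨ M.Bt s a b z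
  self : ∀ {s a z}, a < M.n → z < M.n → M.nd z = M.nd a → z ≠ a → M.Bt s a z a
  nself : ∀ {s a b}, a < M.n → b < M.n → M.nd b = M.nd a → ¬M.Bt s a a b
  symm : ∀ {s a z b}, a < M.n → b < M.n → M.nd b = M.nd a → (M.Bt s a z b ↔ M.Bt (!s) b z a)
  split : ∀ {s a m b z}, a < M.n → b < M.n → M.nd b = M.nd a → M.Bt s a m b →
    (M.Bt s a z b ↔ M.Bt s a z m ∨ z = m ∨ M.Bt s m z b)
  first : ∀ {s a z}, a < M.n → ¬M.Bt s a z (M.ρ s a)
  fle : ∀ s Q a, M.fst s Q a ≤ M.n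
  fnone : ∀ {s Q a}, a < M.n → (M.fst s Q a = M.n ↔ ∀ z < M.n, M.nd z = M.nd a → ¬Q z)
  fspec : ∀ {s Q a}, a < M.n → M.fst s Q a < M.n → M.nd (M.fst s Q a) = M.nd a ∧
    Q (M.fst s Q a) ∧ ∀ z, M.Bt s a z (M.fst s Q a) → ¬Q z
  feq : ∀ {s Q a b}, a < M.n → b < M.n → M.nd b = M.nd a → Q b → (∀ z, M.Bt s a z b → ¬Q z) →
    M.fst s Q a = b
  best : ∀ {s a b m} {f : ℕ → ℕ}, a < M.n → b < M.n → M.nd b = M.nd a → (∃ i < m, f i = b) →
    (∀ i < m, ¬M.Bt s a (f i) b) → M.best s a f m = b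

/-- `q` is on the path of side `s` from `p`. -/
def Pa (s : Bool) : ℕ → ℕ → Prop := ReflTransGen fun a b => L a ∧ L b ∧ M.suc L s a = b

/-- The passage after `p` is tight. -/
def Ti (s : Bool) (p : ℕ) : Prop := M.dir (M.nx L s (M.β p)) = M.dir p

/-- No alive dart of direction `δ` at `x`. -/
def Rt (δ : Bool) (x : ℕ) : Prop := ∀ d, L d → M.nd d = x → M.dir d ≠ δ

/-- Reachability along alive darts of direction `δ`. -/
def Up (δ : Bool) : ℕ → ℕ → Prop :=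
  ReflTransGen fun a b => ∃ d, L d ∧ M.dir d = δ ∧ M.nd d = a ∧ M.nd (M.β d) = b

/-- STEP: one step. -/
structure StepK : Prop where
  nx : ∀ {d} s, L d → L (M.nx L s d) ∧ M.nd (M.nx L s d) = M.nd d ∧
    ∀ z, M.Bt s d z (M.nx L s d) → ¬L z
  nxeq : ∀ {s d b}, L d → L b → M.nd b = M.nd d → (∀ z, M.Bt s d z b → ¬L z) → M.nx L s d = b
  nxnx : ∀ {d} s, L d → M.nx L (!s) (M.nx L s d) = d
  sle : ∀ s p, M.suc L s p ≤ M.n
  suc : ∀ {s p}, L p → M.suc L s p < M.n → L (M.suc L s p) ∧ M.dir (M.suc L s p) = M.dir p ∧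
    M.nd (M.suc L s p) = M.nd (M.β p) ∧
    ∀ z, M.Bt s (M.β p) z (M.suc L s p) → L z → M.dir z ≠ M.dir p
  sucn : ∀ {p} s, L p → (M.suc L s p = M.n ↔ M.Rt L (M.dir p) (M.nd (M.β p)))
  suceq : ∀ {s p b}, L p → L b → M.dir b = M.dir p → M.nd b = M.nd (M.β p) →
    (∀ z, M.Bt s (M.β p) z b → L z → M.dir z ≠ M.dir p) → M.suc L s p = b
  ti : ∀ {s p}, L p → M.Ti L s p → M.suc L s p = M.nx L s (M.β p)
  rev : ∀ {s p}, L p → M.Ti L s p →
    M.Ti L (!s) (M.β (M.suc L s p)) ∧ M.suc L (!s) (M.β (M.suc L s p)) = M.β p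
  ind : ∀ (δ : Bool) (Q : ℕ → Prop), (∀ p, L p → M.dir p = δ →
    (∀ p', L p' → M.dir p' = δ → M.Up L δ (M.nd (M.β p)) (M.nd p') → Q p') → Q p) →
      ∀ p, L p → M.dir p = δ → Q p
  root : ∀ δ v, ∃ x, M.Up L δ v x ∧ M.Rt L δ x
  par : ∀ {e} s, L e → L (M.par L s e) ∧ M.dir (M.par L s e) = M.dir e ∧
    M.nd (M.par L s e) = M.nd e ∧ ∀ z, M.Bt s e z (M.par L s e) → L z → M.dir z ≠ M.dir e
  pareq : ∀ {s e b}, L e → L b → M.dir b = M.dir e → M.nd b = M.nd e →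
    (∀ z, M.Bt s e z b → L z → M.dir z ≠ M.dir e) → M.par L s e = b
  parpar : ∀ {e} s, L e → M.par L (!s) (M.par L s e) = e
  sad : ∀ {e s}, L e → M.dir (M.nx L (!s) e) ≠ M.dir e → (M.val L e s ↔ ∃ o g, L o ∧ L g ∧
    M.dir o ≠ M.dir e ∧ M.dir g = M.dir e ∧ M.nd g = M.nd e ∧ g ≠ e ∧ M.Bt s e o g)

/-- PATHA -/
structure PathA : Prop where
  al : ∀ {s p q}, L p → M.Pa L s p q → L q ∧ M.dir q = M.dir p ∧
    M.Up L (M.dir p) (M.nd p) (M.nd q) ∧ M.Up L (M.dir p) (M.nd (M.β p)) (M.nd (M.β q))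
  up : ∀ {s p q}, L p → M.Pa L s p q → p ≠ q → M.Up L (M.dir p) (M.nd (M.β p)) (M.nd q)
  tot : ∀ {s p u v}, M.Pa L s p u → M.Pa L s p v → M.Pa L s u v ∨ M.Pa L s v u
  anti : ∀ {s u v}, M.Pa L s u v → M.Pa L s v u → u = v
  hd : ∀ {s p q}, M.Pa L s p q → p ≠ q → M.suc L s p < M.n ∧ M.Pa L s (M.suc L s p) q
  inj : ∀ {s p u v}, L p → M.Pa L s p u → M.Pa L s p v →
    M.nd u = M.nd v ∨ M.nd (M.β u) = M.nd (M.β v) → u = v
  pth : ∀ s p i, M.pth L s p (i + 1) = M.suc L s (M.pth L s p i)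
  idx : ∀ {s p q}, L p → (M.Pa L s p q ↔ L q ∧ ∃ i < M.n, M.pth L s p i = q)
  pinj : ∀ {s p i k}, L (M.pth L s p i) → M.pth L s p i = M.pth L s p k → i = k
  pal : ∀ {s p i k}, L (M.pth L s p k) → i ≤ k →
    L (M.pth L s p i) ∧ M.Pa L s (M.pth L s p i) (M.pth L s p k)
  En : ∀ {p} s, L p → M.Pa L s p (M.En L s p) ∧ M.suc L s (M.En L s p) = M.n
  Eneq : ∀ {s p q}, L p → M.Pa L s p q → M.En L s q = M.En L s p ∧ M.Pa L s q (M.En L s p)
  Enu : ∀ {s p q}, L p → M.Pa L s p q → M.suc L s q = M.n → M.En L s p = q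

/-- PATHB -/
structure PathB : Prop where
  FT : ∀ {p} s, L p → M.Pa L s p (M.FT L s p) ∧ ¬M.Ti L s (M.FT L s p) ∧
    ∀ u, M.Pa L s p u → M.Pa L s u (M.FT L s p) → u ≠ M.FT L s p → M.Ti L s u
  FTu : ∀ {s p t}, L p → M.Pa L s p t → ¬M.Ti L s t →
    (∀ u, M.Pa L s p u → M.Pa L s u t → u ≠ t → M.Ti L s u) → M.FT L s p = t
  FTrev : ∀ {s p}, L p → M.dir (M.nx L (!s) p) = M.dir p →
    M.FT L (!s) (M.β (M.FT L s p)) = M.β p
  own : ∀ {e} s, L e →
    M.Up L (M.dir e) (M.nd (M.β e)) (M.own L s e) ∧ M.Rt L (M.dir e) (M.own L s e) ∧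
      M.crit L (M.own L s e)
  owneq : ∀ {s p q}, L p → M.Pa L s p q → M.own L s q = M.own L s p
  vsymm : ∀ {e s}, M.val L e s → M.val L (M.par L (!s) e) (!s)

structure PathK : Prop extends M.PathA L, M.PathB L

def Mem (A : Sg) (b : ℕ) : Prop :=
  if A.ex then b = A.p ∨ b = A.q else M.Pa L A.s A.p b ∧ M.Pa L A.s b A.q

/-- `u` is a hit of the path segment `A` with one of the segments `B i`. -/
def It (r : ℕ) (A : Sg) (B : ℕ → Sg) (m u : ℕ) : Prop :=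
  M.Mem L A u ∧ (r = 5 → u ≠ A.q) ∧
    ∃ i < m, M.ok L (B i) ∧ ∃ b, M.Mem L (B i) b ∧ M.R r A.s u (M.suc L A.s u) b

/-- `v` is the first or last `u` with `I u` (`n` if there is none). -/
def Ex (fl s : Bool) (I : ℕ → Prop) (v : ℕ) : Prop :=
  (v = M.n ∧ ∀ u, ¬I u) ∨
    (v < M.n ∧ I v ∧ ∀ u, I u → if fl then M.Pa L s v u else M.Pa L s u v)

/-- FSP: the two-path primitive and its fold. -/
structure FspK : Prop where
  okp : ∀ s p q, M.ok L ⟨false, s, p, q⟩ ↔ L p ∧ M.Pa L s p q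
  okx : ∀ s p q, M.ok L ⟨true, s, p, q⟩ ↔ L p ∧ L q
  mem : ∀ {A b}, M.ok L A → (M.Mem L A b ↔ ∃ k < M.ln L A + 1, M.el L A k = b)
  F : ∀ {A} fl r B, A.ex = false → M.ok L A →
    M.Ex L fl A.s (M.It L r A (fun _ => B) 1) (M.F L fl r A B)
  On : ∀ {A} d, A.ex = false →
    ((M.sem L).On M d A ↔ M.ok L A ∧ (M.Mem L A d ∨ (L d ∧ M.Mem L A (M.β d))))
  fo : ∀ {A} fl r B m, A.ex = false → M.ok L A →
    M.Ex L fl A.s (M.It L r A B m) ((M.sem L).fo M fl r A B m)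

/-- FOI: the fold, with indices. -/
def FoiK : Prop :=
  ∀ (fl : Bool) (r : ℕ) (X : Sg) (B : ℕ → Sg) (m : ℕ), M.ok L X → (∀ k < m, M.ok L (B k)) →
    (M.sem L).fo M fl r X B m = if ∃ i < M.n, ∃ k < m, M.hit L r X (B k) i then
      M.el L X (pick fl M.n fun i => ∃ k < m, M.hit L r X (B k) i) else M.n

/-- The segment `A` of the state `L'` is the chain of the segments `X 0, …, X m` of `L`. -/
def Cov (L' : ℕ → Prop) (A : Sg) (X : ℕ → Sg) (rv : ℕ → Bool) (m : ℕ) : Prop :=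
  ∃ u : ℕ → ℕ, u 0 = 0 ∧ u (m + 1) = M.ln L' A ∧ ∀ k ≤ m, M.ok L (X k) ∧
    u (k + 1) = u k + M.ln L (X k) ∧ (X k).s = xor A.s (rv k) ∧
    (rv k = true → (X k).ex = false) ∧ ∀ i ≤ M.ln L (X k), M.el L (X k) i =
      if rv k then M.β (M.el L' A (u (k + 1) - i)) else M.el L' A (u k + i)

/-- The faces of the state. -/
def ph (d : ℕ) : ℕ := M.ρ true (if L d then M.β d else d)

def nV : ℕ := cnt M.n fun x => ∃ d < M.n, L d ∧ M.nd d = x

def nF : ℕ := ncl M.n (fun d => ∃ e < M.n, Sc M.n (M.ph L) d e ∧ L e) (Sc M.n (M.ph L))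

/-- FACE -/
structure FaceK : Prop where
  ex : ∀ δ d, L d → ∃ e, L e ∧ M.dir e = δ ∧ M.dir (M.nx L false e) = δ ∧ Sc M.n (M.ph L) d e
  two : ∀ e, M.val L e true → M.dir (M.nx L false e) = M.dir e → ∃ e', e' ≠ e ∧ L e' ∧
    M.dir e' = M.dir e ∧ M.dir (M.nx L false e') = M.dir e ∧ Sc M.n (M.ph L) e e'

/-- All the lemmas on states. -/
structure Kit : Prop where
  st : M.St L
  rot : M.RotK
  step : M.StepK L
  path : M.PathK L
  fsp : M.FspK L

/-- The gap before `e` is not the only gap of a bimodal vertex. -/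
def Nb (s : Bool) (e : ℕ) : Prop := M.dir (M.nx L (!s) e) = M.dir e ∨ M.val L e s

end Dm

def RotS : Prop := ∀ M : Dm, M.Ok → M.RotK

def StepS : Prop := ∀ (M : Dm) L, M.St L → M.RotK → M.StepK L

def PathAS : Prop := ∀ (M : Dm) L, M.St L → M.StepK L → M.PathA L

def PathBS : Prop := ∀ (M : Dm) L, M.St L → M.StepK L → M.PathA L → M.PathB L

def FoiS : Prop := ∀ (M : Dm) L, M.St L → M.StepK L → M.PathK L → M.FoiK L

def FspS : Prop := ∀ (M : Dm) L, M.St L → M.StepK L → M.PathK L → M.FspK L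

def KitS : Prop := ∀ (M : Dm) L, M.St L → M.Kit L

def FaceS : Prop := ∀ (M : Dm) L, M.Kit L → M.FaceK L

/-- EULER -/
def EulerS : Prop :=
  ∀ (M : Dm) L (G : ℕ), M.St L → gen M.n (M.ρ true) M.β ≤ G →
    cnt M.n L ≤ 2 * (M.nV L + M.nF L + G)

/-- CELL -/
def CellS : Prop :=
  ∀ (M : Dm) L (δ : Bool), M.Kit L → M.FaceK L →
    cnt M.n (fun e => M.val L e true ∧ M.dir e = δ) + 2 * (M.nV L + M.nF L) ≤
      cnt M.n L + 2 * cnt M.n (M.crit L)

/-- COUNT -/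
def CountS : Prop :=
  ∀ (M : Dm) L (G : ℕ) (s : Bool), M.St L → gen M.n (M.ρ true) M.β ≤ G →
    cnt M.n (fun e => M.val L e s) ≤ 4 * (cnt M.n (M.crit L) + G)

/-- The geometric primitives have their meaning. -/
structure Geo (M : Dm) (P : Pr) : Prop where
  nx : P.nx = M.nx P.al
  suc : P.suc = M.suc P.al
  En : P.En = M.En P.al
  FT : P.FT = M.FT P.al
  F : P.F = M.F P.al

namespace Rd

variable (K : Rd)

abbrev L : ℕ → Prop := K.P.al

/-- The only root above `v` is the selected `x`. -/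
def D (x v : ℕ) : Prop := K.sel x ∧ ∀ y, K.M.Up K.L K.d0 v y → K.M.Rt K.L K.d0 y → y = x

def L' (d : ℕ) : Prop := K.L d ∧ ¬∃ x, K.D x (K.M.en (!K.d0) d)

structure Hy : Prop where
  kit : ∀ L, K.M.St L → K.M.Kit L
  st : K.M.St K.L
  geo : Geo K.M K.P
  cmp : ∀ e s, K.M.val K.L e s → K.M.dir e = K.d0 → K.sel (K.own s e) →
    ∃ i < K.c, K.us (K.own s e) i ∧ K.se (K.own s e) i = e ∧ K.ss (K.own s e) i = s

/-- DEAD -/
structure DeadK : Prop where
  anc : ∀ {x v y}, K.D x v → K.M.Up K.L K.d0 v y → K.D x y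
  uniq : ∀ {x y v}, K.D x v → K.D y v → x = y
  own : ∀ {e x} s, K.L e → K.M.dir e = K.d0 → K.D x (K.M.nd (K.M.β e)) → K.own s e = x
  self : ∀ {x}, K.sel x → K.M.Rt K.L K.d0 x → K.D x x
  sub : ∀ {d}, K.L' d → K.L d
  st : K.M.St K.L'
  in0 : ∀ {e}, K.L e → K.M.dir e = K.d0 → (K.L' e ↔ ¬∃ x, K.D x (K.M.nd (K.M.β e)))
  out : ∀ {e}, K.L e → K.M.dir e ≠ K.d0 → (K.L' e ↔ ¬∃ x, K.D x (K.M.nd e))
  vx : ∀ {d}, K.L' d → ¬∃ x, K.D x (K.M.nd d)
  gap : ∀ {e s x}, K.L e → K.M.dir e = K.d0 → K.M.Nb K.L s e →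
    K.D x (K.M.nd (K.M.β (K.par (!s) e))) → K.own s e = x ∨ ¬K.sel (K.own s e)
  flow : ∀ {e s x}, K.L e → K.M.dir e = K.d0 → K.M.dir (K.M.nx K.L (!s) e) = K.d0 →
    ¬K.M.val K.L e s → K.D x (K.M.nd (K.M.β (K.par (!s) e))) →
      K.D x (K.M.nd (K.M.β (K.M.FT K.L s e)))
  cand : ∀ x s i, K.cand x s i = K.M.n ∨ (K.L (K.cand x s i) ∧ K.M.dir (K.cand x s i) ≠ K.d0)

/-- RUN: consecutive dead darts have the same killer. -/
structure RunK : Prop where
  run : ∀ {s a e g x}, K.L a → K.M.dir a ≠ K.d0 → K.L e → K.M.dir e = K.d0 →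
    K.D x (K.M.nd (K.M.β e)) → K.L g → K.M.dir g = K.d0 → K.M.nd g = K.M.nd a →
    K.M.Bt s a e g → (∀ z, K.M.Bt s e z g → K.L' z → K.M.dir z ≠ K.d0) →
      K.M.Nb K.L s g ∧ K.D x (K.M.nd (K.M.β (K.par (!s) g)))
  adj : ∀ {s e g x}, K.L e → K.M.dir e = K.d0 → K.D x (K.M.nd (K.M.β e)) → K.L' g →
    K.M.dir g = K.d0 → K.M.nd g = K.M.nd e →
    (∀ z, K.M.Bt s e z g → K.L z → K.M.dir z = K.d0 ∧ ¬K.L' z) →
      K.M.dir (K.M.nx K.L (!s) g) = K.d0 ∧ K.D x (K.M.nd (K.M.β (K.par (!s) g)))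
  keep : ∀ {e}, K.L e → K.M.dir e = K.d0 → (¬∃ x, K.D x (K.M.nd e)) →
    ∃ g, K.L' g ∧ K.M.dir g = K.d0 ∧ K.M.nd g = K.M.nd e

/-- The edge of `g` is on a wall of `x` which is tight in the new state above it. -/
def Good (x : ℕ) (s : Bool) (g : ℕ) : Prop :=
  ∃ i < K.c, K.L' (K.cand x s i) ∧ K.M.Pa K.L (!s) (K.cand x s i) (K.M.β g) ∧
    ∀ u, K.M.Pa K.L (!s) (K.cand x s i) u → K.M.Pa K.L (!s) u (K.M.β g) → u ≠ K.M.β g →
      K.M.Ti K.L' (!s) u

/-- DOWN: the paths that do not change. -/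
structure DownK : Prop where
  suc : ∀ {p} s, K.L' p → K.M.dir p ≠ K.d0 → K.M.suc K.L' s p = K.M.suc K.L s p
  pa : ∀ {p} s q, K.L' p → K.M.dir p ≠ K.d0 → (K.M.Pa K.L' s p q ↔ K.M.Pa K.L s p q)
  En : ∀ {p} s, K.L' p → K.M.dir p ≠ K.d0 → K.M.En K.L' s p = K.M.En K.L s p
  same : ∀ {p s}, K.L' p → K.L' (K.M.suc K.L s p) → K.M.suc K.L' s p = K.M.suc K.L s p
  nsame : ∀ {p s}, K.L' p → K.L' (K.M.nx K.L s p) → K.M.nx K.L' s p = K.M.nx K.L s p
  ti : ∀ {p s}, K.L' p → K.M.dir p = K.d0 → K.L' (K.M.suc K.L s p) →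
    (K.M.Ti K.L' s p ↔ K.M.Ti K.L s p)
  free : ∀ {p s}, K.L p → K.M.dir p = K.d0 → ¬K.sel (K.own s p) → K.L' p ∧
    K.M.suc K.L' s p = K.M.suc K.L s p ∧ K.M.En K.L' s p = K.M.En K.L s p ∧
    K.M.FT K.L' s p = K.M.FT K.L s p ∧ ∀ q, K.M.Pa K.L' s p q ↔ K.M.Pa K.L s p q
  last : ∀ {p s}, K.L' p → K.M.dir p = K.d0 → K.sel (K.own s p) → ∃ a, K.M.Pa K.L s p a ∧
    K.L' a ∧ K.L (K.M.suc K.L s a) ∧ K.D (K.own s p) (K.M.nd (K.M.β (K.M.suc K.L s a))) ∧
    K.L' (K.M.suc K.L' s a) ∧ K.M.Bt s (K.M.β a) (K.M.suc K.L s a) (K.M.suc K.L' s a)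

/-- WALL -/
structure WallK : Prop where
  h1 : ∀ {g s x}, K.L' g → K.M.dir g = K.d0 → K.M.Nb K.L s g →
    K.D x (K.M.nd (K.M.β (K.par (!s) g))) → K.Good x s g
  h2 : ∀ {g s x e}, K.L' g → K.M.dir g = K.d0 → K.M.Pa K.L s g e → K.D x (K.M.nd (K.M.β e)) →
    (∀ u, K.M.Pa K.L s g u → K.M.Pa K.L s u e → u ≠ e → K.M.Ti K.L s u) → K.Good x s g

/-- The first group of rows. -/
structure G1 : Prop where
  hy : K.Hy
  dead : K.DeadK
  run : K.RunK
  down : K.DownK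
  wall : K.WallK

/-- ALIVE -/
def AliveK : Prop := K.al' = K.L'

/-- SUCNX -/
def SucK : Prop := K.suc' = K.M.suc K.L' ∧ K.nx' = K.M.nx K.L'

/-- FTD -/
def FtdK : Prop := ∀ s p, K.L' p → K.M.dir p ≠ K.d0 → K.FTd s p = K.M.FT K.L' s p

/-- DEC -/
structure DecK : Prop where
  q : ∀ {p s}, K.L' p → K.M.dir p = K.d0 → K.sel (K.own s p) →
    K.M.Pa K.L s p (K.dq s p) ∧ K.L (K.M.suc K.L s (K.dq s p)) ∧
    ¬K.L' (K.M.suc K.L s (K.dq s p)) ∧ ∀ u, K.M.Pa K.L s p u → (K.L' u ↔ K.M.Pa K.L s u (K.dq s p))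
  g : ∀ {p s}, K.L' p → K.M.dir p = K.d0 → K.sel (K.own s p) →
    K.dg s p = K.M.suc K.L' s (K.dq s p) ∧ K.L' (K.dg s p)
  b : ∀ {p s}, K.L' p → K.M.dir p = K.d0 → K.sel (K.own s p) →
    (∃ i < K.c, K.db s p = K.cand (K.own s p) s i) ∧ K.L' (K.db s p) ∧
    K.M.dir (K.db s p) ≠ K.d0 ∧ K.M.Pa K.L (!s) (K.db s p) (K.M.β (K.dg s p)) ∧
    ∀ u, K.M.Pa K.L (!s) (K.db s p) u → K.M.Pa K.L (!s) u (K.M.β (K.dg s p)) →
      u ≠ K.M.β (K.dg s p) → K.M.Ti K.L' (!s) u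

/-- DP: the loop. -/
structure DpK : Prop where
  inv : ∀ {p s u}, K.L' p → K.M.dir p = K.d0 → K.sel (K.own s p) → K.M.Pa K.L' s p u →
    K.own s u = K.own s p ∨ ¬K.sel (K.own s u)
  one : ∀ {p s}, K.L' p → K.M.dir p = K.d0 → K.sel (K.own s p) →
    K.M.Pa K.L' s p (K.dq s p) ∧ K.M.Pa K.L' s (K.dg s p) (K.M.β (K.db s p)) ∧
    (∀ u, K.M.Pa K.L' s p u → K.M.Pa K.L' s u (K.dq s p) → K.M.Pa K.L s p u ∧
      (u ≠ K.dq s p → K.M.suc K.L' s u = K.M.suc K.L s u)) ∧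
    ∀ u, K.M.Pa K.L' s (K.dg s p) u → K.M.Pa K.L' s u (K.M.β (K.db s p)) →
      K.M.Pa K.L (!s) (K.db s p) (K.M.β u) ∧ K.M.Pa K.L (!s) (K.M.β u) (K.M.β (K.dg s p)) ∧
      (u ≠ K.M.β (K.db s p) → K.M.Ti K.L' s u ∧
        K.M.suc K.L (!s) (K.M.β (K.M.suc K.L' s u)) = K.M.β u)
  dp : ∀ {p} s k, K.L' p → K.M.dir p = K.d0 → K.M.Pa K.L' s p (K.dp s p k) ∧
    K.dp s p (k + 1) =
      if K.sel (K.own s (K.dp s p k)) then K.M.β (K.db s (K.dp s p k)) else K.dp s p k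
  fin : ∀ {p} s, K.L' p → K.M.dir p = K.d0 → ¬K.sel (K.own s (K.dp s p K.c))

/-- The second group of rows. -/
structure G2 : Prop where
  g1 : K.G1
  al : K.AliveK
  suc : K.SucK
  ftd : K.FtdK
  dec : K.DecK
  dp : K.DpK

/-- ENFT -/
def EnK : Prop := K.En' = K.M.En K.L' ∧ K.FT' = K.M.FT K.L'

/-- COV -/
structure CovK : Prop where
  ok : ∀ A, K.ok' A ↔ K.M.ok K.L' A
  cov : ∀ A, K.M.ok K.L' A → K.M.Cov K.L K.L' A (K.pc A) (K.rv A) (K.np A)

/-- FCOR -/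
def FcK : Prop := K.F' = K.M.F K.L'

/-- VAL -/
structure ValK : Prop where
  down : ∀ {e s}, K.M.val K.L' e s → K.M.dir e ≠ K.d0 →
    K.M.val K.L e s ∧ K.M.own K.L' s e = K.own s e
  up : ∀ {e s}, K.M.val K.L' e s → K.M.dir e = K.d0 → ¬K.sel (K.own s e) →
    K.M.val K.L e s ∧ K.M.own K.L' s e = K.own s e

/-- CAND -/
def CandK : Prop :=
  ∀ e s, K.M.val K.L' e s → K.M.dir e = K.d0 → K.sel (K.own s e) →
    ∃ i < 5 * K.c, K.Ce (K.own s e) i = e ∧ K.Cs (K.own s e) i = s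

/-- ANCH -/
def AncK : Prop :=
  ∀ e s, K.L' e → K.M.dir e = K.d0 → K.sel (K.own s e) →
    ∃ i < K.c, K.ap (K.own s e) (K.M.own K.L' s e) i

/-- REACH -/
structure RchK : Prop where
  crit : ∀ x, K.M.crit K.L' x → K.M.crit K.L x ∧ ¬(K.sel x ∧ K.M.Rt K.L K.d0 x)
  rch : ∀ s t, K.pr s → K.pr t → K.M.Rt K.L false s → K.M.Rt K.L true t →
    K.M.Up K.L true s t → K.M.Up K.L' true s t

/-- What the lists need from the geometry. -/
structure G3 : Prop where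
  hy : K.Hy
  dead : K.DeadK
  al : K.N.al = K.L'
  geo : Geo K.M K.N
  val : K.ValK
  cand : K.CandK
  anc : K.AncK
  rch : K.RchK

end Rd

def DeadS : Prop := ∀ K : Rd, K.Hy → K.DeadK

def RunS : Prop := ∀ K : Rd, K.Hy → K.DeadK → K.RunK

def DownS : Prop := ∀ K : Rd, K.Hy → K.DeadK → K.RunK → K.DownK

def WallS : Prop := ∀ K : Rd, K.Hy → K.DeadK → K.RunK → K.DownK → K.WallK

def AliveS : Prop := ∀ K : Rd, K.G1 → K.AliveK

def SucS : Prop := ∀ K : Rd, K.G1 → K.AliveK → K.SucK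

def FtdS : Prop := ∀ K : Rd, K.G1 → K.AliveK → K.FtdK

def DecS : Prop := ∀ K : Rd, K.G1 → K.AliveK → K.SucK → K.FtdK → K.DecK

def DpS : Prop := ∀ K : Rd, K.G1 → K.DecK → K.DpK

def EnS : Prop := ∀ K : Rd, K.G2 → K.EnK

def CovS : Prop := ∀ K : Rd, K.G2 → K.CovK

def FcS : Prop := FoiS → ∀ K : Rd, K.Hy → K.DeadK → K.CovK → K.FcK

def ValS : Prop := ∀ K : Rd, K.G1 → K.ValK

def CandS : Prop := ∀ K : Rd, K.G2 → K.CandK

def AncS : Prop := ∀ K : Rd, K.G2 → K.AncK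

def RchS : Prop := ∀ K : Rd, K.G1 → K.RchK

def GeoS : Prop := ∀ K : Rd, K.Hy → K.G3

/-! ### Lists -/

/-- `l` is the list that follows `a`. -/
def Lk (nx : ℕ → ℕ) : ℕ → List ℕ → Prop
  | a, [] => nx a = 0
  | a, z :: l => nx a = z ∧ Lk nx z l

/-- LINK: insertion into and deletion from linked lists. -/
structure LinkK : Prop where
  ins : ∀ (nx nx' : ℕ → ℕ) (I : ℕ → List ℕ) (a : ℕ) (l : List ℕ), Lk nx a l → nx' a = nx a →
    (∀ z ∈ l, List.IsChain (fun u v => nx' u = v) (z :: (I z ++ [nx z]))) →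
      Lk nx' a (l.flatMap fun z => z :: I z)
  del : ∀ (nx : ℕ → ℕ) (R : ℕ → Prop) (a : ℕ) (l : List ℕ), Lk nx a l → 0 ∉ l →
    (∀ z ∈ l, R z → nx z ≠ 0 → ¬R (nx z)) →
      Lk (fun z => if nx z ≠ 0 ∧ R (nx z) then nx (nx z) else nx z) a (l.filter fun z => ¬R z)
  srt : ∀ (f : ℕ → ℕ) (S : Finset ℕ) (a e : ℕ), (∀ w, w = a ∨ w ∈ S →
    (f w ∈ S ∧ (w = a ∨ w < f w) ∧ ∀ v ∈ S, (w = a ∨ w < v) → f w ≤ v) ∨
      (f w = e ∧ ∀ v ∈ S, w ≠ a ∧ v ≤ w)) → a ∉ S →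
    List.IsChain (fun u v => f u = v) (a :: (S.sort (· ≤ ·) ++ [e]))

structure LsK (M : Dm) (P : Pr) (j : ℕ) (ls : ℕ → List ℕ) : Prop where
  z0 : P.next 0 = 0
  lk : ∀ x, M.crit P.al x → Lk P.next (M.hz x) (ls x)
  nd : ∀ x, M.crit P.al x → (ls x).Nodup
  dj : ∀ x y, M.crit P.al x → M.crit P.al y → ∀ z ∈ ls x, z ∈ ls y → x = y
  rg : ∀ x, M.crit P.al x → ∀ z ∈ ls x, 1 ≤ M.zl z ∧ M.zl z ≤ j + 1
  mem : ∀ e s, M.val P.al e s → M.mk' (P.cur e s) e s ∈ ls (M.own P.al s e)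

/-- The number of slots. -/
def tot (M : Dm) (L : ℕ → Prop) (ls : ℕ → List ℕ) : ℕ :=
  ∑ x ∈ Finset.range M.n, if M.crit L x then (ls x).length else 0

structure Inv (M : Dm) (P : Pr) (j : ℕ) (ls : ℕ → List ℕ) : Prop where
  st : M.St P.al
  geo : Geo M P
  ls : LsK M P j ls

/-- LBAS -/
structure LbK (M : Dm) (P : Pr) (j q : ℕ) (ls : ℕ → List ℕ) : Prop where
  lt : ∀ x, M.crit P.al x → ∀ z ∈ ls x, z < q ∧ z = M.mk' (M.zl z) (M.ze z) (zs z)
  sl : ∀ x, M.crit P.al x → ∀ i, P.sl M q x i = (ls x).getD i 0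
  len : ∀ x, M.crit P.al x → P.len M q x = (ls x).length
  phi : ∀ pr c, P.Phi M pr c q = 10 * c * cnt M.n (fun x => M.crit P.al x ∧ ¬pr x) + tot M P.al ls
  tot : tot M P.al ls = cnt q fun z => ∃ x, M.crit P.al x ∧ z ∈ ls x
  live : cnt q (fun z => (∃ x, M.crit P.al x ∧ z ∈ ls x) ∧ P.live M z) ≤
    cnt M.n (fun e => M.val P.al e true) + cnt M.n fun e => M.val P.al e false
  hy : KitS → ∀ d0 c h pr, Rd.Hy ⟨M, P, j, d0, c, q, h, pr⟩
  clip : Inv M (P.clip q) j ls ∧ (P.clip q).al = P.al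

def LbS : Prop :=
  ∀ M P j q ls, Inv M P j ls → M.Kit P.al → 0 < M.n → 2 * M.n * (j + 2) + 6 < q → LbK M P j q ls

/-- BASE -/
def BaseS : Prop :=
  ∀ (M : Dm) L, M.Kit L → ∃ ls, Inv M (M.base L) 0 ls ∧ tot M L ls ≤ 2 * M.n

/-- KL: the lists after a kill round. -/
def KlS : Prop :=
  ∀ (K : Rd) ls, Inv K.M K.P K.j ls → LbK K.M K.P K.j K.q ls → K.G3 →
    2 * K.M.n * (K.j + 3) < K.q → ∃ ls', Inv K.M K.kill (K.j + 1) ls' ∧
      tot K.M K.L' ls' ≤ tot K.M K.L ls +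
        5 * K.c * cnt K.M.n fun x => K.M.crit K.L x ∧ K.M.Rt K.L K.d0 x ∧ K.sel x

/-- GL: the lists after a garbage round. -/
def GlS : Prop :=
  ∀ M P j q ls (h : ℕ → Prop), Inv M P j ls → LbK M P j q ls →
    ∃ ls', Inv M (P.garb M h) (j + 1) ls' ∧ tot M P.al ls' +
      cnt q (fun z => (∃ x, M.crit P.al x ∧ z ∈ ls x) ∧ P.rem M h z) ≤ tot M P.al ls

/-- HASH -/
def HashS : Prop :=
  ∀ (N Δ : ℕ) (X : ℕ → Prop) (cf : ℕ → ℕ → ℕ), 0 < Δ → ∃ w < hm Δ N,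
    cnt N X ≤ 8 * Δ * cnt N fun x => X x ∧ colq N (4 * Δ) w x ∧
      ∀ j < Δ, cf x j ≠ x → ¬colq N (4 * Δ) w (cf x j)

/-- STEPI: a round keeps the invariant and the answer. -/
def StepI : Prop :=
  ∀ (M : Dm) (pr : ℕ → Prop) (c q : ℕ) P j w ls s t, Inv M P j ls → 0 < M.n →
    2 * M.n * (j + 3) + 6 < q → pr s → pr t → M.Rt P.al false s → M.Rt P.al true t →
    ∃ ls', Inv M ((step M pr c q P j w).clip q) (j + 1) ls' ∧
      (∀ d, ((step M pr c q P j w).clip q).al d → P.al d) ∧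
      (∀ x, M.crit ((step M pr c q P j w).clip q).al x → M.crit P.al x) ∧
      (M.Up P.al true s t → M.Up ((step M pr c q P j w).clip q).al true s t)

/-- POT: some round gains a constant fraction. -/
def PotS : Prop :=
  ∀ (M : Dm) (G q : ℕ) P j ls s t, Inv M P j ls → gen M.n (M.ρ true) M.β ≤ G →
    2 * M.n * (j + 3) + 6 < q → (∃ x, M.crit P.al x ∧ ¬(x = s ∨ x = t)) →
    ∃ w < 3 * hm (cc G) q,
      16 * cc G ^ 2 * ((step M (fun x => x = s ∨ x = t) (cc G) q P j w).clip q).Phi M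
          (fun x => x = s ∨ x = t) (cc G) q + P.Phi M (fun x => x = s ∨ x = t) (cc G) q ≤
        16 * cc G ^ 2 * P.Phi M (fun x => x = s ∨ x = t) (cc G) q

/-- LAST: no unprotected source or sink is left. -/
def LastS : Prop :=
  ∀ (M : Dm) (P : Pr) s t, M.Kit P.al → M.Rt P.al false s → M.Rt P.al true t →
    (∀ x, M.crit P.al x → x = s ∨ x = t) → (ans M s t P ↔ M.Up P.al true s t)

/-- CODE -/
def CodeS : Prop :=
  ∀ (g : ℕ) {n : ℕ} (σ α : Equiv.Perm (Fin n)) (dir : Fin n → Bool) (s t : Fin n) (x : List Bool),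
    α * α = 1 → Genus g σ α → Acyclic σ α dir → x = code σ α dir s t →
      (im x).St (L0 (im x) (is x) (it' x)) ∧ gen (im x).n ((im x).ρ true) (im x).β ≤ (2 * g : ℕ) ∧
      0 < (im x).n ∧
      (im x).Rt (L0 (im x) (is x) (it' x)) false (is x) ∧
      (im x).Rt (L0 (im x) (is x) (it' x)) true (it' x) ∧
      (Reach σ α dir s t ↔ (im x).Up (L0 (im x) (is x) (it' x)) true (is x) (it' x))

/-- The theorem. -/
def MainS : Prop :=
  ∀ g : ℕ, ∃ (M : TM) (c : ℕ), ∀ x : List Bool, ∃ r : Bool,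
    M.out (M.run x ((x.length + 2) ^ c)).q = some r ∧
    (∀ t i, (M.run x t).head i ≤ c * (Nat.log 2 x.length + 1) ^ 3) ∧
    ∀ (n : ℕ) (σ α : Equiv.Perm (Fin n)) (dir : Fin n → Bool) (s t : Fin n),
      α * α = 1 → Genus g σ α → Acyclic σ α dir → x = code σ α dir s t →
        (r = true ↔ Reach σ α dir s t)

end

end Pool.Agent.MP_1a6d78_lc.PD

end MrgPart1

-- ======== part 2: formerly Pool.Agent.MP_1a6d78_lc.PD.Basic
section MrgPart2

/-! PROJECT PD: small lemmas for all rows. -/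

namespace Pool.Agent.MP_1a6d78_lc.PD

open Classical ED PR

theorem pick_spec {fl : Bool} {n : ℕ} {P : ℕ → Prop} (h : ∃ i < n, P i) :
    pick fl n P < n ∧ P (pick fl n P) ∧
      ∀ i < n, P i → if fl then pick fl n P ≤ i else i ≤ pick fl n P := by
  cases fl with
  | true => exact ⟨(lst_spec h).1, (lst_spec h).2, fun i hi k => lst_le hi k⟩
  | false =>
    obtain ⟨i, hi, k⟩ := h
    have h' : ∃ m < n, P (n - 1 - m) :=
      ⟨n - 1 - i, by omega, by rwa [show n - 1 - (n - 1 - i) = i by omega]⟩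
    refine ⟨by simp only [pick, Bool.false_eq_true, if_false]; omega, (lst_spec h').2,
      fun m hm k => ?_⟩
    have := lst_le (P := fun i => P (n - 1 - i)) (show n - 1 - m < n by omega)
      (by rwa [show n - 1 - (n - 1 - m) = m by omega])
    simp only [pick, Bool.false_eq_true, if_false]
    omega

theorem pick_eq {fl : Bool} {n a : ℕ} {P : ℕ → Prop} (ha : a < n) (h : P a)
    (k : ∀ i < n, P i → if fl then a ≤ i else i ≤ a) : pick fl n P = a := by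
  obtain ⟨h1, h2, h3⟩ := pick_spec (fl := fl) ⟨a, ha, h⟩
  have k1 := k _ h1 h2
  have k2 := h3 a ha h
  cases fl <;> simp only [if_true, Bool.false_eq_true, if_false] at k1 k2 <;> omega

theorem it_zero (n : ℕ) (f : ℕ → ℕ) (d : ℕ) : it n f 0 d = d := rfl

theorem it_succ (n : ℕ) (f : ℕ → ℕ) (t d : ℕ) : it n f (t + 1) d = min (f (it n f t d)) n := rfl

theorem bne_iff {a b : Bool} : a ≠ b ↔ a = !b := by cases a <;> cases b <;> simp

namespace Dm

variable {M : Dm} {L : ℕ → Prop}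

theorem nx_junk (s : Bool) {d : ℕ} (h : ¬L d) : M.nx L s d = M.n := if_neg h

theorem suc_junk (s : Bool) {d : ℕ} (h : ¬L d) : M.suc L s d = M.n := if_neg h

theorem En_junk (s : Bool) {d : ℕ} (h : ¬L d) : M.En L s d = M.n := if_neg h

theorem FT_junk (s : Bool) {d : ℕ} (h : ¬L d) : M.FT L s d = M.n := if_neg h

theorem F_junkA (fl : Bool) (r : ℕ) {A : Sg} (B : Sg) (h : ¬M.ok L A) : M.F L fl r A B = M.n :=
  if_neg fun k => h k.1

theorem F_junkB (fl : Bool) (r : ℕ) (A : Sg) {B : Sg} (h : ¬M.ok L B) : M.F L fl r A B = M.n :=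
  if_neg fun k => h k.2.1

theorem own_def (s : Bool) (e : ℕ) : M.own L s e = M.nd (M.β (M.En L s e)) := rfl

theorem par_def (s : Bool) (e : ℕ) : M.par L s e =
    if M.dir (M.nx L s e) = M.dir e then M.nx L s e else M.suc L s (M.β (M.nx L s e)) := rfl

theorem val_def (e : ℕ) (s : Bool) : M.val L e s ↔ L e ∧ if M.dir (M.nx L (!s) e) = M.dir e then
    M.nx L s (M.β (M.FT L s e)) ≠ M.β (M.FT L (!s) (M.par L (!s) e))
    else M.suc L s (M.β e) ≠ M.nx L s (M.par L (!s) e) := Iff.rfl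

theorem val_al {e : ℕ} {s : Bool} (h : M.val L e s) : L e := h.1

theorem full_def (s : Bool) (p : ℕ) : (M.sem L).full s p = ⟨false, s, p, M.En L s p⟩ := rfl

theorem mem_path (s : Bool) (p q b : ℕ) :
    M.Mem L ⟨false, s, p, q⟩ b ↔ M.Pa L s p b ∧ M.Pa L s b q := by simp [Mem]

theorem mem_one (d b : ℕ) : M.Mem L (one d) b ↔ b = d := by simp [Mem, one]

theorem R_vm (a b s : Bool) (p p' z : ℕ) : M.R (vm a b) s p p' z ↔ M.en a p = M.en b z := by
  cases a <;> cases b <;> simp [R, vm]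

theorem vm_ne (a b : Bool) : vm a b ≠ 5 := by cases a <;> cases b <;> simp [vm]

theorem R_four (s : Bool) (p p' z : ℕ) : M.R 4 s p p' z ↔ z = p ∨ z = M.β p := by simp [R]

theorem R_five (s : Bool) (p p' z : ℕ) :
    M.R 5 s p p' z ↔ M.Bt s (M.β p) z p' ∨ M.Bt s (M.β p) (M.β z) p' := by simp [R]

theorem en_same {δ : Bool} {p : ℕ} (h : M.dir p = δ) : M.en δ p = M.nd p := by simp [en, h]

theorem en_opp {δ : Bool} {p : ℕ} (h : M.dir p ≠ δ) : M.en δ p = M.nd (M.β p) := by simp [en, h]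

theorem Pa.step {s : Bool} {a : ℕ} (ha : L a) (hb : L (M.suc L s a)) :
    M.Pa L s a (M.suc L s a) := Relation.ReflTransGen.single ⟨ha, hb, rfl⟩

theorem Pa.refl (s : Bool) (a : ℕ) : M.Pa L s a a := Relation.ReflTransGen.refl

theorem Pa.trans {s : Bool} {a b c : ℕ} (h : M.Pa L s a b) (k : M.Pa L s b c) : M.Pa L s a c :=
  Relation.ReflTransGen.trans h k

theorem Up.refl (δ : Bool) (a : ℕ) : M.Up L δ a a := Relation.ReflTransGen.refl

theorem Up.trans {δ : Bool} {a b c : ℕ} (h : M.Up L δ a b) (k : M.Up L δ b c) : M.Up L δ a c :=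
  Relation.ReflTransGen.trans h k

theorem Up.step {d : ℕ} (h : L d) : M.Up L (M.dir d) (M.nd d) (M.nd (M.β d)) :=
  Relation.ReflTransGen.single ⟨d, h, rfl, rfl, rfl⟩

theorem Up.mono {L' : ℕ → Prop} (h : ∀ d, L' d → L d) {δ : Bool} {a b : ℕ} (k : M.Up L' δ a b) :
    M.Up L δ a b := by
  induction k with
  | refl => exact Up.refl _ _
  | tail _ u ih =>
    obtain ⟨d, k1, k2⟩ := u
    exact Relation.ReflTransGen.tail ih ⟨d, h d k1, k2⟩

/-- A root reaches only itself. -/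
theorem Up.root {δ : Bool} {x y : ℕ} (h : M.Rt L δ x) (k : M.Up L δ x y) : y = x := by
  rcases Relation.ReflTransGen.cases_head k with e | ⟨_, ⟨d, k1, k2, k3, _⟩, _⟩
  · exact e.symm
  · exact absurd k2 (h d k1 k3)

namespace St

variable (H : M.St L)
include H

theorem nn : ¬L M.n := fun h => lt_irrefl _ (H.lt _ h)

theorem bb {d : ℕ} (h : L d) : M.β (M.β d) = d := (H.ok.iv d (H.lt d h)).2

theorem blt {d : ℕ} (h : L d) : M.β d < M.n := H.lt _ (H.be d h)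

theorem dne {d : ℕ} (h : L d) : M.dir (M.β d) ≠ M.dir d := by rw [H.dir d h]; simp

theorem en_be (δ : Bool) {d : ℕ} (h : L d) : M.en δ (M.β d) = M.en δ d := by
  unfold en
  rw [H.dir d h, H.bb h]
  cases δ <;> cases M.dir d <;> simp

theorem sub {L' : ℕ → Prop} (h : ∀ d, L' d → L d) (k : ∀ d, L' d → L' (M.β d)) : M.St L' :=
  ⟨H.ok, fun d a => H.lt d (h d a), k, fun d a => H.dir d (h d a), fun δ =>
    (H.rk δ).imp fun _ f d a => f d (h d a)⟩

/-- No directed cycle. -/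
theorem acyc {d : ℕ} (h : L d) : ¬M.Up L (M.dir d) (M.nd (M.β d)) (M.nd d) := fun k => by
  obtain ⟨f, hf⟩ := H.rk (M.dir d)
  have : ∀ a b, M.Up L (M.dir d) a b → f b ≤ f a := fun a b u => by
    induction u with
    | refl => exact le_rfl
    | tail _ u ih =>
      obtain ⟨e, u1, u2, rfl, rfl⟩ := u
      exact (hf e u1 u2).le.trans ih
  exact absurd (this _ _ k) (not_le.2 (hf d h rfl))

/-- Reading a walk backwards. -/
theorem up_rev {δ : Bool} {a b : ℕ} (k : M.Up L δ a b) : M.Up L (!δ) b a := by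
  induction k with
  | refl => exact Up.refl _ _
  | tail _ u ih =>
    obtain ⟨e, u1, u2, rfl, rfl⟩ := u
    exact Relation.ReflTransGen.head ⟨M.β e, H.be e u1, by rw [H.dir e u1, u2], rfl,
      by rw [H.bb u1]⟩ ih

end St

theorem mk_ne (l e : ℕ) (s : Bool) : M.mk' l e s ≠ 0 := Nat.succ_ne_zero _

theorem mk_half (l e : ℕ) (s : Bool) : (M.mk' l e s - 1) / 2 = l * M.n + e := by
  unfold mk'; cases s <;> simp; omega

theorem ze_mk (l : ℕ) {e : ℕ} (s : Bool) (h : e < M.n) : M.ze (M.mk' l e s) = e := by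
  rw [ze, mk_half, Nat.mul_comm, Nat.mul_add_mod, Nat.mod_eq_of_lt h]

theorem zl_mk (l : ℕ) {e : ℕ} (s : Bool) (h : e < M.n) : M.zl (M.mk' l e s) = l := by
  rw [zl, mk_half, Nat.mul_comm, Nat.mul_add_div (by omega), Nat.div_eq_of_lt h, Nat.add_zero]

theorem zs_mk (l e : ℕ) (s : Bool) : zs (M.mk' l e s) = s := by
  unfold zs mk'; cases s <;> simp

theorem mk_eq {z : ℕ} (h : z ≠ 0) : M.mk' (M.zl z) (M.ze z) (zs z) = z := by
  have := Nat.div_add_mod ((z - 1) / 2) M.n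
  unfold mk' zl ze zs
  rw [Nat.mul_comm ((z - 1) / 2 / M.n), this]
  by_cases k : (z - 1) % 2 = 1 <;> simp [k] <;> omega

theorem ze_lt (z : ℕ) (h : 0 < M.n) : M.ze z < M.n := Nat.mod_lt _ h

theorem zl_zero : M.zl 0 = 0 := by simp [zl]

theorem mk_le (l : ℕ) {e : ℕ} (s : Bool) (h : e < M.n) : M.mk' l e s ≤ 2 * M.n * (l + 1) := by
  have : 2 * M.n * (l + 1) = l * M.n * 2 + 2 * M.n := by ring
  unfold mk'
  rw [this, add_mul]
  cases s <;> simp <;> omega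

theorem crit_lt (H : M.Ok) {x : ℕ} (h : M.crit L x) : x < M.n ∧ M.nd x = x := by
  obtain ⟨⟨d, h1, _, rfl⟩, _⟩ := h
  exact H.ndl d h1

end Dm

namespace Geo

variable {M : Dm} {P : Pr} (H : Geo M P)
include H

theorem own : P.own M = M.own P.al := by
  funext s e; simp only [Pr.own, Dm.own_def, H.En]

theorem par : P.par M = M.par P.al := by
  funext s e; simp only [Pr.par, Dm.par_def, H.nx, H.suc]

theorem val : P.val M = M.val P.al := by
  funext e s; simp only [Pr.val, Dm.val_def, H.nx, H.suc, H.FT, H.par]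

theorem On : P.On M = (M.sem P.al).On M := by
  funext d A; simp only [Pr.On, H.F]; rfl

theorem full (s : Bool) (p : ℕ) : P.full s p = ⟨false, s, p, M.En P.al s p⟩ := by
  simp only [Pr.full, H.En]

theorem fo : P.fo M = (M.sem P.al).fo M := by
  funext fl r X B m; simp only [Pr.fo, H.F]; rfl

end Geo

theorem geo_sem (M : Dm) (L : ℕ → Prop) : Geo M (M.sem L) := ⟨rfl, rfl, rfl, rfl, rfl⟩

namespace Rd.Hy

variable {K : Rd} (H : K.Hy)
include H

theorem k : K.M.Kit K.L := H.kit _ H.st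

theorem own : K.own = K.M.own K.L := H.geo.own

theorem par : K.par = K.M.par K.L := H.geo.par

theorem k' (D : K.DeadK) : K.M.Kit K.L' := H.kit _ D.st

end Rd.Hy

end Pool.Agent.MP_1a6d78_lc.PD

end MrgPart2

-- ======== part 3: formerly Pool.Agent.MP_1a6d78_lc.SC.Elim
section MrgPart3

/-! Levelled elimination with stored seeds is in SC. -/

namespace Pool.Agent.MP_1a6d78_lc.SC

open Function ED

/-- Argument lists are cut to length `r`, arguments and values are cut at `β`. -/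
def nrm (r β : ℕ) (f : List ℕ → ℕ) : Orc := fun l => min β (f (tab r fun i => min β (gt l i)))

namespace El

def cl (r κ β : ℕ) (l S : List ℕ) : List ℕ :=
  tab κ fun i => min β (if 1 ≤ i ∧ i ≤ r then gt l (i - 1) else gt S i)

def upd (κ : ℕ) (S : List ℕ) (i v : ℕ) : List ℕ := tab κ fun e => if e = i then v else gt S e

def arg (r β : ℕ) (L : List ℕ) : List ℕ := tab r fun i => min β (gt L (i + 1))

variable (r κ β Q : ℕ) (base : List ℕ → ℕ) (step : ℕ → ℕ → Orc → List ℕ → ℕ) (Φ : ℕ → Orc → ℕ)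

def body (g : Orc) (L : List ℕ) : ℕ :=
  min β (if gt L 0 = 0 then base (arg r β L) else step (gt L (r + gt L 0)) (gt L 0 - 1)
    (fun l => g (cl r κ β l (upd κ L 0 (gt L 0 - 1)))) (arg r β L))

def lv (σ : ℕ → ℕ) : ℕ → Orc
  | 0 => nrm r β base
  | j + 1 => nrm r β (step (σ j) j (lv σ j))

noncomputable def nxt (g : Orc) (j : ℕ) (S : List ℕ) : List ℕ :=
  upd κ S (r + 1 + j) (PR.amin Q fun q =>
    Φ (j + 1) fun l => g (cl r κ β l (upd κ (upd κ S (r + 1 + j) q) 0 (j + 1))))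

variable {r κ β Q base step Φ}

theorem gt_upd (S : List ℕ) (i v : ℕ) {e : ℕ} (h : e < κ) :
    gt (upd κ S i v) e = if e = i then v else gt S e := gt_tab _ h

theorem lv_congr {σ σ' : ℕ → ℕ} : ∀ j, (∀ i < j, σ i = σ' i) →
    lv r β base step σ j = lv r β base step σ' j
  | 0, _ => rfl
  | j + 1, h => by
    rw [lv, lv, h j j.lt_succ_self, lv_congr j fun i hi => h i (hi.trans j.lt_succ_self)]

theorem rc_lv (σ : ℕ → ℕ) : ∀ j d S, j < d → j ≤ β → r + 1 + j ≤ κ → gt S 0 = j →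
    (∀ i < j, gt S (r + 1 + i) = σ i ∧ σ i ≤ β) →
      (fun l => rc (body r κ β base step) d (cl r κ β l S)) = lv r β base step σ j := by
  intro j
  induction j with
  | zero =>
    intro d S hd hβ hκ h0 _
    obtain ⟨d, rfl⟩ := Nat.exists_eq_add_of_lt hd
    funext l
    have e0 : gt (cl r κ β l S) 0 = 0 := by rw [cl, gt_tab _ (by omega)]; simp [h0]
    have e1 : arg r β (cl r κ β l S) = tab r fun i => min β (gt l i) :=
      List.map_congr_left fun i hi => by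
        have := List.mem_range.1 hi
        rw [cl, gt_tab _ (by omega), if_pos (by omega)]
        simp
    rw [rc, body, e0, if_pos rfl, e1]
    rfl
  | succ j ih =>
    intro d S hd hβ hκ h0 hs
    obtain ⟨d, rfl⟩ : ∃ e, d = e + 1 := ⟨d - 1, by omega⟩
    funext l
    have e0 : gt (cl r κ β l S) 0 = j + 1 := by
      rw [cl, gt_tab _ (by omega), if_neg (by omega), h0, min_eq_right hβ]
    have e1 : arg r β (cl r κ β l S) = tab r fun i => min β (gt l i) :=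
      List.map_congr_left fun i hi => by
        have := List.mem_range.1 hi
        rw [cl, gt_tab _ (by omega), if_pos (by omega)]
        simp
    have e2 : ∀ i < j + 1, gt (cl r κ β l S) (r + 1 + i) = σ i := fun i hi => by
      rw [cl, gt_tab _ (by omega), if_neg (by omega), (hs i hi).1, min_eq_right (hs i hi).2]
    rw [rc, body, e0, if_neg j.succ_ne_zero, e1, Nat.add_sub_cancel,
      show r + (j + 1) = r + 1 + j by omega, e2 j j.lt_succ_self,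
      ih d _ (by omega) (by omega) (by omega) (by rw [gt_upd _ _ _ (by omega), if_pos rfl])
        fun i hi => ⟨by rw [gt_upd _ _ _ (by omega), if_neg (by omega), e2 i (by omega)],
          (hs i (by omega)).2⟩]
    rfl

theorem half {K : ℕ} (hK : 1 ≤ K) (m : ℕ → ℕ) : ∀ L, (∀ j < K * L, m (j + 1) * K ≤ m j * (K - 1)) →
    m (K * L) * 2 ^ L ≤ m 0 := by
  intro L
  induction L with
  | zero => simp
  | succ L ih =>
    intro h
    have h1 := ih fun j hj => h j (by nlinarith)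
    have h2 : ∀ t ≤ K, m (K * L + t) * (K + t) ≤ m (K * L) * K := fun t ht => by
      induction t with
      | zero => exact le_rfl
      | succ t it =>
        have a1 := it (by omega)
        have a2 := h (K * L + t) (by nlinarith)
        obtain ⟨k, rfl⟩ : ∃ k, K = k + 1 := ⟨K - 1, by omega⟩
        rw [Nat.add_sub_cancel] at a2
        refine le_of_mul_le_mul_right ?_ (show 0 < k + 1 by omega)
        have a3 : k * (k + 1 + (t + 1)) ≤ (k + 1 + t) * (k + 1) := by nlinarith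
        calc _ = m ((k + 1) * L + t + 1) * (k + 1) * (k + 1 + (t + 1)) := by
              rw [← add_assoc]; ring
          _ ≤ m ((k + 1) * L + t) * (k * (k + 1 + (t + 1))) := by
              rw [← mul_assoc]; exact Nat.mul_le_mul_right _ a2
          _ ≤ m ((k + 1) * L + t) * (k + 1 + t) * (k + 1) := by
              rw [mul_assoc]; exact Nat.mul_le_mul_left _ a3
          _ ≤ _ := Nat.mul_le_mul_right _ a1
    have h3 : m (K * L + K) * 2 ≤ m (K * L) :=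
      le_of_mul_le_mul_right (by have := h2 K le_rfl; nlinarith) hK
    rw [mul_add, mul_one, pow_succ]
    nlinarith [Nat.mul_le_mul_right (2 ^ L) h3]

theorem run {K J D : ℕ} {Good : ℕ → Orc → Prop} (hJ : J < D) (hβ : J ≤ β) (hκ : r + 1 + J ≤ κ)
    (hQ : Q ≤ β) (h0 : Good 0 (nrm r β base))
    (hs : ∀ j < J, ∀ g q, q ≤ Q → Good j g → Good (j + 1) (nrm r β (step q j g)))
    (hp : ∀ j < J, ∀ g, Good j g → ∃ q < Q, Φ (j + 1) (nrm r β (step q j g)) * K ≤ Φ j g * (K - 1))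
    (S : ℕ → List ℕ) (o : ℕ → Orc)
    (hS : S = itr (nxt r κ β Q Φ (rc (body r κ β base step) D)) (tab κ fun _ => 0))
    (ho : o = fun j l => rc (body r κ β base step) D (cl r κ β l (upd κ (S j) 0 j))) :
    ∀ j ≤ J, (∀ i < j, gt (S j) (r + 1 + i) ≤ Q) ∧ Good j (o j) ∧
      (j = 0 → o j = nrm r β base) ∧ ∀ i, j = i + 1 → Φ j (o j) * K ≤ Φ i (o i) * (K - 1) := by
  have key : ∀ j ≤ J, ∀ T : List ℕ, (∀ i < j, gt T (r + 1 + i) ≤ Q) →
      (fun l => rc (body r κ β base step) D (cl r κ β l (upd κ T 0 j))) =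
        lv r β base step (fun i => gt T (r + 1 + i)) j := fun j hj T hT =>
    rc_lv _ j D _ (by omega) (by omega) (by omega) (by rw [gt_upd _ _ _ (by omega), if_pos rfl])
      fun i hi => ⟨by rw [gt_upd _ _ _ (by omega), if_neg (by omega)], (hT i hi).trans hQ⟩
  intro j
  induction j with
  | zero =>
    intro hj
    have e : o 0 = nrm r β base := by rw [ho]; exact key 0 hj _ fun _ h => absurd h (by omega)
    exact ⟨fun _ h => absurd h (by omega), e ▸ h0, fun _ => e, fun _ h => absurd h (by omega)⟩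
  | succ j ih =>
    intro hj
    obtain ⟨i1, i2, -, -⟩ := ih (by omega)
    have e : ∀ q ≤ Q, (∀ i < j + 1, gt (upd κ (S j) (r + 1 + j) q) (r + 1 + i) ≤ Q) ∧
        (fun l => rc (body r κ β base step) D
          (cl r κ β l (upd κ (upd κ (S j) (r + 1 + j) q) 0 (j + 1)))) =
            nrm r β (step q j (o j)) := fun q hq => by
      have a : ∀ i < j + 1, gt (upd κ (S j) (r + 1 + j) q) (r + 1 + i) ≤ Q := fun i hi => by
        rw [gt_upd _ _ _ (by omega)]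
        split_ifs
        exacts [hq, i1 i (by omega)]
      refine ⟨a, ?_⟩
      rw [key _ hj _ a, lv, gt_upd _ _ _ (by omega), if_pos rfl, ho]
      dsimp only
      rw [key j (by omega) _ i1, lv_congr j fun i hi => ?_]
      rw [gt_upd _ _ _ (by omega), if_neg (by omega)]
    obtain ⟨q, hq, k⟩ := hp j hj _ i2
    obtain ⟨m1, m2⟩ := PR.amin_spec (fun q => Φ (j + 1) fun l => rc (body r κ β base step) D
      (cl r κ β l (upd κ (upd κ (S j) (r + 1 + j) q) 0 (j + 1)))) (show 0 < Q by omega)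
    have eS : S (j + 1) = nxt r κ β Q Φ (rc (body r κ β base step) D) j (S j) := by rw [hS]; rfl
    have eo : o (j + 1) = fun l => rc (body r κ β base step) D
        (cl r κ β l (upd κ (S (j + 1)) 0 (j + 1))) := by rw [ho]
    rw [eo, eS, nxt]
    refine ⟨(e _ m1.le).1, ?_, fun h => absurd h j.succ_ne_zero, fun i hi => ?_⟩
    · rw [(e _ m1.le).2]; exact hs j hj _ _ m1.le i2
    · obtain rfl : j = i := Nat.succ_injective hi
      have := m2 q hq
      rw [(e q hq.le).2] at this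
      exact (Nat.mul_le_mul_right _ this).trans k

theorem run' {K L J D : ℕ} {Good : ℕ → Orc → Prop} (hK : 1 ≤ K) (e : J = K * L) (hJ : J < D)
    (hβ : J ≤ β) (hκ : r + 1 + J ≤ κ) (hQ : Q ≤ β) (h0 : Good 0 (nrm r β base))
    (hs : ∀ j < J, ∀ g q, q ≤ Q → Good j g → Good (j + 1) (nrm r β (step q j g)))
    (hp : ∀ j < J, ∀ g, Good j g → ∃ q < Q, Φ (j + 1) (nrm r β (step q j g)) * K ≤ Φ j g * (K - 1))
    (S : ℕ → List ℕ) (o : ℕ → Orc)
    (hS : S = itr (nxt r κ β Q Φ (rc (body r κ β base step) D)) (tab κ fun _ => 0))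
    (ho : o = fun j l => rc (body r κ β base step) D (cl r κ β l (upd κ (S j) 0 j))) :
    Good J (o J) ∧ Φ J (o J) * 2 ^ L ≤ Φ 0 (nrm r β base) := by
  have R := run hJ hβ hκ hQ h0 hs hp S o hS ho
  have H := half hK (fun j => Φ j (o j)) L fun j hj => (R (j + 1) (by omega)).2.2.2 j rfl
  rw [(R 0 (Nat.zero_le _)).2.2.1 rfl, ← e] at H
  exact ⟨(R _ le_rfl).2.1, H⟩

variable {κ' q β' : List Bool → ℕ}

theorem clC (r : ℕ) (hκ : Cn κ' fun x _ => κ' x) (hβ : Cn κ' fun x _ => β' x) :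
    Cm κ' fun x ρ => cl r (κ' x) (β' x) (ρ 0) (ρ 1) :=
  (kitOne κ').tab (fun x ρ i => min (β' x) (if 1 ≤ i ∧ i ≤ r then gt (ρ 0) (i - 1) else gt (ρ 1) i))
    (fun _ => le_rfl) hκ (PR.K.min hβ (PR.K.ite (PR.K.and (PR.K.le (PR.K.c 1) (PR.K.v 0))
      (PR.K.le (PR.K.v 0) (PR.K.c r))) (PR.K.gt (PR.K.vL 1) (PR.K.sub (PR.K.v 0) (PR.K.c 1)))
      (PR.K.gt (PR.K.vL 2) (PR.K.v 0))))

theorem updC (hκ : Cn κ' fun x _ => κ' x) {S : List Bool → Orc → Env → List ℕ}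
    {i v : List Bool → Orc → Env → ℕ} (hS : Lq κ' q β' S) (hi : Nq κ' q β' i) (hv : Nq κ' q β' v) :
    Lq κ' q β' fun x g ρ => upd (κ' x) (S x g ρ) (i x g ρ) (v x g ρ) :=
  M.bind _ _ hv (M.bind _ _ (Q.wL hi) (M.bind _ _ (Q.wL (Q.wL hS)) (M.lift _ ((kitOne κ').tab
    (fun _ ρ e => if e = hd (ρ 1) then hd (ρ 2) else gt (ρ 0) e) (fun _ => le_rfl) hκ
    (PR.K.ite (PR.K.eq (PR.K.v 0) (PR.K.v 2)) (PR.K.v 3) (PR.K.gt (PR.K.vL 1) (PR.K.v 0)))))))

theorem cl_le (r κ β : ℕ) (l S : List ℕ) : ∀ a ∈ cl r κ β l S, a ≤ β := fun a ha => by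
  obtain ⟨e, _, rfl⟩ := List.mem_map.1 ha
  exact min_le_left _ _

/-- A function of the level and the oracle, at the hidden list `S`. -/
theorem topC (r : ℕ) (hκ : Cn κ' fun x _ => κ' x) (hβ : Cn κ' fun x _ => β' x)
    {f : List Bool → ℕ → Orc → ℕ} (hf : Nq κ' q β' fun x g ρ => f x (hd (ρ 0)) g)
    {S : List Bool → Orc → Env → List ℕ} {j : List Bool → Orc → Env → ℕ} (hS : Lq κ' q β' S)
    (hj : Nq κ' q β' j) : Nq κ' q β' fun x g ρ => f x (j x g ρ)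
      fun l => g (cl r (κ' x) (β' x) l (upd (κ' x) (S x g ρ) 0 (j x g ρ))) :=
  M.bind _ _ hj (M.bind _ _ (updC hκ (Q.wL hS) (Q.c 0) (Q.v 0))
    (osub (fun x l S => cl r (κ' x) (β' x) l S) (clC r hκ hβ) (fun _ _ _ => cl_le _ _ _ _ _) hf))

end El

open El in
/-- `base` is level 0, `step x q j g` is level `j + 1` for the seed `q` over the oracle `g` of
level `j`; some seed below `W x` lowers the potential `Φ` by the factor `1 - 1 / K`. -/
theorem elim (r m b b0 K : ℕ) (hK : 1 ≤ K) (hb : 1 ≤ b) (hJ : K * (2 * b0 + 1) ≤ 2 ^ (b - 1))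
    (β : List Bool → ℕ) (hβ : β = fun x => (x.length + 2) ^ b)
    (base : List Bool → List ℕ → ℕ) (step : List Bool → ℕ → ℕ → Orc → List ℕ → ℕ)
    (Φ ans : List Bool → ℕ → Orc → ℕ) (W : List Bool → ℕ) (Good : List Bool → ℕ → Orc → Prop)
    (hC : ∀ κ : List Bool → ℕ, (∀ x, r ≤ κ x) → (Cn κ fun x ρ => base x (ρ 0)) ∧
      (Nq κ (fun _ => m) β fun x g ρ => step x (hd (ρ 0)) (hd (ρ 1)) g (ρ 2)) ∧
      (Nq κ β β fun x g ρ => Φ x (hd (ρ 0)) g) ∧ (Nq κ β β fun x g ρ => ans x (hd (ρ 0)) g) ∧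
      Cn κ fun x _ => W x)
    (hQ : ∀ x, W x ≤ β x) (h0 : ∀ x, Good x 0 (nrm r (β x) (base x)))
    (hΦ : ∀ x, Φ x 0 (nrm r (β x) (base x)) ≤ (x.length + 2) ^ b0)
    (hs : ∀ x, ∀ j < K * (2 * b0 + 1) * lg x, ∀ g q, q ≤ W x → Good x j g →
      Good x (j + 1) (nrm r (β x) (step x q j g)))
    (hp : ∀ x, ∀ j < K * (2 * b0 + 1) * lg x, ∀ g, Good x j g →
      ∃ q < W x, Φ x (j + 1) (nrm r (β x) (step x q j g)) * K ≤ Φ x j g * (K - 1)) :
    ∃ (M : TM) (c : ℕ), ∀ x : List Bool, ∃ j g, Good x j g ∧ Φ x j g = 0 ∧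
      M.out (M.run x ((x.length + 2) ^ c)).q = some (ans x j g != 0) ∧
        ∀ t i, (M.run x t).head i ≤ c * lg x ^ 3 := by
  obtain ⟨J, eJ⟩ : ∃ J, J = K * (2 * b0 + 1) := ⟨_, rfl⟩
  rw [← eJ] at hJ hs hp
  obtain ⟨κ, eκ⟩ : ∃ κ : List Bool → ℕ, κ = fun x => (J + r + 1) * lg x := ⟨_, rfl⟩
  have l1 : ∀ x, 1 ≤ lg x := fun _ => Nat.succ_pos _
  have k1 : ∀ x, r + 1 + J * lg x ≤ κ x := fun x => by have := l1 x; rw [eκ]; nlinarith
  have b1 : ∀ x, J * lg x ≤ β x := fun x => by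
    obtain ⟨b, rfl⟩ : ∃ e, b = e + 1 := ⟨b - 1, by omega⟩
    rw [hβ]
    exact Nat.mul_le_mul (hJ.trans (Nat.pow_le_pow_left (by omega) _))
      ((lg_le x).trans (Nat.le_succ _))
  have cκ : Cn κ fun x _ => κ x := PR.K.cg (PR.K.mul (PR.K.c _) (lgC κ)) fun x _ => by rw [eκ]
  have cβ : Cn κ fun x _ => β x :=
    PR.K.cg (PR.K.pow b (PR.K.add (kitOne κ).len (PR.K.c 2))) fun x _ => by rw [hβ]
  have cJ : Cn κ fun x _ => J * lg x := PR.K.mul (PR.K.c _) (lgC κ)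
  obtain ⟨c1, c2, c3, c4, c5⟩ := hC κ fun x => by have := k1 x; omega
  have ca : Cm κ fun x ρ => arg r (β x) (ρ 0) :=
    (kitOne κ).tab (fun x ρ i => min (β x) (gt (ρ 0) (i + 1))) (fun x => by have := k1 x; omega)
      (PR.K.c r) (PR.K.min cβ (PR.K.gt (PR.K.vL 1) (PR.K.add (PR.K.v 0) (PR.K.c 1))))
  have g0 : ∀ i, Nq κ (fun _ => m) β fun _ _ ρ => gt (ρ i) 0 := fun i => Q.gt (Q.vL i) (Q.c 0)
  have hF : Nq κ (fun _ => m) β fun x g ρ => body r (κ x) (β x) (base x) (step x) g (ρ 0) :=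
    Q.min (Q.lift cβ) (Q.ite (Q.eq (g0 0) (Q.c 0)) (Q.lift ((kitA κ).bind _ _ ca c1))
      (M.bind _ _ (Q.liftL ca) (M.bind _ _ (Q.sub (g0 1) (Q.c 1))
        (M.bind _ _ (Q.gt (Q.vL 2) (Q.add (Q.c r) (g0 2)))
          (M.bind _ _ (updC cκ (Q.vL 3) (Q.c 0) (Q.v 1))
            (osub (fun x l S => cl r (κ x) (β x) l S) (clC r cκ cβ)
              (fun _ _ _ => cl_le _ _ _ _ _) c2))))))
  have hS : Lq κ β β fun x g _ => itr (nxt r (κ x) (β x) (W x) (Φ x) g) (tab (κ x) fun _ => 0)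
      (J * lg x) :=
    Q.foldL (fun x g _ => nxt r (κ x) (β x) (W x) (Φ x) g) (fun x _ _ _ => W x) (Q.lift cJ)
      (fun x _ _ => b1 x) (Q.liftL ((kitOne κ).tab (fun _ _ _ => 0) (fun _ => le_rfl) cκ (PR.K.c 0)))
      (updC cκ (Q.vL 0) (Q.add (Q.c (r + 1)) (Q.v 1)) (Q.amin (Q.lift c5) (fun x _ _ => hQ x)
        (topC r cκ cβ c3 (updC cκ (Q.vL 1) (Q.add (Q.c (r + 1)) (Q.v 2)) (Q.v 0))
          (Q.add (Q.v 2) (Q.c 1))))) (Q.lift c5)
      fun x g _ j S B hS hB a ha => by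
        obtain ⟨e, _, rfl⟩ := List.mem_map.1 ha
        split_ifs
        · rcases Nat.eq_zero_or_pos (W x) with k | k
          · rw [PR.amin, PR.lst_none (by omega)]; exact Nat.zero_le _
          · exact (PR.lst_lt _ k).le.trans hB
        · rw [gt, List.getD_eq_getElem?_getD]
          rcases k : S[e]? with _ | y
          exacts [Nat.zero_le _, hS y (List.mem_of_getElem? k)]
  have hA := topC r cκ cβ c4 hS (Q.lift cJ)
  subst hβ eκ
  obtain ⟨M, c, h⟩ := scMach (J + r + 1) b (J + 1) m (by omega) _ _ hF hA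
    fun _ _ _ => min_le_left _ _
  refine ⟨M, c, fun x => ?_⟩
  obtain ⟨R, H⟩ := run' (L := (2 * b0 + 1) * lg x) (D := (J + 1) * lg x) hK
    (by rw [eJ, mul_assoc]) (by have := l1 x; nlinarith) (b1 x) (k1 x) (hQ x) (h0 x) (hs x) (hp x)
    _ _ rfl rfl
  refine ⟨J * lg x, _, R, ?_, h x⟩
  have u : x.length + 2 ≤ 2 ^ (2 * lg x) := by
    have := Nat.lt_pow_succ_log_self (b := 2) (by omega) x.length
    have u2 : 2 ^ 1 ≤ 2 ^ lg x := Nat.pow_le_pow_right (by omega) (l1 x)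
    rw [two_mul, pow_add]
    unfold lg at u2 ⊢
    rw [Nat.succ_eq_add_one] at this
    nlinarith
  have w : (x.length + 2) ^ b0 < 2 ^ ((2 * b0 + 1) * lg x) :=
    (Nat.pow_le_pow_left u b0).trans_lt (by
      rw [← pow_mul]
      exact Nat.pow_lt_pow_right (by omega) (by have := l1 x; nlinarith))
  by_contra k
  exact absurd ((Nat.le_mul_of_pos_left _ (Nat.pos_of_ne_zero k)).trans (H.trans (hΦ x))) w.not_ge

end Pool.Agent.MP_1a6d78_lc.SC

end MrgPart3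

-- ======== part 4: formerly Pool.Agent.MP_1a6d78_lc.SC.ElimP
section MrgPart4

/-! Levelled elimination for promise problems. -/

namespace Pool.Agent.MP_1a6d78_lc.SC

open Function ED

open El in
/-- `base` is level 0, `step x q j g` is level `j + 1` for the seed `q` over the oracle `g` of
level `j`; some seed below `W x` lowers the potential `Φ` by the factor `1 - 1 / K`, on inputs with `Pm`. -/
theorem elimP (r m b b0 K : ℕ) (hK : 1 ≤ K) (hb : 1 ≤ b) (hJ : K * (2 * b0 + 1) ≤ 2 ^ (b - 1))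
    (β : List Bool → ℕ) (hβ : β = fun x => (x.length + 2) ^ b)
    (base : List Bool → List ℕ → ℕ) (step : List Bool → ℕ → ℕ → Orc → List ℕ → ℕ)
    (Φ ans : List Bool → ℕ → Orc → ℕ) (W : List Bool → ℕ) (Good : List Bool → ℕ → Orc → Prop)
    (Pm : List Bool → Prop)
    (hC : ∀ κ : List Bool → ℕ, (∀ x, r ≤ κ x) → (Cn κ fun x ρ => base x (ρ 0)) ∧
      (Nq κ (fun _ => m) β fun x g ρ => step x (hd (ρ 0)) (hd (ρ 1)) g (ρ 2)) ∧
      (Nq κ β β fun x g ρ => Φ x (hd (ρ 0)) g) ∧ (Nq κ β β fun x g ρ => ans x (hd (ρ 0)) g) ∧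
      Cn κ fun x _ => W x)
    (hQ : ∀ x, W x ≤ β x) (h0 : ∀ x, Pm x → Good x 0 (nrm r (β x) (base x)))
    (hΦ : ∀ x, Pm x → Φ x 0 (nrm r (β x) (base x)) ≤ (x.length + 2) ^ b0)
    (hs : ∀ x, Pm x → ∀ j < K * (2 * b0 + 1) * lg x, ∀ g q, q ≤ W x → Good x j g →
      Good x (j + 1) (nrm r (β x) (step x q j g)))
    (hp : ∀ x, Pm x → ∀ j < K * (2 * b0 + 1) * lg x, ∀ g, Good x j g →
      ∃ q < W x, Φ x (j + 1) (nrm r (β x) (step x q j g)) * K ≤ Φ x j g * (K - 1)) :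
    ∃ (M : TM) (c : ℕ), ∀ x : List Bool, ∃ a : Bool,
      M.out (M.run x ((x.length + 2) ^ c)).q = some a ∧
        (∀ t i, (M.run x t).head i ≤ c * lg x ^ 3) ∧
        (Pm x → ∃ j g, Good x j g ∧ Φ x j g = 0 ∧ a = (ans x j g != 0)) := by
  obtain ⟨J, eJ⟩ : ∃ J, J = K * (2 * b0 + 1) := ⟨_, rfl⟩
  rw [← eJ] at hJ hs hp
  obtain ⟨κ, eκ⟩ : ∃ κ : List Bool → ℕ, κ = fun x => (J + r + 1) * lg x := ⟨_, rfl⟩
  have l1 : ∀ x, 1 ≤ lg x := fun _ => Nat.succ_pos _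
  have k1 : ∀ x, r + 1 + J * lg x ≤ κ x := fun x => by have := l1 x; rw [eκ]; nlinarith
  have b1 : ∀ x, J * lg x ≤ β x := fun x => by
    obtain ⟨b, rfl⟩ : ∃ e, b = e + 1 := ⟨b - 1, by omega⟩
    rw [hβ]
    exact Nat.mul_le_mul (hJ.trans (Nat.pow_le_pow_left (by omega) _))
      ((lg_le x).trans (Nat.le_succ _))
  have cκ : Cn κ fun x _ => κ x := PR.K.cg (PR.K.mul (PR.K.c _) (lgC κ)) fun x _ => by rw [eκ]
  have cβ : Cn κ fun x _ => β x :=
    PR.K.cg (PR.K.pow b (PR.K.add (kitOne κ).len (PR.K.c 2))) fun x _ => by rw [hβ]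
  have cJ : Cn κ fun x _ => J * lg x := PR.K.mul (PR.K.c _) (lgC κ)
  obtain ⟨c1, c2, c3, c4, c5⟩ := hC κ fun x => by have := k1 x; omega
  have ca : Cm κ fun x ρ => arg r (β x) (ρ 0) :=
    (kitOne κ).tab (fun x ρ i => min (β x) (gt (ρ 0) (i + 1))) (fun x => by have := k1 x; omega)
      (PR.K.c r) (PR.K.min cβ (PR.K.gt (PR.K.vL 1) (PR.K.add (PR.K.v 0) (PR.K.c 1))))
  have g0 : ∀ i, Nq κ (fun _ => m) β fun _ _ ρ => gt (ρ i) 0 := fun i => Q.gt (Q.vL i) (Q.c 0)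
  have hF : Nq κ (fun _ => m) β fun x g ρ => body r (κ x) (β x) (base x) (step x) g (ρ 0) :=
    Q.min (Q.lift cβ) (Q.ite (Q.eq (g0 0) (Q.c 0)) (Q.lift ((kitA κ).bind _ _ ca c1))
      (M.bind _ _ (Q.liftL ca) (M.bind _ _ (Q.sub (g0 1) (Q.c 1))
        (M.bind _ _ (Q.gt (Q.vL 2) (Q.add (Q.c r) (g0 2)))
          (M.bind _ _ (updC cκ (Q.vL 3) (Q.c 0) (Q.v 1))
            (osub (fun x l S => cl r (κ x) (β x) l S) (clC r cκ cβ)
              (fun _ _ _ => cl_le _ _ _ _ _) c2))))))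
  have hS : Lq κ β β fun x g _ => itr (nxt r (κ x) (β x) (W x) (Φ x) g) (tab (κ x) fun _ => 0)
      (J * lg x) :=
    Q.foldL (fun x g _ => nxt r (κ x) (β x) (W x) (Φ x) g) (fun x _ _ _ => W x) (Q.lift cJ)
      (fun x _ _ => b1 x) (Q.liftL ((kitOne κ).tab (fun _ _ _ => 0) (fun _ => le_rfl) cκ (PR.K.c 0)))
      (updC cκ (Q.vL 0) (Q.add (Q.c (r + 1)) (Q.v 1)) (Q.amin (Q.lift c5) (fun x _ _ => hQ x)
        (topC r cκ cβ c3 (updC cκ (Q.vL 1) (Q.add (Q.c (r + 1)) (Q.v 2)) (Q.v 0))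
          (Q.add (Q.v 2) (Q.c 1))))) (Q.lift c5)
      fun x g _ j S B hS hB a ha => by
        obtain ⟨e, _, rfl⟩ := List.mem_map.1 ha
        split_ifs
        · rcases Nat.eq_zero_or_pos (W x) with k | k
          · rw [PR.amin, PR.lst_none (by omega)]; exact Nat.zero_le _
          · exact (PR.lst_lt _ k).le.trans hB
        · rw [gt, List.getD_eq_getElem?_getD]
          rcases k : S[e]? with _ | y
          exacts [Nat.zero_le _, hS y (List.mem_of_getElem? k)]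
  have hA := topC r cκ cβ c4 hS (Q.lift cJ)
  subst hβ eκ
  obtain ⟨M, c, h⟩ := scMach (J + r + 1) b (J + 1) m (by omega) _ _ hF hA
    fun _ _ _ => min_le_left _ _
  refine ⟨M, c, fun x => ⟨_, (h x).1, (h x).2, fun hx => ?_⟩⟩
  obtain ⟨R, H⟩ := run' (L := (2 * b0 + 1) * lg x) (D := (J + 1) * lg x) hK
    (by rw [eJ, mul_assoc]) (by have := l1 x; nlinarith) (b1 x) (k1 x) (hQ x) (h0 x hx) (hs x hx)
    (hp x hx) _ _ rfl rfl
  refine ⟨J * lg x, _, R, ?_, rfl⟩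
  have u : x.length + 2 ≤ 2 ^ (2 * lg x) := by
    have := Nat.lt_pow_succ_log_self (b := 2) (by omega) x.length
    have u2 : 2 ^ 1 ≤ 2 ^ lg x := Nat.pow_le_pow_right (by omega) (l1 x)
    rw [two_mul, pow_add]
    unfold lg at u2 ⊢
    rw [Nat.succ_eq_add_one] at this
    nlinarith
  have w : (x.length + 2) ^ b0 < 2 ^ ((2 * b0 + 1) * lg x) :=
    (Nat.pow_le_pow_left u b0).trans_lt (by
      rw [← pow_mul]
      exact Nat.pow_lt_pow_right (by omega) (by have := l1 x; nlinarith))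
  by_contra k
  exact absurd ((Nat.le_mul_of_pos_left _ (Nat.pos_of_ne_zero k)).trans (H.trans (hΦ x hx)))
    w.not_ge

end Pool.Agent.MP_1a6d78_lc.SC

end MrgPart4

-- ======== part 5: formerly Pool.Agent.MP_1a6d78_lc.PD.Spec2
section MrgPart5

/-! PROJECT PD: the machine rows. -/

namespace Pool.Agent.MP_1a6d78_lc.PD

open Classical ED PR SC

noncomputable section

def b2 (s : Bool) : ℕ := if s then 1 else 0

def n2 (a : ℕ) : Bool := decide (a ≠ 0)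

/-- The primitives read from an oracle. -/
def ofO (q : ℕ) (g : Orc) : Pr where
  al d := g [0, min d q] ≠ 0
  nx s d := g [1, b2 s, min d q]
  suc s d := g [2, b2 s, min d q]
  En s d := g [3, b2 s, min d q]
  FT s d := g [4, b2 s, min d q]
  F fl r A B := g [5, b2 fl, min r q, b2 A.ex, b2 A.s, min A.p q, min A.q q,
    b2 B.ex, b2 B.s, min B.p q, min B.q q]
  next z := g [6, min z q]
  cur e s := g [7, b2 s, min e q]

/-- The primitives as one function. -/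
def toO (q : ℕ) (P : Pr) (l : List ℕ) : ℕ :=
  if gt l 0 = 0 then (if P.al (gt l 1) then 1 else 0)
  else min (if gt l 0 = 1 then P.nx (n2 (gt l 1)) (gt l 2)
    else if gt l 0 = 2 then P.suc (n2 (gt l 1)) (gt l 2)
    else if gt l 0 = 3 then P.En (n2 (gt l 1)) (gt l 2)
    else if gt l 0 = 4 then P.FT (n2 (gt l 1)) (gt l 2)
    else if gt l 0 = 5 then P.F (n2 (gt l 1)) (gt l 2)
      ⟨n2 (gt l 3), n2 (gt l 4), gt l 5, gt l 6⟩ ⟨n2 (gt l 7), n2 (gt l 8), gt l 9, gt l 10⟩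
    else if gt l 0 = 6 then P.next (gt l 1) else P.cur (gt l 2) (n2 (gt l 1))) q

def prx (x : List Bool) (v : ℕ) : Prop := v = is x ∨ v = it' x

def Lx (x : List Bool) : ℕ → Prop := L0 (im x) (is x) (it' x)

/-- The round of the machine. -/
def Kx (c : ℕ) (q : List Bool → ℕ) (x : List Bool) (g : Orc) (j w : ℕ) : Rd :=
  ⟨im x, ofO (q x) g, j, decide (w % 3 = 2), c, q x, colq (q x) (4 * c) (w / 3), prx x⟩

/-- The potential, 0 when nothing is left to do. -/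
def Psi (c : ℕ) (q : List Bool → ℕ) (x : List Bool) (g : Orc) : ℕ :=
  if ∃ v < (im x).n, (im x).crit (ofO (q x) g).al v ∧ ¬prx x v then
    (ofO (q x) g).Phi (im x) (prx x) c (q x) else 0

abbrev EN : Type := List Bool → Orc → Env → ℕ

abbrev EB : Type := List Bool → Orc → Env → Bool

abbrev ES : Type := List Bool → Orc → Env → Sg

variable (κ m β q : List Bool → ℕ) (c : ℕ)

def Bv (s : EB) : Prop := Pq κ m β fun x g ρ => s x g ρ = true

def Sv (A : ES) : Prop :=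
  (Bv κ m β fun x g ρ => (A x g ρ).ex) ∧ (Bv κ m β fun x g ρ => (A x g ρ).s) ∧
    (Nq κ m β fun x g ρ => (A x g ρ).p) ∧ Nq κ m β fun x g ρ => (A x g ρ).q

/-- The primitives of `P` are computable. -/
structure PC (P : List Bool → Orc → Env → Pr) : Prop where
  al : ∀ {a : EN}, Nq κ m β a → Pq κ m β fun x g ρ => (P x g ρ).al (a x g ρ)
  nx : ∀ {s : EB} {a : EN}, Bv κ m β s → Nq κ m β a →
    Nq κ m β fun x g ρ => (P x g ρ).nx (s x g ρ) (a x g ρ)
  suc : ∀ {s : EB} {a : EN}, Bv κ m β s → Nq κ m β a →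
    Nq κ m β fun x g ρ => (P x g ρ).suc (s x g ρ) (a x g ρ)
  En : ∀ {s : EB} {a : EN}, Bv κ m β s → Nq κ m β a →
    Nq κ m β fun x g ρ => (P x g ρ).En (s x g ρ) (a x g ρ)
  FT : ∀ {s : EB} {a : EN}, Bv κ m β s → Nq κ m β a →
    Nq κ m β fun x g ρ => (P x g ρ).FT (s x g ρ) (a x g ρ)
  F : ∀ {fl : EB} {r : EN} {A B : ES}, Bv κ m β fl → Nq κ m β r → Sv κ m β A → Sv κ m β B →
    Nq κ m β fun x g ρ => (P x g ρ).F (fl x g ρ) (r x g ρ) (A x g ρ) (B x g ρ)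
  next : ∀ {a : EN}, Nq κ m β a → Nq κ m β fun x g ρ => (P x g ρ).next (a x g ρ)
  cur : ∀ {s : EB} {a : EN}, Bv κ m β s → Nq κ m β a →
    Nq κ m β fun x g ρ => (P x g ρ).cur (a x g ρ) (s x g ρ)

/-- The bounds. -/
structure Cx : Prop where
  k : ∀ x, 11 ≤ κ x
  cq : Cn κ fun x _ => q x
  qb : ∀ x, q x ≤ β x
  b7 : ∀ x, 7 ≤ β x
  m : ∀ x, 5 * c + 1 ≤ m x

/-- A number that depends on the round, a side and two numbers. -/
def TN (f : Rd → Bool → ℕ → ℕ → ℕ) : Prop :=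
  ∀ {j w a b : EN} {s : EB}, Nq κ m β j → Nq κ m β w → Bv κ m β s → Nq κ m β a → Nq κ m β b →
    Nq κ m β fun x g ρ => f (Kx c q x g (j x g ρ) (w x g ρ)) (s x g ρ) (a x g ρ) (b x g ρ)

/-- A number that depends on the round, a side and one number. -/
def TS (f : Rd → Bool → ℕ → ℕ) : Prop :=
  ∀ {j w a : EN} {s : EB}, Nq κ m β j → Nq κ m β w → Bv κ m β s → Nq κ m β a →
    Nq κ m β fun x g ρ => f (Kx c q x g (j x g ρ) (w x g ρ)) (s x g ρ) (a x g ρ)

/-- A number that depends on the round and two numbers. -/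
def T2 (f : Rd → ℕ → ℕ → ℕ) : Prop :=
  ∀ {j w a b : EN}, Nq κ m β j → Nq κ m β w → Nq κ m β a → Nq κ m β b →
    Nq κ m β fun x g ρ => f (Kx c q x g (j x g ρ) (w x g ρ)) (a x g ρ) (b x g ρ)

/-- A predicate of the round and two numbers. -/
def U2 (f : Rd → ℕ → ℕ → Prop) : Prop :=
  ∀ {j w a b : EN}, Nq κ m β j → Nq κ m β w → Nq κ m β a → Nq κ m β b →
    Pq κ m β fun x g ρ => f (Kx c q x g (j x g ρ) (w x g ρ)) (a x g ρ) (b x g ρ)

/-- A predicate of the round and one number. -/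
def U1 (f : Rd → ℕ → Prop) : Prop :=
  ∀ {j w a : EN}, Nq κ m β j → Nq κ m β w → Nq κ m β a →
    Pq κ m β fun x g ρ => f (Kx c q x g (j x g ρ) (w x g ρ)) (a x g ρ)

/-- CK1 -/
structure C1 : Prop where
  se : T2 κ m β q c Rd.se
  ss : U2 κ m β q c fun K a b => K.ss a b = true
  us : U2 κ m β q c Rd.us
  po : T2 κ m β q c Rd.po
  sel : U1 κ m β q c Rd.sel
  al : U1 κ m β q c Rd.al'
  gd : TN κ m β q c fun K s a b => K.gd a s b
  suc : TS κ m β q c Rd.suc'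
  nx : TS κ m β q c Rd.nx'

/-- CK2 -/
structure C2 : Prop where
  FTd : TS κ m β q c Rd.FTd
  dq : TS κ m β q c Rd.dq
  dg : TS κ m β q c Rd.dg
  db : TS κ m β q c Rd.db
  dp : ∀ {j w a k : EN} {s : EB}, Nq κ m β j → Nq κ m β w → Bv κ m β s → Nq κ m β a →
    Nq κ m β k → (∀ x g ρ, k x g ρ ≤ m x) →
    Nq κ m β fun x g ρ => (Kx c q x g (j x g ρ) (w x g ρ)).dp (s x g ρ) (a x g ρ) (k x g ρ)
  En : TS κ m β q c Rd.En'
  FT : TS κ m β q c Rd.FT'

/-- CK3 -/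
def C3 : Prop :=
  ∀ {j w r : EN} {fl : EB} {A B : ES}, Nq κ m β j → Nq κ m β w → Bv κ m β fl → Nq κ m β r →
    Sv κ m β A → Sv κ m β B → Nq κ m β fun x g ρ =>
      (Kx c q x g (j x g ρ) (w x g ρ)).F' (fl x g ρ) (r x g ρ) (A x g ρ) (B x g ρ)

/-- CK4 -/
def C4 : Prop :=
  ∀ {j w : EN}, Nq κ m β j → Nq κ m β w →
    PC κ m β fun x g ρ => (Kx c q x g (j x g ρ) (w x g ρ)).kill

end

def Ck1S : Prop := ∀ κ m β q c, Cx κ m β q c → C1 κ m β q c

def Ck2S : Prop := ∀ κ m β q c, Cx κ m β q c → C1 κ m β q c → C2 κ m β q c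

def Ck3S : Prop := ∀ κ m β q c, Cx κ m β q c → C1 κ m β q c → C2 κ m β q c → C3 κ m β q c

def Ck4S : Prop :=
  ∀ κ m β q c, Cx κ m β q c → C1 κ m β q c → C2 κ m β q c → C3 κ m β q c → C4 κ m β q c

/-- CSTEP -/
def CstepS : Prop :=
  ∀ κ m β q c, Cx κ m β q c → C4 κ m β q c → Nq κ m β fun x g ρ =>
    toO (q x) (step (im x) (prx x) c (q x) (ofO (q x) g) (hd (ρ 1)) (hd (ρ 0))) (ρ 2)

/-- CBASE -/
def CbaseS : Prop :=
  ∀ κ q : List Bool → ℕ, (Cn κ fun x _ => q x) →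
    Cn κ fun x ρ => toO (q x) ((im x).base (Lx x)) (ρ 0)

/-- CTOP -/
def CtopS : Prop :=
  ∀ κ β q c, Cx κ β β q c → (∀ x, x.length ≤ β x) → (Nq κ β β fun x g _ => Psi c q x g) ∧
    Pq κ β β fun x g _ => ans (im x) (is x) (it' x) (ofO (q x) g)

/-- The whole step. -/
def CallS : Prop :=
  ∀ κ m β q c, Cx κ m β q c → Nq κ m β fun x g ρ =>
    toO (q x) (step (im x) (prx x) c (q x) (ofO (q x) g) (hd (ρ 1)) (hd (ρ 0))) (ρ 2)

end Pool.Agent.MP_1a6d78_lc.PD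

end MrgPart5

-- marker of a merged file
example : 731051 + 192135 = 731051 + 192135 := rfl
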