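import Pool.Agent.MP_1a6d78_lc.PD.Spec2

/-! PROJECT PD: closure rules for the machine rows. -/

namespace Pool.Agent.MP_1a6d78_lc.PD

open Classical ED PR SC

/-! ### Static functions, without calls -/

namespace CM

variable {κ : List Bool → ℕ} {a b : List Bool → Env → ℕ}

theorem num (h : Cn κ a) : Cn κ fun x ρ => num x (a x ρ) := AlgD.numC (kitOne _) (kitTwo _) h

theorem n : Cn κ fun x _ => (im x).n := num (K.c 0)

theorem rt (h : Cn κ a) : Cn κ fun x ρ => (inp x).ρ (a x ρ) := num (K.add (K.c 3) h)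

theorem rho (s : Bool) (h : Cn κ a) : Cn κ fun x ρ => (im x).ρ s (a x ρ) := by
  cases s with
  | true => exact rt h
  | false =>
    exact K.lst (P := fun x ρ e => (inp x).ρ e = a x ρ) n (K.eq (rt (K.v 0)) (K.w h))

theorem be (h : Cn κ a) : Cn κ fun x ρ => (im x).β (a x ρ) := num (K.add (K.add (K.c 3) n) h)

theorem dir (h : Cn κ a) : PR.Cp κ fun x ρ => (im x).dir (a x ρ) = true :=
  K.cgP (K.eq (num (K.add (K.add (K.add (K.c 3) n) n) h)) (K.c 1)) fun x ρ =>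
    (@decide_eq_true_iff ((inp x).dir (a x ρ)) (propDecidable _)).symm

theorem nd (h : Cn κ a) : Cn κ fun x ρ => (im x).nd (a x ρ) :=
  K.lst (P := fun x ρ e => Sc (inp x).n (inp x).ρ (a x ρ) e) n
    (K.sc (f := fun x _ => (inp x).ρ) n (rt (K.v 0)) (K.w h) (K.v 0))

theorem dist (s : Bool) (ha : Cn κ a) (hb : Cn κ b) :
    Cn κ fun x ρ => (im x).dist s (a x ρ) (b x ρ) :=
  K.lst (P := fun x ρ t => t = (im x).n ∨ it (im x).n ((im x).ρ s) (t + 1) (a x ρ) = b x ρ)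
    (K.add n (K.c 1)) (K.or (K.eq (K.v 0) n) (K.eq (K.it (f := fun x _ => (im x).ρ s) n
      (rho s (K.v 0)) (K.add (K.v 0) (K.c 1)) (K.w ha)) (K.w hb)))

theorem is : Cn κ fun x _ => is x := nd (num (K.c 1))

theorem it' : Cn κ fun x _ => it' x := nd (num (K.c 2))

end CM

variable {κ m β : List Bool → ℕ} {a b e : EN} {s t : EB}

/-! ### Sides -/

namespace Bv

theorem dec {P : List Bool → Orc → Env → Prop} {i : ∀ x g ρ, Decidable (P x g ρ)}
    (h : Pq κ m β P) : Bv κ m β fun x g ρ => @decide (P x g ρ) (i x g ρ) :=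
  Q.cgP h fun _ _ _ => by simp

theorem c (u : Bool) : Bv κ m β fun _ _ _ => u := by
  cases u
  · exact Q.cgP (Q.eq (Q.c 0) (Q.c 1)) fun _ _ _ => by simp
  · exact Q.cgP (Q.eq (Q.c 0) (Q.c 0)) fun _ _ _ => by simp

theorem w (h : Bv κ m β s) : Bv κ m β fun x g ρ => s x g (tl ρ) := Q.wP h

theorem not (h : Bv κ m β s) : Bv κ m β fun x g ρ => !s x g ρ :=
  Q.cgP (Q.not h) fun _ _ _ => by simp

theorem eq (h : Bv κ m β s) (k : Bv κ m β t) : Pq κ m β fun x g ρ => s x g ρ = t x g ρ :=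
  Q.cgP (Q.or (Q.and h k) (Q.and (Q.not h) (Q.not k))) fun x g ρ => by
    cases s x g ρ <;> cases t x g ρ <;> simp

theorem ne (h : Bv κ m β s) (k : Bv κ m β t) : Pq κ m β fun x g ρ => s x g ρ ≠ t x g ρ :=
  Q.not (eq h k)

theorem xor (h : Bv κ m β s) (k : Bv κ m β t) :
    Bv κ m β fun x g ρ => xor (s x g ρ) (t x g ρ) :=
  Q.cgP (ne h k) fun x g ρ => by simp

theorem ite {P : List Bool → Orc → Env → Prop} {i : ∀ x g ρ, Decidable (P x g ρ)}
    (hP : Pq κ m β P) (h : Bv κ m β s) (k : Bv κ m β t) :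
    Bv κ m β fun x g ρ => @ite _ (P x g ρ) (i x g ρ) (s x g ρ) (t x g ρ) :=
  Q.cgP (Q.or (Q.and hP h) (Q.and (Q.not hP) k)) fun x g ρ => by
    by_cases u : P x g ρ <;> simp [u]

/-- From constant to variable sides. -/
theorem var {f : Bool → EN} (h : Bv κ m β s) (k : ∀ u, Nq κ m β (f u)) :
    Nq κ m β fun x g ρ => f (s x g ρ) x g ρ :=
  Q.cg (Q.ite (i := fun _ _ _ => propDecidable _) h (k true) (k false)) fun x g ρ => by
    cases s x g ρ <;> simp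

theorem b2 (h : Bv κ m β s) : Nq κ m β fun x g ρ => b2 (s x g ρ) :=
  var (f := fun u _ _ _ => PD.b2 u) h fun _ => Q.c _

theorem n2 (h : Nq κ m β a) : Bv κ m β fun x g ρ => n2 (a x g ρ) := dec (Q.ne h (Q.c 0))

theorem vm (h : Bv κ m β s) (k : Bv κ m β t) : Nq κ m β fun x g ρ => vm (s x g ρ) (t x g ρ) :=
  Q.add (Q.ite h (Q.c 2) (Q.c 0)) (Q.ite k (Q.c 1) (Q.c 0))

theorem zs (h : Nq κ m β a) : Bv κ m β fun x g ρ => zs (a x g ρ) :=
  dec (Q.eq (Q.mod (Q.sub h (Q.c 1)) (Q.c 2)) (Q.c 1))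

end Bv

/-! ### Static functions of computed arguments -/

namespace QM

theorem n : Nq κ m β fun x _ _ => (im x).n := Q.lift CM.n

theorem be (h : Nq κ m β a) : Nq κ m β fun x g ρ => (im x).β (a x g ρ) :=
  Q.op1 (fun x => (im x).β) (CM.be (K.v 0)) h

theorem nd (h : Nq κ m β a) : Nq κ m β fun x g ρ => (im x).nd (a x g ρ) :=
  Q.op1 (fun x => (im x).nd) (CM.nd (K.v 0)) h

theorem dir (h : Nq κ m β a) : Bv κ m β fun x g ρ => (im x).dir (a x g ρ) :=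
  Q.op1 (fun x d => @ite _ ((im x).dir d = true) (propDecidable _) 1 0) (CM.dir (K.v 0)) h

theorem dist (hs : Bv κ m β s) (ha : Nq κ m β a) (hb : Nq κ m β b) :
    Nq κ m β fun x g ρ => (im x).dist (s x g ρ) (a x g ρ) (b x g ρ) :=
  Bv.var (f := fun u x g ρ => (im x).dist u (a x g ρ) (b x g ρ)) hs fun u =>
    Q.op2 (fun x => (im x).dist u) (CM.dist u (K.v 0) (K.v 1)) ha hb

theorem prx (h : Nq κ m β a) : Pq κ m β fun x g ρ => prx x (a x g ρ) :=
  Q.or (Q.eq h (Q.lift CM.is)) (Q.eq h (Q.lift CM.it'))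

theorem mk' (ha : Nq κ m β a) (hb : Nq κ m β b) (hs : Bv κ m β s) :
    Nq κ m β fun x g ρ => (im x).mk' (a x g ρ) (b x g ρ) (s x g ρ) :=
  Q.add (Q.add (Q.mul (Q.add (Q.mul ha n) hb) (Q.c 2)) (Q.ite hs (Q.c 1) (Q.c 0))) (Q.c 1)

theorem ze (h : Nq κ m β a) : Nq κ m β fun x g ρ => (im x).ze (a x g ρ) :=
  Q.mod (Q.div (Q.sub h (Q.c 1)) (Q.c 2)) n

theorem zl (h : Nq κ m β a) : Nq κ m β fun x g ρ => (im x).zl (a x g ρ) :=
  Q.div (Q.div (Q.sub h (Q.c 1)) (Q.c 2)) n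

theorem hz (h : Nq κ m β a) : Nq κ m β fun x g ρ => (im x).hz (a x g ρ) :=
  mk' (Q.c 0) h (Bv.c false)

theorem colq {N : List Bool → ℕ} (hN : Cn κ fun x _ => N x) (k : ℕ) (ha : Nq κ m β a)
    (hb : Nq κ m β b) : Pq κ m β fun x g ρ => colq (N x) k (a x g ρ) (b x g ρ) :=
  have h : Nq κ m β fun x _ _ => 2 * N x + 3 := Q.add (Q.mul (Q.c 2) (Q.lift hN)) (Q.c 3)
  Q.and (Q.lt hb (Q.lift hN)) (Q.eq (Q.mod (Q.mod (Q.mul (Q.mod (Q.div ha h) h) hb) (Q.mod ha h))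
    (Q.c k)) (Q.div (Q.div ha h) h))

theorem best {f : List Bool → Orc → Env → ℕ → ℕ} (hs : Bv κ m β s) (ha : Nq κ m β a)
    (hf : Fq κ m β f) (hb : Nq κ m β b) (hk : ∀ x g ρ, b x g ρ ≤ m x) :
    Nq κ m β fun x g ρ => (im x).best (s x g ρ) (a x g ρ) (f x g ρ) (b x g ρ) :=
  Q.app (f := f) hf (Q.amin (f := fun x g ρ i => (im x).dist (s x g ρ) (a x g ρ) (f x g ρ i)) hb hk
    (dist hs.w (Q.w ha) hf))

theorem pick {P : List Bool → Orc → Env → ℕ → Prop} (hs : Bv κ m β s) (hb : Nq κ m β b)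
    (hk : ∀ x g ρ, b x g ρ ≤ m x) (hP : P1q κ m β P) :
    Nq κ m β fun x g ρ => pick (s x g ρ) (b x g ρ) (P x g ρ) :=
  Q.ite hs (Q.lst hb hk hP) (Q.sub (Q.sub hb (Q.c 1))
    (Q.lst (P := fun x g ρ i => P x g ρ (b x g ρ - 1 - i)) hb hk
      (Q.appP (Q.wP1 hP) (Q.sub (Q.sub (Q.w hb) (Q.c 1)) (Q.v 0)))))

end QM

/-! ### Segments -/

namespace Sv

variable {A B : ES}

theorem mk (hs : Bv κ m β s) (ht : Bv κ m β t) (ha : Nq κ m β a) (hb : Nq κ m β b) :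
    Sv κ m β fun x g ρ => ⟨s x g ρ, t x g ρ, a x g ρ, b x g ρ⟩ := ⟨hs, ht, ha, hb⟩

theorem w (h : Sv κ m β A) : Sv κ m β fun x g ρ => A x g (tl ρ) :=
  ⟨h.1.w, h.2.1.w, Q.w h.2.2.1, Q.w h.2.2.2⟩

theorem one (h : Nq κ m β a) : Sv κ m β fun x g ρ => one (a x g ρ) :=
  ⟨Bv.c true, Bv.c true, h, h⟩

theorem ite {P : List Bool → Orc → Env → Prop} {i : ∀ x g ρ, Decidable (P x g ρ)}
    (hP : Pq κ m β P) (h : Sv κ m β A) (k : Sv κ m β B) :
    Sv κ m β fun x g ρ => @ite _ (P x g ρ) (i x g ρ) (A x g ρ) (B x g ρ) :=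
  ⟨Q.cgP (Bv.ite (i := i) hP h.1 k.1) fun x g ρ => by by_cases u : P x g ρ <;> simp [u],
    Q.cgP (Bv.ite (i := i) hP h.2.1 k.2.1) fun x g ρ => by by_cases u : P x g ρ <;> simp [u],
    Q.cg (Q.ite (i := i) hP h.2.2.1 k.2.2.1) fun x g ρ => by by_cases u : P x g ρ <;> simp [u],
    Q.cg (Q.ite (i := i) hP h.2.2.2 k.2.2.2) fun x g ρ => by by_cases u : P x g ρ <;> simp [u]⟩

theorem shr (hs : Bv κ m β s) (h : Sv κ m β A) (ha : Nq κ m β a) :
    Sv κ m β fun x g ρ => Pr.shr (im x) (s x g ρ) (A x g ρ) (a x g ρ) :=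
  ite (Q.lt ha QM.n) (ite hs (mk h.1 h.2.1 h.2.2.1 ha) (mk h.1 h.2.1 ha h.2.2.2)) h

end Sv

/-! ### Derived notions -/

namespace PC

variable {P : List Bool → Orc → Env → Pr} (H : PC κ m β P) {A : ES}
include H

theorem own (hs : Bv κ m β s) (ha : Nq κ m β a) :
    Nq κ m β fun x g ρ => (P x g ρ).own (im x) (s x g ρ) (a x g ρ) := QM.nd (QM.be (H.En hs ha))

theorem par (hs : Bv κ m β s) (ha : Nq κ m β a) :
    Nq κ m β fun x g ρ => (P x g ρ).par (im x) (s x g ρ) (a x g ρ) :=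
  Q.ite (Bv.eq (QM.dir (H.nx hs ha)) (QM.dir ha)) (H.nx hs ha) (H.suc hs (QM.be (H.nx hs ha)))

theorem val (hs : Bv κ m β s) (ha : Nq κ m β a) :
    Pq κ m β fun x g ρ => (P x g ρ).val (im x) (a x g ρ) (s x g ρ) :=
  have h := Bv.eq (QM.dir (H.nx hs.not ha)) (QM.dir ha)
  Q.and (H.al ha) (Q.cgP (Q.or
    (Q.and h (Q.ne (H.nx hs (QM.be (H.FT hs ha))) (QM.be (H.FT hs.not (H.par hs.not ha)))))
    (Q.and (Q.not h) (Q.ne (H.suc hs (QM.be ha)) (H.nx hs (H.par hs.not ha))))) fun x g ρ => by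
      split_ifs with u <;> simp [u])

theorem On (ha : Nq κ m β a) (hA : Sv κ m β A) :
    Pq κ m β fun x g ρ => (P x g ρ).On (im x) (a x g ρ) (A x g ρ) :=
  Q.lt (H.F (Bv.c true) (Q.c 4) hA (Sv.one ha)) QM.n

theorem full (hs : Bv κ m β s) (ha : Nq κ m β a) :
    Sv κ m β fun x g ρ => (P x g ρ).full (s x g ρ) (a x g ρ) :=
  ⟨Bv.c false, hs, ha, H.En hs ha⟩

theorem live (ha : Nq κ m β a) : Pq κ m β fun x g ρ => (P x g ρ).live (im x) (a x g ρ) :=
  Q.and (H.val (Bv.zs ha) (QM.ze ha)) (Q.eq (H.cur (Bv.zs ha) (QM.ze ha)) (QM.zl ha))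

end PC

namespace PC

variable {P : List Bool → Orc → Pr} (H : PC κ m β fun x g _ => P x g) {A : ES}
include H

/-- `B x g ρ i` must be computable from `i` (slot 0) and `ρ` (the other slots). -/
theorem fo {B : List Bool → Orc → Env → ℕ → Sg} (hs : Bv κ m β s) (ha : Nq κ m β a)
    (hA : Sv κ m β A) (hB : Sv κ m β fun x g ρ => B x g (tl ρ) (hd (ρ 0))) (hb : Nq κ m β b)
    (hk : ∀ x g ρ, b x g ρ ≤ m x) : Nq κ m β fun x g ρ =>
      (P x g).fo (im x) (s x g ρ) (a x g ρ) (A x g ρ) (B x g ρ) (b x g ρ) :=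
  have h := H.F hs.w.w (Q.w (Q.w ha)) (Sv.shr hs.w.w hA.w.w (Q.v 0)) hB.w
  Q.fold (fun x g ρ i v => if (P x g).F (s x g ρ) (a x g ρ) (Pr.shr (im x) (s x g ρ) (A x g ρ) v)
      (B x g ρ i) < (im x).n then (P x g).F (s x g ρ) (a x g ρ)
        (Pr.shr (im x) (s x g ρ) (A x g ρ) v) (B x g ρ i) else v) (fun x _ _ _ => (im x).n)
    hb hk QM.n (Q.ite (Q.lt h QM.n) h (Q.v 0)) QM.n fun _ _ _ _ _ _ h1 h2 => by
      split_ifs with u
      exacts [u.le.trans h2, h1]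

theorem sl {q : List Bool → ℕ} (hq : Cn κ fun x _ => q x) (ha : Nq κ m β a) (hb : Nq κ m β b)
    (hk : ∀ x g ρ, b x g ρ + 1 ≤ m x) :
    Nq κ m β fun x g ρ => (P x g).sl (im x) (q x) (a x g ρ) (b x g ρ) :=
  Q.it (f := fun x g _ => (P x g).next) (Q.lift hq) (H.next (Q.v 0)) (Q.add hb (Q.c 1)) hk (QM.hz ha)

end PC

theorem consL {l : List Bool → Orc → Env → List ℕ} (k : ℕ) (hk : ∀ x, k + 1 ≤ κ x)
    (ha : Nq κ m β a) (hl : Lq κ m β l) (e : ∀ x g ρ, (l x g ρ).length = k) :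
    Lq κ m β fun x g ρ => a x g ρ :: l x g ρ :=
  Q.cgL (M.bind _ _ ha (M.bind _ _ (Q.wL hl) (M.lift _ ((kitOne κ).tab
    (fun _ ρ i => if i = 0 then hd (ρ 1) else gt (ρ 0) (i - 1)) hk (K.c (k + 1))
    (K.ite (K.eq (K.v 0) (K.c 0)) (K.v 2) (K.gt (K.vL 1) (K.sub (K.v 0) (K.c 1))))))))
    fun x g ρ => by
      refine List.ext_getElem (by simp [tab, e]) fun i h1 h2 => ?_
      cases i with
      | zero => simp [tab, cons, hd]
      | succ i =>
        have : i < (l x g ρ).length := by simpa using h2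
        have e' : tl (cons [a x g ρ] ρ) = ρ := rfl
        simp [tab, cons, gt, e', this]

theorem b2_le (u : Bool) : b2 u ≤ 1 := by cases u <;> simp [b2]

/-- The oracle calls. -/
theorem Cx.o {q : List Bool → ℕ} {c : ℕ} (H : Cx κ m β q c) :
    PC κ m β fun x g _ => ofO (q x) g := by
  have k : ∀ i, i ≤ 10 → ∀ x, i + 1 ≤ κ x := fun i h x => (Nat.succ_le_succ h).trans (H.k x)
  have mn : ∀ {a : EN}, Nq κ m β a → Nq κ m β fun x g ρ => min (a x g ρ) (q x) :=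
    fun h => Q.min h (Q.lift H.cq)
  have c2 : ∀ (o : ℕ) {a : EN}, o ≤ 7 → Nq κ m β a →
      Nq κ m β fun x g ρ => g [o, min (a x g ρ) (q x)] := fun o a ho ha =>
    Q.call (consL 1 (k 1 (by omega)) (Q.c o) (mn ha) fun _ _ _ => rfl) fun x g ρ y hy => by
      have := H.qb x
      have := H.b7 x
      simp only [List.mem_cons, List.not_mem_nil, or_false] at hy
      omega
  have c3 : ∀ (o : ℕ) {s : EB} {a : EN}, o ≤ 7 → Bv κ m β s → Nq κ m β a →
      Nq κ m β fun x g ρ => g [o, b2 (s x g ρ), min (a x g ρ) (q x)] := fun o s a ho hs ha =>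
    Q.call (consL 2 (k 2 (by omega)) (Q.c o) (consL 1 (k 1 (by omega)) hs.b2 (mn ha)
      fun _ _ _ => rfl) fun _ _ _ => rfl) fun x g ρ y hy => by
      have := H.qb x
      have := H.b7 x
      have := b2_le (s x g ρ)
      simp only [List.mem_cons, List.not_mem_nil, or_false] at hy
      omega
  refine ⟨fun h => Q.ne (c2 0 (by omega) h) (Q.c 0), c3 1 (by omega), c3 2 (by omega),
    c3 3 (by omega), c3 4 (by omega), fun {fl r A B} h1 h2 hA hB => ?_, c2 6 (by omega),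
    c3 7 (by omega)⟩
  exact Q.call (consL 10 (k 10 le_rfl) (Q.c 5) (consL 9 (k 9 (by omega)) h1.b2
    (consL 8 (k 8 (by omega)) (mn h2) (consL 7 (k 7 (by omega)) hA.1.b2
    (consL 6 (k 6 (by omega)) hA.2.1.b2 (consL 5 (k 5 (by omega)) (mn hA.2.2.1)
    (consL 4 (k 4 (by omega)) (mn hA.2.2.2) (consL 3 (k 3 (by omega)) hB.1.b2
    (consL 2 (k 2 (by omega)) hB.2.1.b2 (consL 1 (k 1 (by omega)) (mn hB.2.2.1) (mn hB.2.2.2)
    fun _ _ _ => rfl) fun _ _ _ => rfl) fun _ _ _ => rfl) fun _ _ _ => rfl) fun _ _ _ => rfl)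
    fun _ _ _ => rfl) fun _ _ _ => rfl) fun _ _ _ => rfl) fun _ _ _ => rfl) fun _ _ _ => rfl)
    fun x g ρ y hy => by
      have := H.qb x
      have := H.b7 x
      have := b2_le (fl x g ρ)
      have := b2_le (A x g ρ).ex
      have := b2_le (A x g ρ).s
      have := b2_le (B x g ρ).ex
      have := b2_le (B x g ρ).s
      simp only [List.mem_cons, List.not_mem_nil, or_false] at hy
      omega

/-- The direction and the colouring of the round. -/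
theorem Cx.d0 {q : List Bool → ℕ} {c : ℕ} {j w : EN} (hw : Nq κ m β w) :
    Bv κ m β fun x g ρ => (Kx c q x g (j x g ρ) (w x g ρ)).d0 :=
  Bv.dec (Q.eq (Q.mod hw (Q.c 3)) (Q.c 2))

theorem Cx.h {q : List Bool → ℕ} {c : ℕ} (H : Cx κ m β q c) {j w : EN} (hw : Nq κ m β w)
    (ha : Nq κ m β a) : Pq κ m β fun x g ρ => (Kx c q x g (j x g ρ) (w x g ρ)).h (a x g ρ) :=
  QM.colq H.cq _ (Q.div hw (Q.c 3)) ha

theorem n2_b2 (u : Bool) : n2 (b2 u) = u := by cases u <;> simp [n2, b2]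

/-- Coding and decoding a level. -/
theorem ofO_toO {q β : ℕ} (h : q ≤ β) (h7 : 7 ≤ β) (P : Pr) :
    ofO q (nrm 11 β (toO q P)) = P.clip q := by
  have e : ∀ a, min β (min a q) = min a q := fun a => min_eq_right ((min_le_right _ _).trans h)
  have e2 : ∀ u, min β (b2 u) = b2 u := fun u => min_eq_right (by have := b2_le u; omega)
  have e3 : ∀ o, o ≤ 7 → min β o = o := fun o k => min_eq_right (k.trans h7)
  have t : ∀ (l : List ℕ) (i : ℕ), i < 11 → gt (tab 11 fun i => min β (gt l i)) i = min β (gt l i) :=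
    fun l i k => gt_tab _ k
  have g0 : ∀ (u : ℕ) (l : List ℕ), gt (u :: l) 0 = u := fun _ _ => rfl
  have g1 : ∀ (u i : ℕ) (l : List ℕ), gt (u :: l) (i + 1) = gt l i := fun _ _ _ => rfl
  unfold ofO Pr.clip nrm toO
  congr 1
  · funext d
    by_cases u : P.al (min d q) <;> simp [t, g0, g1, e, u]
    omega
  all_goals
    first
    | (funext a b c d; simp [t, g0, g1, e, e2, e3, n2_b2])
    | (funext a b; simp [t, g0, g1, e, e2, e3, n2_b2])
    | (funext a; simp [t, g0, g1, e, e3])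

end Pool.Agent.MP_1a6d78_lc.PD
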