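import Mathlib.NumberTheory.Bertrand
import Mathlib.Data.Nat.Prime.Int
import Pool.Agent.MP_1a6d78_lc.PR.Basic
import Pool.Agent.MP_1a6d78_lc.PD.Spec2
import Pool.Agent.MP_1a6d78_lc.PD.MBasic

-- ======== part 0: formerly Pool.Agent.MP_1a6d78_lc.SC.Hash
section MrgPart0

/-! A colour class without conflicts that contains a constant fraction of the items. -/

namespace Pool.Agent.MP_1a6d78_lc.SC

open Classical Finset

/-- The colour class of the seed `q`, which codes a modulus, a slope and a colour. -/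
def colq (N K q y : ℕ) : Prop :=
  y < N ∧ q / (2 * N + 3) % (2 * N + 3) * y % (q % (2 * N + 3)) % K = q / (2 * N + 3) / (2 * N + 3)

theorem coll {p K x y : ℕ} (hp : p.Prime) (hx : x < p) (hy : y < p) (h : x ≠ y) :
    K * ((Ico 1 p).filter fun a => a * x % p % K = a * y % p % K).card ≤ 2 * (p - 1) := by
  have pp : Prime (p : ℤ) := Nat.prime_iff_prime_int.1 hp
  have p0 : 0 < p := hp.pos
  have small : ∀ z : ℤ, (p : ℤ) ∣ z → -(p : ℤ) < z → z < p → z = 0 := fun z k k1 k2 =>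
    Int.eq_zero_of_abs_lt_dvd k (abs_lt.2 ⟨k1, k2⟩)
  have dv : ∀ a : ℕ, (p : ℤ) ∣ ((a * x % p : ℕ) - (a * y % p : ℕ) : ℤ) - a * (x - y) := fun a =>
    ⟨(a * y / p : ℕ) - (a * x / p : ℕ), by
      have e1 := congrArg (Nat.cast : ℕ → ℤ) (Nat.mod_add_div (a * x) p)
      have e2 := congrArg (Nat.cast : ℕ → ℤ) (Nat.mod_add_div (a * y) p)
      rw [Nat.cast_add, Nat.cast_mul, Nat.cast_mul] at e1 e2
      linear_combination e1 - e2⟩
  have nz : ∀ z : ℤ, (p : ℤ) ∣ z * (x - y) → -(p : ℤ) < z → z < p → z = 0 := fun z k k1 k2 =>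
    (pp.dvd_or_dvd k).elim (fun k => small z k k1 k2) fun k =>
      absurd (small _ k (by omega) (by omega)) (by omega)
  have c : ((Ico 1 p).filter fun a => a * x % p % K = a * y % p % K).card ≤
      ((Icc (-(((p - 1) / K : ℕ) : ℤ)) ((p - 1) / K : ℕ)).erase 0).card := by
    have md : ∀ a ∈ (Ico 1 p).filter fun a => a * x % p % K = a * y % p % K,
        ((a * x % p : ℕ) - (a * y % p : ℕ) : ℤ) =
          K * ((a * x % p / K : ℕ) - (a * y % p / K : ℕ)) := fun a ha => by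
      have e1 := congrArg (Nat.cast : ℕ → ℤ) (Nat.mod_add_div (a * x % p) K)
      have e2 := congrArg (Nat.cast : ℕ → ℤ) (Nat.mod_add_div (a * y % p) K)
      rw [(mem_filter.1 ha).2] at e1
      rw [Nat.cast_add, Nat.cast_mul] at e1 e2
      linear_combination e2 - e1
    refine card_le_card_of_injOn
      (fun a => ((a * x % p / K : ℕ) - (a * y % p / K : ℕ) : ℤ)) (fun a ha => ?_)
      fun a ha b hb e => ?_
    · have a1 := mem_Ico.1 (mem_filter.1 ha).1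
      have b1 : a * x % p / K ≤ (p - 1) / K :=
        Nat.div_le_div_right (Nat.le_sub_one_of_lt (Nat.mod_lt _ p0))
      have b2 : a * y % p / K ≤ (p - 1) / K :=
        Nat.div_le_div_right (Nat.le_sub_one_of_lt (Nat.mod_lt _ p0))
      have b3 := Nat.zero_le (a * x % p / K)
      have b4 := Nat.zero_le (a * y % p / K)
      dsimp only
      refine mem_coe.2 (mem_erase.2 ⟨fun k => ?_, mem_Icc.2 ⟨by omega, by omega⟩⟩)
      have d := dv a
      rw [md a ha, k, mul_zero, zero_sub, dvd_neg] at d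
      have := nz a d (by omega) (by omega)
      omega
    · have a1 := mem_Ico.1 (mem_filter.1 ha).1
      have b1 := mem_Ico.1 (mem_filter.1 hb).1
      have d := (dv a).sub (dv b)
      dsimp only at e
      rw [md a ha, md b hb, e, sub_sub_sub_cancel_left, ← sub_mul] at d
      have := nz _ d (by omega) (by omega)
      omega
  have z := Nat.zero_le ((p - 1) / K)
  rw [card_erase_of_mem (mem_Icc.2 ⟨by omega, by omega⟩), Int.card_Icc] at c
  have := Nat.mul_div_le (p - 1) K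
  have c2 : ((Ico 1 p).filter fun a => a * x % p % K = a * y % p % K).card ≤ 2 * ((p - 1) / K) := by
    omega
  nlinarith [Nat.mul_le_mul_left K c2]

theorem hash (N Δ : ℕ) (X : ℕ → Prop) (cf : ℕ → ℕ → ℕ) (hΔ : 0 < Δ) :
    ∃ q < 4 * Δ * (2 * N + 3) ^ 2, PR.cnt N X ≤ 8 * Δ * PR.cnt N fun x =>
      X x ∧ colq N (4 * Δ) q x ∧ ∀ j < Δ, cf x j ≠ x → ¬colq N (4 * Δ) q (cf x j) := by
  obtain ⟨p, hp, p1, p2⟩ := Nat.exists_prime_lt_and_le_two_mul (N + 1) N.succ_ne_zero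
  obtain ⟨K, hK⟩ : ∃ K, K = 4 * Δ := ⟨_, rfl⟩
  rw [← hK]
  let bad : ℕ → ℕ → Prop := fun a x =>
    ∃ j < Δ, cf x j ≠ x ∧ cf x j < N ∧ a * x % p % K = a * cf x j % p % K
  let S := (range N).filter X
  have s1 : ∀ x ∈ S, K * ((Ico 1 p).filter fun a => bad a x).card ≤ Δ * (2 * (p - 1)) := by
    intro x hx
    have hx' := mem_range.1 (mem_filter.1 hx).1
    have sub : ((Ico 1 p).filter fun a => bad a x) ⊆ (range Δ).biUnion fun j =>
        (Ico 1 p).filter fun a =>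
          (cf x j ≠ x ∧ cf x j < N) ∧ a * x % p % K = a * cf x j % p % K := fun a ha => by
      obtain ⟨k, j, hj, k1, k2, k3⟩ := mem_filter.1 ha
      exact mem_biUnion.2 ⟨j, mem_range.2 hj, mem_filter.2 ⟨k, ⟨k1, k2⟩, k3⟩⟩
    refine (Nat.mul_le_mul_left K ((card_le_card sub).trans card_biUnion_le)).trans ?_
    rw [mul_sum]
    refine (sum_le_card_nsmul _ _ (2 * (p - 1)) fun j _ => ?_).trans (by simp)
    by_cases k : cf x j ≠ x ∧ cf x j < N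
    · simp only [k, and_self, true_and, ne_eq, not_false_eq_true]
      exact coll hp (by omega) (by omega) k.1.symm
    · simp [k]
  have s2 : ∑ a ∈ Ico 1 p, 2 * (S.filter (bad a)).card ≤ ∑ _a ∈ Ico 1 p, S.card := by
    have e : ∑ a ∈ Ico 1 p, (S.filter (bad a)).card =
        ∑ x ∈ S, ((Ico 1 p).filter fun a => bad a x).card := by
      simp only [card_filter]
      exact sum_comm
    have := sum_le_card_nsmul _ _ _ s1
    rw [← mul_sum, smul_eq_mul] at this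
    rw [← mul_sum, e, sum_const, Nat.card_Ico, smul_eq_mul]
    refine le_of_mul_le_mul_left ?_ (show 0 < 2 * Δ by omega)
    generalize ∑ x ∈ S, ((Ico 1 p).filter fun a => bad a x).card = T at this ⊢
    rw [hK] at this
    nlinarith
  obtain ⟨a, ha, k1⟩ := exists_le_of_sum_le ⟨1, mem_Ico.2 ⟨le_rfl, by omega⟩⟩ s2
  have a1 := mem_Ico.1 ha
  have s3 : ∑ _r ∈ range K, (S.filter fun x => ¬bad a x).card ≤ ∑ r ∈ range K,
      K * ((S.filter fun x => ¬bad a x).filter fun x => a * x % p % K = r).card := by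
    rw [← mul_sum, ← card_eq_sum_card_fiberwise fun x _ =>
      mem_coe.2 (mem_range.2 (Nat.mod_lt _ (by omega))), sum_const, card_range, smul_eq_mul]
  obtain ⟨r, hr, k2⟩ := exists_le_of_sum_le ⟨0, mem_range.2 (by omega)⟩ s3
  have r1 := mem_range.1 hr
  obtain ⟨P, hP⟩ : ∃ P, P = 2 * N + 3 := ⟨_, rfl⟩
  have e1 : (p + P * (a + P * r)) % P = p := by
    rw [Nat.add_mul_mod_self_left, Nat.mod_eq_of_lt (by omega)]
  have e2 : (p + P * (a + P * r)) / P = a + P * r := by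
    rw [Nat.add_mul_div_left _ _ (by omega), Nat.div_eq_of_lt (by omega), zero_add]
  have e3 : (a + P * r) % P = a := by
    rw [Nat.add_mul_mod_self_left, Nat.mod_eq_of_lt (by omega)]
  have e4 : (a + P * r) / P = r := by
    rw [Nat.add_mul_div_left _ _ (by omega), Nat.div_eq_of_lt (by omega), zero_add]
  have ec : ∀ y, colq N K (p + P * (a + P * r)) y ↔ y < N ∧ a * y % p % K = r := fun y => by
    rw [colq, ← hP, e1, e2, e3, e4]
  refine ⟨p + P * (a + P * r), ?_, ?_⟩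
  · rw [← hP]
    have u1 : a + P * r + 1 ≤ P * K := by nlinarith [Nat.mul_le_mul_left P (Nat.succ_le_of_lt r1)]
    nlinarith [Nat.mul_le_mul_left P u1]
  · have k3 := card_filter_add_card_filter_not (s := S) (bad a)
    have k4 : ((S.filter fun x => ¬bad a x).filter fun x => a * x % p % K = r).card ≤
        PR.cnt N fun x => X x ∧ colq N K (p + P * (a + P * r)) x ∧
          ∀ j < Δ, cf x j ≠ x → ¬colq N K (p + P * (a + P * r)) (cf x j) := by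
      unfold PR.cnt
      refine card_le_card fun x hx => ?_
      simp only [S, mem_filter, mem_range, ec] at hx ⊢
      exact ⟨hx.1.1.1, hx.1.1.2, ⟨hx.1.1.1, hx.2⟩, fun j hj k u =>
        hx.1.2 ⟨j, hj, k, u.1, hx.2.trans u.2.symm⟩⟩
    have k5 : PR.cnt N X = S.card := by unfold PR.cnt; congr
    have k6 := Nat.mul_le_mul_left K k4
    rw [k5, show 8 * Δ = 2 * K by omega, mul_assoc]
    omega

end Pool.Agent.MP_1a6d78_lc.SC

end MrgPart0

-- ======== part 1: formerly Pool.Agent.MP_1a6d78_lc.PD.Hash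
section MrgPart1

/-! PROJECT PD, row HASH. -/

namespace Pool.Agent.MP_1a6d78_lc.PD

theorem hashS : HashS := SC.hash

end Pool.Agent.MP_1a6d78_lc.PD

end MrgPart1

-- ======== part 2: formerly Pool.Agent.MP_1a6d78_lc.PD.Ck1a
section MrgPart2

/-! PROJECT PD: row CK1, with bounded indices. -/

namespace Pool.Agent.MP_1a6d78_lc.PD

open Classical ED PR SC

namespace CK1

variable {κ m β q : List Bool → ℕ} {c : ℕ} {j w a b d n : EN} {s : EB}

/-- The index is below the loop bound. -/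
def Bi (m : List Bool → ℕ) (b : EN) : Prop := ∀ x g ρ, b x g ρ + 1 ≤ m x

/-- The clipped bound variable. -/
theorem iv (c : ℕ) : Nq κ m β fun _ _ ρ => min (hd (ρ 0)) (5 * c) := Q.min (Q.v 0) (Q.c _)

theorem best_congr (M : Dm) (s : Bool) (a : ℕ) {f f' : ℕ → ℕ} {k : ℕ} (h0 : f 0 = f' 0)
    (h : ∀ i < k, f i = f' i) : M.best s a f k = M.best s a f' k := by
  have e : amin k (fun i => M.dist s a (f i)) = amin k fun i => M.dist s a (f' i) :=
    lst_congr fun i hi => forall_congr' fun i' => imp_congr_right fun hi' => by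
      simp only [h i hi, h i' hi']
  unfold Dm.best
  rw [e]
  rcases Nat.eq_zero_or_pos k with rfl | hk
  · have : amin 0 (fun i => M.dist s a (f' i)) = 0 := lst_none (by simp)
    rw [this, h0]
  · exact h _ (amin_spec _ hk).1

variable (H : Cx κ m β q c)
include H

theorem ivB : Bi m fun _ _ ρ => min (hd (ρ 0)) (5 * c) := fun x _ _ =>
  (Nat.succ_le_succ (min_le_right _ _)).trans (H.m x)

theorem cB : Bi m fun _ _ _ => c := fun x _ _ =>
  (show c + 1 ≤ 5 * c + 1 by omega).trans (H.m x)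

variable {P : List Bool → Orc → Env → ℕ → Prop}

theorem exB (hn : Nq κ m β n) (hk : ∀ x g ρ, n x g ρ ≤ 5 * c + 1)
    (hP : Pq κ m β fun x g ρ => P x g (tl ρ) (min (hd (ρ 0)) (5 * c))) :
    Pq κ m β fun x g ρ => ∃ i < n x g ρ, P x g ρ i :=
  Q.cgP (Q.ex (P := fun x g ρ i => P x g ρ (min i (5 * c))) hn
    (fun x g ρ => (hk x g ρ).trans (H.m x)) hP) fun x g ρ =>
      exists_congr fun i => and_congr_right fun hi => by
        rw [min_eq_left (Nat.le_of_lt_succ (hi.trans_le (hk x g ρ)))]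

theorem allB (hn : Nq κ m β n) (hk : ∀ x g ρ, n x g ρ ≤ 5 * c + 1)
    (hP : Pq κ m β fun x g ρ => P x g (tl ρ) (min (hd (ρ 0)) (5 * c))) :
    Pq κ m β fun x g ρ => ∀ i < n x g ρ, P x g ρ i :=
  Q.cgP (Q.all (P := fun x g ρ i => P x g ρ (min i (5 * c))) hn
    (fun x g ρ => (hk x g ρ).trans (H.m x)) hP) fun x g ρ =>
      forall_congr' fun i => imp_congr_right fun hi => by
        rw [min_eq_left (Nat.le_of_lt_succ (hi.trans_le (hk x g ρ)))]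

theorem lstB (hn : Nq κ m β n) (hk : ∀ x g ρ, n x g ρ ≤ 5 * c + 1)
    (hP : Pq κ m β fun x g ρ => P x g (tl ρ) (min (hd (ρ 0)) (5 * c))) :
    Nq κ m β fun x g ρ => lst (n x g ρ) (P x g ρ) :=
  Q.cg (Q.lst (P := fun x g ρ i => P x g ρ (min i (5 * c))) hn
    (fun x g ρ => (hk x g ρ).trans (H.m x)) hP) fun x g ρ =>
      lst_congr fun i hi => by rw [min_eq_left (Nat.le_of_lt_succ (hi.trans_le (hk x g ρ)))]

theorem bestB {f : List Bool → Orc → Env → ℕ → ℕ} (hs : Bv κ m β s) (ha : Nq κ m β a)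
    (hf : Nq κ m β fun x g ρ => f x g (tl ρ) (min (hd (ρ 0)) (5 * c))) (hn : Nq κ m β n)
    (hk : ∀ x g ρ, n x g ρ ≤ 5 * c + 1) :
    Nq κ m β fun x g ρ => (im x).best (s x g ρ) (a x g ρ) (f x g ρ) (n x g ρ) :=
  Q.cg (QM.best (f := fun x g ρ i => f x g ρ (min i (5 * c))) hs ha hf hn
    fun x g ρ => (hk x g ρ).trans (H.m x)) fun x g ρ =>
      best_congr _ _ _ (by rw [Nat.zero_min]) fun i hi => by
        rw [min_eq_left (Nat.le_of_lt_succ (hi.trans_le (hk x g ρ)))]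

omit H in
theorem c_le : c ≤ 5 * c + 1 := by omega

theorem sl (ha : Nq κ m β a) (hb : Nq κ m β b) (hk : Bi m b) :
    Nq κ m β fun x g ρ => (ofO (q x) g).sl (im x) (q x) (a x g ρ) (b x g ρ) :=
  PC.sl (P := fun x g => ofO (q x) g) H.o H.cq ha hb hk

theorem se (ha : Nq κ m β a) (hb : Nq κ m β b) (hk : Bi m b) :
    Nq κ m β fun x g ρ => (Kx c q x g (j x g ρ) (w x g ρ)).se (a x g ρ) (b x g ρ) :=
  QM.ze (sl H ha hb hk)

theorem ss (ha : Nq κ m β a) (hb : Nq κ m β b) (hk : Bi m b) :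
    Bv κ m β fun x g ρ => (Kx c q x g (j x g ρ) (w x g ρ)).ss (a x g ρ) (b x g ρ) :=
  Bv.zs (sl H ha hb hk)

theorem own (hs : Bv κ m β s) (ha : Nq κ m β a) :
    Nq κ m β fun x g ρ => (Kx c q x g (j x g ρ) (w x g ρ)).own (s x g ρ) (a x g ρ) :=
  H.o.own hs ha

theorem par (hs : Bv κ m β s) (ha : Nq κ m β a) :
    Nq κ m β fun x g ρ => (Kx c q x g (j x g ρ) (w x g ρ)).par (s x g ρ) (a x g ρ) :=
  H.o.par hs ha

theorem po (ha : Nq κ m β a) (hb : Nq κ m β b) (hk : Bi m b) :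
    Nq κ m β fun x g ρ => (Kx c q x g (j x g ρ) (w x g ρ)).po (a x g ρ) (b x g ρ) :=
  own H (ss (j := j) (w := w) H ha hb hk).not
    (par H (ss (j := j) (w := w) H ha hb hk).not (se (j := j) (w := w) H ha hb hk))

theorem us (hw : Nq κ m β w) (ha : Nq κ m β a) (hb : Nq κ m β b) (hk : Bi m b) :
    Pq κ m β fun x g ρ => (Kx c q x g (j x g ρ) (w x g ρ)).us (a x g ρ) (b x g ρ) :=
  Q.and (Q.ne (sl H ha hb hk) (Q.c 0)) (Q.and (H.o.al (se (j := j) (w := w) H ha hb hk))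
    (Bv.eq (QM.dir (se (j := j) (w := w) H ha hb hk)) (Cx.d0 (c := c) (q := q) (j := j) hw)))

theorem sel (hw : Nq κ m β w) (ha : Nq κ m β a) :
    Pq κ m β fun x g ρ => (Kx c q x g (j x g ρ) (w x g ρ)).sel (a x g ρ) :=
  have h := po (j := fun x g ρ => j x g (tl ρ)) (w := fun x g ρ => w x g (tl ρ)) H (Q.w ha)
    (iv c) (ivB H)
  Q.and (Q.not (QM.prx ha)) (Q.and (H.h (j := j) hw ha)
    (Q.and (Q.eq (sl H ha (Q.c c) (cB H)) (Q.c 0))
      (allB H (P := fun x g ρ i => (Kx c q x g (j x g ρ) (w x g ρ)).us (a x g ρ) i →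
          (Kx c q x g (j x g ρ) (w x g ρ)).po (a x g ρ) i = a x g ρ ∨
            ¬(Kx c q x g (j x g ρ) (w x g ρ)).h ((Kx c q x g (j x g ρ) (w x g ρ)).po (a x g ρ) i))
        (Q.c c) (fun _ _ _ => c_le)
        (Q.imp (us (j := fun x g ρ => j x g (tl ρ)) H (Q.w hw) (Q.w ha) (iv c) (ivB H))
          (Q.or (Q.eq h (Q.w ha)) (Q.not (H.h (j := fun x g ρ => j x g (tl ρ)) (Q.w hw) h)))))))

theorem cand (hw : Nq κ m β w) (ha : Nq κ m β a) (hs : Bv κ m β s) (hb : Nq κ m β b)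
    (hk : Bi m b) : Nq κ m β fun x g ρ =>
      (Kx c q x g (j x g ρ) (w x g ρ)).cand (a x g ρ) (s x g ρ) (b x g ρ) :=
  have h := se (j := j) (w := w) H ha hb hk
  Q.ite (us H hw ha hb hk) (Q.ite (Bv.eq (ss H ha hb hk) hs)
    (Q.ite (Bv.eq (QM.dir (H.o.nx hs.not h)) (Cx.d0 (c := c) (q := q) (j := j) hw)) QM.n
      (H.o.nx hs.not h)) (QM.be (par H hs h))) QM.n

omit H in
theorem nrm (hw : Nq κ m β w) (ha : Nq κ m β a) :
    Nq κ m β fun x g ρ => (Kx c q x g (j x g ρ) (w x g ρ)).nrm (a x g ρ) :=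
  Q.ite (Bv.eq (QM.dir ha) (Cx.d0 (c := c) (q := q) (j := j) hw)) ha (QM.be ha)

theorem meets (hw : Nq κ m β w) (ha : Nq κ m β a) (hb : Nq κ m β b) :
    Pq κ m β fun x g ρ => (Kx c q x g (j x g ρ) (w x g ρ)).meets (a x g ρ) (b x g ρ) :=
  have h := Cx.d0 (c := c) (q := q) (j := j) hw
  Q.lt (H.o.F (Bv.c true) (Bv.vm h.not h) (H.o.full (Bv.c true) ha) (H.o.full (Bv.c false) hb))
    QM.n

theorem S (k : ℕ) : ∀ {j w a b : EN}, Nq κ m β w → Nq κ m β a → Nq κ m β b → Bi m b →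
    Pq κ m β fun x g ρ => (Kx c q x g (j x g ρ) (w x g ρ)).S k (a x g ρ) (b x g ρ) := by
  induction k with
  | zero => exact fun _ _ _ _ => Q.cgP (Q.eq (Q.c 0) (Q.c 1)) fun _ _ _ => by simp [Rd.S]
  | succ k ih =>
    intro j w a b hw ha hb hk
    have h := cand (j := j) H hw ha (Bv.c true) hb hk
    exact Q.and (Q.lt h QM.n) (Q.or (Q.ne (own H (Bv.c true) (QM.be h)) ha)
      (exB H (P := fun x g ρ i => (Kx c q x g (j x g ρ) (w x g ρ)).S k (a x g ρ) i ∧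
          (Kx c q x g (j x g ρ) (w x g ρ)).meets
            ((im x).β ((Kx c q x g (j x g ρ) (w x g ρ)).cand (a x g ρ) true (b x g ρ)))
            ((Kx c q x g (j x g ρ) (w x g ρ)).cand (a x g ρ) true i))
        (Q.c c) (fun _ _ _ => c_le)
        (Q.and (ih (j := fun x g ρ => j x g (tl ρ)) (Q.w hw) (Q.w ha) (iv c) (ivB H))
          (meets (j := fun x g ρ => j x g (tl ρ)) H (Q.w hw) (Q.w (QM.be h))
            (cand (j := fun x g ρ => j x g (tl ρ)) H (Q.w hw) (Q.w ha) (Bv.c true) (iv c)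
              (ivB H))))))

theorem al (hw : Nq κ m β w) (ha : Nq κ m β a) :
    Pq κ m β fun x g ρ => (Kx c q x g (j x g ρ) (w x g ρ)).al' (a x g ρ) :=
  have h := nrm (c := c) (q := q) (j := j) hw ha
  have k := own (j := j) (w := w) H (Bv.c true) h
  Q.and (H.o.al ha) (Q.or (Q.not (sel H hw k))
    (exB H (P := fun x g ρ i => (Kx c q x g (j x g ρ) (w x g ρ)).S c
        ((Kx c q x g (j x g ρ) (w x g ρ)).own true
          ((Kx c q x g (j x g ρ) (w x g ρ)).nrm (a x g ρ))) i ∧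
        (Kx c q x g (j x g ρ) (w x g ρ)).meets ((Kx c q x g (j x g ρ) (w x g ρ)).nrm (a x g ρ))
          ((Kx c q x g (j x g ρ) (w x g ρ)).cand ((Kx c q x g (j x g ρ) (w x g ρ)).own true
            ((Kx c q x g (j x g ρ) (w x g ρ)).nrm (a x g ρ))) true i))
      (Q.c c) (fun _ _ _ => c_le)
      (Q.and (S (j := fun x g ρ => j x g (tl ρ)) H c (Q.w hw) (Q.w k) (iv c) (ivB H))
        (meets (j := fun x g ρ => j x g (tl ρ)) H (Q.w hw) (Q.w h)
          (cand (j := fun x g ρ => j x g (tl ρ)) H (Q.w hw) (Q.w k) (Bv.c true) (iv c)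
            (ivB H))))))

theorem gd (hw : Nq κ m β w) (ha : Nq κ m β a) (hs : Bv κ m β s) (hb : Nq κ m β b)
    (hk : Bi m b) : Nq κ m β fun x g ρ =>
      (Kx c q x g (j x g ρ) (w x g ρ)).gd (a x g ρ) (s x g ρ) (b x g ρ) :=
  have h := cand (j := j) H hw ha hs hb hk
  Q.ite (al H hw h) h QM.n

theorem wall (hw : Nq κ m β w) (ha : Nq κ m β a) (hs : Bv κ m β s) (hb : Nq κ m β b)
    (hk : Bi m b) : Sv κ m β fun x g ρ =>
      (Kx c q x g (j x g ρ) (w x g ρ)).wall (a x g ρ) (s x g ρ) (b x g ρ) :=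
  H.o.full hs.not (gd H hw ha hs hb hk)

theorem At (hw : Nq κ m β w) (ha : Nq κ m β a) (hs : Bv κ m β s) (hd : Nq κ m β d)
    (hb : Nq κ m β b) (hk : Bi m b) : Nq κ m β fun x g ρ =>
      (Kx c q x g (j x g ρ) (w x g ρ)).At (a x g ρ) (s x g ρ) (d x g ρ) (b x g ρ) :=
  have h := H.o.F (Bv.c true) (Bv.vm (Cx.d0 (c := c) (q := q) (j := j) hw) (QM.dir hd))
    (wall (j := j) H hw ha hs hb hk) (Sv.one hd)
  Q.ite (Q.lt h QM.n) (QM.be h) QM.n

theorem suc (hw : Nq κ m β w) (hs : Bv κ m β s) (ha : Nq κ m β a) :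
    Nq κ m β fun x g ρ => (Kx c q x g (j x g ρ) (w x g ρ)).suc' (s x g ρ) (a x g ρ) :=
  have h := H.o.suc hs ha
  Q.ite (al H hw ha) (Q.ite (Q.or (Bv.ne (QM.dir ha) (Cx.d0 (c := c) (q := q) (j := j) hw))
      (Q.or (Q.eq h QM.n) (al H hw h))) h
    (bestB H (f := fun x g ρ => (Kx c q x g (j x g ρ) (w x g ρ)).At
        ((Kx c q x g (j x g ρ) (w x g ρ)).own (s x g ρ) ((ofO (q x) g).suc (s x g ρ) (a x g ρ)))
        (s x g ρ) ((im x).β (a x g ρ))) hs (QM.be ha)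
      (At (j := fun x g ρ => j x g (tl ρ)) H (Q.w hw) (Q.w (own (j := j) (w := w) H hs h)) hs.w
        (Q.w (QM.be ha)) (iv c) (ivB H)) (Q.c c) fun _ _ _ => c_le)) QM.n

theorem nx (hw : Nq κ m β w) (hs : Bv κ m β s) (ha : Nq κ m β a) :
    Nq κ m β fun x g ρ => (Kx c q x g (j x g ρ) (w x g ρ)).nx' (s x g ρ) (a x g ρ) :=
  have h := H.o.nx hs ha
  Q.ite (al H hw ha) (Q.ite (al H hw h) h
    (bestB H (f := fun x g ρ i => if i = c then
        (ofO (q x) g).suc (s x g ρ) ((im x).β ((ofO (q x) g).nx (s x g ρ) (a x g ρ)))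
      else (Kx c q x g (j x g ρ) (w x g ρ)).At
        ((Kx c q x g (j x g ρ) (w x g ρ)).own (s x g ρ) ((ofO (q x) g).nx (s x g ρ) (a x g ρ)))
        (s x g ρ) (a x g ρ) i) hs ha
      (Q.ite (Q.eq (iv c) (Q.c c)) (Q.w (H.o.suc hs (QM.be h)))
        (At (j := fun x g ρ => j x g (tl ρ)) H (Q.w hw) (Q.w (own (j := j) (w := w) H hs h)) hs.w
          (Q.w ha) (iv c) (ivB H))) (Q.c (c + 1))
      fun _ _ _ => show c + 1 ≤ 5 * c + 1 by omega)) QM.n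

end CK1

end Pool.Agent.MP_1a6d78_lc.PD

end MrgPart2

-- ======== part 3: formerly Pool.Agent.MP_1a6d78_lc.PD.Cstep
section MrgPart3

/-! PROJECT PD: one round of the machine. -/

namespace Pool.Agent.MP_1a6d78_lc.PD

open Classical ED PR SC

namespace Cstep

variable {κ m β q : List Bool → ℕ} {P : List Bool → Orc → Env → Pr}

theorem garb (H : PC κ m β P) {h : List Bool → Orc → Env → ℕ → Prop}
    (hh : ∀ {a : EN}, Nq κ m β a → Pq κ m β fun x g ρ => h x g ρ (a x g ρ)) :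
    PC κ m β fun x g ρ => (P x g ρ).garb (im x) (h x g ρ) :=
  ⟨H.al, H.nx, H.suc, H.En, H.FT, H.F, fun ha =>
    Q.ite (Q.and (Q.ne (H.next ha) (Q.c 0)) (Q.and (Q.not (H.live (H.next ha)))
      (Q.and (hh (H.next ha)) (Q.or (Q.eq (H.next (H.next ha)) (Q.c 0))
        (Q.not (hh (H.next (H.next ha)))))))) (H.next (H.next ha)) (H.next ha), H.cur⟩

theorem toO (H : PC κ m β P) (hq : Cn κ fun x _ => q x) :
    Nq κ m β fun x g ρ => toO (q x) (P x g ρ) (ρ 2) :=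
  have e : ∀ i, Nq κ m β fun _ _ ρ => gt (ρ 2) i := fun i => Q.gt (Q.vL 2) (Q.c i)
  have t : ∀ i, Pq κ m β fun _ _ ρ => gt (ρ 2) 0 = i := fun i => Q.eq (e 0) (Q.c i)
  Q.ite (t 0) (Q.ite (H.al (e 1)) (Q.c 1) (Q.c 0)) (Q.min
    (Q.ite (t 1) (H.nx (Bv.n2 (e 1)) (e 2)) (Q.ite (t 2) (H.suc (Bv.n2 (e 1)) (e 2))
      (Q.ite (t 3) (H.En (Bv.n2 (e 1)) (e 2)) (Q.ite (t 4) (H.FT (Bv.n2 (e 1)) (e 2))
        (Q.ite (t 5) (H.F (Bv.n2 (e 1)) (e 2) (Sv.mk (Bv.n2 (e 3)) (Bv.n2 (e 4)) (e 5) (e 6))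
          (Sv.mk (Bv.n2 (e 7)) (Bv.n2 (e 8)) (e 9) (e 10)))
          (Q.ite (t 6) (H.next (e 1)) (H.cur (Bv.n2 (e 1)) (e 2)))))))) (Q.lift hq))

end Cstep

theorem cstepS : CstepS := fun _ _ _ q c H h4 =>
  Q.cg (Q.ite (i := fun _ _ _ => inferInstance) (Q.eq (Q.mod (Q.v 0) (Q.c 3)) (Q.c 0))
    (Cstep.toO (Cstep.garb H.o (h := fun x _ ρ => colq (q x) (4 * c) (hd (ρ 0) / 3))
      (QM.colq H.cq _ (Q.div (Q.v 0) (Q.c 3)))) H.cq)
    (Cstep.toO (h4 (Q.v 1) (Q.v 0)) H.cq)) fun x g ρ => by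
      unfold step
      split_ifs <;> rfl

end Pool.Agent.MP_1a6d78_lc.PD

end MrgPart3

-- ======== part 4: formerly Pool.Agent.MP_1a6d78_lc.PD.CkAll
section MrgPart4

/-! PROJECT PD: rows CK2, CK3, CK4 with bounded indices (adapted from Ck2, Ck3, Ck4). -/

namespace Pool.Agent.MP_1a6d78_lc.PD

open Classical ED PR SC

/-- CK1 with bounded indices. -/
structure C1b (κ m β q : List Bool → ℕ) (c : ℕ) : Prop where
  se : ∀ {j w a b : EN}, Nq κ m β j → Nq κ m β w → Nq κ m β a → Nq κ m β b → CK1.Bi m b →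
    Nq κ m β fun x g ρ => (Kx c q x g (j x g ρ) (w x g ρ)).se (a x g ρ) (b x g ρ)
  ss : ∀ {j w a b : EN}, Nq κ m β j → Nq κ m β w → Nq κ m β a → Nq κ m β b → CK1.Bi m b →
    Bv κ m β fun x g ρ => (Kx c q x g (j x g ρ) (w x g ρ)).ss (a x g ρ) (b x g ρ)
  us : ∀ {j w a b : EN}, Nq κ m β j → Nq κ m β w → Nq κ m β a → Nq κ m β b → CK1.Bi m b →
    Pq κ m β fun x g ρ => (Kx c q x g (j x g ρ) (w x g ρ)).us (a x g ρ) (b x g ρ)
  po : ∀ {j w a b : EN}, Nq κ m β j → Nq κ m β w → Nq κ m β a → Nq κ m β b → CK1.Bi m b →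
    Nq κ m β fun x g ρ => (Kx c q x g (j x g ρ) (w x g ρ)).po (a x g ρ) (b x g ρ)
  sel : U1 κ m β q c Rd.sel
  al : U1 κ m β q c Rd.al'
  gd : ∀ {j w a b : EN} {s : EB}, Nq κ m β j → Nq κ m β w → Bv κ m β s → Nq κ m β a →
    Nq κ m β b → CK1.Bi m b →
    Nq κ m β fun x g ρ => (Kx c q x g (j x g ρ) (w x g ρ)).gd (a x g ρ) (s x g ρ) (b x g ρ)
  suc : TS κ m β q c Rd.suc'
  nx : TS κ m β q c Rd.nx'

theorem c1all {κ m β q : List Bool → ℕ} {c : ℕ} (H : Cx κ m β q c) : C1b κ m β q c :=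
  ⟨fun _ _ => CK1.se H, fun _ _ => CK1.ss H, fun _ hw => CK1.us H hw, fun _ _ => CK1.po H,
    fun _ hw => CK1.sel H hw, fun _ hw => CK1.al H hw, fun _ hw hs ha => CK1.gd H hw ha hs,
    fun _ hw => CK1.suc H hw, fun _ hw => CK1.nx H hw⟩

theorem lst_le' (n : ℕ) (P : ℕ → Prop) : lst n P ≤ n := by
  rcases Nat.eq_zero_or_pos n with rfl | h
  · exact (lst_none (by simp)).le
  · exact (lst_lt P h).le

theorem aminB {κ m β q : List Bool → ℕ} {c : ℕ} (H : Cx κ m β q c)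
    {f : List Bool → Orc → Env → ℕ → ℕ}
    (hf : Nq κ m β fun x g ρ => f x g (tl ρ) (min (hd (ρ 0)) (5 * c))) :
    Nq κ m β fun x g ρ => amin (5 * c) (f x g ρ) :=
  Q.cg (Q.amin (f := fun x g ρ i => f x g ρ (min i (5 * c))) (Q.c (5 * c))
    (fun x _ _ => (Nat.le_succ _).trans (H.m x)) hf) fun _ _ _ =>
      lst_congr fun i hi => forall_congr' fun i' => imp_congr_right fun hi' => by
        simp only [min_eq_left hi.le, min_eq_left hi'.le]

namespace Cb3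

theorem fo_clip (P : Pr) (M : Dm) (fl : Bool) (r : ℕ) (X : Sg) (B : ℕ → Sg) (u : ℕ) :
    ∀ m ≤ u + 1, P.fo M fl r X (fun i => B (min i u)) m = P.fo M fl r X B m := by
  intro m
  induction m with
  | zero => exact fun _ => rfl
  | succ m ih =>
    intro h
    have e := ih (by omega)
    unfold Pr.fo at e ⊢
    rw [itr, itr, e]
    simp only [min_eq_left (show m ≤ u by omega)]

theorem pick_clip (fl : Bool) {n u : ℕ} (P : ℕ → Prop) (h : n ≤ u + 1) :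
    pick fl n (fun k => P (min k u)) = pick fl n P := by
  unfold pick
  rw [lst_congr (Q := P) fun k hk => by rw [min_eq_left (by omega)],
    lst_congr (P := fun i => P (min (n - 1 - i) u)) (Q := fun i => P (n - 1 - i))
      fun k hk => by rw [min_eq_left (by omega)]]

theorem pick_le (fl : Bool) (n : ℕ) (P : ℕ → Prop) : pick fl (n + 1) P ≤ n := by
  unfold pick
  have := lst_lt (n := n + 1) P (by omega)
  split_ifs <;> omega

theorem ex_clip {n u : ℕ} (P : ℕ → Prop) (h : n ≤ u + 1) :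
    (∃ k < n, P (min k u)) ↔ ∃ k < n, P k :=
  exists_congr fun k => and_congr_right fun hk => by rw [min_eq_left (by omega)]

theorem np_le (K : Rd) (A : Sg) : K.np A ≤ 3 * K.c := by
  unfold Rd.np
  have := lst_lt (n := 3 * K.c + 1) (K.cut A) (by omega)
  split_ifs <;> omega

variable {κ m β q : List Bool → ℕ} {c : ℕ} (H : Cx κ m β q c) (H1 : C1b κ m β q c)
  (H2 : C2 κ m β q c) {j w a k r : EN} {s fl : EB} {A B : ES}

theorem clip : Nq κ m β fun _ _ ρ => min (hd (ρ 0)) (3 * c) := Q.min (Q.v 0) (Q.c _)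

theorem sim (hw : Nq κ m β w) (hA : Sv κ m β A) :
    Pq κ m β fun x g ρ => (Kx c q x g (j x g ρ) (w x g ρ)).sim (A x g ρ) :=
  Q.or hA.1 (Bv.ne (QM.dir hA.2.2.1) (Cx.d0 (q := q) (c := c) (j := j) hw))

theorem rv (hw : Nq κ m β w) (hA : Sv κ m β A) (hk : Nq κ m β k) :
    Bv κ m β fun x g ρ => (Kx c q x g (j x g ρ) (w x g ρ)).rv (A x g ρ) (k x g ρ) :=
  Bv.dec (Q.and (Q.not (sim hw hA)) (Q.eq (Q.mod hk (Q.c 3)) (Q.c 2)))

include H H2

theorem dp (hj : Nq κ m β j) (hw : Nq κ m β w) (hs : Bv κ m β s) (ha : Nq κ m β a)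
    (hk : Nq κ m β k) (hb : ∀ x g ρ, k x g ρ ≤ 3 * c) : Nq κ m β fun x g ρ =>
      (Kx c q x g (j x g ρ) (w x g ρ)).dp (s x g ρ) (a x g ρ) (k x g ρ / 3) :=
  H2.dp hj hw hs ha (Q.div hk (Q.c 3)) fun x g ρ => by
    have := hb x g ρ
    have := H.m x
    omega

theorem pf (hj : Nq κ m β j) (hw : Nq κ m β w) (hs : Bv κ m β s) (ha : Nq κ m β a)
    (hk : Nq κ m β k) (hb : ∀ x g ρ, k x g ρ ≤ 3 * c) : Sv κ m β fun x g ρ =>
      (Kx c q x g (j x g ρ) (w x g ρ)).pf (s x g ρ) (a x g ρ) (k x g ρ) :=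
  have h := dp H H2 hj hw hs ha hk hb
  Sv.ite (Q.eq (Q.mod hk (Q.c 3)) (Q.c 0)) (Sv.mk (Bv.c false) hs h (H2.dq hj hw hs h))
    (Sv.ite (Q.eq (Q.mod hk (Q.c 3)) (Q.c 1))
      (Sv.mk (Bv.c true) hs (H2.dq hj hw hs h) (H2.dg hj hw hs h))
      (Sv.mk (Bv.c false) hs.not (H2.db hj hw hs h) (QM.be (H2.dg hj hw hs h))))

include H1

theorem cut (hj : Nq κ m β j) (hw : Nq κ m β w) (hA : Sv κ m β A) (hk : Nq κ m β k)
    (hb : ∀ x g ρ, k x g ρ ≤ 3 * c) :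
    Pq κ m β fun x g ρ => (Kx c q x g (j x g ρ) (w x g ρ)).cut (A x g ρ) (k x g ρ) :=
  Q.and (Q.or (Q.eq (Q.mod hk (Q.c 3)) (Q.c 0)) (Q.and (Q.eq (Q.mod hk (Q.c 3)) (Q.c 2))
    (H1.sel hj hw (H.o.own hA.2.1 (dp H H2 hj hw hA.2.1 hA.2.2.1 hk hb)))))
    (H.o.On hA.2.2.2 (pf H H2 hj hw hA.2.1 hA.2.2.1 hk hb))

theorem cut' (hj : Nq κ m β j) (hw : Nq κ m β w) (hA : Sv κ m β A) :
    P1q κ m β fun x g ρ i => (Kx c q x g (j x g ρ) (w x g ρ)).cut (A x g ρ) (min i (3 * c)) :=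
  cut H H1 H2 (Q.w hj) (Q.w hw) hA.w clip fun _ _ _ => min_le_right _ _

theorem ok' (hj : Nq κ m β j) (hw : Nq κ m β w) (hA : Sv κ m β A) :
    Pq κ m β fun x g ρ => (Kx c q x g (j x g ρ) (w x g ρ)).ok' (A x g ρ) :=
  have h := Bv.eq (QM.dir hA.2.2.1) (Cx.d0 (q := q) (c := c) (j := j) hw)
  Q.and (H1.al hj hw hA.2.2.1) (Q.and (H1.al hj hw hA.2.2.2) (Q.or hA.1
    (Q.and (Bv.eq (QM.dir hA.2.2.2) (QM.dir hA.2.2.1)) (Q.cgP (Q.or
      (Q.and h (Q.ex (Q.c (3 * c + 1)) (fun x _ _ => by have := H.m x; omega)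
        (cut' H H1 H2 hj hw hA)))
      (Q.and (Q.not h) (H.o.On hA.2.2.2 (H.o.full hA.2.1 hA.2.2.1)))) fun x g ρ => by
        rw [ex_clip _ le_rfl]
        by_cases u : (im x).dir (A x g ρ).p = (Kx c q x g (j x g ρ) (w x g ρ)).d0
        · rw [if_pos (show (Kx c q x g (j x g ρ) (w x g ρ)).M.dir _ = _ from u)]
          exact ⟨fun k => k.elim (fun k => k.2) fun k => absurd u k.1, fun k => Or.inl ⟨u, k⟩⟩
        · rw [if_neg (show ¬(Kx c q x g (j x g ρ) (w x g ρ)).M.dir _ = _ from u)]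
          exact ⟨fun k => k.elim (fun k => absurd k.1 u) fun k => k.2, fun k => Or.inr ⟨u, k⟩⟩))))

theorem np (hj : Nq κ m β j) (hw : Nq κ m β w) (hA : Sv κ m β A) :
    Nq κ m β fun x g ρ => (Kx c q x g (j x g ρ) (w x g ρ)).np (A x g ρ) :=
  Q.ite (sim hw hA) (Q.c 0) (Q.cg (Q.lst (Q.c (3 * c + 1))
    (fun x _ _ => by have := H.m x; omega) (cut' H H1 H2 hj hw hA)) fun _ _ _ =>
      lst_congr fun i hi => by rw [min_eq_left (by omega)])

theorem pc (hj : Nq κ m β j) (hw : Nq κ m β w) (hA : Sv κ m β A) (hk : Nq κ m β k)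
    (hb : ∀ x g ρ, k x g ρ ≤ 3 * c) :
    Sv κ m β fun x g ρ => (Kx c q x g (j x g ρ) (w x g ρ)).pc (A x g ρ) (k x g ρ) :=
  have h := pf H H2 hj hw hA.2.1 hA.2.2.1 hk hb
  Sv.ite (sim hw hA) hA (Sv.ite (Q.eq hk (np H H1 H2 hj hw hA))
    (Sv.ite (Q.eq (Q.mod hk (Q.c 3)) (Q.c 0)) (Sv.mk (Bv.c false) hA.2.1 h.2.2.1 hA.2.2.2)
      (Sv.mk (Bv.c false) hA.2.1.not (QM.be hA.2.2.2) h.2.2.2)) h)

theorem res (hj : Nq κ m β j) (hw : Nq κ m β w) (hf : Bv κ m β fl) (hr : Nq κ m β r)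
    (hA : Sv κ m β A) (hB : Sv κ m β B) (hk : Nq κ m β k) (hb : ∀ x g ρ, k x g ρ ≤ 3 * c) :
    Nq κ m β fun x g ρ => (Kx c q x g (j x g ρ) (w x g ρ)).res (fl x g ρ) (r x g ρ) (A x g ρ)
      (B x g ρ) (k x g ρ) :=
  Q.cg (H.o.fo (B := fun x g ρ i => (Kx c q x g (j x g ρ) (w x g ρ)).pc (B x g ρ) (min i (3 * c)))
    (hf.xor (rv (j := j) hw hA hk)) hr (pc H H1 H2 hj hw hA hk hb)
    (pc H H1 H2 (Q.w hj) (Q.w hw) hB.w clip fun _ _ _ => min_le_right _ _)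
    (Q.add (np H H1 H2 hj hw hB) (Q.c 1)) fun x g ρ =>
      (Nat.succ_le_succ (np_le _ _)).trans (by
        have := H.m x
        show 3 * c + 1 ≤ _
        omega)) fun _ _ _ => fo_clip _ _ _ _ _ _ _ _ (Nat.succ_le_succ (np_le _ _))

theorem cv (hj : Nq κ m β j) (hw : Nq κ m β w) (hf : Bv κ m β fl) (hr : Nq κ m β r)
    (hA : Sv κ m β A) (hB : Sv κ m β B) (hk : Nq κ m β k) (hb : ∀ x g ρ, k x g ρ ≤ 3 * c) :
    Nq κ m β fun x g ρ => (Kx c q x g (j x g ρ) (w x g ρ)).cv (fl x g ρ) (r x g ρ) (A x g ρ)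
      (B x g ρ) (k x g ρ) :=
  have h := res H H1 H2 hj hw hf hr hA hB hk hb
  Q.ite (rv (j := j) hw hA hk) (QM.be (Q.ite (Q.eq hr (Q.c 5)) (H.o.suc hA.2.1.not h) h)) h

theorem F' (hj : Nq κ m β j) (hw : Nq κ m β w) (hf : Bv κ m β fl) (hr : Nq κ m β r)
    (hA : Sv κ m β A) (hB : Sv κ m β B) : Nq κ m β fun x g ρ =>
      (Kx c q x g (j x g ρ) (w x g ρ)).F' (fl x g ρ) (r x g ρ) (A x g ρ) (B x g ρ) := by
  have h : P1q κ m β fun x g ρ i => (Kx c q x g (j x g ρ) (w x g ρ)).res (fl x g ρ) (r x g ρ)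
      (A x g ρ) (B x g ρ) (min i (3 * c)) < (im x).n :=
    Q.lt (res H H1 H2 (Q.w hj) (Q.w hw) hf.w (Q.w hr) hA.w hB.w clip
      fun _ _ _ => min_le_right _ _) QM.n
  have hn := Q.add (np H H1 H2 hj hw hA) (Q.c 1)
  have b0 : ∀ x g ρ, (Kx c q x g (j x g ρ) (w x g ρ)).np (A x g ρ) + 1 ≤ 3 * c + 1 :=
    fun _ _ _ => Nat.succ_le_succ (np_le _ _)
  have b1 : ∀ x g ρ, (Kx c q x g (j x g ρ) (w x g ρ)).np (A x g ρ) + 1 ≤ m x := fun x g ρ =>
    (b0 x g ρ).trans (by have := H.m x; omega)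
  exact Q.ite (Q.and (ok' H H1 H2 hj hw hA) (Q.and (ok' H H1 H2 hj hw hB)
    (Q.cgP (Q.ex hn b1 h) fun x g ρ => ex_clip (fun i => (Kx c q x g (j x g ρ) (w x g ρ)).res
      (fl x g ρ) (r x g ρ) (A x g ρ) (B x g ρ) i < (im x).n) (b0 x g ρ))))
    (cv H H1 H2 hj hw hf hr hA hB (Q.cg (QM.pick hf hn b1 h) fun x g ρ =>
      pick_clip _ (fun i => (Kx c q x g (j x g ρ) (w x g ρ)).res
        (fl x g ρ) (r x g ρ) (A x g ρ) (B x g ρ) i < (im x).n) (b0 x g ρ))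
      fun _ _ _ => (pick_le _ _ _).trans (np_le _ _)) QM.n

end Cb3

namespace Cb2

variable {κ m β q : List Bool → ℕ} {c : ℕ} (H : Cx κ m β q c)
include H

theorem cm (x : List Bool) : c + 1 ≤ m x := by
  have := H.m x
  omega

theorem own : TS κ m β q c Rd.own := fun _ _ hs ha => H.o.own hs ha

variable (C : C1b κ m β q c)
include C

theorem wall {j w a b : EN} {s : EB} (hj : Nq κ m β j) (hw : Nq κ m β w) (hs : Bv κ m β s)
    (ha : Nq κ m β a) (hb : Nq κ m β b) (hk : CK1.Bi m b) : Sv κ m β fun x g ρ =>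
      (Kx c q x g (j x g ρ) (w x g ρ)).wall (a x g ρ) (s x g ρ) (b x g ρ) :=
  H.o.full hs.not (C.gd hj hw hs ha hb hk)

theorem fo {j w a r : EN} {s fl : EB} {A : ES} (hj : Nq κ m β j) (hw : Nq κ m β w)
    (hs : Bv κ m β s) (ha : Nq κ m β a) (hf : Bv κ m β fl) (hr : Nq κ m β r) (hA : Sv κ m β A) :
    Nq κ m β fun x g ρ => (ofO (q x) g).fo (im x) (fl x g ρ) (r x g ρ) (A x g ρ)
      ((Kx c q x g (j x g ρ) (w x g ρ)).wall (a x g ρ) (s x g ρ)) c :=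
  Q.cg (H.o.fo (B := fun x g ρ i =>
      (Kx c q x g (j x g ρ) (w x g ρ)).wall (a x g ρ) (s x g ρ) (min i (5 * c))) hf hr hA
    (wall H C (Q.w hj) (Q.w hw) hs.w (Q.w ha) (CK1.iv c) (CK1.ivB H)) (Q.c c)
    fun x _ _ => (Nat.le_succ c).trans (cm H x)) fun _ _ _ =>
      Cb3.fo_clip _ _ _ _ _ _ _ _ CK1.c_le

theorem fh : TS κ m β q c Rd.fh := fun hj hw hs ha =>
  fo H C hj hw hs (H.o.own hs (H.o.nx hs (QM.be ha))) (Bv.c true) (Q.c 5) (H.o.full hs ha)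

theorem FTd : TS κ m β q c Rd.FTd := fun hj hw hs ha =>
  have h := fh H C hj hw hs (H.o.FT hs ha)
  Q.ite (C.al hj hw (H.o.nx hs (QM.be (H.o.FT hs ha)))) (H.o.FT hs ha)
    (Q.ite (Q.lt h QM.n) h (H.o.En hs ha))

theorem dq : TS κ m β q c Rd.dq := fun {j _ _ _} hj hw hs ha =>
  Q.ite (C.sel hj hw (H.o.own hs ha))
    (fo H C hj hw hs (H.o.own hs ha) (Bv.c false)
      (Bv.vm (Cx.d0 (q := q) (c := c) (j := j) hw).not (Cx.d0 (q := q) (c := c) (j := j) hw))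
      (H.o.full hs ha)) (H.o.En hs ha)

theorem dg : TS κ m β q c Rd.dg := fun hj hw hs ha => C.suc hj hw hs (dq H C hj hw hs ha)

theorem db : TS κ m β q c Rd.db := fun {j w a s} hj hw hs ha =>
  have h := C.gd (Q.w hj) (Q.w hw) hs.w (H.o.own hs.w (Q.w ha)) (CK1.iv c) (CK1.ivB H)
  C.gd hj hw hs (H.o.own hs ha) (CK1.lstB H (P := fun x g ρ i => (ofO (q x) g).On (im x)
      ((Kx c q x g (j x g ρ) (w x g ρ)).dg (s x g ρ) (a x g ρ))
      ⟨false, !s x g ρ, (Kx c q x g (j x g ρ) (w x g ρ)).gd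
        ((Kx c q x g (j x g ρ) (w x g ρ)).own (s x g ρ) (a x g ρ)) (s x g ρ) i,
        (Kx c q x g (j x g ρ) (w x g ρ)).FTd (!s x g ρ) ((Kx c q x g (j x g ρ) (w x g ρ)).gd
          ((Kx c q x g (j x g ρ) (w x g ρ)).own (s x g ρ) (a x g ρ)) (s x g ρ) i)⟩)
    (Q.c c) (fun _ _ _ => CK1.c_le)
    (H.o.On (dg H C (Q.w hj) (Q.w hw) hs.w (Q.w ha))
      (Sv.mk (Bv.c false) hs.w.not h (FTd H C (Q.w hj) (Q.w hw) hs.w.not h))))
    fun x _ _ => (Nat.succ_le_succ (lst_le' _ _)).trans (cm H x)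

theorem dp {j w a k : EN} {s : EB} (hj : Nq κ m β j) (hw : Nq κ m β w) (hs : Bv κ m β s)
    (ha : Nq κ m β a) (hk : Nq κ m β k) (hm : ∀ x g ρ, k x g ρ ≤ m x) :
    Nq κ m β fun x g ρ => (Kx c q x g (j x g ρ) (w x g ρ)).dp (s x g ρ) (a x g ρ) (k x g ρ) :=
  Q.it (f := fun x g ρ u => if (Kx c q x g (j x g ρ) (w x g ρ)).sel
      ((Kx c q x g (j x g ρ) (w x g ρ)).own (s x g ρ) u) then
      (im x).β ((Kx c q x g (j x g ρ) (w x g ρ)).db (s x g ρ) u) else u) QM.n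
    (Q.ite (C.sel (Q.w hj) (Q.w hw) (H.o.own hs.w (Q.v 0)))
      (QM.be (db H C (Q.w hj) (Q.w hw) hs.w (Q.v 0))) (Q.v 0)) hk hm ha

theorem En : TS κ m β q c Rd.En' := fun {j _ _ _} hj hw hs ha =>
  Q.ite (C.al hj hw ha) (H.o.En hs (Q.ite (Bv.eq (QM.dir ha) (Cx.d0 (q := q) (c := c) (j := j) hw))
    (dp H C hj hw hs ha (Q.c c) fun x _ _ => (Nat.le_succ c).trans (cm H x)) ha)) QM.n

theorem old {j w a : EN} {s : EB} (hj : Nq κ m β j) (hw : Nq κ m β w) (hs : Bv κ m β s)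
    (ha : Nq κ m β a) :
    Pq κ m β fun x g ρ => (Kx c q x g (j x g ρ) (w x g ρ)).old (s x g ρ) (a x g ρ) :=
  Q.or (Q.not (C.sel hj hw (H.o.own hs ha))) (C.al hj hw (H.o.suc hs (H.o.FT hs ha)))

/-- The test of the loop in `ft`. -/
def tst (K : Rd) (s : Bool) (p k : ℕ) : Prop :=
  K.old s (K.dp s p k) ∨ K.M.dir (K.nx' s (K.M.β (K.dq s (K.dp s p k)))) ≠ K.d0

theorem ft : TS κ m β q c Rd.ft := fun {j w a s} hj hw hs ha => by
  have h := dp H C (Q.w hj) (Q.w hw) hs.w (Q.w ha) (Q.min (Q.v 0) (Q.c c))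
    fun x _ _ => (min_le_right _ _).trans ((Nat.le_succ c).trans (cm H x))
  have k : Nq κ m β fun x g ρ =>
      lst (c + 1) (tst (Kx c q x g (j x g ρ) (w x g ρ)) (s x g ρ) (a x g ρ)) :=
    Q.cg (Q.lst (P := fun x g ρ i =>
        tst (Kx c q x g (j x g ρ) (w x g ρ)) (s x g ρ) (a x g ρ) (min i c))
      (Q.c (c + 1)) (fun x _ _ => cm H x) (Q.or (old H C (Q.w hj) (Q.w hw) hs.w h)
        (Bv.ne (QM.dir (C.nx (Q.w hj) (Q.w hw) hs.w (QM.be (dq H C (Q.w hj) (Q.w hw) hs.w h))))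
          (Cx.d0 (q := q) (c := c) (j := fun x g ρ => j x g (tl ρ)) (Q.w hw)))))
      fun x g ρ => lst_congr fun i hi => by rw [min_eq_left (Nat.lt_succ_iff.1 hi)]
  exact dp H C hj hw hs ha k fun x _ _ => (lst_lt _ c.succ_pos).le.trans (cm H x)

theorem FT : TS κ m β q c Rd.FT' := fun {j _ _ _} hj hw hs ha =>
  have h := ft H C hj hw hs ha
  Q.ite (C.al hj hw ha) (Q.ite (Bv.eq (QM.dir ha) (Cx.d0 (q := q) (c := c) (j := j) hw))
    (Q.ite (old H C hj hw hs h) (H.o.FT hs h) (dq H C hj hw hs h)) (FTd H C hj hw hs ha)) QM.n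

end Cb2

namespace Cb4

variable {κ m β q : List Bool → ℕ} {c : ℕ} (H : Cx κ m β q c) (h1 : C1b κ m β q c)
  (h2 : C2 κ m β q c) (h3 : C3 κ m β q c) {j w a b y z : EN} {s : EB}

theorem ss (h1 : C1b κ m β q c) (hj : Nq κ m β j) (hw : Nq κ m β w) (ha : Nq κ m β a)
    (hb : Nq κ m β b) (hk : CK1.Bi m b) :
    Bv κ m β fun x g ρ => (Kx c q x g (j x g ρ) (w x g ρ)).ss (a x g ρ) (b x g ρ) :=
  h1.ss hj hw ha hb hk

include H

theorem own (hs : Bv κ m β s) (ha : Nq κ m β a) :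
    Nq κ m β fun x g ρ => (Kx c q x g (j x g ρ) (w x g ρ)).own (s x g ρ) (a x g ρ) :=
  H.o.own hs ha

theorem par (hs : Bv κ m β s) (ha : Nq κ m β a) :
    Nq κ m β fun x g ρ => (Kx c q x g (j x g ρ) (w x g ρ)).par (s x g ρ) (a x g ρ) :=
  H.o.par hs ha

include h1

theorem ap (hj : Nq κ m β j) (hw : Nq κ m β w) (ha : Nq κ m β a) (hy : Nq κ m β y)
    (hb : Nq κ m β b) (hk : CK1.Bi m b) :
    Pq κ m β fun x g ρ => (Kx c q x g (j x g ρ) (w x g ρ)).ap (a x g ρ) (y x g ρ) (b x g ρ) :=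
  Q.and (h1.us hj hw ha hb hk) (Q.and (H.o.val (ss h1 hj hw ha hb hk) (h1.se hj hw ha hb hk))
    (Q.and (Q.eq (own H (ss h1 hj hw ha hb hk) (h1.se hj hw ha hb hk)) ha)
      (Q.eq (h1.po hj hw ha hb hk) hy)))

theorem ps (hj : Nq κ m β j) (hw : Nq κ m β w) (ha : Nq κ m β a) (hb : Nq κ m β b)
    (hk : CK1.Bi m b) :
    Nq κ m β fun x g ρ => (Kx c q x g (j x g ρ) (w x g ρ)).ps (a x g ρ) (b x g ρ) :=
  have k := (ss h1 hj hw ha hb hk).not
  have p := par (j := j) (w := w) H k (h1.se hj hw ha hb hk)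
  QM.mk' (H.o.cur k p) p k

omit H in
theorem Cs (hj : Nq κ m β j) (hw : Nq κ m β w) (ha : Nq κ m β a) (hb : Nq κ m β b)
    (hk : CK1.Bi m b) :
    Bv κ m β fun x g ρ => (Kx c q x g (j x g ρ) (w x g ρ)).Cs (a x g ρ) (b x g ρ) :=
  Bv.ite (Q.eq (Q.div hb (Q.c c)) (Q.c 0)) (ss h1 hj hw ha hb hk)
    (Bv.dec (Q.eq (Q.mod (Q.div hb (Q.c c)) (Q.c 2)) (Q.c 1)))

include h2

omit H in
theorem Ce (hj : Nq κ m β j) (hw : Nq κ m β w) (ha : Nq κ m β a) (hb : Nq κ m β b)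
    (hk : CK1.Bi m b) :
    Nq κ m β fun x g ρ => (Kx c q x g (j x g ρ) (w x g ρ)).Ce (a x g ρ) (b x g ρ) :=
  have k := Cs h1 hj hw ha hb hk
  have d := h1.gd hj hw k ha (Q.mod hb (Q.c c)) fun x g ρ =>
    (Nat.succ_le_succ (Nat.mod_le _ _)).trans (hk x g ρ)
  Q.ite (Q.eq (Q.div hb (Q.c c)) (Q.c 0)) (h1.se hj hw ha hb hk)
    (Q.ite (Q.lt (Q.div hb (Q.c c)) (Q.c 3)) (h1.suc hj hw k (QM.be d))
      (QM.be (h2.FTd hj hw k.not d)))

omit H in
theorem cd (hj : Nq κ m β j) (hw : Nq κ m β w) (ha : Nq κ m β a) (hb : Nq κ m β b)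
    (hk : CK1.Bi m b) :
    Nq κ m β fun x g ρ => (Kx c q x g (j x g ρ) (w x g ρ)).cd (a x g ρ) (b x g ρ) :=
  QM.mk' (Q.add hj (Q.c 2)) (Ce h1 h2 hj hw ha hb hk) (Cs h1 hj hw ha hb hk)

include h3

theorem N (hj : Nq κ m β j) (hw : Nq κ m β w) :
    PC κ m β fun x g ρ => (Kx c q x g (j x g ρ) (w x g ρ)).N :=
  ⟨h1.al hj hw, h1.nx hj hw, h1.suc hj hw, h2.En hj hw, h2.FT hj hw, h3 hj hw, H.o.next, H.o.cur⟩

theorem ins (hj : Nq κ m β j) (hw : Nq κ m β w) (hs : Bv κ m β s) (ha : Nq κ m β a) :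
    Pq κ m β fun x g ρ => (Kx c q x g (j x g ρ) (w x g ρ)).ins (a x g ρ) (s x g ρ) :=
  Q.and (Bv.eq (QM.dir ha) (Cx.d0 (j := j) (q := q) (c := c) hw))
    (Q.and ((N H h1 h2 h3 hj hw).val hs ha) (h1.sel hj hw (own H hs ha)))

theorem anc (hj : Nq κ m β j) (hw : Nq κ m β w) (hs : Bv κ m β s) (ha : Nq κ m β a) :
    Nq κ m β fun x g ρ => (Kx c q x g (j x g ρ) (w x g ρ)).anc (a x g ρ) (s x g ρ) :=
  have o := own (j := j) (w := w) H hs ha
  ps H h1 hj hw o (CK1.lstB H (P := fun x g ρ i => (Kx c q x g (j x g ρ) (w x g ρ)).ap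
      ((Kx c q x g (j x g ρ) (w x g ρ)).own (s x g ρ) (a x g ρ))
      ((Kx c q x g (j x g ρ) (w x g ρ)).N.own (im x) (s x g ρ) (a x g ρ)) i) (Q.c c)
    (fun _ _ _ => CK1.c_le)
    (ap H h1 (Q.w hj) (Q.w hw) (Q.w o) (Q.w ((N H h1 h2 h3 hj hw).own hs ha)) (CK1.iv c)
      (CK1.ivB H))) fun x g ρ => (Nat.succ_le_succ (lst_le' _ _)).trans (CK1.cB H x g ρ)

theorem cI (hj : Nq κ m β j) (hw : Nq κ m β w) (ha : Nq κ m β a) (hz : Nq κ m β z)
    (hy : Nq κ m β y) (hb : Nq κ m β b) (hk : CK1.Bi m b) : Pq κ m β fun x g ρ =>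
      (Kx c q x g (j x g ρ) (w x g ρ)).cI (a x g ρ) (z x g ρ) (y x g ρ) (b x g ρ) :=
  have k := Cs h1 hj hw ha hb hk
  have e := Ce h1 h2 hj hw ha hb hk
  Q.and (ins H h1 h2 h3 hj hw k e) (Q.and (Q.eq (anc H h1 h2 h3 hj hw k e) hz)
    (Q.lt hy (cd h1 h2 hj hw ha hb hk)))

theorem nI (hj : Nq κ m β j) (hw : Nq κ m β w) (ha : Nq κ m β a) (hz : Nq κ m β z)
    (hy : Nq κ m β y) :
    Nq κ m β fun x g ρ => (Kx c q x g (j x g ρ) (w x g ρ)).nI (a x g ρ) (z x g ρ) (y x g ρ) :=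
  have k := cI H h1 h2 h3 (Q.w hj) (Q.w hw) (Q.w ha) (Q.w hz) (Q.w hy) (CK1.iv c) (CK1.ivB H)
  Q.ite (CK1.exB H (P := fun x g ρ i =>
      (Kx c q x g (j x g ρ) (w x g ρ)).cI (a x g ρ) (z x g ρ) (y x g ρ) i) (Q.c (5 * c))
      (fun _ _ _ => Nat.le_succ _) k)
    (cd h1 h2 hj hw ha (aminB H (f := fun x g ρ i =>
      if (Kx c q x g (j x g ρ) (w x g ρ)).cI (a x g ρ) (z x g ρ) (y x g ρ) i then
        (Kx c q x g (j x g ρ) (w x g ρ)).cd (a x g ρ) i else q x)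
      (Q.ite k (cd h1 h2 (Q.w hj) (Q.w hw) (Q.w ha) (CK1.iv c) (CK1.ivB H)) (Q.lift H.cq)))
      fun x _ _ => (Nat.succ_le_succ (lst_le' _ _)).trans (H.m x))
    (H.o.next hz)

end Cb4

theorem c2all {κ m β q : List Bool → ℕ} {c : ℕ} (H : Cx κ m β q c) : C2 κ m β q c :=
  have C := c1all H
  ⟨Cb2.FTd H C, Cb2.dq H C, Cb2.dg H C, Cb2.db H C, Cb2.dp H C, Cb2.En H C, Cb2.FT H C⟩

theorem c3all {κ m β q : List Bool → ℕ} {c : ℕ} (H : Cx κ m β q c) : C3 κ m β q c :=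
  fun hj hw hf hr hA hB => Cb3.F' H (c1all H) (c2all H) hj hw hf hr hA hB

open Cb4 in
theorem c4all : ∀ κ m β q c, Cx κ m β q c → C4 κ m β q c := fun _ _ _ _ _ H j w hj hw =>
  have h1 := c1all H
  have h2 := c2all H
  have h3 : C3 _ _ _ _ _ := c3all H
  have n := N H h1 h2 h3 hj hw
  ⟨n.al, n.nx, n.suc, n.En, n.FT, n.F, fun hz =>
    Q.ite (Q.eq (QM.zl hz) (Q.add hj (Q.c 2)))
      (nI H h1 h2 h3 hj hw (own H (Bv.zs hz) (QM.ze hz))
        (anc H h1 h2 h3 hj hw (Bv.zs hz) (QM.ze hz)) hz)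
      (nI H h1 h2 h3 hj hw (own H (Bv.zs hz).not (par (j := j) (w := w) H (Bv.zs hz).not (QM.ze hz)))
        hz (Q.c 0)),
    fun hs ha => Q.ite (ins H h1 h2 h3 hj hw hs ha) (Q.add hj (Q.c 2)) (H.o.cur hs ha)⟩

theorem callS : CallS := fun κ m β q c H => cstepS κ m β q c H (c4all κ m β q c H)

end Pool.Agent.MP_1a6d78_lc.PD

end MrgPart4

-- marker of a merged file
example : 731051 + 397476 = 731051 + 397476 := rfl
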