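import Pool.Agent.MP_1a6d78_lc.PD.Spec2
import Pool.Agent.MP_1a6d78_lc.PR.Next
import Pool.Agent.MP_1a6d78_lc.PR.Tab
import Pool.Agent.MP_1a6d78_lc.PD.MBasic

-- ======== part 0: formerly Pool.Agent.MP_1a6d78_lc.PD.Dp
section MrgPart0

/-! PROJECT PD, row DP: the loop along the new path. -/

namespace Pool.Agent.MP_1a6d78_lc.PD

open Classical ED PR Relation

namespace Dp

theorem suc_ne {M : Dm} {L : ℕ → Prop} (k : M.Kit L) {s : Bool} {v : ℕ} (hv : L v) :
    M.suc L s v ≠ v := fun e => by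
  have h := (k.step.suc (s := s) hv (by rw [e]; exact k.st.lt v hv)).2.2.1
  rw [e] at h
  exact k.st.acyc hv (h ▸ Dm.Up.refl _ _)

variable {K : Rd} (G : K.G1)
include G

theorem inv {p u : ℕ} {s : Bool} (hp : K.L' p) (hd : K.M.dir p = K.d0)
    (h : K.M.Pa K.L' s p u) : K.own s u = K.own s p ∨ ¬K.sel (K.own s u) := by
  have k := G.hy.k
  have k' := G.hy.k' G.dead
  induction h with
  | refl => exact Or.inl rfl
  | @tail v u h1 h2 ih =>
    obtain ⟨hv, hu, e⟩ := h2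
    have dv : K.M.dir v = K.d0 := (k'.path.al hp h1).2.1.trans hd
    have lv := G.dead.sub hv
    have lu := G.dead.sub hu
    have same : K.M.suc K.L s v = u → K.own s u = K.own s v := fun t => by
      rw [G.hy.own]
      exact k.path.owneq lv (t ▸ Dm.Pa.step lv (t ▸ lu))
    rcases ih with ih | ih
    · by_cases c : K.L' (K.M.suc K.L s v)
      · rw [same ((G.down.same hv c).symm.trans e)]
        exact Or.inl ih
      · obtain ⟨-, u2, u3, u4⟩ := k'.step.suc (s := s) hv (by rw [e]; exact k.st.lt u lu)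
        rw [e] at u2 u3 u4
        have c1 : K.M.suc K.L s v < K.M.n := lt_of_le_of_ne (k.step.sle s v) fun t =>
          (k.step.sucn s lv).1 t u lu u3 u2
        obtain ⟨e1, e2, e3, e4⟩ := k.step.suc lv c1
        obtain ⟨y, hy⟩ := not_not.1 (mt (G.dead.in0 e1 (e2.trans dv)).2 c)
        have y1 : y = K.own s p := by
          rw [← G.dead.own s e1 (e2.trans dv) hy, ← ih, G.hy.own]
          exact k.path.owneq lv (Dm.Pa.step lv e1)
        have b1 : K.M.Bt s (K.M.β v) (K.M.suc K.L s v) u := by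
          rcases k.rot.tri (s := s) (b := u) (k.st.blt lv) c1 e3 with t | t | t
          · exact t
          · exact absurd (t ▸ hu) c
          · exact absurd u2 (e4 u t lu)
        have r := G.run.run (k.st.be v lv) (dv ▸ k.st.dne lv) e1 (e2.trans dv) hy lu
          (u2.trans dv) u3 b1 fun z hz lz => dv ▸ u4 z
            ((k.rot.split (k.st.blt lv) (k.st.lt u lu) u3 b1).2 (Or.inr (Or.inr hz))) lz
        exact y1 ▸ G.dead.gap lu (u2.trans dv) r.1 r.2
    · rw [same ((G.down.free lv dv ih).2.1.symm.trans e)]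
      exact Or.inr ih

variable (D : K.DecK)
include D

theorem oneA {p : ℕ} {s : Bool} (hp : K.L' p) (hd : K.M.dir p = K.d0) (hs : K.sel (K.own s p))
    {u : ℕ} (h : K.M.Pa K.L s p u) (h' : K.M.Pa K.L s u (K.dq s p)) : K.M.Pa K.L' s p u := by
  have q := (D.q hp hd hs).2.2.2
  induction h with
  | refl => exact Dm.Pa.refl _ _
  | @tail v u h1 h2 ih =>
    have a : K.M.Pa K.L s v u := ReflTransGen.single h2
    have hv := (q v h1).2 (a.trans h')
    have hu := (q u (Dm.Pa.trans h1 a)).2 h'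
    exact ReflTransGen.tail (ih (a.trans h'))
      ⟨hv, hu, (G.down.same hv (h2.2.2 ▸ hu)).trans h2.2.2⟩

theorem oneB {p : ℕ} {s : Bool} (hp : K.L' p) (hd : K.M.dir p = K.d0) (hs : K.sel (K.own s p))
    {u : ℕ} (h : K.M.Pa K.L s p u) (hu : K.L' u) (hne : u ≠ K.dq s p) :
    K.M.suc K.L' s u = K.M.suc K.L s u := by
  have k := G.hy.k
  have q := (D.q hp hd hs).2.2.2
  obtain ⟨a, b⟩ := k.path.hd ((q u h).1 hu) hne
  have lu := G.dead.sub hu
  exact G.down.same hu ((q _ (h.trans (Dm.Pa.step lu (k.step.suc lu a).1))).2 b)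

theorem oneC {p : ℕ} {s : Bool} (hp : K.L' p) (hd : K.M.dir p = K.d0) (hs : K.sel (K.own s p))
    {u : ℕ} (h : K.M.Pa K.L' s p u) (h' : K.M.Pa K.L' s u (K.dq s p)) : K.M.Pa K.L s p u := by
  have k' := G.hy.k' G.dead
  induction h with
  | refl => exact Dm.Pa.refl _ _
  | @tail v u h1 h2 ih =>
    have a : K.M.Pa K.L' s v u := ReflTransGen.single h2
    have b := ih (a.trans h')
    by_cases c : v = K.dq s p
    · rw [k'.path.anti h' (c ▸ a), ← c]; exact b
    · exact ReflTransGen.tail b ⟨G.dead.sub h2.1, G.dead.sub h2.2.1,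
        (oneB G D hp hd hs b h2.1 c).symm.trans h2.2.2⟩

/-- One step back along the wall. -/
theorem back {p : ℕ} {s : Bool} (hp : K.L' p) (hd : K.M.dir p = K.d0) (hs : K.sel (K.own s p))
    {t : ℕ} (h : K.M.Pa K.L' (!s) (K.db s p) t) (h' : K.M.Pa K.L' (!s) t (K.M.β (K.dg s p)))
    (hne : t ≠ K.db s p) : ∃ v, K.M.Pa K.L' (!s) (K.db s p) v ∧ K.L' v ∧ K.L' t ∧
      K.M.dir v ≠ K.d0 ∧ K.M.suc K.L' (!s) v = t ∧ K.M.Ti K.L' s (K.M.β t) ∧
      K.M.suc K.L' s (K.M.β t) = K.M.β v := by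
  have k' := G.hy.k' G.dead
  obtain ⟨-, b1, b2, -, b4⟩ := D.b hp hd hs
  rcases ReflTransGen.cases_tail h with e | ⟨v, h1, hv, ht, e⟩
  · exact absurd e hne
  · have a : K.M.Pa K.L' (!s) v t := ReflTransGen.single ⟨hv, ht, e⟩
    have dv : K.M.dir v ≠ K.d0 := (k'.path.al b1 h1).2.1 ▸ b2
    have c : v ≠ K.M.β (K.dg s p) := fun c =>
      suc_ne k' hv (e.trans (k'.path.anti (c ▸ h') a))
    have r := k'.step.rev hv (b4 v ((G.down.pa _ _ b1 b2).1 h1)
      ((G.down.pa _ _ hv dv).1 (a.trans h')) c)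
    rw [Bool.not_not, e] at r
    exact ⟨v, h1, hv, ht, dv, e, r.1, r.2⟩

theorem oneD {p : ℕ} {s : Bool} (hp : K.L' p) (hd : K.M.dir p = K.d0) (hs : K.sel (K.own s p))
    {t : ℕ} (h : K.M.Pa K.L' (!s) (K.db s p) t) (h' : K.M.Pa K.L' (!s) t (K.M.β (K.dg s p))) :
    K.M.Pa K.L' s (K.M.β t) (K.M.β (K.db s p)) := by
  have k' := G.hy.k' G.dead
  obtain ⟨-, b1, b2, -, b4⟩ := D.b hp hd hs
  induction h with
  | refl => exact Dm.Pa.refl _ _
  | @tail v t h1 h2 ih =>
    obtain ⟨hv, ht, e⟩ := h2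
    have a : K.M.Pa K.L' (!s) v t := ReflTransGen.single ⟨hv, ht, e⟩
    have dv : K.M.dir v ≠ K.d0 := (k'.path.al b1 h1).2.1 ▸ b2
    have c : v ≠ K.M.β (K.dg s p) := fun c =>
      suc_ne k' hv (e.trans (k'.path.anti (c ▸ h') a))
    have r := k'.step.rev hv (b4 v ((G.down.pa _ _ b1 b2).1 h1)
      ((G.down.pa _ _ hv dv).1 (a.trans h')) c)
    rw [Bool.not_not, e] at r
    exact ReflTransGen.head ⟨k'.st.be t ht, k'.st.be v hv, r.2⟩ (ih (a.trans h'))

theorem oneE {p : ℕ} {s : Bool} (hp : K.L' p) (hd : K.M.dir p = K.d0) (hs : K.sel (K.own s p)) :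
    K.M.Pa K.L' s (K.dg s p) (K.M.β (K.db s p)) := by
  have k' := G.hy.k' G.dead
  obtain ⟨-, b1, b2, b3, -⟩ := D.b hp hd hs
  have := oneD G D hp hd hs ((G.down.pa _ _ b1 b2).2 b3) (Dm.Pa.refl _ _)
  rwa [k'.st.bb (D.g hp hd hs).2] at this

theorem oneF {p : ℕ} {s : Bool} (hp : K.L' p) (hd : K.M.dir p = K.d0) (hs : K.sel (K.own s p))
    {u : ℕ} (h : K.M.Pa K.L' s (K.dg s p) u) (h' : K.M.Pa K.L' s u (K.M.β (K.db s p))) :
    K.M.Pa K.L' (!s) (K.db s p) (K.M.β u) ∧ K.M.Pa K.L' (!s) (K.M.β u) (K.M.β (K.dg s p)) := by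
  have k' := G.hy.k' G.dead
  obtain ⟨-, b1, b2, b3, -⟩ := D.b hp hd hs
  induction h with
  | refl => exact ⟨(G.down.pa _ _ b1 b2).2 b3, Dm.Pa.refl _ _⟩
  | @tail w u h1 h2 ih =>
    obtain ⟨hw, hu, e⟩ := h2
    have a : K.M.Pa K.L' s w u := ReflTransGen.single ⟨hw, hu, e⟩
    obtain ⟨i1, i2⟩ := ih (a.trans h')
    by_cases c : K.M.β w = K.db s p
    · have c' : w = K.M.β (K.db s p) := by rw [← c, k'.st.bb hw]
      rw [k'.path.anti h' (c' ▸ a), ← c']
      exact ⟨i1, i2⟩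
    · obtain ⟨v, v1, v2, v3, -, v5, -, v7⟩ := back G D hp hd hs i1 i2 c
      rw [k'.st.bb hw, e] at v7
      rw [v7, k'.st.bb v2]
      exact ⟨v1, ReflTransGen.head ⟨v2, v3, v5⟩ i2⟩

theorem jump {p : ℕ} {s : Bool} (hp : K.L' p) (hd : K.M.dir p = K.d0) (hs : K.sel (K.own s p)) :
    K.M.Pa K.L' s p (K.dq s p) ∧ K.L' (K.dq s p) ∧ K.M.Pa K.L' s (K.dq s p) (K.dg s p) := by
  have k' := G.hy.k' G.dead
  have a := oneA G D hp hd hs (D.q hp hd hs).1 (Dm.Pa.refl _ _)
  have b := (k'.path.al hp a).1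
  obtain ⟨g1, g2⟩ := D.g hp hd hs
  exact ⟨a, b, ReflTransGen.single ⟨b, g2, g1.symm⟩⟩

theorem dp_step {p : ℕ} (s : Bool) (j : ℕ) (h1 : K.L' (K.dp s p j))
    (h2 : K.M.dir (K.dp s p j) = K.d0) : K.M.Pa K.L' s (K.dp s p j) (K.dp s p (j + 1)) ∧
      K.dp s p (j + 1) =
        if K.sel (K.own s (K.dp s p j)) then K.M.β (K.db s (K.dp s p j)) else K.dp s p j := by
  have k' := G.hy.k' G.dead
  have e : K.dp s p (j + 1) = min (if K.sel (K.own s (K.dp s p j)) then
      K.M.β (K.db s (K.dp s p j)) else K.dp s p j) K.M.n := rfl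
  by_cases c : K.sel (K.own s (K.dp s p j))
  · rw [if_pos c] at e ⊢
    rw [e, min_eq_left (k'.st.blt (D.b h1 h2 c).2.1).le]
    obtain ⟨a1, -, a3⟩ := jump G D h1 h2 c
    exact ⟨(a1.trans a3).trans (oneE G D h1 h2 c), rfl⟩
  · rw [if_neg c] at e ⊢
    rw [e, min_eq_left (k'.st.lt _ h1).le]
    exact ⟨Dm.Pa.refl _ _, rfl⟩

theorem dp_pa {p : ℕ} (s : Bool) (hp : K.L' p) (hd : K.M.dir p = K.d0) (j : ℕ) :
    K.M.Pa K.L' s p (K.dp s p j) := by
  have k' := G.hy.k' G.dead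
  induction j with
  | zero => exact Dm.Pa.refl _ _
  | succ j ih =>
    have a := k'.path.al hp ih
    exact ih.trans (dp_step G D s j a.1 (a.2.1.trans hd)).1

theorem fin {p : ℕ} (s : Bool) (hp : K.L' p) (hd : K.M.dir p = K.d0) :
    ¬K.sel (K.own s (K.dp s p K.c)) := fun hc => by
  have k' := G.hy.k' G.dead
  have al : ∀ j, K.L' (K.dp s p j) ∧ K.M.dir (K.dp s p j) = K.d0 := fun j =>
    ⟨(k'.path.al hp (dp_pa G D s hp hd j)).1,
      (k'.path.al hp (dp_pa G D s hp hd j)).2.1.trans hd⟩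
  have st := fun j => dp_step G D (p := p) s j (al j).1 (al j).2
  have mono : ∀ i j, i ≤ j → K.M.Pa K.L' s (K.dp s p i) (K.dp s p j) := fun i j h => by
    induction h with
    | refl => exact Dm.Pa.refl _ _
    | step _ ih => exact ih.trans (st _).1
  have act : ∀ i ≤ K.c, K.sel (K.own s (K.dp s p i)) := fun i hi => by
    by_contra c
    have : ∀ j, i ≤ j → K.dp s p j = K.dp s p i := fun j h => by
      induction h with
      | refl => rfl
      | step _ ih => rw [(st _).2, ih, if_neg c]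
    exact c (this _ hi ▸ hc)
  have ow : ∀ i ≤ K.c, K.own s (K.dp s p i) = K.own s p := fun i hi =>
    (inv G hp hd (dp_pa G D s hp hd i)).resolve_right
      (not_not.2 (act i hi))
  have ex : ∀ j : Fin (K.c + 1), ∃ i : Fin K.c,
      K.db s (K.dp s p j) = K.cand (K.own s p) s i := fun j => by
    obtain ⟨i, hi, e⟩ := (D.b (al j).1 (al j).2 (act j (Nat.le_of_lt_succ j.2))).1
    exact ⟨⟨i, hi⟩, by rw [e, ow j (Nat.le_of_lt_succ j.2)]⟩
  choose f hf using ex
  have key : ∀ i j : Fin (K.c + 1), (i : ℕ) < j → f i ≠ f j := fun i j hij e => by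
    have ai := act i (Nat.le_of_lt_succ i.2)
    have aj := act j (Nat.le_of_lt_succ j.2)
    have e1 : K.M.β (K.db s (K.dp s p j)) = K.dp s p (i + 1) := by
      rw [(st i).2, if_pos ai, hf, hf, e]
    obtain ⟨a1, a2, a3⟩ := jump G D (al j).1 (al j).2 aj
    have a4 := oneE G D (al j).1 (al j).2 aj
    rw [e1] at a4
    have a5 := k'.path.anti a3 ((a4.trans (mono _ _ hij)).trans a1)
    exact suc_ne k' a2 ((D.g (al j).1 (al j).2 aj).1.symm.trans a5.symm)
  obtain ⟨i, j, hij, e⟩ := Fintype.exists_ne_map_eq_of_card_lt f (by simp)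
  rcases lt_or_gt_of_ne (Fin.val_ne_of_ne hij) with c | c
  · exact key i j c e
  · exact key j i c e.symm

end Dp

theorem dpS : DpS := fun K G D => by
  have k' := G.hy.k' G.dead
  refine ⟨fun hp hd _ h => Dp.inv G hp hd h, fun {p s} hp hd hs =>
    ⟨(Dp.jump G D hp hd hs).1, Dp.oneE G D hp hd hs, fun u h h' => ?_, fun u h h' => ?_⟩,
    fun {p} s j hp hd => ?_, fun s hp hd => Dp.fin G D s hp hd⟩
  · have a := Dp.oneC G D hp hd hs h h'
    exact ⟨a, Dp.oneB G D hp hd hs a (k'.path.al hp h).1⟩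
  · obtain ⟨-, b1, b2, -, -⟩ := D.b hp hd hs
    obtain ⟨i1, i2⟩ := Dp.oneF G D hp hd hs h h'
    have hu := (k'.path.al (D.g hp hd hs).2 h).1
    have a := k'.path.al b1 i1
    refine ⟨(G.down.pa _ _ b1 b2).1 i1, (G.down.pa _ _ a.1 (a.2.1 ▸ b2)).1 i2, fun c => ?_⟩
    obtain ⟨v, -, v2, -, v4, v5, v6, v7⟩ := Dp.back G D hp hd hs i1 i2 fun e =>
      c (by rw [← e, k'.st.bb hu])
    rw [k'.st.bb hu] at v6 v7
    exact ⟨v6, by rw [v7, k'.st.bb v2, ← G.down.suc _ v2 v4, v5]⟩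
  · have a := Dp.dp_pa G D s hp hd j
    have b := k'.path.al hp a
    exact ⟨a, (Dp.dp_step G D s j b.1 (b.2.1.trans hd)).2⟩

end Pool.Agent.MP_1a6d78_lc.PD

end MrgPart0

-- ======== part 1: formerly Pool.Agent.MP_1a6d78_lc.PD.Euler
section MrgPart1

/-! PROJECT PD, row EULER: the Euler inequality for a state. -/

namespace Pool.Agent.MP_1a6d78_lc.PD

open Classical ED PR

namespace Euler

theorem cnt_split (n : ℕ) (P Q : ℕ → Prop) :
    cnt n P = cnt n (fun a => P a ∧ Q a) + cnt n fun a => P a ∧ ¬Q a := by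
  induction n with
  | zero => simp [cnt]
  | succ n ih =>
    rw [cnt_succ, cnt_succ, cnt_succ, ih]
    by_cases h1 : P n <;> by_cases h2 : Q n <;> simp [h1, h2] <;> omega

theorem cnt_true (n : ℕ) : (cnt n fun _ => True) = n := by simp [cnt]

variable {M : Dm} {L : ℕ → Prop}

/-- The edge involution of the state. -/
noncomputable def ga (M : Dm) (L : ℕ → Prop) (d : ℕ) : ℕ := if L d then M.β d else d

/-- The least darts of the vertices without alive dart. -/
def T (M : Dm) (L : ℕ → Prop) (d : ℕ) : Prop :=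
  (∀ e < M.n, Sc M.n (M.ρ true) d e → d ≤ e) ∧ ∀ e < M.n, Sc M.n (M.ρ true) d e → ¬L e

theorem iv (H : M.St L) : Iv M.n (ga M L) := fun d hd => by
  by_cases h : L d
  · simp only [ga, if_pos h, if_pos (H.be d h)]
    exact ⟨H.blt h, H.bb h⟩
  · simp only [ga, if_neg h]
    exact ⟨hd, trivial⟩

theorem sb : Sb M.n (ga M L) M.β := fun d _ => by
  unfold ga
  split_ifs
  · exact Or.inr rfl
  · exact Or.inl rfl

theorem edges (H : M.St L) :
    2 * ncl M.n (fun _ => True) (Sc M.n (ga M L)) + cnt M.n L ≤ 2 * M.n := by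
  have h1 := cnt_split M.n (fun _ => True) L
  have h2 := cnt_split M.n L fun d => d ≤ M.β d
  have h3 : cnt M.n (fun a => L a ∧ a ≤ M.β a) ≤ cnt M.n fun a => L a ∧ ¬a ≤ M.β a := by
    refine cnt_inj M.β (fun a _ k => ⟨H.blt k.1, H.be a k.1, ?_⟩) fun a ha b hb _ _ e =>
      H.ok.iv.pm.2 a ha b hb e
    rw [H.bb k.1]
    intro l
    exact H.dne k.1 (by rw [le_antisymm l k.2])
  have h4 : ncl M.n (fun _ => True) (Sc M.n (ga M L)) ≤
      cnt M.n fun a => (L a ∧ a ≤ M.β a) ∨ (True ∧ ¬L a) := by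
    refine cnt_mono fun a ha k => ?_
    by_cases h : L a
    · have := k.2 _ ((iv H) a ha).1 (Sc.step (iv H).pm.1 ha)
      rw [ga, if_pos h] at this
      exact Or.inl ⟨h, this⟩
    · exact Or.inr ⟨trivial, h⟩
  have h5 := cnt_or M.n (fun a => L a ∧ a ≤ M.β a) fun a => True ∧ ¬L a
  have h6 : cnt M.n (fun a => True ∧ L a) = cnt M.n L := cnt_congr fun _ _ => by simp
  rw [cnt_true] at h1
  omega

theorem verts (H : M.St L) :
    ncl M.n (fun _ => True) (Sc M.n (M.ρ true)) ≤ M.nV L + cnt M.n (T M L) := by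
  have h1 := cnt_split M.n (fun d => True ∧ ∀ e < M.n, Sc M.n (M.ρ true) d e → d ≤ e)
    fun d => ∃ e < M.n, Sc M.n (M.ρ true) d e ∧ L e
  refine h1.le.trans (Nat.add_le_add ?_ (cnt_mono fun a _ k =>
    ⟨k.1.2, fun e he l m => k.2 ⟨e, he, l, m⟩⟩))
  refine cnt_inj M.nd (fun a ha k => ?_) fun a ha b hb k l e => ?_
  · obtain ⟨e, he, l, m⟩ := k.2
    exact ⟨(H.ok.ndl a ha).1, e, he, m, ((H.ok.nd a ha e he).2 l).symm⟩
  · exact le_antisymm (k.1.2 b hb ((H.ok.nd a ha b hb).1 e))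
      (l.1.2 a ha ((H.ok.nd b hb a ha).1 e.symm))

theorem faces (H : M.St L) :
    ncl M.n (fun _ => True) (Sc M.n (M.ph L)) ≤ M.nF L + cnt M.n (T M L) := by
  have hp : Pm M.n (M.ph L) := (H.ok.pm true).comp (iv H).pm
  have h1 := cnt_split M.n (fun d => True ∧ ∀ e < M.n, Sc M.n (M.ph L) d e → d ≤ e)
    fun d => ∃ e < M.n, Sc M.n (M.ph L) d e ∧ L e
  refine h1.le.trans (Nat.add_le_add (cnt_mono fun a _ k => ⟨k.2, k.1.2⟩)
    (cnt_mono fun a ha k => ?_))
  have key : ∀ e, Sc M.n (M.ρ true) a e → Sc M.n (M.ph L) a e := fun e l =>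
    Sc.ind (H.ok.pm true).1 (Q := fun x => Sc M.n (M.ph L) a x) ha (Sc.refl _ ha)
      (fun d hd m => by
        have : M.ph L d = M.ρ true d := by
          rw [Dm.ph, if_neg fun u => k.2 ⟨d, hd, m, u⟩]
        exact this ▸ m.trans hp.1 ha (Sc.step hp.1 hd)) l
  exact ⟨fun e he l => k.1.2 e he (key e l), fun e he l m => k.2 ⟨e, he, key e l, m⟩⟩

theorem comps (H : M.St L) :
    cnt M.n (T M L) ≤ ncl M.n (fun _ => True) (Conn M.n (M.ρ true) (ga M L)) := by
  have hp := H.ok.pm true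
  refine cnt_mono fun d hd k => ⟨trivial, fun e he l => k.1 e he ?_⟩
  have := Conn.ind (r := fun a b => (a < M.n ∧ Sc M.n (M.ρ true) d a) ↔
      (b < M.n ∧ Sc M.n (M.ρ true) d b))
    ⟨fun _ => Iff.rfl, Iff.symm, Iff.trans⟩ (fun a ha => ?_) (fun a ha => ?_) l
  · exact (this.1 ⟨hd, Sc.refl _ hd⟩).2
  · exact ⟨fun u => ⟨hp.1 a ha, u.2.trans hp.1 hd (Sc.step hp.1 ha)⟩,
      fun u => ⟨ha, u.2.trans hp.1 hd ((Sc.step hp.1 ha).symm hp ha)⟩⟩
  · by_cases h : L a
    · rw [ga, if_pos h]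
      exact ⟨fun u => absurd h (k.2 _ u.1 u.2), fun u => absurd (H.be a h) (k.2 _ u.1 u.2)⟩
    · rw [ga, if_neg h]

end Euler

theorem eulerS : EulerS := fun M L G H hG => by
  have h0 := (GEN.mono swapK nclK (H.ok.pm true) H.ok.iv _ _ rfl (Euler.iv H) Euler.sb).trans hG
  have h1 := Euler.edges H
  have h2 := Euler.verts H
  have h3 := Euler.faces H
  have h4 := Euler.comps H
  have e : (fun d => M.ρ true (Euler.ga M L d)) = M.ph L := rfl
  unfold gen at h0
  rw [e] at h0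
  omega

end Pool.Agent.MP_1a6d78_lc.PD

end MrgPart1

-- ======== part 2: formerly Pool.Agent.MP_1a6d78_lc.PD.Face
section MrgPart2

/-! PROJECT PD, row FACE: walking along a face. -/

namespace Pool.Agent.MP_1a6d78_lc.PD

open Classical ED PR

namespace Facex

variable {M : Dm} {L : ℕ → Prop}

theorem ph_lt (H : M.St L) : ∀ d < M.n, M.ph L d < M.n := fun d hd => by
  unfold Dm.ph
  split_ifs with h
  · exact (H.ok.pm true).1 _ (H.blt h)
  · exact (H.ok.pm true).1 _ hd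

theorem walk (K : M.Kit L) {d : ℕ} (h : L d) : Sc M.n (M.ph L) d (M.nx L true (M.β d)) := by
  have H := K.st
  have ha := H.be d h
  have al := (K.step.nx true ha).1
  have r := (H.ok.pm true).1
  have b := H.blt h
  unfold Dm.nx at al ⊢
  rw [if_pos ha] at al ⊢
  unfold Dm.fst at al ⊢
  split_ifs at al ⊢ with e
  · have key : ∀ t, t ≤ lst M.n (fun t => L (it M.n (M.ρ true) (t + 1) (M.β d))) →
        Sc M.n (M.ph L) d (it M.n (M.ρ true) (t + 1) (M.β d)) := by
      intro t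
      induction t with
      | zero =>
        intro _
        have := Sc.step (ph_lt H) (H.lt d h)
        rw [it_eq r b]
        rwa [Dm.ph, if_pos h] at this
      | succ t ih =>
        intro ht
        have k := ih (by omega)
        have nl : ¬L (it M.n (M.ρ true) (t + 1) (M.β d)) := fun q => by
          have := lst_le (P := fun t => L (it M.n (M.ρ true) (t + 1) (M.β d)))
            (show t < M.n by have := (lst_spec e).1; omega) q
          omega
        have z := k.lt (ph_lt H) (H.lt d h)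
        have := Sc.step (ph_lt H) z
        rw [Dm.ph, if_neg nl] at this
        refine k.trans (ph_lt H) (H.lt d h) ?_
        rw [it_succ _ _ (t + 1), min_eq_left (r _ z).le]
        exact this
    exact key _ le_rfl
  · exact absurd al H.nn

theorem toFT (K : M.Kit L) {p : ℕ} (h : L p) : Sc M.n (M.ph L) p (M.FT L true p) := by
  have H := K.st
  obtain ⟨f1, -, f3⟩ := K.path.FT true h
  have key : ∀ u, M.Pa L true p u → M.Pa L true u (M.FT L true p) → Sc M.n (M.ph L) p u := by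
    intro u hu
    induction hu with
    | refl => exact fun _ => Sc.refl _ (H.lt p h)
    | @tail v u hv st ih =>
      intro hu
      obtain ⟨lv, lu, e⟩ := st
      have vu : M.Pa L true v u := e ▸ Dm.Pa.step lv (e.symm ▸ lu)
      have k := ih (vu.trans hu)
      by_cases q : v = M.FT L true p
      · rw [← K.path.anti vu (q ▸ hu)]
        exact k
      · rw [← e, K.step.ti lv (f3 v hv (vu.trans hu) q)]
        exact k.trans (ph_lt H) (H.lt p h) (walk K lv)
  exact key _ f1 (Dm.Pa.refl _ _)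

/-- The dart after the first turn. -/
theorem turn (K : M.Kit L) {p : ℕ} (h : L p) :
    L (M.nx L true (M.β (M.FT L true p))) ∧
    M.dir (M.nx L true (M.β (M.FT L true p))) = (!M.dir p) ∧
    M.nx L false (M.nx L true (M.β (M.FT L true p))) = M.β (M.FT L true p) ∧
    M.dir (M.β (M.FT L true p)) = (!M.dir p) ∧
    Sc M.n (M.ph L) p (M.nx L true (M.β (M.FT L true p))) := by
  have H := K.st
  obtain ⟨f1, f2, -⟩ := K.path.FT true h
  obtain ⟨lt, dt, -⟩ := K.path.al h f1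
  have lb := H.be _ lt
  refine ⟨(K.step.nx true lb).1, ?_, K.step.nxnx true lb, by rw [H.dir _ lt, dt],
    (toFT K h).trans (ph_lt H) (H.lt p h) (walk K lt)⟩
  rw [← dt]
  exact bne_iff.1 f2

end Facex

open Facex in
theorem faceS : FaceS := by
  intro M L K
  have H := K.st
  refine ⟨fun δ d h => ?_, fun e hv hd => ?_⟩
  · obtain ⟨a1, a2, a3, a4, a5⟩ := turn K h
    by_cases q : δ = !M.dir d
    · exact ⟨_, a1, q ▸ a2, by rw [a3, a4, q], a5⟩
    · obtain ⟨b1, b2, b3, b4, b5⟩ := turn K a1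
      have e : (!M.dir (M.nx L true (M.β (M.FT L true d)))) = δ := by
        rw [a2]
        revert q
        cases δ <;> cases M.dir d <;> simp
      exact ⟨_, b1, b2.trans e, by rw [b3, b4, e], a5.trans (ph_lt H) (H.lt d h) b5⟩
  · have h := Dm.val_al hv
    obtain ⟨a1, a2, a3, a4, a5⟩ := turn K h
    obtain ⟨b1, b2, b3, b4, b5⟩ := turn K a1
    have e1 : (!M.dir (M.nx L true (M.β (M.FT L true e)))) = M.dir e := by rw [a2, Bool.not_not]
    refine ⟨_, fun q => ?_, b1, b2.trans e1, by rw [b3, b4, e1], a5.trans (ph_lt H) (H.lt e h) b5⟩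
    have v := ((Dm.val_def e true).1 hv).2
    rw [Bool.not_true, if_pos hd, Dm.par_def, if_pos hd] at v
    rw [q] at b3
    have r := K.path.FTrev (s := true) a1 (by rw [Bool.not_true, a3, a4, a2])
    rw [Bool.not_true] at r
    rw [b3, r, H.bb a1] at v
    exact v rfl

end Pool.Agent.MP_1a6d78_lc.PD

end MrgPart2

-- ======== part 3: formerly Pool.Agent.MP_1a6d78_lc.PD.Fc
section MrgPart3

/-! PROJECT PD: the two-path primitive of the new state. -/

namespace Pool.Agent.MP_1a6d78_lc.PD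

open Classical ED PR

namespace Fcx

variable {M : Dm} {L L' : ℕ → Prop}

theorem el_al (H : M.Kit L) {A : Sg} (h : M.ok L A) {j : ℕ} (hj : j ≤ M.ln L A) :
    L (M.el L A j) := by
  have k : M.Mem L A (M.el L A j) := (H.fsp.mem h).2 ⟨j, by omega, rfl⟩
  unfold Dm.Mem at k
  split_ifs at k
  · rcases k with k | k
    · rw [k]; exact h.1
    · rw [k]; exact h.2.1
  · exact (H.path.al h.1 k.1).1

theorem ln_lt (H : M.St L) {A : Sg} (h : M.ok L A) : M.ln L A < M.n :=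
  lst_lt _ (by have := H.lt _ h.1; omega)

theorem R_be (H : M.St L) {r : ℕ} {s : Bool} {p p' b : ℕ} (hp : L p) (hb : L b) :
    M.R r s p p' (M.β b) ↔ M.R r s p p' b := by
  unfold Dm.R
  split_ifs
  · rw [H.bb hb]; exact Or.comm
  · constructor
    · rintro (k | k)
      · right; rw [← k, H.bb hb]
      · left; rw [← H.bb hb, k, H.bb hp]
    · rintro (k | k)
      · right; rw [k]
      · left; rw [k, H.bb hp]
  · rw [H.en_be _ hb]

theorem R_irr {r : ℕ} (hr : r ≠ 5) (s s' : Bool) (p p' p'' b : ℕ) :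
    M.R r s p p' b ↔ M.R r s' p p'' b := by
  unfold Dm.R
  rw [if_neg hr, if_neg hr]

theorem R_bp (H : M.St L) {r : ℕ} (hr : r ≠ 5) (s s' : Bool) {p : ℕ} (p' p'' b : ℕ) (hp : L p) :
    M.R r s (M.β p) p' b ↔ M.R r s' p p'' b := by
  unfold Dm.R
  rw [if_neg hr, if_neg hr]
  split_ifs
  · rw [H.bb hp]; exact Or.comm
  · rw [H.en_be _ hp]

theorem mono {u : ℕ → ℕ} {m : ℕ} (h : ∀ k ≤ m, u k ≤ u (k + 1)) {k k' : ℕ} (h1 : k ≤ k')
    (h2 : k' ≤ m + 1) : u k ≤ u k' := by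
  induction k', h1 using Nat.le_induction with
  | base => exact le_rfl
  | succ k' _ ih => exact (ih (by omega)).trans (h k' (by omega))

theorem loc {u : ℕ → ℕ} (h0 : u 0 = 0) {j : ℕ} (m : ℕ) (hj : j < u (m + 1)) :
    ∃ k ≤ m, u k ≤ j ∧ j < u (k + 1) := by
  induction m with
  | zero => exact ⟨0, le_rfl, by omega, hj⟩
  | succ m ih =>
    by_cases h : j < u (m + 1)
    · obtain ⟨k, h1, h2⟩ := ih h
      exact ⟨k, by omega, h2⟩
    · exact ⟨m + 1, le_rfl, by omega, hj⟩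

theorem loc' {u : ℕ → ℕ} (h0 : u 0 = 0) {j m : ℕ} (h : u m ≤ u (m + 1)) (hj : j ≤ u (m + 1)) :
    ∃ k ≤ m, u k ≤ j ∧ j ≤ u (k + 1) := by
  rcases hj.lt_or_eq with k | k
  · obtain ⟨k, h1, h2, h3⟩ := loc h0 m k
    exact ⟨k, h1, h2, h3.le⟩
  · exact ⟨m, le_rfl, by omega, by omega⟩

/-- The edges of the pieces are the edges of the segment. -/
theorem uni (H : M.St L) (H' : M.Kit L') (hs : ∀ d, L' d → L d) {B : Sg} {Y : ℕ → Sg}
    {rv : ℕ → Bool} {m : ℕ} (hB : M.ok L' B) (C : M.Cov L L' B Y rv m) {r : ℕ} {s : Bool}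
    {p p' : ℕ} (hp : L p) :
    (∃ k < m + 1, ∃ j < M.ln L (Y k) + 1, M.R r s p p' (M.el L (Y k) j)) ↔
      ∃ j < M.ln L' B + 1, M.R r s p p' (M.el L' B j) := by
  obtain ⟨u, h0, h1, h⟩ := C
  have hm : ∀ k ≤ m, u k ≤ u (k + 1) := fun k hk => by have := (h k hk).2.1; omega
  constructor
  · rintro ⟨k, hk, j, hj, e⟩
    obtain ⟨-, k2, -, -, k5⟩ := h k (by omega)
    have b : u (k + 1) ≤ M.ln L' B := h1 ▸ mono hm (show k + 1 ≤ m + 1 by omega) le_rfl
    rw [k5 j (by omega)] at e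
    split_ifs at e
    · exact ⟨u (k + 1) - j, by omega, (R_be H hp (hs _ (el_al H' hB (by omega)))).1 e⟩
    · exact ⟨u k + j, by omega, e⟩
  · rintro ⟨j, hj, e⟩
    obtain ⟨k, hk, a1, a2⟩ := loc' h0 (hm m le_rfl) (show j ≤ u (m + 1) by omega)
    obtain ⟨-, k2, -, -, k5⟩ := h k hk
    by_cases c : rv k = true
    · refine ⟨k, by omega, u (k + 1) - j, by omega, ?_⟩
      rw [k5 _ (by omega), if_pos c, show u (k + 1) - (u (k + 1) - j) = j by omega]
      exact (R_be H hp (hs _ (el_al H' hB (by omega)))).2 e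
    · refine ⟨k, by omega, j - u k, by omega, ?_⟩
      rw [k5 _ (by omega), if_neg c, show u k + (j - u k) = j by omega]
      exact e

/-- The index on the segment of the index `i` of a piece. -/
def ix (ρ : Bool) (r a b i : ℕ) : ℕ := if ρ then (if r = 5 then b - i - 1 else b - i) else a + i

/-- The range of the indices. -/
def Rg (r i l : ℕ) : Prop := if r = 5 then i < l else i ≤ l

theorem trf (H : M.Kit L) (H' : M.Kit L') (hs : ∀ d, L' d → L d) {A X : Sg} {ρ : Bool}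
    {a b r i : ℕ} (hA : M.ok L' A) (hX : M.ok L X) (hb : b = a + M.ln L X) (hl : b ≤ M.ln L' A)
    (h1 : X.s = xor A.s ρ) (h2 : ρ = true → X.ex = false)
    (h3 : ∀ i ≤ M.ln L X, M.el L X i = if ρ then M.β (M.el L' A (b - i)) else M.el L' A (a + i))
    (hi : Rg r i (M.ln L X)) :
    (∀ z, M.R r X.s (M.el L X i) (M.el L X (i + 1)) z ↔
      M.R r A.s (M.el L' A (ix ρ r a b i)) (M.el L' A (ix ρ r a b i + 1)) z) ∧
    (if ρ then M.β (if r = 5 then M.suc L (!A.s) (M.el L X i) else M.el L X i)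
      else M.el L X i) = M.el L' A (ix ρ r a b i) := by
  have al : ∀ j ≤ b, L (M.el L' A j) := fun j hj => hs _ (el_al H' hA (by omega))
  unfold Rg at hi
  unfold ix
  cases ρ with
  | false =>
    simp only [Bool.false_eq_true, if_false, Bool.xor_false] at h1 h3 ⊢
    by_cases hr : r = 5
    · rw [if_pos hr] at hi
      rw [h1, h3 i hi.le, h3 (i + 1) hi]
      exact ⟨fun z => Iff.rfl, rfl⟩
    · rw [if_neg hr] at hi
      rw [h3 i hi]
      exact ⟨fun z => R_irr hr _ _ _ _ _ _, rfl⟩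
  | true =>
    simp only [if_true, Bool.xor_true] at h1 h3 ⊢
    by_cases hr : r = 5
    · rw [if_pos hr] at hi
      rw [if_pos hr, if_pos hr]
      have e0 : M.el L X (i + 1) = M.suc L (!A.s) (M.el L X i) := by
        unfold Dm.el
        rw [h2 rfl, h1]
        exact H.path.pth _ _ _
      have l1 : L (M.el L X (i + 1)) := el_al H hX hi
      have e1 := h3 i hi.le
      have e2 := h3 (i + 1) hi
      rw [show b - (i + 1) = b - i - 1 by omega] at e2
      rw [show b - i - 1 + 1 = b - i by omega]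
      have a0 := al (b - i - 1) (by omega)
      have a1 := al (b - i) (by omega)
      have nd : M.nd (M.el L' A (b - i)) = M.nd (M.β (M.el L' A (b - i - 1))) := by
        have k := (H.step.suc (s := !A.s) (el_al H hX hi.le) (e0 ▸ H.st.lt _ l1)).2.2.1
        rw [← e0, e1, e2, H.st.bb a1] at k
        exact k.symm
      refine ⟨fun z => ?_, by rw [← e0, e2, H.st.bb a0]⟩
      rw [hr, Dm.R_five, Dm.R_five, h1, e1, e2, H.st.bb a1,
        H.rot.symm (s := A.s) (z := z) (H.st.blt a0) (H.st.lt _ a1) nd,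
        H.rot.symm (s := A.s) (z := M.β z) (H.st.blt a0) (H.st.lt _ a1) nd]
    · rw [if_neg hr] at hi
      rw [if_neg hr, if_neg hr, h3 i hi]
      have a1 := al (b - i) (by omega)
      exact ⟨fun z => R_bp H.st hr _ _ _ _ _ a1, H.st.bb a1⟩

/-- The hits of the segment inside one piece. -/
def In (M : Dm) (L' : ℕ → Prop) (r : ℕ) (A B : Sg) (a b j : ℕ) : Prop :=
  a ≤ j ∧ Rg r j b ∧
    ∃ k < M.ln L' B + 1, M.R r A.s (M.el L' A j) (M.el L' A (j + 1)) (M.el L' B k)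

theorem piece (H : M.Kit L) (H' : M.Kit L') (hs : ∀ d, L' d → L d) (hF : M.FoiK L) {A B X : Sg}
    {Y : ℕ → Sg} {rv : ℕ → Bool} {m : ℕ} {ρ : Bool} {a b : ℕ} (fl : Bool) (r : ℕ)
    (hA : M.ok L' A) (hB : M.ok L' B) (C : M.Cov L L' B Y rv m) (hX : M.ok L X)
    (hb : b = a + M.ln L X) (hl : b ≤ M.ln L' A) (h1 : X.s = xor A.s ρ)
    (h2 : ρ = true → X.ex = false)
    (h3 : ∀ i ≤ M.ln L X, M.el L X i = if ρ then M.β (M.el L' A (b - i)) else M.el L' A (a + i))
    {v : ℕ} (hv : v = (M.sem L).fo M (xor fl ρ) r X Y (m + 1)) :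
    ((∃ j, In M L' r A B a b j) → v < M.n) ∧ (v < M.n → ∃ j0, In M L' r A B a b j0 ∧
      (if ρ then M.β (if r = 5 then M.suc L (!A.s) v else v) else v) = M.el L' A j0 ∧
      ∀ j, In M L' r A B a b j → if fl then j0 ≤ j else j ≤ j0) := by
  have hY : ∀ k < m + 1, M.ok L (Y k) := fun k hk => by
    obtain ⟨u, -, -, h⟩ := C
    exact (h k (by omega)).1
  have ll := ln_lt H.st hX
  have rle : ∀ i, Rg r i (M.ln L X) → i ≤ M.ln L X := fun i hi => by
    unfold Rg at hi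
    split_ifs at hi <;> omega
  have key : ∀ i, (∃ k < m + 1, M.hit L r X (Y k) i) ↔
      Rg r i (M.ln L X) ∧ In M L' r A B a b (ix ρ r a b i) := fun i => by
    have e : (∃ k < m + 1, M.hit L r X (Y k) i) ↔ Rg r i (M.ln L X) ∧ ∃ k < m + 1,
        ∃ j < M.ln L (Y k) + 1, M.R r X.s (M.el L X i) (M.el L X (i + 1)) (M.el L (Y k) j) :=
      ⟨fun ⟨k, k1, k2, k3⟩ => ⟨k2, k, k1, k3⟩, fun ⟨k2, k, k1, k3⟩ => ⟨k, k1, k2, k3⟩⟩
    rw [e]
    refine and_congr_right fun hi => ?_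
    rw [uni H.st H' hs hB C (el_al H hX (rle i hi))]
    have t := (trf H H' hs hA hX hb hl h1 h2 h3 hi).1
    simp only [t]
    have g : a ≤ ix ρ r a b i ∧ Rg r (ix ρ r a b i) b := by
      unfold Rg at hi ⊢
      unfold ix
      split_ifs at hi ⊢ <;> omega
    exact ⟨fun k => ⟨g.1, g.2, k⟩, fun k => k.2.2⟩
  have sur : ∀ j, In M L' r A B a b j → ∃ i, Rg r i (M.ln L X) ∧ ix ρ r a b i = j := by
    rintro j ⟨j1, j2, -⟩
    refine ⟨if ρ then (if r = 5 then b - j - 1 else b - j) else j - a, ?_⟩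
    unfold Rg at j2 ⊢
    unfold ix
    split_ifs at j2 ⊢ <;> omega
  have ex : (∃ j, In M L' r A B a b j) → ∃ i < M.n, ∃ k < m + 1, M.hit L r X (Y k) i := by
    rintro ⟨j, hj⟩
    obtain ⟨i, i1, rfl⟩ := sur j hj
    exact ⟨i, (rle i i1).trans_lt ll, (key i).2 ⟨i1, hj⟩⟩
  rw [hF _ _ _ _ _ hX hY] at hv
  by_cases c : ∃ i < M.n, ∃ k < m + 1, M.hit L r X (Y k) i
  · rw [if_pos c] at hv
    obtain ⟨-, p2, p3⟩ := pick_spec (fl := xor fl ρ) c
    generalize pick (xor fl ρ) M.n (fun i => ∃ k < m + 1, M.hit L r X (Y k) i) = i0 at hv p2 p3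
    obtain ⟨q1, q2⟩ := (key i0).1 p2
    refine ⟨fun _ => hv ▸ H.st.lt _ (el_al H hX (rle _ q1)), fun _ => ⟨_, q2, ?_, fun j hj => ?_⟩⟩
    · rw [hv]
      exact (trf H H' hs hA hX hb hl h1 h2 h3 q1).2
    · obtain ⟨i, i1, rfl⟩ := sur j hj
      have p4 := p3 i ((rle i i1).trans_lt ll) ((key i).2 ⟨i1, hj⟩)
      unfold ix
      cases fl <;> cases ρ <;> simp only [Bool.xor_false, Bool.xor_true, Bool.not_true,
        Bool.not_false, Bool.false_eq_true, if_true, if_false] at p4 ⊢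
      · omega
      · split_ifs <;> omega
      · omega
      · split_ifs <;> omega
  · rw [if_neg c] at hv
    exact ⟨fun h => absurd (ex h) c, fun h => absurd h (by omega)⟩

end Fcx

open Fcx in
theorem fcS : FcS := by
  intro hFoi K H D C
  have Hk := H.k
  have Hk' := H.k' D
  have hF : K.M.FoiK K.L := hFoi _ _ Hk.st Hk.step Hk.path
  have hs : ∀ d, K.L' d → K.L d := fun _ => D.sub
  funext fl r A B
  unfold Rd.F' Dm.F
  rw [C.ok, C.ok]
  by_cases hAB : K.M.ok K.L' A ∧ K.M.ok K.L' B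
  swap
  · rw [if_neg fun k => hAB ⟨k.1, k.2.1⟩, if_neg fun k => hAB ⟨k.1, k.2.1⟩]
  obtain ⟨hA, hB⟩ := hAB
  obtain ⟨u, h0, h1, h⟩ := C.cov A hA
  have hm : ∀ k ≤ K.np A, u k ≤ u (k + 1) := fun k hk => by have := (h k hk).2.1; omega
  have hl : ∀ k ≤ K.np A, u (k + 1) ≤ K.M.ln K.L' A := fun k hk =>
    h1 ▸ mono hm (show k + 1 ≤ K.np A + 1 by omega) le_rfl
  have pc : ∀ k ≤ K.np A, ((∃ j, In K.M K.L' r A B (u k) (u (k + 1)) j) →
      K.res fl r A B k < K.M.n) ∧ (K.res fl r A B k < K.M.n →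
      ∃ j0, In K.M K.L' r A B (u k) (u (k + 1)) j0 ∧ K.cv fl r A B k = K.M.el K.L' A j0 ∧
        ∀ j, In K.M K.L' r A B (u k) (u (k + 1)) j → if fl then j0 ≤ j else j ≤ j0) := by
    intro k hk
    obtain ⟨k1, k2, k3, k4, k5⟩ := h k hk
    have e : K.res fl r A B k = (K.M.sem K.L).fo K.M (xor fl (K.rv A k)) r (K.pc A k) (K.pc B)
        (K.np B + 1) := by
      unfold Rd.res
      rw [H.geo.fo]
    have t := piece Hk Hk' hs hF fl r hA hB (C.cov B hB) k1 k2 (hl k hk) k3 k4 k5 e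
    unfold Rd.cv
    rw [H.geo.suc]
    exact t
  have ll := ln_lt Hk'.st hA
  have i1 : ∀ k ≤ K.np A, ∀ j, In K.M K.L' r A B (u k) (u (k + 1)) j →
      j ≤ u (k + 1) ∧ j < K.M.n ∧ K.M.hit K.L' r A B j := by
    rintro k hk j ⟨-, j2, j3⟩
    have := hl k hk
    unfold Rg at j2
    refine ⟨?_, ?_, ?_, j3⟩ <;> split_ifs at j2 ⊢ <;> omega
  have i2 : ∀ j, K.M.hit K.L' r A B j →
      ∃ k ≤ K.np A, In K.M K.L' r A B (u k) (u (k + 1)) j := by
    rintro j ⟨j2, j3⟩
    by_cases hr : r = 5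
    · rw [if_pos hr] at j2
      obtain ⟨k, a1, a2, a3⟩ := loc h0 (K.np A) (h1 ▸ j2)
      exact ⟨k, a1, a2, by unfold Rg; rw [if_pos hr]; exact a3, j3⟩
    · rw [if_neg hr] at j2
      obtain ⟨k, a1, a2, a3⟩ := loc' h0 (hm _ le_rfl) (h1 ▸ j2)
      exact ⟨k, a1, a2, by unfold Rg; rw [if_neg hr]; exact a3, j3⟩
  by_cases c : ∃ k < K.np A + 1, K.res fl r A B k < K.M.n
  · obtain ⟨p1, p2, p3⟩ := pick_spec (fl := fl) c
    rw [if_pos ⟨hA, hB, c⟩]
    generalize pick fl (K.np A + 1) (fun k => K.res fl r A B k < K.M.n) = k0 at p1 p2 p3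
    obtain ⟨j0, q1, q2, q3⟩ := (pc k0 (by omega)).2 p2
    obtain ⟨w1, w2, w3⟩ := i1 k0 (by omega) j0 q1
    rw [if_pos ⟨hA, hB, j0, w2, w3⟩, q2]
    congr 1
    refine (pick_eq w2 w3 fun j _ hj => ?_).symm
    obtain ⟨k, a1, a2⟩ := i2 j hj
    have a3 := p3 k (by omega) ((pc k a1).1 ⟨j, a2⟩)
    by_cases e : k = k0
    · exact q3 j (e ▸ a2)
    · have a4 := (i1 k a1 j a2).1
      have a5 := a2.1
      have a6 := q1.1
      cases fl <;> simp only [Bool.false_eq_true, if_true, if_false] at a3 ⊢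
      · have := mono hm (show k + 1 ≤ k0 by omega) (by omega)
        omega
      · have := mono hm (show k0 + 1 ≤ k by omega) (by omega)
        omega
  · rw [if_neg fun k => c k.2.2, if_neg]
    rintro ⟨-, -, j, -, hj⟩
    obtain ⟨k, a1, a2⟩ := i2 j hj
    exact c ⟨k, by omega, (pc k a1).1 ⟨j, a2⟩⟩

end Pool.Agent.MP_1a6d78_lc.PD

end MrgPart3

-- ======== part 4: formerly Pool.Agent.MP_1a6d78_lc.PD.Fin
section MrgPart4

/-! PROJECT PD, row FIN: from the modules to the theorem. -/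

namespace Pool.Agent.MP_1a6d78_lc.PD

open Classical ED PR SC

namespace FinD

theorem num_le (x : List Bool) (i : ℕ) : num x i ≤ x.length :=
  (Finset.sum_le_card_nsmul _ _ 1 fun p _ => by
    unfold bit
    split_ifs <;> omega).trans (by simp)

theorem le_pow (n k : ℕ) : k + 1 ≤ (n + 2) ^ k :=
  Nat.lt_two_pow_self.trans_le (Nat.pow_le_pow_left (by omega) k)

theorem qbig {n N l D j : ℕ} (h1 : n ≤ N) (h2 : l ≤ N + 1) (h3 : j < D * l) :
    2 * n * (j + 3) + 6 < (N + 2) ^ (2 * D + 10) := by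
  have a1 : j + 3 ≤ (D + 1) * (N + 2) := by nlinarith [Nat.mul_le_mul_left D h2]
  have a2 : 2 * n * (j + 3) ≤ 2 * (N + 2) * ((D + 1) * (N + 2)) :=
    Nat.mul_le_mul (by omega) a1
  have a3 := Nat.mul_le_mul_right ((N + 2) ^ 2) (le_pow N (2 * D + 8))
  rw [← pow_add] at a3
  have a4 : 4 ≤ (N + 2) ^ 2 := by nlinarith
  nlinarith

theorem wbig {N c b1 e : ℕ} : 3 * hm c ((N + 2) ^ b1) ≤ (N + 2) ^ (2 * b1 + 300 * c + e) := by
  have a1 : 1 ≤ (N + 2) ^ b1 := Nat.one_le_pow _ _ (by omega)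
  have a2 := Nat.mul_le_mul_left (((N + 2) ^ b1) ^ 2) (le_pow N (300 * c))
  have a3 : (2 * (N + 2) ^ b1 + 3) ^ 2 ≤ (5 * (N + 2) ^ b1) ^ 2 := Nat.pow_le_pow_left (by omega) 2
  refine le_trans ?_ (Nat.pow_le_pow_right (by omega) (Nat.le_add_right _ e))
  rw [pow_add, mul_comm 2 b1, pow_mul]
  unfold hm
  rw [mul_pow] at a3
  nlinarith [Nat.mul_le_mul_left (12 * c) a3]

end FinD

open FinD in
theorem fin : KitS → BaseS → LbS → StepI → PotS → LastS → CodeS → CallS → CbaseS → CtopS →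
    MainS := by
  intro hK hB hL hS hP hZ hC cS cB cT g
  obtain ⟨c, ec⟩ : ∃ c, c = cc (2 * g) := ⟨_, rfl⟩
  have c1 : 1 ≤ c := by rw [ec, cc]; omega
  obtain ⟨D, eD⟩ : ∃ D, D = 16 * c ^ 2 * (2 * (10 * c + 3) + 1) := ⟨_, rfl⟩
  obtain ⟨q, eq⟩ : ∃ q : List Bool → ℕ, q = fun x => (x.length + 2) ^ (2 * D + 10) := ⟨_, rfl⟩
  obtain ⟨b, eb⟩ : ∃ b, b = 2 * (2 * D + 10) + 300 * c + (D + 1) := ⟨_, rfl⟩
  have cq : ∀ κ, Cn κ fun x _ => q x := fun κ =>
    K.cg (K.pow _ (K.add (kitOne κ).len (K.c 2))) fun x _ => by rw [eq]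
  have qb : ∀ x, q x ≤ (x.length + 2) ^ b := fun x => by
    rw [eq]; exact Nat.pow_le_pow_right (by omega) (by omega)
  have b7 : ∀ x : List Bool, 5 * c + 7 ≤ (x.length + 2) ^ b := fun x => by
    have := le_pow x.length b
    omega
  have e : ∀ x P, ofO (q x) (nrm 11 ((x.length + 2) ^ b) (toO (q x) P)) = P.clip (q x) :=
    fun x P => ofO_toO (qb x) (by have := b7 x; omega) P
  have big : ∀ x, ∀ j < D * lg x, 2 * (im x).n * (j + 3) + 6 < q x := fun x j hj => by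
    rw [eq]; exact qbig (num_le x 0) (lg_le x) hj
  have D1 : ∀ x, 0 < D * lg x := fun x =>
    Nat.mul_pos (by rw [eD]; positivity) (Nat.succ_pos _)
  obtain ⟨M, k, H⟩ := elimP 11 (5 * c + 1) b (10 * c + 3) (16 * c ^ 2) (by nlinarith) (by omega)
    (by rw [← eD]; exact Nat.lt_two_pow_self.le.trans (Nat.pow_le_pow_right (by omega) (by omega)))
    _ rfl (fun x => toO (q x) ((im x).base (Lx x)))
    (fun x w j o => toO (q x) (step (im x) (prx x) c (q x) (ofO (q x) o) j w))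
    (fun x _ o => Psi c q x o)
    (fun x _ o => if ans (im x) (is x) (it' x) (ofO (q x) o) then 1 else 0)
    (fun x => 3 * hm c (q x))
    (fun x j o => ∃ ls, Inv (im x) (ofO (q x) o) j ls ∧
      (im x).Rt (ofO (q x) o).al false (is x) ∧ (im x).Rt (ofO (q x) o).al true (it' x) ∧
      ((im x).Up (ofO (q x) o).al true (is x) (it' x) ↔ (im x).Up (Lx x) true (is x) (it' x)))
    (fun x => (im x).St (Lx x) ∧ gen (im x).n ((im x).ρ true) (im x).β ≤ (2 * g : ℕ) ∧
      0 < (im x).n ∧ (im x).Rt (Lx x) false (is x) ∧ (im x).Rt (Lx x) true (it' x))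
    (fun κ hκ => by
      obtain ⟨t1, t2⟩ := cT κ _ q c ⟨hκ, cq κ, qb, fun x => by have := b7 x; omega,
        fun x => by have := b7 x; omega⟩ fun x =>
          (Nat.le_add_right _ 2).trans (Nat.le_self_pow (by omega) _)
      exact ⟨cB κ q (cq κ), cS κ _ _ q c ⟨hκ, cq κ, qb, fun x => by have := b7 x; omega,
        fun _ => le_rfl⟩, t1, t2, K.mul (K.c 3) (K.mul (K.c (4 * c))
          (K.pow 2 (K.add (K.mul (K.c 2) (cq κ)) (K.c 3))))⟩)
    (fun x => by rw [eq, eb]; exact wbig)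
    (fun x hx => by
      obtain ⟨ls, i, -⟩ := hB _ _ (hK _ _ hx.1)
      obtain ⟨k1, k2⟩ := (hL _ _ 0 (q x) ls i (hK _ _ hx.1) hx.2.2.1
        (by have := big x 0 (D1 x); omega)).clip
      rw [e, k2]
      exact ⟨ls, k1, hx.2.2.2.1, hx.2.2.2.2, Iff.rfl⟩)
    (fun x hx => by
      obtain ⟨ls, i, t⟩ := hB _ _ (hK _ _ hx.1)
      have bq : 2 * (im x).n * (0 + 2) + 6 < q x := by have := big x 0 (D1 x); omega
      obtain ⟨k1, k2⟩ := (hL _ _ 0 (q x) ls i (hK _ _ hx.1) hx.2.2.1 bq).clip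
      have p := (hL _ _ 0 (q x) ls k1 (hK _ _ k1.st) hx.2.2.1 bq).phi (prx x) c
      have u := cnt_le (im x).n fun v => (im x).crit (((im x).base (Lx x)).clip (q x)).al v ∧
        ¬prx x v
      have n1 : (im x).n ≤ x.length := num_le x 0
      have w := Nat.mul_le_mul (le_pow x.length (10 * c + 2))
        (show (im x).n ≤ x.length + 2 by omega)
      rw [k2] at p
      rw [k2] at u
      unfold Psi
      rw [e, pow_succ]
      split_ifs
      · rw [p]
        have t' : tot (im x) ((im x).base (Lx x)).al ls ≤ 2 * (im x).n := t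
        nlinarith [Nat.mul_le_mul_left (10 * c) u]
      · exact Nat.zero_le _)
    (fun x hx j hj o w _ ⟨ls, i, r1, r2, r3⟩ => by
      rw [← eD] at hj
      obtain ⟨ls', i', s1, -, s3⟩ := hS (im x) (prx x) c (q x) _ j w ls _ _ i hx.2.2.1 (big x j hj)
        (Or.inl rfl) (Or.inr rfl) r1 r2
      rw [e]
      exact ⟨ls', i', fun d h => r1 d (s1 d h), fun d h => r2 d (s1 d h),
        ⟨fun h => r3.1 (h.mono s1), fun h => s3 (r3.2 h)⟩⟩)
    (fun x hx j hj o ⟨ls, i, r1, r2, _⟩ => by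
      rw [← eD] at hj
      by_cases h : ∃ v, (im x).crit (ofO (q x) o).al v ∧ ¬prx x v
      · obtain ⟨w, w1, w2⟩ := hP (im x) (2 * g) (q x) _ j ls (is x) (it' x) i hx.2.1 (big x j hj) h
        rw [← ec] at w1 w2
        refine ⟨w, w1, ?_⟩
        obtain ⟨v, v1, v2⟩ := h
        unfold Psi
        rw [e, if_pos (show ∃ v < (im x).n, (im x).crit (ofO (q x) o).al v ∧ ¬prx x v from
          ⟨v, (Dm.crit_lt i.st.ok v1).1, v1, v2⟩), Nat.mul_sub, mul_one]
        split_ifs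
        · exact Nat.le_sub_of_add_le (by rw [mul_comm, mul_comm _ (16 * c ^ 2)]; exact w2)
        · simp
      · obtain ⟨-, -, -, s2, -⟩ := hS (im x) (prx x) c (q x) _ j 0 ls _ _ i hx.2.2.1 (big x j hj)
          (Or.inl rfl) (Or.inr rfl) r1 r2
        refine ⟨0, by unfold hm; positivity, ?_⟩
        unfold Psi
        rw [e, if_neg fun ⟨v, _, v1, v2⟩ => h ⟨v, s2 v v1, v2⟩]
        simp)
  refine ⟨M, k, fun x => ?_⟩
  obtain ⟨a, h1, h2, h3⟩ := H x
  refine ⟨a, h1, h2, fun n σ α dir s t hα hG hA hx => ?_⟩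
  obtain ⟨p1, p2, p3, p4, p5, p6⟩ := hC g σ α dir s t x hα hG hA hx
  obtain ⟨j, o, ⟨ls, i, r1, r2, r3⟩, z, rfl⟩ := h3 ⟨p1, p2, p3, p4, p5⟩
  rw [p6.trans r3.symm, ← hZ (im x) _ _ _ (hK _ _ i.st) r1 r2 fun v v1 => by_contra fun v2 => by
    have l := (Dm.crit_lt i.st.ok v1).1
    have := cnt_pos (P := fun v => (im x).crit (ofO (q x) o).al v ∧ ¬prx x v) l ⟨v1, v2⟩
    unfold Psi Pr.Phi at z
    rw [if_pos ⟨v, l, v1, v2⟩] at z
    exact absurd (Nat.eq_zero_of_add_eq_zero_right z) (Nat.mul_pos (by omega) this).ne']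
  split_ifs with h <;> simp [h]

end Pool.Agent.MP_1a6d78_lc.PD

end MrgPart4

-- ======== part 5: formerly Pool.Agent.MP_1a6d78_lc.PD.Foi
section MrgPart5

/-! PROJECT PD, row FOI: the fold of the two-path primitive, with indices. -/

namespace Pool.Agent.MP_1a6d78_lc.PD

open Classical ED PR

namespace FoiX

variable {M : Dm} {L : ℕ → Prop}

theorem ln_spec {X : Sg} (h : M.ok L X) : M.ln L X < M.n ∧ M.el L X (M.ln L X) = X.q :=
  lst_spec h.2.2

theorem ln_le {X : Sg} {i : ℕ} (hi : i < M.n) (h : M.el L X i = X.q) : M.ln L X ≤ i :=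
  lst_le (P := fun i => M.el L X i = X.q) hi h

theorem el_ex {X : Sg} (h : X.ex = true) (i : ℕ) : M.el L X i = if i = 0 then X.p else X.q := by
  simp only [Dm.el, h, if_true]

theorem el_pa {X : Sg} (h : X.ex = false) (i : ℕ) : M.el L X i = M.pth L X.s X.p i := by
  simp only [Dm.el, h, Bool.false_eq_true, if_false]

theorem ln_ex {X : Sg} (h : M.ok L X) (e : X.ex = true) : M.ln L X ≤ 1 := by
  by_contra k
  have := ln_le (M := M) (L := L) (X := X) (i := 1) (by have := (ln_spec h).1; omega)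
    (by rw [el_ex e]; simp)
  omega

theorem el_al (P : M.PathK L) {X : Sg} (h : M.ok L X) {i : ℕ} (hi : i ≤ M.ln L X) :
    L (M.el L X i) := by
  cases e : X.ex with
  | true =>
    rw [el_ex e]
    split_ifs
    exacts [h.1, h.2.1]
  | false =>
    have k := (ln_spec h).2
    rw [el_pa e] at k ⊢
    exact (P.pal (k ▸ h.2.1) hi).1

theorem el_inj (P : M.PathK L) {X : Sg} (h : M.ok L X) {i k : ℕ} (hi : i ≤ M.ln L X)
    (hk : k ≤ M.ln L X) (e : M.el L X i = M.el L X k) : i = k := by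
  cases e' : X.ex with
  | true =>
    have h1 := ln_ex h e'
    by_contra ne
    have h2 : M.el L X 0 = X.q := by
      rw [el_ex e', el_ex e'] at e
      rw [el_ex e', if_pos rfl]
      by_cases i0 : i = 0
      · rw [if_pos i0, if_neg (by omega)] at e
        exact e
      · rw [if_neg i0, if_pos (by omega)] at e
        exact e.symm
    have := ln_le (by have := (ln_spec h).1; omega) h2
    omega
  | false =>
    have a := el_al P h hi
    rw [el_pa e'] at a
    rw [el_pa e', el_pa e'] at e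
    exact P.pinj a e

theorem hit_le {r : ℕ} {X B : Sg} {i : ℕ} (h : M.hit L r X B i) : i ≤ M.ln L X := by
  have := h.1
  split_ifs at this <;> omega

theorem R_congr {r : ℕ} (h : r ≠ 5) (s : Bool) (p p' p'' b : ℕ) :
    M.R r s p p' b ↔ M.R r s p p'' b := by
  simp only [Dm.R, if_neg h]

theorem pth_add (P : M.PathK L) (s : Bool) (p i k : ℕ) :
    M.pth L s (M.pth L s p i) k = M.pth L s p (i + k) := by
  induction k with
  | zero => rfl
  | succ k ih => rw [P.pth, ih, ← P.pth, Nat.add_assoc]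

/-- The cut at the upper end. -/
theorem cut_up (P : M.PathK L) {X : Sg} (h : M.ok L X) {a : ℕ} (ha : a ≤ M.ln L X) :
    M.ok L ⟨X.ex, X.s, X.p, M.el L X a⟩ ∧ M.ln L ⟨X.ex, X.s, X.p, M.el L X a⟩ = a ∧
      ∀ i ≤ a, M.el L ⟨X.ex, X.s, X.p, M.el L X a⟩ i = M.el L X i := by
  have h3 : ∀ i ≤ a, M.el L ⟨X.ex, X.s, X.p, M.el L X a⟩ i = M.el L X i := by
    intro i hi
    cases e : X.ex with
    | true =>
      have := ln_ex h e
      rw [el_ex rfl, el_ex e i]
      split_ifs with i0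
      · rfl
      · show M.el L X a = X.q
        rw [el_ex e, if_neg (by omega)]
    | false => rw [el_pa rfl, el_pa e i]
  have an : a < M.n := ha.trans_lt (ln_spec h).1
  have h1 : M.ok L ⟨X.ex, X.s, X.p, M.el L X a⟩ := ⟨h.1, el_al P h ha, a, an, h3 a le_rfl⟩
  have h4 := ln_le (M := M) (L := L) (X := ⟨X.ex, X.s, X.p, M.el L X a⟩) an (h3 a le_rfl)
  refine ⟨h1, ?_, h3⟩
  have h5 := (ln_spec h1).2
  rw [h3 _ h4] at h5
  exact el_inj P h (h4.trans ha) ha h5

theorem hit_up (P : M.PathK L) {X : Sg} (h : M.ok L X) {a : ℕ} (ha : a ≤ M.ln L X) (r : ℕ)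
    (B : Sg) (i : ℕ) : M.hit L r ⟨X.ex, X.s, X.p, M.el L X a⟩ B i ↔
      (if r = 5 then i < a else i ≤ a) ∧ M.hit L r X B i := by
  obtain ⟨-, h2, h3⟩ := cut_up P h ha
  unfold Dm.hit
  rw [h2]
  refine and_congr_right fun hi => ?_
  by_cases r5 : r = 5
  · rw [if_pos r5] at hi
    rw [if_pos r5, h3 i hi.le, h3 (i + 1) hi, and_iff_right (hi.trans_le ha)]
  · rw [if_neg r5] at hi
    rw [if_neg r5, h3 i hi, and_iff_right (hi.trans ha)]
    exact exists_congr fun k => and_congr_right fun _ => R_congr r5 _ _ _ _ _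

/-- The cut at the lower end. -/
theorem cut_dn (P : M.PathK L) {X : Sg} (h : M.ok L X) {a : ℕ} (ha : a ≤ M.ln L X) :
    M.ok L ⟨X.ex, X.s, M.el L X a, X.q⟩ ∧ a + M.ln L ⟨X.ex, X.s, M.el L X a, X.q⟩ = M.ln L X ∧
      ∀ i, M.el L ⟨X.ex, X.s, M.el L X a, X.q⟩ i = M.el L X (a + i) := by
  have h3 : ∀ i, M.el L ⟨X.ex, X.s, M.el L X a, X.q⟩ i = M.el L X (a + i) := by
    intro i
    cases e : X.ex with
    | true =>
      rw [el_ex rfl]
      split_ifs with i0
      · rw [i0]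
        rfl
      · rw [el_ex e (a + i), if_neg (by omega)]
    | false =>
      rw [el_pa rfl, el_pa e, el_pa e]
      exact pth_add P _ _ _ _
  obtain ⟨l1, l2⟩ := ln_spec h
  have h4 : M.el L ⟨X.ex, X.s, M.el L X a, X.q⟩ (M.ln L X - a) = X.q := by
    rw [h3, Nat.add_sub_cancel' ha, l2]
  have h1 : M.ok L ⟨X.ex, X.s, M.el L X a, X.q⟩ :=
    ⟨el_al P h ha, h.2.1, M.ln L X - a, by omega, h4⟩
  have h5 := ln_le (M := M) (L := L) (X := ⟨X.ex, X.s, M.el L X a, X.q⟩) (by omega) h4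
  refine ⟨h1, ?_, h3⟩
  have h6 := (ln_spec h1).2
  rw [h3] at h6
  exact el_inj P h (by omega) le_rfl (h6.trans l2.symm)

theorem hit_dn (P : M.PathK L) {X : Sg} (h : M.ok L X) {a : ℕ} (ha : a ≤ M.ln L X) (r : ℕ)
    (B : Sg) (i : ℕ) :
    M.hit L r ⟨X.ex, X.s, M.el L X a, X.q⟩ B i ↔ M.hit L r X B (a + i) := by
  obtain ⟨-, h2, h3⟩ := cut_dn P h ha
  unfold Dm.hit
  rw [h3, h3, ← h2, Nat.add_assoc]
  refine and_congr_left fun _ => ?_
  split_ifs <;> omega

theorem F_pos {fl : Bool} {r : ℕ} {A B : Sg} (hA : M.ok L A) (hB : M.ok L B)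
    (h : ∃ i < M.n, M.hit L r A B i) :
    M.F L fl r A B = M.el L A (pick fl M.n (M.hit L r A B)) := if_pos ⟨hA, hB, h⟩

theorem F_neg {fl : Bool} {r : ℕ} {A B : Sg} (h : ¬∃ i < M.n, M.hit L r A B i) :
    M.F L fl r A B = M.n := if_neg fun k => h k.2.2

theorem fo_succ (fl : Bool) (r : ℕ) (X : Sg) (B : ℕ → Sg) (m : ℕ) :
    (M.sem L).fo M fl r X B (m + 1) =
      if M.F L fl r (Pr.shr M fl X ((M.sem L).fo M fl r X B m)) (B m) < M.n then
        M.F L fl r (Pr.shr M fl X ((M.sem L).fo M fl r X B m)) (B m)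
      else (M.sem L).fo M fl r X B m := rfl

theorem ex_succ {Q : ℕ → Prop} {m : ℕ} : (∃ k < m + 1, Q k) ↔ (∃ k < m, Q k) ∨ Q m := by
  constructor
  · rintro ⟨k, hk, h⟩
    rcases Nat.lt_succ_iff_lt_or_eq.1 hk with a | rfl
    exacts [Or.inl ⟨k, a, h⟩, Or.inr h]
  · rintro (⟨k, hk, h⟩ | h)
    exacts [⟨k, by omega, h⟩, ⟨m, by omega, h⟩]

end FoiX

open FoiX in
theorem foiS : FoiS := by
  intro M L S _ P fl r X B m hX hB
  induction m with
  | zero =>
    rw [if_neg (by rintro ⟨i, -, k, hk, -⟩; omega)]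
    rfl
  | succ m ih =>
    have hm := hB m (Nat.lt_succ_self m)
    have ln1 := (ln_spec hX).1
    rw [fo_succ, ih fun k hk => hB k (by omega)]
    simp only [ex_succ]
    by_cases h0 : ∃ i < M.n, ∃ k < m, M.hit L r X (B k) i
    · obtain ⟨a1, a2, a3⟩ := pick_spec (fl := fl) h0
      rw [if_pos h0]
      generalize pick fl M.n (fun i => ∃ k < m, M.hit L r X (B k) i) = a at a1 a2 a3
      have ha : a ≤ M.ln L X := by
        obtain ⟨k, -, hk⟩ := a2
        exact hit_le hk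
      rw [if_pos (show ∃ i < M.n, (∃ k < m, M.hit L r X (B k) i) ∨ M.hit L r X (B m) i from
        ⟨a, a1, Or.inl a2⟩), Pr.shr, if_pos (S.lt _ (el_al P hX ha))]
      cases fl with
      | true =>
        simp only [if_true] at a3 ⊢
        obtain ⟨c1, c2, c3⟩ := cut_up P hX ha
        have c4 := hit_up P hX ha r (B m)
        have c5 : ∀ i < a, M.hit L r X (B m) i →
            M.hit L r ⟨X.ex, X.s, X.p, M.el L X a⟩ (B m) i := fun i hi k =>
          (c4 i).2 ⟨by split_ifs <;> omega, k⟩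
        by_cases h1 : ∃ i < M.n, M.hit L r ⟨X.ex, X.s, X.p, M.el L X a⟩ (B m) i
        · obtain ⟨b1, b2, b3⟩ := pick_spec (fl := true) h1
          rw [F_pos c1 hm h1]
          generalize pick true M.n (M.hit L r ⟨X.ex, X.s, X.p, M.el L X a⟩ (B m)) = b at b1 b2 b3
          have hb : b ≤ a := c2 ▸ hit_le b2
          simp only [if_true] at b3
          rw [c3 b hb, if_pos (S.lt _ (el_al P hX (hb.trans ha))),
            pick_eq (fl := true) b1 (Or.inr ((c4 b).1 b2).2)]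
          rintro i hi (k | k) <;> simp only [if_true]
          · exact hb.trans (a3 i hi k)
          · by_cases ia : i < a
            · exact b3 i hi (c5 i ia k)
            · omega
        · rw [F_neg h1, if_neg (lt_irrefl _), pick_eq (fl := true) a1 (Or.inl a2)]
          rintro i hi (k | k) <;> simp only [if_true]
          · exact a3 i hi k
          · by_contra ia
            exact h1 ⟨i, hi, c5 i (by omega) k⟩
      | false =>
        simp only [Bool.false_eq_true, if_false] at a3 ⊢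
        obtain ⟨c1, c2, c3⟩ := cut_dn P hX ha
        have c4 := hit_dn P hX ha r (B m)
        have c5 : ∀ i, a ≤ i → M.hit L r X (B m) i →
            M.hit L r ⟨X.ex, X.s, M.el L X a, X.q⟩ (B m) (i - a) := fun i hi k =>
          (c4 _).2 (by rwa [Nat.add_sub_cancel' hi])
        by_cases h1 : ∃ i < M.n, M.hit L r ⟨X.ex, X.s, M.el L X a, X.q⟩ (B m) i
        · obtain ⟨b1, b2, b3⟩ := pick_spec (fl := false) h1
          rw [F_pos c1 hm h1]
          generalize pick false M.n (M.hit L r ⟨X.ex, X.s, M.el L X a, X.q⟩ (B m)) = b at b1 b2 b3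
          have hb : a + b ≤ M.ln L X := hit_le ((c4 b).1 b2)
          simp only [Bool.false_eq_true, if_false] at b3
          rw [c3 b, if_pos (S.lt _ (el_al P hX hb)),
            pick_eq (fl := false) (hb.trans_lt ln1) (Or.inr ((c4 b).1 b2))]
          rintro i hi (k | k) <;> simp only [Bool.false_eq_true, if_false]
          · exact (a3 i hi k).trans (Nat.le_add_right _ _)
          · by_cases ia : a ≤ i
            · have := b3 (i - a) (by omega) (c5 i ia k)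
              omega
            · omega
        · rw [F_neg h1, if_neg (lt_irrefl _), pick_eq (fl := false) a1 (Or.inl a2)]
          rintro i hi (k | k) <;> simp only [Bool.false_eq_true, if_false]
          · exact a3 i hi k
          · by_contra ia
            exact h1 ⟨i - a, by omega, c5 i (by omega) k⟩
    · have e : ∀ i < M.n, ((∃ k < m, M.hit L r X (B k) i) ∨ M.hit L r X (B m) i) ↔
          M.hit L r X (B m) i := fun i hi => or_iff_right fun k => h0 ⟨i, hi, k⟩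
      rw [if_neg h0, Pr.shr, if_neg (lt_irrefl _)]
      by_cases h1 : ∃ i < M.n, M.hit L r X (B m) i
      · obtain ⟨b1, b2, b3⟩ := pick_spec (fl := fl) h1
        rw [F_pos hX hm h1, if_pos (S.lt _ (el_al P hX (hit_le b2))),
          if_pos (show ∃ i < M.n, (∃ k < m, M.hit L r X (B k) i) ∨ M.hit L r X (B m) i from
            ⟨_, b1, Or.inr b2⟩),
          pick_eq (fl := fl) b1 (Or.inr b2) fun i hi k => b3 i hi ((e i hi).1 k)]
      · rw [F_neg h1, if_neg (lt_irrefl _), if_neg fun ⟨i, hi, k⟩ => h1 ⟨i, hi, (e i hi).1 k⟩]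

end Pool.Agent.MP_1a6d78_lc.PD

end MrgPart5

-- ======== part 6: formerly Pool.Agent.MP_1a6d78_lc.PD.Fsp
section MrgPart6

/-! PROJECT PD, row FSP: the two-path primitive and its fold. -/

namespace Pool.Agent.MP_1a6d78_lc.PD

open Classical ED PR

namespace FspAux

open Dm

variable {M : Dm} {L : ℕ → Prop}

theorem el_path {A : Sg} (h : A.ex = false) (i : ℕ) : M.el L A i = M.pth L A.s A.p i := by
  simp [el, h]

theorem mem_of {A : Sg} (h : A.ex = false) (b : ℕ) :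
    M.Mem L A b ↔ M.Pa L A.s A.p b ∧ M.Pa L A.s b A.q := by simp [Mem, h]

theorem ln_spec {A : Sg} (h : M.ok L A) : M.ln L A < M.n ∧ M.el L A (M.ln L A) = A.q :=
  lst_spec h.2.2

theorem ln_min {A : Sg} (h : M.ok L A) {i : ℕ} (hi : i < M.ln L A) : M.el L A i ≠ A.q :=
  fun e => absurd (lst_le (hi.trans (ln_spec h).1) e) (not_le.2 hi)

theorem okp (P : M.PathA L) (s : Bool) (p q : ℕ) :
    M.ok L ⟨false, s, p, q⟩ ↔ L p ∧ M.Pa L s p q := by
  refine and_congr_right fun hp => ?_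
  rw [P.idx hp]
  simp only [el, Bool.false_eq_true, if_false]

theorem okx (H : M.St L) (s : Bool) (p q : ℕ) : M.ok L ⟨true, s, p, q⟩ ↔ L p ∧ L q := by
  refine ⟨fun h => ⟨h.1, h.2.1⟩, fun h => ⟨h.1, h.2, ?_⟩⟩
  have h1 := H.lt p h.1
  have h2 := H.lt q h.2
  by_cases e : p = q
  · exact ⟨0, by omega, by simp [el, e]⟩
  · exact ⟨1, by omega, by simp [el]⟩

theorem pal (P : M.PathA L) {A : Sg} (hx : A.ex = false) (h : M.ok L A) {i k : ℕ} (hi : i ≤ k)
    (hk : k ≤ M.ln L A) : L (M.el L A i) ∧ M.Pa L A.s (M.el L A i) (M.el L A k) := by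
  have h1 : L (M.pth L A.s A.p (M.ln L A)) := by
    rw [← el_path hx, (ln_spec h).2]; exact h.2.1
  rw [el_path hx, el_path hx]
  exact P.pal (P.pal h1 hk).1 hi

theorem mem (P : M.PathA L) {A : Sg} {b : ℕ} (h : M.ok L A) :
    M.Mem L A b ↔ ∃ k < M.ln L A + 1, M.el L A k = b := by
  have hl := (ln_spec h).2
  cases hx : A.ex with
  | true =>
    have e : M.Mem L A b ↔ b = A.p ∨ b = A.q := by simp [Mem, hx]
    rw [e]
    constructor
    · rintro (k | k)
      · exact ⟨0, Nat.succ_pos _, by simp [el, hx, k]⟩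
      · exact ⟨_, Nat.lt_succ_self _, hl.trans k.symm⟩
    · rintro ⟨k, -, rfl⟩
      by_cases k0 : k = 0 <;> simp [el, hx, k0]
  | false =>
    rw [mem_of hx]
    constructor
    · rintro ⟨h1, h2⟩
      obtain ⟨hb, i, -, rfl⟩ := (P.idx h.1).1 h1
      by_cases hi : i ≤ M.ln L A
      · exact ⟨i, Nat.lt_succ_of_le hi, el_path hx i⟩
      · have h3 := (P.pal hb (not_le.1 hi).le).2
        rw [← el_path hx (M.ln L A), hl] at h3
        exact ⟨_, Nat.lt_succ_self _, hl.trans (P.anti h3 h2)⟩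
    · rintro ⟨k, hk, rfl⟩
      have hk' := Nat.le_of_lt_succ hk
      have h1 := (pal P hx h (Nat.zero_le k) hk').2
      have h2 := (pal P hx h hk' le_rfl).2
      rw [hl] at h2
      rw [el_path hx 0] at h1
      exact ⟨h1, h2⟩

theorem hit_le {r : ℕ} {A B : Sg} {i : ℕ} (h : M.hit L r A B i) : i ≤ M.ln L A := by
  have := h.1
  split_ifs at this
  · exact this.le
  · exact this

theorem it_iff (P : M.PathA L) {A : Sg} (hx : A.ex = false) (h : M.ok L A) (r : ℕ) (B : Sg)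
    (u : ℕ) : M.It L r A (fun _ => B) 1 u ↔
      M.ok L B ∧ ∃ i, M.hit L r A B i ∧ M.el L A i = u := by
  have hs : ∀ i, M.el L A (i + 1) = M.suc L A.s (M.el L A i) := fun i => by
    rw [el_path hx, el_path hx, P.pth]
  constructor
  · rintro ⟨h1, h2, _, -, hB, b, hb, hR⟩
    obtain ⟨i, hi, rfl⟩ := (mem P h).1 h1
    obtain ⟨k, hk, rfl⟩ := (mem P hB).1 hb
    refine ⟨hB, i, ⟨?_, k, hk, by rw [hs]; exact hR⟩, rfl⟩
    split_ifs with h5
    · refine lt_of_le_of_ne (Nat.le_of_lt_succ hi) fun e => h2 h5 ?_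
      rw [e]; exact (ln_spec h).2
    · exact Nat.le_of_lt_succ hi
  · rintro ⟨hB, i, hi, rfl⟩
    have h1 := hit_le hi
    obtain ⟨h2, k, hk, hR⟩ := hi
    rw [hs] at hR
    refine ⟨(mem P h).2 ⟨i, Nat.lt_succ_of_le h1, rfl⟩, fun h5 => ?_, 0, Nat.one_pos, hB, _,
      (mem P hB).2 ⟨k, hk, rfl⟩, hR⟩
    rw [if_pos h5] at h2
    exact ln_min h h2

theorem fF (H : M.St L) (P : M.PathA L) {A : Sg} (fl : Bool) (r : ℕ) (B : Sg)
    (hx : A.ex = false) (h : M.ok L A) :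
    M.Ex L fl A.s (M.It L r A (fun _ => B) 1) (M.F L fl r A B) := by
  have hn := (ln_spec h).1
  by_cases c : M.ok L A ∧ M.ok L B ∧ ∃ i < M.n, M.hit L r A B i
  · have e : M.F L fl r A B = M.el L A (pick fl M.n (M.hit L r A B)) := if_pos c
    obtain ⟨-, h2, h3⟩ := pick_spec (fl := fl) c.2.2
    have h4 := hit_le h2
    rw [e]
    refine Or.inr ⟨H.lt _ (pal P hx h le_rfl h4).1, (it_iff P hx h r B _).2 ⟨c.2.1, _, h2, rfl⟩,
      fun u hu => ?_⟩
    obtain ⟨-, i, hi, rfl⟩ := (it_iff P hx h r B u).1 hu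
    have h5 := hit_le hi
    have h6 := h3 i (h5.trans_lt hn) hi
    cases fl
    · exact (pal P hx h h6 h4).2
    · exact (pal P hx h h6 h5).2
  · refine Or.inl ⟨if_neg c, fun u hu => c ?_⟩
    obtain ⟨hB, i, hi, -⟩ := (it_iff P hx h r B u).1 hu
    exact ⟨h, hB, i, (hit_le hi).trans_lt hn, hi⟩

theorem fOn (H : M.St L) (P : M.PathA L) {A : Sg} (d : ℕ) (hx : A.ex = false) :
    (M.sem L).On M d A ↔ M.ok L A ∧ (M.Mem L A d ∨ (L d ∧ M.Mem L A (M.β d))) := by
  change M.F L true 4 A (one d) < M.n ↔ _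
  by_cases h : M.ok L A
  · have hal : ∀ u, M.Mem L A u → L u := fun u hu => (P.al h.1 ((mem_of hx u).1 hu).1).1
    have ho : M.ok L (one d) ↔ L d := (okx H true d d).trans (and_self_iff)
    have h1 : M.F L true 4 A (one d) < M.n ↔ ∃ u, M.It L 4 A (fun _ => one d) 1 u := by
      rcases fF H P true 4 (one d) hx h with ⟨k1, k2⟩ | ⟨k1, k2, -⟩
      · exact iff_of_false (by omega) fun ⟨u, hu⟩ => k2 u hu
      · exact iff_of_true k1 ⟨_, k2⟩
    rw [h1, and_iff_right h]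
    constructor
    · rintro ⟨u, h2, -, _, -, h3, b, h4, h5⟩
      obtain rfl := (mem_one d b).1 h4
      rcases (R_four _ _ _ _).1 h5 with k | k
      · exact Or.inl (k ▸ h2)
      · refine Or.inr ⟨ho.1 h3, ?_⟩
        rw [k, H.bb (hal u h2)]; exact h2
    · rintro (k | ⟨k1, k2⟩)
      · exact ⟨d, k, by omega, 0, Nat.one_pos, ho.2 (hal d k), d, (mem_one d d).2 rfl,
          (R_four _ _ _ _).2 (Or.inl rfl)⟩
      · exact ⟨M.β d, k2, by omega, 0, Nat.one_pos, ho.2 k1, d, (mem_one d d).2 rfl,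
          (R_four _ _ _ _).2 (Or.inr (H.bb k1).symm)⟩
  · rw [F_junkA true 4 _ h]
    exact iff_of_false (lt_irrefl _) fun k => h k.1

theorem it_succ' (r : ℕ) (A : Sg) (B : ℕ → Sg) (m u : ℕ) :
    M.It L r A B (m + 1) u ↔ M.It L r A B m u ∨ M.It L r A (fun _ => B m) 1 u := by
  constructor
  · rintro ⟨h1, h2, i, hi, h3⟩
    rcases Nat.lt_succ_iff_lt_or_eq.1 hi with k | rfl
    · exact Or.inl ⟨h1, h2, i, k, h3⟩
    · exact Or.inr ⟨h1, h2, 0, Nat.one_pos, h3⟩
  · rintro (⟨h1, h2, i, hi, h3⟩ | ⟨h1, h2, _, -, h3⟩)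
    · exact ⟨h1, h2, i, Nat.lt_succ_of_lt hi, h3⟩
    · exact ⟨h1, h2, m, Nat.lt_succ_self m, h3⟩

/-- One step of the fold, for an abstract cut. -/
theorem step {fl s : Bool} {I I1 J : ℕ → Prop} {a v : ℕ} (ha : a < M.n) (hI : I a)
    (hb : ∀ u, I u → if fl then M.Pa L s a u else M.Pa L s u a)
    (h1 : ∀ u, J u → I1 u ∧ if fl then M.Pa L s u a else M.Pa L s a u)
    (h2 : ∀ u, I1 u → J u ∨ if fl then M.Pa L s a u else M.Pa L s u a)
    (hv : M.Ex L fl s J v) :
    M.Ex L fl s (fun u => I u ∨ I1 u) (if v < M.n then v else a) := by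
  rcases hv with ⟨k1, k2⟩ | ⟨k1, k2, k3⟩
  · rw [if_neg (by omega)]
    exact Or.inr ⟨ha, Or.inl hI, fun u hu =>
      hu.elim (hb u) fun k => (h2 u k).resolve_left (k2 u)⟩
  · rw [if_pos k1]
    have tr : ∀ u, (if fl then M.Pa L s a u else M.Pa L s u a) →
        if fl then M.Pa L s v u else M.Pa L s u v := fun u hu => by
      have := (h1 v k2).2
      cases fl
      · exact Pa.trans hu this
      · exact Pa.trans this hu
    exact Or.inr ⟨k1, Or.inr (h1 v k2).1, fun u hu =>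
      hu.elim (fun k => tr u (hb u k)) fun k => (h2 u k).elim (k3 u) (tr u)⟩

theorem ffo (H : M.St L) (P : M.PathA L) {A : Sg} (fl : Bool) (r : ℕ) (B : ℕ → Sg) (m : ℕ)
    (hx : A.ex = false) (h : M.ok L A) :
    M.Ex L fl A.s (M.It L r A B m) ((M.sem L).fo M fl r A B m) := by
  induction m with
  | zero => exact Or.inl ⟨rfl, fun u ⟨_, _, i, hi, _⟩ => absurd hi (Nat.not_lt_zero i)⟩
  | succ m ih =>
    have e : (M.sem L).fo M fl r A B (m + 1) =
        if M.F L fl r (Pr.shr M fl A ((M.sem L).fo M fl r A B m)) (B m) < M.n then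
          M.F L fl r (Pr.shr M fl A ((M.sem L).fo M fl r A B m)) (B m)
        else (M.sem L).fo M fl r A B m := rfl
    have e2 : M.It L r A B (m + 1) =
        fun u => M.It L r A B m u ∨ M.It L r A (fun _ => B m) 1 u :=
      funext fun u => propext (it_succ' r A B m u)
    rw [e, e2]
    generalize (M.sem L).fo M fl r A B m = a at ih
    rcases ih with ⟨k1, k2⟩ | ⟨k1, k2, k3⟩
    · have e3 : Pr.shr M fl A a = A := if_neg (by omega)
      rw [e3]
      rcases fF H P fl r (B m) hx h with ⟨j1, j2⟩ | ⟨j1, j2, j3⟩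
      · rw [if_neg (by omega)]
        exact Or.inl ⟨k1, fun u hu => hu.elim (k2 u) (j2 u)⟩
      · rw [if_pos j1]
        exact Or.inr ⟨j1, Or.inr j2, fun u hu => j3 u (hu.resolve_left (k2 u))⟩
    · obtain ⟨a1, a2⟩ := (mem_of hx a).1 k2.1
      cases fl with
      | true =>
        have e3 : Pr.shr M true A a = ⟨false, A.s, A.p, a⟩ := by simp [Pr.shr, k1, hx]
        rw [e3]
        refine step k1 k2 k3 (fun u hu => ?_) (fun u hu => ?_)
          (fF H P (A := ⟨false, A.s, A.p, a⟩) true r (B m) rfl ((okp P _ _ _).2 ⟨h.1, a1⟩))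
        · obtain ⟨u1, u2⟩ := (mem_path _ _ _ _).1 hu.1
          refine ⟨⟨(mem_of hx u).2 ⟨u1, u2.trans a2⟩, fun h5 k => hu.2.1 h5 ?_, hu.2.2⟩, u2⟩
          exact P.anti u2 (k ▸ a2)
        · obtain ⟨u1, -⟩ := (mem_of hx u).1 hu.1
          by_cases k : u = a
          · exact Or.inr (k ▸ Pa.refl _ _)
          · exact (P.tot u1 a1).imp
              (fun j => ⟨(mem_path _ _ _ _).2 ⟨u1, j⟩, fun _ => k, hu.2.2⟩) id
      | false =>
        have e3 : Pr.shr M false A a = ⟨false, A.s, a, A.q⟩ := by simp [Pr.shr, k1, hx]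
        rw [e3]
        refine step k1 k2 k3 (fun u hu => ?_) (fun u hu => ?_)
          (fF H P (A := ⟨false, A.s, a, A.q⟩) false r (B m) rfl
            ((okp P _ _ _).2 ⟨(P.al h.1 a1).1, a2⟩))
        · obtain ⟨u1, u2⟩ := (mem_path _ _ _ _).1 hu.1
          exact ⟨⟨(mem_of hx u).2 ⟨a1.trans u1, u2⟩, hu.2.1, hu.2.2⟩, u1⟩
        · obtain ⟨u1, u2⟩ := (mem_of hx u).1 hu.1
          exact (P.tot u1 a1).symm.imp
            (fun j => ⟨(mem_path _ _ _ _).2 ⟨j, u2⟩, hu.2.1, hu.2.2⟩) id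

end FspAux

theorem fspS : FspS := fun _ _ H _ P =>
  ⟨FspAux.okp P.toPathA, FspAux.okx H, FspAux.mem P.toPathA, FspAux.fF H P.toPathA,
    FspAux.fOn H P.toPathA, FspAux.ffo H P.toPathA⟩

end Pool.Agent.MP_1a6d78_lc.PD

end MrgPart6

-- ======== part 7: formerly Pool.Agent.MP_1a6d78_lc.PD.Ftd
section MrgPart7

/-! PROJECT PD: the new first turn of an unchanged path. -/

namespace Pool.Agent.MP_1a6d78_lc.PD

open Classical ED PR

namespace Ftd

theorem bo {a b c : Bool} (h : a ≠ b) (k : b ≠ c) : a = c := by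
  cases a <;> cases b <;> cases c <;> simp_all

/-- A tight path from `a` runs into the region killed by `x`. -/
def W (K : Rd) (x : ℕ) (s : Bool) (a : ℕ) : Prop :=
  ∃ e, K.M.Pa K.L (!s) a e ∧ K.D x (K.M.nd (K.M.β e)) ∧
    ∀ z, K.M.Pa K.L (!s) a z → K.M.Pa K.L (!s) z e → z ≠ e → K.M.Ti K.L (!s) z

def H (K : Rd) (x : ℕ) (s : Bool) (a : ℕ) : Prop :=
  W K x s a ∨ (K.M.dir (K.M.nx K.L s a) = K.d0 ∧ K.D x (K.M.nd (K.M.β (K.M.nx K.L s a))))

variable {K : Rd} (G : K.G1) {x y p q u a z : ℕ} {s : Bool}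
include G

theorem ind (ha : K.L' a) (hz : K.L z) (e : K.M.nd z = K.M.nd a) (h : ¬K.L' z) :
    K.M.dir z = K.d0 := by
  by_contra hd
  exact h ((G.dead.out hz hd).2 (e ▸ G.dead.vx ha))

theorem pal (hp : K.L' p) (hd : K.M.dir p ≠ K.d0) (h : K.M.Pa K.L s p q) :
    K.L' q ∧ K.M.dir q ≠ K.d0 :=
  have k := (G.hy.k' G.dead).path.al hp ((G.down.pa s q hp hd).2 h)
  ⟨k.1, k.2.1 ▸ hd⟩

theorem bdir (hp : K.L p) (hd : K.M.dir p ≠ K.d0) : K.M.dir (K.M.β p) = K.d0 :=
  bo (G.hy.st.dne hp) hd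

theorem W.own (h : W K x s a) (ha : K.L a) (hd : K.M.dir a = K.d0) :
    K.own (!s) a = x ∧ K.sel x := by
  obtain ⟨e, h1, h2, -⟩ := h
  have k := G.hy.k.path.al ha h1
  refine ⟨?_, h2.1⟩
  rw [← G.dead.own (!s) k.1 (k.2.1.trans hd) h2, G.hy.own, G.hy.k.path.owneq ha h1]

theorem W.top (h : W K x s a) (ha : K.L a) (hd : K.M.dir a = K.d0) :
    K.D x (K.M.nd (K.M.β (K.M.FT K.L (!s) a))) := by
  obtain ⟨e, h1, h2, h3⟩ := h
  obtain ⟨k1, k2, -⟩ := G.hy.k.path.FT (!s) ha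
  have k := G.hy.k.path.al ha h1
  have : K.M.Pa K.L (!s) e (K.M.FT K.L (!s) a) := by
    rcases G.hy.k.path.tot h1 k1 with h | h
    · exact h
    · by_contra hc
      exact k2 (h3 _ k1 h fun e' => hc (e' ▸ Dm.Pa.refl _ _))
  have k' := (G.hy.k.path.al k.1 this).2.2.2
  rw [k.2.1, hd] at k'
  exact G.dead.anc h2 k'

/-- The killer of the neighbour. -/
theorem H.kill (h : H K x s a) (ha : K.L a) (hd : K.M.dir a = K.d0)
    (h1 : K.M.dir (K.M.nx K.L s a) = K.d0) (h2 : K.D y (K.M.nd (K.M.β (K.M.nx K.L s a)))) :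
    y = x := by
  rcases h with h | h
  · obtain ⟨o, hs⟩ := h.own G ha hd
    have := G.dead.gap (e := a) (s := !s) (x := y) ha hd (Or.inl (by rw [Bool.not_not, h1, hd]))
      (by rwa [Bool.not_not, G.hy.par, Dm.par_def, if_pos (h1.trans hd.symm)])
    rw [o] at this
    exact (this.resolve_right fun k => k hs).symm
  · exact G.dead.uniq h2 h.2

theorem step (hu : K.L' u) (hd : K.M.dir u ≠ K.d0) (ht : K.M.Ti K.L' s u)
    (h : H K x s (K.M.β u)) : W K x s (K.M.β (K.M.suc K.L s u)) := by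
  have k := G.hy.k
  have k' := G.hy.k' G.dead
  have lu := G.dead.sub hu
  have la := k.st.be _ lu
  have da := bdir G lu hd
  have la' := k'.st.be _ hu
  have e1 : K.M.suc K.L s u = K.M.nx K.L' s (K.M.β u) := by
    rw [← G.down.suc s hu hd, k'.step.ti hu ht]
  obtain ⟨n1, -, n3⟩ := k'.step.nx s la'
  rw [← e1] at n1 n3
  have lv := G.dead.sub n1
  obtain ⟨-, s2, s3, s4⟩ := k.step.suc lu (k.st.lt _ lv)
  generalize K.M.suc K.L s u = v at *
  obtain ⟨m1, m2, m3⟩ := k.step.nx (!s) lv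
  have al := k.st.lt _ la
  have vl := k.st.lt _ lv
  have dv : K.M.dir v ≠ K.d0 := s2 ▸ hd
  have key : K.M.nx K.L (!s) v = K.M.β u ∨ K.M.Bt s (K.M.β u) (K.M.nx K.L (!s) v) v := by
    rcases k.rot.tri (s := !s) (b := K.M.nx K.L (!s) v) vl al s3.symm with h | h | h
    · exact absurd la (m3 _ h)
    · exact Or.inl h.symm
    · exact Or.inr ((k.rot.symm al vl s3).2 h)
  have dm : K.M.dir (K.M.nx K.L (!s) v) = K.d0 :=
    key.elim (fun e => e ▸ da) fun e => bo (s4 _ e m1) hd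
  have lb := k.st.be _ lv
  have ti : K.M.Ti K.L (!s) (K.M.β v) := by
    rw [Dm.Ti, k.st.bb lv, dm, bdir G lv dv]
  have su : K.M.suc K.L (!s) (K.M.β v) = K.M.nx K.L (!s) v := by
    rw [k.step.ti lb ti, k.st.bb lv]
  have hw : W K x s (K.M.nx K.L (!s) v) := by
    rcases key with e | e
    · rw [e]
      refine h.resolve_right fun h => dv ?_
      have := k.step.nxnx (!s) lv
      rw [Bool.not_not, e] at this
      exact this ▸ h.1
    obtain ⟨y, hy⟩ : ∃ y, K.D y (K.M.nd (K.M.β (K.M.nx K.L (!s) v))) := by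
      by_contra hc
      exact n3 _ e ((G.dead.in0 m1 dm).2 hc)
    obtain ⟨f1, f2, f3⟩ := k.step.nx s la
    have fl := k.st.lt _ f1
    have fb : K.M.Bt s (K.M.β u) (K.M.nx K.L s (K.M.β u)) v := by
      rcases k.rot.tri (s := s) (b := v) al fl f2 with h | h | h
      · exact h
      · exact absurd m1 (f3 _ (h ▸ e))
      · exact absurd lv (f3 _ h)
    have df := bo (s4 _ fb f1) hd
    obtain ⟨w, hw⟩ : ∃ y, K.D y (K.M.nd (K.M.β (K.M.nx K.L s (K.M.β u)))) := by
      by_contra hc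
      exact n3 _ fb ((G.dead.in0 f1 df).2 hc)
    obtain rfl := h.kill G la da df hw
    obtain rfl : y = w := by
      rcases k.rot.tri (s := !s) (b := K.M.nx K.L (!s) v) vl fl (f2.trans s3.symm) with h | h | h
      · exact absurd f1 (m3 _ h)
      · exact G.dead.uniq hy (h ▸ hw)
      have r := G.run.run lv dv m1 dm hy f1 df (f2.trans s3.symm) h fun z hz hz' =>
        absurd hz' (n3 z ((k.rot.symm al vl s3).2 (lt_trans
          ((k.rot.split vl fl (f2.trans s3.symm) h).2 (Or.inr (Or.inr hz)))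
          ((k.rot.symm al vl s3).1 fb))))
      have := G.dead.gap f1 df r.1 r.2
      rw [G.dead.own (!s) f1 df hw] at this
      exact (this.resolve_right fun k => k hw.1).symm
    exact ⟨_, Dm.Pa.refl _ _, hy, fun z h1 h2 h3 => absurd (k.path.anti h2 h1) h3⟩
  obtain ⟨e, h1, h2, h3⟩ := hw
  refine ⟨e, (Dm.Pa.step lb (su ▸ m1)).trans (su ▸ h1), h2, fun z z1 z2 z3 => ?_⟩
  by_cases hz : K.M.β v = z
  · exact hz ▸ ti
  · exact h3 z (su ▸ (k.path.hd z1 hz).2) z2 z3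

/-- The first alive dart of a sector lies on a wall. -/
theorem good (hu : K.L' u) (hd : K.M.dir u ≠ K.d0) (ht : ¬K.M.Ti K.L' s u)
    (h : H K x s (K.M.β u)) : ∃ i < K.c, K.L' (K.cand x s i) ∧
      K.M.Pa K.L (!s) (K.cand x s i) (K.M.β (K.M.nx K.L' s (K.M.β u))) := by
  have k := G.hy.k
  have k' := G.hy.k' G.dead
  have lu := G.dead.sub hu
  have la := k.st.be _ lu
  have da := bdir G lu hd
  have la' := k'.st.be _ hu
  have dg : K.M.dir (K.M.nx K.L' s (K.M.β u)) = K.d0 := bo ht hd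
  generalize K.M.β u = a at *
  obtain ⟨g1, g2, g3⟩ := k'.step.nx s la'
  obtain ⟨f1, f2, f3⟩ := k.step.nx s la
  have fin : K.Good x s (K.M.nx K.L' s a) → ∃ i < K.c, K.L' (K.cand x s i) ∧
      K.M.Pa K.L (!s) (K.cand x s i) (K.M.β (K.M.nx K.L' s a)) :=
    fun ⟨i, h1, h2, h3, _⟩ => ⟨i, h1, h2, h3⟩
  by_cases hf : K.L' (K.M.nx K.L s a)
  · have e := G.down.nsame la' hf
    rw [e] at dg fin ⊢
    have hw : W K x s a := h.resolve_right fun h => (G.dead.in0 f1 dg).1 hf ⟨x, h.2⟩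
    obtain ⟨o, hs⟩ := hw.own G la da
    have pa : K.M.par K.L s a = K.M.nx K.L s a := by rw [Dm.par_def, if_pos (dg.trans da.symm)]
    by_cases hv : K.M.val K.L a (!s)
    · obtain ⟨i, hi, c1, c2, c3⟩ := G.hy.cmp a (!s) hv da (o ▸ hs)
      rw [o] at c1 c2 c3
      have : K.cand x s i = K.M.β (K.M.nx K.L s a) := by
        rw [Rd.cand, if_pos c1, c3, if_neg (by simp), c2, G.hy.par, pa]
      exact ⟨i, hi, this ▸ k'.st.be _ hf, this ▸ Dm.Pa.refl _ _⟩
    · rw [Dm.val_def, Bool.not_not, if_pos (dg.trans da.symm), pa, not_and, not_not] at hv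
      obtain ⟨t1, -, t3⟩ := k.path.FT s f1
      refine fin (G.wall.h2 hf dg t1 ?_ t3)
      rw [← hv la, (k.step.nx (!s) (k.st.be _ (k.path.al la (k.path.FT (!s) la).1).1)).2.1]
      exact hw.top G la da
  · have df := ind G la' f1 f2 hf
    obtain ⟨y, hy⟩ : ∃ y, K.D y (K.M.nd (K.M.β (K.M.nx K.L s a))) := by
      by_contra hc
      exact hf ((G.dead.in0 f1 df).2 hc)
    obtain rfl := h.kill G la da df hy
    have al := k.st.lt _ la
    have gl := k'.st.lt _ g1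
    have fb : K.M.Bt s a (K.M.nx K.L s a) (K.M.nx K.L' s a) := by
      rcases k.rot.tri (s := s) (b := K.M.nx K.L' s a) al (k.st.lt _ f1) f2 with h | h | h
      · exact h
      · exact absurd (h ▸ g1) hf
      · exact absurd (G.dead.sub g1) (f3 _ h)
    have r := G.run.adj (s := s) f1 df hy g1 dg (g2.trans f2.symm) fun z hz lz =>
      have b := (k.rot.split al gl g2 fb).2 (Or.inr (Or.inr hz))
      ⟨ind G la' lz (k.rot.lt al b).2 (g3 z b), g3 z b⟩
    exact fin (G.wall.h1 g1 dg (Or.inl (r.1.trans dg.symm)) r.2)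

end Ftd

open Ftd in
theorem ftdS : FtdS := by
  intro K G hal s p hp hd
  have k := G.hy.k
  have k' := G.hy.k' G.dead
  have lp := G.dead.sub hp
  have hal : K.al' = K.L' := hal
  obtain ⟨t1, t2, t3⟩ := k.path.FT s lp
  obtain ⟨r1, r2, r3⟩ := k'.path.FT s hp
  have pa := fun q => G.down.pa s q hp hd
  rw [Rd.FTd, hal, G.hy.geo.nx, G.hy.geo.FT, G.hy.geo.En]
  change (if K.L' (K.M.nx K.L s (K.M.β (K.M.FT K.L s p))) then K.M.FT K.L s p else
    if K.fh s (K.M.FT K.L s p) < K.M.n then K.fh s (K.M.FT K.L s p) else K.M.En K.L s p) = _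
  generalize K.M.FT K.L s p = t at *
  obtain ⟨lt', dt⟩ := pal G hp hd t1
  have lt := G.dead.sub lt'
  have pre : ∀ u, K.M.Pa K.L s p u → K.M.Pa K.L s u t → u ≠ t → K.M.Ti K.L' s u := by
    intro u h1 h2 h3
    obtain ⟨lu, du⟩ := pal G hp hd h1
    have ti := t3 u h1 h2 h3
    have b := k'.st.be _ lu
    obtain ⟨f1, f2, -⟩ := k.step.nx s (G.dead.sub b)
    have : K.L' (K.M.nx K.L s (K.M.β u)) := by
      by_contra hc
      exact du (ti.symm.trans (ind G b f1 f2 hc))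
    rwa [Dm.Ti, G.down.nsame b this]
  by_cases hf : K.L' (K.M.nx K.L s (K.M.β t))
  · rw [if_pos hf]
    refine (k'.path.FTu hp ((pa t).2 t1) ?_ fun u h1 h2 h3 => ?_).symm
    · rwa [Dm.Ti, G.down.nsame (k'.st.be _ lt') hf]
    · have h1' := (pa u).1 h1
      obtain ⟨lu, du⟩ := pal G hp hd h1'
      exact pre u h1' ((G.down.pa s t lu du).1 h2) h3
  rw [if_neg hf]
  obtain ⟨f1, f2, -⟩ := k.step.nx s (k.st.be _ lt)
  have df := ind G (k'.st.be _ lt') f1 f2 hf
  obtain ⟨x, hx⟩ : ∃ y, K.D y (K.M.nd (K.M.β (K.M.nx K.L s (K.M.β t)))) := by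
    by_contra hc
    exact hf ((G.dead.in0 f1 df).2 hc)
  generalize K.M.FT K.L' s p = t' at *
  replace r1 := (pa t').1 r1
  obtain ⟨l', d'⟩ := pal G hp hd r1
  replace r3 : ∀ u, K.M.Pa K.L s t u → K.M.Pa K.L s u t' → u ≠ t' → K.M.Ti K.L' s u :=
    fun u h1 h2 h3 =>
      have h := pal G lt' dt h1
      r3 u ((pa u).2 (t1.trans h1)) ((G.down.pa s t' h.1 h.2).2 h2) h3
  have tt : K.M.Pa K.L s t t' := by
    rcases k.path.tot t1 r1 with h | h
    · exact h
    · by_contra hc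
      exact r2 (pre _ r1 h fun e => hc (e ▸ Dm.Pa.refl _ _))
  have inv : ∀ u, K.M.Pa K.L s t u → K.M.Pa K.L s u t' → H K x s (K.M.β u) := by
    intro u h
    induction h with
    | refl => exact fun _ => Or.inr ⟨df, hx⟩
    | @tail b c h1 h2 ih =>
      obtain ⟨lb, lc, rfl⟩ := h2
      intro h3
      have h4 := (Dm.Pa.step lb lc).trans h3
      obtain ⟨b1, b2⟩ := pal G lt' dt h1
      refine Or.inl (Ftd.step G b1 b2 (r3 b h1 h4 ?_) (ih h4))
      rintro rfl
      have e := (k.step.suc lb (k.st.lt _ lc)).2.2.1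
      rw [← k.path.anti (Dm.Pa.step lb lc) h3] at e
      exact k.st.acyc lb (e ▸ Dm.Up.refl _ _)
  obtain ⟨e1, e2⟩ := k.path.En s lt
  have en : K.M.En K.L s p = K.M.En K.L s t := (k.path.Eneq lp t1).1.symm
  have wl : ∀ i, K.wall x s i = ⟨false, !s, K.gd x s i, K.M.En K.L (!s) (K.gd x s i)⟩ :=
    fun i => G.hy.geo.full _ _
  have ex : K.M.Ex K.L true s (K.M.It K.L 5 ⟨false, s, t, K.M.En K.L s t⟩ (K.wall x s) K.c)
      (K.fh s t) := by
    rw [Rd.fh, G.hy.geo.fo, G.hy.geo.full, G.hy.geo.nx, G.dead.own s f1 df hx]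
    exact k.fsp.fo true 5 _ _ rfl ((k.fsp.okp _ _ _).2 ⟨lt, e1⟩)
  have snd : ∀ u, K.M.It K.L 5 ⟨false, s, t, K.M.En K.L s t⟩ (K.wall x s) K.c u →
      K.M.Pa K.L s t u ∧ u ≠ K.M.En K.L s t ∧ ¬K.M.Ti K.L' s u := by
    rintro u ⟨h1, h2, i, -, h3, b, h4, h5⟩
    rw [Dm.mem_path] at h1
    rw [wl] at h3 h4
    rw [Dm.mem_path] at h4
    refine ⟨h1.1, h2 rfl, fun ti => ?_⟩
    obtain ⟨lu, du⟩ := pal G lt' dt h1.1
    have lg := ((k.fsp.okp _ _ _).1 h3).1
    have hg : K.L' (K.gd x s i) ∧ K.M.dir (K.gd x s i) ≠ K.d0 := by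
      rw [Rd.gd, hal] at lg ⊢
      split_ifs at lg ⊢ with hc
      · exact ⟨hc, ((G.dead.cand x s i).resolve_left fun e => k.st.nn (e ▸ lg)).2⟩
      · exact absurd lg k.st.nn
    have lb := (pal G hg.1 hg.2 h4.1).1
    have n3 := (k'.step.nx s (k'.st.be _ lu)).2.2
    rw [← k'.step.ti lu ti, G.down.suc s lu du] at n3
    rcases (Dm.R_five _ _ _ _).1 h5 with h | h
    exacts [n3 _ h lb, n3 _ h (k'.st.be _ lb)]
  have cmp : t' ≠ K.M.En K.L s t →
      K.M.It K.L 5 ⟨false, s, t, K.M.En K.L s t⟩ (K.wall x s) K.c t' := fun ne => by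
    obtain ⟨i, hi, c1, c2⟩ := good G l' d' r2 (inv t' tt (Dm.Pa.refl _ _))
    have pe := (k.path.Eneq lt tt).2
    have gd : K.gd x s i = K.cand x s i := by rw [Rd.gd, hal, if_pos c1]
    have lc := G.dead.sub c1
    obtain ⟨g1, g2, g3⟩ := k'.step.nx s (k'.st.be _ l')
    refine ⟨(Dm.mem_path _ _ _ _).2 ⟨tt, pe⟩, fun _ => ne, i, hi, ?_,
      K.M.β (K.M.nx K.L' s (K.M.β t')), ?_, (Dm.R_five _ _ _ _).2 (Or.inr ?_)⟩
    · rw [wl, gd]
      exact (k.fsp.okp _ _ _).2 ⟨lc, (k.path.En _ lc).1⟩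
    · rw [wl, gd]
      exact (Dm.mem_path _ _ _ _).2 ⟨c2, (k.path.Eneq lc c2).2⟩
    · rw [k'.st.bb g1]
      have sl := (k.path.hd pe ne).1
      obtain ⟨s1, s2, -⟩ := k.step.suc (G.dead.sub l') sl
      rcases k.rot.tri (s := s) (b := K.M.suc K.L s t') (k'.st.blt l') (k'.st.lt _ g1) g2
        with h | h | h
      · exact h
      · exact absurd ((congrArg K.M.dir h).trans s2) r2
      · exact absurd (pal G l' d' (Dm.Pa.step (G.dead.sub l') s1)).1 (g3 _ h)
  rcases ex with ⟨h1, h2⟩ | ⟨h1, h2, h3⟩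
  · rw [if_neg (by omega), en]
    by_contra hc
    exact h2 _ (cmp fun e => hc e.symm)
  · rw [if_pos h1]
    obtain ⟨v1, v2, v3⟩ := snd _ h2
    by_contra hc
    refine v3 (r3 _ v1 ?_ hc)
    by_cases ne : t' = K.M.En K.L s t
    · exact ne ▸ (k.path.Eneq lt v1).2
    · exact h3 _ (cmp ne)

end Pool.Agent.MP_1a6d78_lc.PD

end MrgPart7

-- ======== part 8: formerly Pool.Agent.MP_1a6d78_lc.PD.Gl
section MrgPart8

/-! PROJECT PD, row GL: the lists after a garbage round. -/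

namespace Pool.Agent.MP_1a6d78_lc.PD

open Classical ED PR

namespace GlA

theorem cnt_le_tot {M : Dm} {L : ℕ → Prop} (H : M.Ok) (q : ℕ) (ls : ℕ → List ℕ) (R : ℕ → Prop) :
    cnt q (fun z => (∃ x, M.crit L x ∧ z ∈ ls x) ∧ R z) ≤
      tot M L fun x => (ls x).filter fun z => R z := by
  unfold cnt tot
  refine le_trans (Finset.card_le_card (t := (Finset.range M.n).biUnion fun x =>
    if M.crit L x then ((ls x).filter fun z => R z).toFinset else ∅) ?_)
    (Finset.card_biUnion_le.trans (Finset.sum_le_sum fun x _ => ?_))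
  · intro z hz
    simp only [Finset.mem_filter] at hz
    obtain ⟨-, ⟨x, hx, hz1⟩, hz2⟩ := hz
    refine Finset.mem_biUnion.2 ⟨x, Finset.mem_range.2 (Dm.crit_lt H hx).1, ?_⟩
    rw [if_pos hx, List.mem_toFinset, List.mem_filter]
    exact ⟨hz1, decide_eq_true hz2⟩
  · split_ifs
    · exact List.toFinset_card_le _
    · exact le_rfl

theorem tot_split (M : Dm) (L : ℕ → Prop) (ls : ℕ → List ℕ) (R : ℕ → Prop) :
    tot M L (fun x => (ls x).filter fun z => ¬R z) + tot M L (fun x => (ls x).filter fun z => R z) =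
      tot M L ls := by
  unfold tot
  rw [← Finset.sum_add_distrib]
  refine Finset.sum_congr rfl fun x _ => ?_
  split_ifs
  · rw [add_comm, List.length_eq_length_filter_add (l := ls x) fun z => decide (R z)]
    simp only [decide_not]
  · rfl

end GlA

theorem glS : LinkK → GlS := by
  intro K M P j q ls h I _
  have h0 : ∀ x, M.crit P.al x → 0 ∉ ls x := fun x hx k => by
    have := (I.ls.rg x hx 0 k).1
    rw [Dm.zl_zero] at this
    omega
  refine ⟨fun x => (ls x).filter fun z => ¬P.rem M h z,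
    ⟨I.st, ⟨I.geo.nx, I.geo.suc, I.geo.En, I.geo.FT, I.geo.F⟩, ?_, fun x hx => ?_,
      fun x hx => (I.ls.nd x hx).filter _,
      fun x y hx hy z h1 h2 => I.ls.dj x y hx hy z (List.mem_filter.1 h1).1 (List.mem_filter.1 h2).1,
      fun x hx z hz => ?_, fun e s he => ?_⟩, ?_⟩
  · show (if P.next 0 ≠ 0 ∧ P.rem M h (P.next 0) then P.next (P.next 0) else P.next 0) = 0
    rw [if_neg fun k => k.1 I.ls.z0, I.ls.z0]
  · exact K.del P.next (P.rem M h) (M.hz x) (ls x) (I.ls.lk x hx) (h0 x hx)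
      fun z _ k1 k2 k3 => (k1.2.2.resolve_left k2) k3.2.1
  · have := I.ls.rg x hx z (List.mem_filter.1 hz).1
    exact ⟨this.1, by omega⟩
  · have lt : e < M.n := I.st.lt e (Dm.val_al he)
    refine List.mem_filter.2 ⟨I.ls.mem e s he, decide_eq_true fun k => k.1 ?_⟩
    show P.val M _ _ ∧ P.cur _ _ = _
    rw [Dm.ze_mk _ _ lt, Dm.zl_mk _ _ lt, Dm.zs_mk, I.geo.val]
    exact ⟨he, rfl⟩
  · rw [← GlA.tot_split M P.al ls (P.rem M h)]
    exact Nat.add_le_add_left (GlA.cnt_le_tot I.st.ok q ls _) _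

end Pool.Agent.MP_1a6d78_lc.PD

end MrgPart8

-- ======== part 9: formerly Pool.Agent.MP_1a6d78_lc.PD.Kl
section MrgPart9

/-! PROJECT PD, row KL: the lists after a kill round. -/

namespace Pool.Agent.MP_1a6d78_lc.PD

open Classical ED PR

noncomputable section

namespace Kl

variable {K : Rd} {ls : ℕ → List ℕ}

/-- The slots inserted behind the anchor `z`. -/
def S (K : Rd) (z : ℕ) : Finset ℕ :=
  (Finset.range K.q).filter fun w => ∃ e s, K.ins e s ∧ K.anc e s = z ∧ w = K.M.mk' (K.j + 2) e s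

/-- The owner of the partner of the slot `z`. -/
def X (K : Rd) (z : ℕ) : ℕ := K.own (!zs z) (K.par (!zs z) (K.M.ze z))

/-- The anchor of a slot. -/
def rt (K : Rd) (w : ℕ) : ℕ := if K.M.zl w = K.j + 2 then K.anc (K.M.ze w) (zs w) else w

def nl (K : Rd) (ls : ℕ → List ℕ) (y : ℕ) : List ℕ :=
  (ls y).flatMap fun z => z :: (S K z).sort (· ≤ ·)

theorem ins_iff (G : K.G3) {e : ℕ} {s : Bool} :
    K.ins e s ↔ K.M.dir e = K.d0 ∧ K.M.val K.L' e s ∧ K.sel (K.own s e) := by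
  rw [Rd.ins, G.geo.val, G.al]

theorem ins_lt (G : K.G3) {e : ℕ} {s : Bool} (h : K.ins e s) : e < K.M.n :=
  G.dead.st.lt _ ((ins_iff G).1 h).2.1.1

theorem anc_spec (I : Inv K.M K.P K.j ls) (G : K.G3) {e : ℕ} {s : Bool} (h : K.ins e s) :
    K.anc e s ∈ ls (K.M.own K.L' s e) ∧ K.M.crit K.L' (K.M.own K.L' s e) ∧
      X K (K.anc e s) = K.own s e := by
  obtain ⟨h1, h2, h3⟩ := (ins_iff G).1 h
  obtain ⟨-, -, k2, k3, k4⟩ := lst_spec (G.anc e s h2.1 h1 h3)
  have e1 : K.anc e s = K.ps (K.own s e) (lst K.c (K.ap (K.own s e) (K.M.own K.L' s e))) := by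
    rw [Rd.anc, G.geo.own, G.al]
  rw [e1]
  generalize lst K.c (K.ap (K.own s e) (K.M.own K.L' s e)) = i at k2 k3 k4
  rw [G.hy.geo.val] at k2
  have k5 := G.hy.k.path.vsymm k2
  have k6 := I.ls.mem _ _ k5
  have lt := G.hy.st.lt _ k5.1
  refine ⟨?_, ((G.hy.k' G.dead).path.own s h2.1).2.2, ?_⟩
  · rw [← G.hy.par] at k6
    rw [← k4, Rd.po, Rd.ps]
    exact (congrFun (congrFun G.hy.own _) _) ▸ k6
  · rw [X, Rd.ps, G.hy.par, Dm.ze_mk _ _ lt, Dm.zs_mk, G.hy.k.step.parpar _ k2.1, Bool.not_not, k3]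

theorem anc_rg (I : Inv K.M K.P K.j ls) (G : K.G3) {e : ℕ} {s : Bool} (h : K.ins e s) :
    1 ≤ K.M.zl (K.anc e s) :=
  let ⟨h1, h2, _⟩ := anc_spec I G h
  (I.ls.rg _ (G.rch.crit _ h2).1 _ h1).1

theorem mem_S (G : K.G3) (hq : 2 * K.M.n * (K.j + 3) < K.q) {z w : ℕ} :
    w ∈ S K z ↔ ∃ e s, K.ins e s ∧ K.anc e s = z ∧ w = K.M.mk' (K.j + 2) e s := by
  rw [S, Finset.mem_filter, Finset.mem_range]
  refine ⟨fun h => h.2, fun h => ⟨?_, h⟩⟩
  obtain ⟨e, s, h1, -, rfl⟩ := h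
  exact (Dm.mk_le _ s (ins_lt G h1)).trans_lt hq

theorem S_zl (G : K.G3) {z w : ℕ} (h : w ∈ S K z) :
    K.M.zl w = K.j + 2 ∧ K.ins (K.M.ze w) (zs w) ∧ K.anc (K.M.ze w) (zs w) = z ∧ 0 < w := by
  obtain ⟨e, s, h1, h2, rfl⟩ := (Finset.mem_filter.1 h).2
  rw [Dm.zl_mk _ _ (ins_lt G h1), Dm.ze_mk _ _ (ins_lt G h1), Dm.zs_mk]
  exact ⟨rfl, h1, h2, Nat.pos_of_ne_zero (Dm.mk_ne _ _ _)⟩

theorem cand_ex (G : K.G3) {e : ℕ} {s : Bool} (h : K.ins e s) :
    ∃ i < 5 * K.c, K.Ce (K.own s e) i = e ∧ K.Cs (K.own s e) i = s :=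
  let ⟨h1, h2, h3⟩ := (ins_iff G).1 h
  G.cand e s h2 h1 h3

theorem nI_spec (I : Inv K.M K.P K.j ls) (G : K.G3) (hq : 2 * K.M.n * (K.j + 3) < K.q) (z w : ℕ) :
    (K.nI (X K z) z w ∈ S K z ∧ w < K.nI (X K z) z w ∧
      ∀ v ∈ S K z, w < v → K.nI (X K z) z w ≤ v) ∨
    (K.nI (X K z) z w = K.P.next z ∧ ∀ v ∈ S K z, v ≤ w) := by
  have a1 : ∀ i, K.cI (X K z) z w i → K.cd (X K z) i ∈ S K z := fun i h =>
    (mem_S G hq).2 ⟨_, _, h.1, h.2.1, rfl⟩
  have a2 : ∀ v ∈ S K z, w < v → ∃ i < 5 * K.c, K.cI (X K z) z w i ∧ K.cd (X K z) i = v := by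
    intro v hv hw
    obtain ⟨e, s, h1, h2, rfl⟩ := (mem_S G hq).1 hv
    obtain ⟨i, hi, k1, k2⟩ := cand_ex G h1
    rw [← (anc_spec I G h1).2.2, h2] at k1 k2
    have k3 : K.cd (X K z) i = K.M.mk' (K.j + 2) e s := by rw [Rd.cd, k1, k2]
    exact ⟨i, hi, ⟨by rwa [k1, k2], by rwa [k1, k2], by rwa [k3]⟩, k3⟩
  by_cases h : ∃ i < 5 * K.c, K.cI (X K z) z w i
  · left
    rw [Rd.nI, if_pos h]
    obtain ⟨i, hi, h⟩ := h
    obtain ⟨-, k⟩ := amin_spec (fun i => if K.cI (X K z) z w i then K.cd (X K z) i else K.q)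
      (Nat.zero_lt_of_lt hi)
    generalize amin (5 * K.c) (fun i => if K.cI (X K z) z w i then K.cd (X K z) i else K.q) = m at k
    have hm : K.cI (X K z) z w m := by
      by_contra hm
      have k1 := k i hi
      rw [if_neg hm, if_pos h] at k1
      exact absurd (Finset.mem_range.1 (Finset.mem_filter.1 (a1 i h)).1) (not_lt.2 k1)
    refine ⟨a1 m hm, hm.2.2, fun v hv hw => ?_⟩
    obtain ⟨i', hi', h', rfl⟩ := a2 v hv hw
    have k1 := k i' hi'
    rwa [if_pos hm, if_pos h'] at k1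
  · right
    refine ⟨by rw [Rd.nI, if_neg h], fun v hv => not_lt.1 fun hw => ?_⟩
    obtain ⟨i, hi, k, -⟩ := a2 v hv hw
    exact h ⟨i, hi, k⟩

theorem next_old {z : ℕ} (h : K.M.zl z ≠ K.j + 2) : K.kill.next z = K.nI (X K z) z 0 := if_neg h

theorem next_new (I : Inv K.M K.P K.j ls) (G : K.G3) {z w : ℕ} (h : w ∈ S K z) :
    K.kill.next w = K.nI (X K z) z w := by
  obtain ⟨h1, h2, h3, -⟩ := S_zl G h
  refine (if_pos h1).trans ?_
  rw [← (anc_spec I G h2).2.2, h3]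

theorem next_head (I : Inv K.M K.P K.j ls) (G : K.G3) (hq : 2 * K.M.n * (K.j + 3) < K.q) {z : ℕ}
    (h : K.M.zl z = 0) : K.kill.next z = K.P.next z := by
  rw [next_old (by omega)]
  rcases nI_spec I G hq z 0 with k | k
  · obtain ⟨-, k1, k2, -⟩ := S_zl G k.1
    have := anc_rg I G k1
    rw [k2] at this
    omega
  · exact k.1

theorem chain (hL : LinkK) (I : Inv K.M K.P K.j ls) (G : K.G3)
    (hq : 2 * K.M.n * (K.j + 3) < K.q) {z : ℕ} (h : K.M.zl z ≠ K.j + 2) :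
    List.IsChain (fun u v => K.kill.next u = v)
      (z :: ((S K z).sort (· ≤ ·) ++ [K.P.next z])) := by
  have hz : z ∉ S K z := fun k => h (S_zl G k).1
  refine hL.srt _ _ _ _ ?_ hz
  rintro w (rfl | hw)
  · rw [next_old h]
    rcases nI_spec I G hq w 0 with k | k
    · exact Or.inl ⟨k.1, Or.inl rfl, fun v hv _ => k.2.2 v hv (S_zl G hv).2.2.2⟩
    · exact Or.inr ⟨k.1, fun v hv => absurd (k.2 v hv) (not_le.2 (S_zl G hv).2.2.2)⟩
  · have hne : w ≠ z := fun e => hz (e ▸ hw)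
    rw [next_new I G hw]
    rcases nI_spec I G hq z w with k | k
    · exact Or.inl ⟨k.1, Or.inr k.2.1, fun v hv k' => k.2.2 v hv (k'.resolve_left hne)⟩
    · exact Or.inr ⟨k.1, fun v hv => ⟨hne, k.2 v hv⟩⟩

theorem mem_nl {y w : ℕ} : w ∈ nl K ls y ↔ ∃ z ∈ ls y, w = z ∨ w ∈ S K z := by
  simp only [nl, List.mem_flatMap, List.mem_cons, Finset.mem_sort]

theorem rt_eq (G : K.G3) {z w : ℕ} (h : K.M.zl z ≠ K.j + 2) (k : w = z ∨ w ∈ S K z) :
    rt K w = z := by
  rcases k with rfl | k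
  · exact if_neg h
  · exact (if_pos (S_zl G k).1).trans (S_zl G k).2.2.1

theorem lsK (hL : LinkK) (I : Inv K.M K.P K.j ls) (G : K.G3) (hq : 2 * K.M.n * (K.j + 3) < K.q) :
    LsK K.M K.kill (K.j + 1) (nl K ls) := by
  have al : K.kill.al = K.L' := G.al
  have cr : ∀ x, K.M.crit K.kill.al x → K.M.crit K.L x := fun x h => (G.rch.crit x (al ▸ h)).1
  have ne : ∀ x, K.M.crit K.kill.al x → ∀ z ∈ ls x, K.M.zl z ≠ K.j + 2 := fun x h z hz => by
    have := (I.ls.rg x (cr x h) z hz).2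
    omega
  refine ⟨?_, fun x hx => ?_, fun x hx => ?_, fun x y hx hy w h1 h2 => ?_, fun x hx w h => ?_,
    fun e s h => ?_⟩
  · rw [next_head I G hq Dm.zl_zero, I.ls.z0]
  · exact hL.ins _ _ _ _ _ (I.ls.lk x (cr x hx))
      (next_head I G hq (Dm.zl_mk _ _ (Dm.crit_lt I.st.ok hx).1))
      fun z hz => chain hL I G hq (ne x hx z hz)
  · refine List.nodup_flatMap.2 ⟨fun z hz => List.nodup_cons.2 ⟨fun k => ?_,
      Finset.sort_nodup _ _⟩, (I.ls.nd x (cr x hx)).pairwise_of_forall_ne ?_⟩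
    · exact ne x hx z hz (S_zl G ((Finset.mem_sort _).1 k)).1
    · intro z hz z' hz' hne w h1 h2
      simp only [List.mem_cons, Finset.mem_sort] at h1 h2
      exact hne ((rt_eq G (ne x hx z hz) h1).symm.trans (rt_eq G (ne x hx z' hz') h2))
  · obtain ⟨z, hz, h1⟩ := mem_nl.1 h1
    obtain ⟨z', hz', h2⟩ := mem_nl.1 h2
    obtain rfl : z = z' := (rt_eq G (ne x hx z hz) h1).symm.trans (rt_eq G (ne y hy z' hz') h2)
    exact I.ls.dj x y (cr x hx) (cr y hy) z hz hz'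
  · obtain ⟨z, hz, rfl | h⟩ := mem_nl.1 h
    · have := I.ls.rg x (cr x hx) w hz
      omega
    · have := (S_zl G h).1
      omega
  · rw [al] at h ⊢
    by_cases k : K.ins e s
    · have e1 : K.kill.cur e s = K.j + 2 := if_pos k
      rw [e1]
      exact mem_nl.2 ⟨_, (anc_spec I G k).1, Or.inr ((mem_S G hq).2 ⟨e, s, k, rfl, rfl⟩)⟩
    · have e1 : K.kill.cur e s = K.P.cur e s := if_neg k
      have k1 : K.M.val K.L e s ∧ K.M.own K.L' s e = K.own s e := by
        by_cases k2 : K.M.dir e = K.d0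
        · exact G.val.up h k2 fun k3 => k ((ins_iff G).2 ⟨k2, h, k3⟩)
        · exact G.val.down h k2
      rw [e1, k1.2, G.hy.own]
      exact mem_nl.2 ⟨_, I.ls.mem e s k1.1, Or.inl rfl⟩

theorem tot_eq (M : Dm) (L : ℕ → Prop) (ls : ℕ → List ℕ) :
    tot M L ls = ∑ x ∈ (Finset.range M.n).filter (M.crit L), (ls x).length := by
  rw [tot, Finset.sum_filter]

theorem count (I : Inv K.M K.P K.j ls) (G : K.G3) (H : LsK K.M K.kill (K.j + 1) (nl K ls)) :
    tot K.M K.L' (nl K ls) ≤ tot K.M K.L ls +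
      5 * K.c * cnt K.M.n fun x => K.M.crit K.L x ∧ K.M.Rt K.L K.d0 x ∧ K.sel x := by
  have al : K.kill.al = K.L' := G.al
  have nd := H.nd
  have dj := H.dj
  rw [al] at nd dj
  have e1 : tot K.M K.L' (nl K ls) = (((Finset.range K.M.n).filter (K.M.crit K.L')).biUnion
      fun x => (nl K ls x).toFinset).card := by
    rw [tot_eq, Finset.card_biUnion]
    · exact Finset.sum_congr rfl fun x hx =>
        (List.toFinset_card_of_nodup (nd x (Finset.mem_filter.1 hx).2)).symm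
    · intro x hx y hy hne
      refine Finset.disjoint_left.2 fun w h1 h2 => hne ?_
      exact dj x y (Finset.mem_filter.1 hx).2 (Finset.mem_filter.1 hy).2 w
        (List.mem_toFinset.1 h1) (List.mem_toFinset.1 h2)
  have e2 : (((Finset.range K.M.n).filter (K.M.crit K.L)).biUnion
      fun x => (ls x).toFinset).card ≤ tot K.M K.L ls := by
    rw [tot_eq]
    exact Finset.card_biUnion_le.trans (Finset.sum_le_sum fun x _ => List.toFinset_card_le _)
  have e3 : ((Finset.range (5 * K.c) ×ˢ (Finset.range K.M.n).filter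
      fun x => K.M.crit K.L x ∧ K.M.Rt K.L K.d0 x ∧ K.sel x).image
        fun p : ℕ × ℕ => K.cd p.2 p.1).card ≤
      5 * K.c * cnt K.M.n fun x => K.M.crit K.L x ∧ K.M.Rt K.L K.d0 x ∧ K.sel x := by
    refine Finset.card_image_le.trans_eq ?_
    rw [Finset.card_product, Finset.card_range, cnt]
    congr
  rw [e1]
  refine le_trans (Finset.card_le_card fun w hw => ?_)
    ((Finset.card_union_le _ _).trans (add_le_add e2 e3))
  obtain ⟨x, hx, hw⟩ := Finset.mem_biUnion.1 hw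
  obtain ⟨hx1, hx2⟩ := Finset.mem_filter.1 hx
  obtain ⟨z, hz, rfl | h⟩ := mem_nl.1 (List.mem_toFinset.1 hw)
  · exact Finset.mem_union_left _ (Finset.mem_biUnion.2 ⟨x, Finset.mem_filter.2
      ⟨hx1, (G.rch.crit x hx2).1⟩, List.mem_toFinset.2 hz⟩)
  · obtain ⟨e, s, h1, -, rfl⟩ := (Finset.mem_filter.1 h).2
    obtain ⟨i, hi, k1, k2⟩ := cand_ex G h1
    obtain ⟨h2, h3, h4⟩ := (ins_iff G).1 h1
    obtain ⟨-, k3, k4⟩ := G.hy.k.path.own s (G.dead.sub h3.1)
    rw [h2, ← G.hy.own] at k3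
    rw [← G.hy.own] at k4
    refine Finset.mem_union_right _ (Finset.mem_image.2 ⟨(i, K.own s e), Finset.mem_product.2
      ⟨Finset.mem_range.2 hi, Finset.mem_filter.2
        ⟨Finset.mem_range.2 (Dm.crit_lt I.st.ok k4).1, k4, k3, h4⟩⟩, ?_⟩)
    rw [Rd.cd, k1, k2]

end Kl

theorem klS : LinkK → KlS := fun hL K ls I _ G hq =>
  have H := Kl.lsK hL I G hq
  ⟨Kl.nl K ls, ⟨(show K.kill.al = K.L' from G.al) ▸ G.dead.st,
    ⟨G.geo.nx, G.geo.suc, G.geo.En, G.geo.FT, G.geo.F⟩, H⟩, Kl.count I G H⟩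

end

end Pool.Agent.MP_1a6d78_lc.PD

end MrgPart9

-- ======== part 10: formerly Pool.Agent.MP_1a6d78_lc.PD.Link
section MrgPart10

/-! PROJECT PD: insertion into and deletion from linked lists. -/

namespace Pool.Agent.MP_1a6d78_lc.PD

open Classical ED PR

namespace Linkx

theorem congr_hd {f : ℕ → ℕ} {a b : ℕ} {l : List ℕ} (e : f a = f b) (h : Lk f b l) : Lk f a l := by
  cases l with
  | nil => exact e.trans h
  | cons z l => exact ⟨e.trans h.1, h.2⟩

theorem chain {f : ℕ → ℕ} {w : ℕ} {R : List ℕ} (hR : ∀ a, f a = w → Lk f a R) (I : List ℕ) :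
    ∀ z, List.IsChain (fun u v => f u = v) (z :: (I ++ [w])) → Lk f z (I ++ R) := by
  induction I with
  | nil => exact fun z h => hR z (List.isChain_cons_cons.1 h).1
  | cons y I ih =>
    intro z h
    obtain ⟨h1, h2⟩ := List.isChain_cons_cons.1 h
    exact ⟨h1, ih y h2⟩

theorem ins (nx nx' : ℕ → ℕ) (I : ℕ → List ℕ) (l : List ℕ) : ∀ a, Lk nx a l →
    (∀ z ∈ l, List.IsChain (fun u v => nx' u = v) (z :: (I z ++ [nx z]))) →
    ∀ a', nx' a' = nx a → Lk nx' a' (l.flatMap fun z => z :: I z) := by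
  induction l with
  | nil => exact fun a h _ a' e => e.trans h
  | cons z l ih =>
    intro a h k a' e
    rw [List.flatMap_cons]
    exact ⟨e.trans h.1, chain (ih z h.2 fun y hy => k y (List.mem_cons_of_mem _ hy)) _ _
      (k z List.mem_cons_self)⟩

theorem del (nx : ℕ → ℕ) (R : ℕ → Prop) (l : List ℕ) : ∀ a, Lk nx a l → 0 ∉ l →
    (∀ z ∈ l, R z → nx z ≠ 0 → ¬R (nx z)) →
    Lk (fun z => if nx z ≠ 0 ∧ R (nx z) then nx (nx z) else nx z) a (l.filter fun z => ¬R z) := by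
  induction l with
  | nil =>
    intro a h _ _
    have e : nx a = 0 := h
    exact (if_neg fun k => k.1 e).trans e
  | cons z l ih =>
    intro a h h0 k
    have e : nx a = z := h.1
    have z0 : z ≠ 0 := fun c => h0 (c ▸ List.mem_cons_self)
    have t := ih z h.2 (fun c => h0 (List.mem_cons_of_mem _ c))
      fun y hy => k y (List.mem_cons_of_mem _ hy)
    by_cases c : R z
    · rw [List.filter_cons_of_neg (by simpa using c)]
      refine congr_hd ?_ t
      have k1 : ¬(nx z ≠ 0 ∧ R (nx z)) := fun u => k z List.mem_cons_self c u.1 u.2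
      show (if nx a ≠ 0 ∧ R (nx a) then nx (nx a) else nx a) =
        if nx z ≠ 0 ∧ R (nx z) then nx (nx z) else nx z
      rw [e, if_pos ⟨z0, c⟩, if_neg k1]
    · rw [List.filter_cons_of_pos (by simpa using c)]
      refine ⟨?_, t⟩
      show (if nx a ≠ 0 ∧ R (nx a) then nx (nx a) else nx a) = z
      rw [e, if_neg fun u => c u.2]

theorem srt (f : ℕ → ℕ) (S : Finset ℕ) (a e : ℕ) (h : ∀ w, w = a ∨ w ∈ S →
    (f w ∈ S ∧ (w = a ∨ w < f w) ∧ ∀ v ∈ S, (w = a ∨ w < v) → f w ≤ v) ∨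
      (f w = e ∧ ∀ v ∈ S, w ≠ a ∧ v ≤ w)) (ha : a ∉ S) (l : List ℕ) :
    ∀ w, l.Pairwise (· < ·) → (∀ v ∈ l, v ∈ S) → w = a ∨ w ∈ S →
      (∀ v ∈ S, (w = a ∨ w < v) ↔ v ∈ l) →
      List.IsChain (fun u v => f u = v) (w :: (l ++ [e])) := by
  induction l with
  | nil =>
    intro w _ _ hw k
    rcases h w hw with ⟨h1, h2, -⟩ | ⟨h1, -⟩
    · exact absurd ((k _ h1).1 h2) List.not_mem_nil
    · exact List.isChain_cons_cons.2 ⟨h1, List.isChain_singleton _⟩
  | cons y l ih =>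
    intro w p hl hw k
    obtain ⟨p1, p2⟩ := List.pairwise_cons.1 p
    have yS : y ∈ S := hl y List.mem_cons_self
    have wy : w = a ∨ w < y := (k y yS).2 List.mem_cons_self
    have ya : y ≠ a := fun c => ha (c ▸ yS)
    refine List.isChain_cons_cons.2 ⟨?_, ih y p2 (fun v hv => hl v (List.mem_cons_of_mem _ hv))
      (Or.inr yS) fun v hv => ⟨fun u => ?_, fun u => Or.inr (p1 v u)⟩⟩
    · rcases h w hw with ⟨h1, h2, h3⟩ | ⟨-, h2⟩
      · have k1 := h3 y yS wy
        rcases List.mem_cons.1 ((k _ h1).1 h2) with c | c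
        · exact c
        · have := p1 _ c
          omega
      · obtain ⟨k1, k2⟩ := h2 y yS
        rcases wy with c | c
        · exact absurd c k1
        · omega
    · have yv : y < v := u.resolve_left ya
      rcases List.mem_cons.1 ((k v hv).1 (wy.imp_right fun c => c.trans yv)) with c | c
      · omega
      · exact c

end Linkx

theorem linkK : LinkK where
  ins nx nx' I a l h e k := Linkx.ins nx nx' I l a h k a e
  del nx R a l := Linkx.del nx R l a
  srt f S a e h ha := Linkx.srt f S a e h ha _ a (Finset.sortedLT_sort S).pairwise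
    (fun _ hv => (Finset.mem_sort _).1 hv) (Or.inl rfl)
    fun _ hv => ⟨fun _ => (Finset.mem_sort _).2 hv, fun _ => Or.inl rfl⟩

end Pool.Agent.MP_1a6d78_lc.PD

end MrgPart10

-- marker of a merged file
example : 731051 + 701160 = 731051 + 701160 := rfl
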