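import Pool.Agent.MP_1a6d78_lc.PD.Spec2

-- ======== part 0: formerly Pool.Agent.MP_1a6d78_lc.PD.Lb
section MrgPart0

/-! PROJECT PD, row LB: basic facts on the lists and on clipping. -/

namespace Pool.Agent.MP_1a6d78_lc.PD

open Classical ED PR

namespace LB

theorem it_shift (n : ℕ) (f : ℕ → ℕ) (t d : ℕ) :
    it n f (t + 1) d = it n f t (min (f d) n) := by
  induction t with
  | zero => rfl
  | succ t ih => rw [it_succ, ih, ← it_succ]

theorem it_nil {n : ℕ} {f : ℕ → ℕ} (h : f 0 = 0) (t : ℕ) : it n f t 0 = 0 := by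
  induction t with
  | zero => rfl
  | succ t ih => rw [it_succ, ih, h, Nat.zero_min]

theorem it_le {n d : ℕ} (f : ℕ → ℕ) (h : d ≤ n) (t : ℕ) : it n f t d ≤ n := by
  cases t with
  | zero => exact h
  | succ t => exact Nat.min_le_right _ _

theorem lk_it {q : ℕ} {nx : ℕ → ℕ} (h0 : nx 0 = 0) : ∀ (l : List ℕ) (a : ℕ), Lk nx a l →
    (∀ z ∈ l, z < q) → ∀ i, it q nx (i + 1) a = l.getD i 0
  | [], a, h, _, i => by
    rw [it_shift, show nx a = 0 from h, Nat.zero_min, it_nil h0]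
    rfl
  | z :: l, a, h, hq, i => by
    rw [it_shift, h.1, Nat.min_eq_left (hq z List.mem_cons_self).le]
    cases i with
    | zero => rfl
    | succ i => exact lk_it h0 l z h.2 (fun w k => hq w (List.mem_cons_of_mem _ k)) i

theorem lk_clip {q : ℕ} {nx : ℕ → ℕ} : ∀ (l : List ℕ) (a : ℕ), Lk nx a l → a ≤ q →
    (∀ z ∈ l, z < q) → Lk (fun z => min (nx (min z q)) q) a l
  | [], a, h, ha, _ => by
    show min (nx (min a q)) q = 0
    rw [Nat.min_eq_left ha, show nx a = 0 from h, Nat.zero_min]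
  | z :: l, a, h, ha, hq => by
    have hz := (hq z List.mem_cons_self).le
    refine ⟨?_, lk_clip l z h.2 hz fun w k => hq w (List.mem_cons_of_mem _ k)⟩
    show min (nx (min a q)) q = z
    rw [Nat.min_eq_left ha, h.1, Nat.min_eq_left hz]

theorem getD_ne {l : List ℕ} (h : 0 ∉ l) {i : ℕ} (k : l.getD i 0 = 0) : l.length ≤ i := by
  by_contra c
  rw [List.getD_eq_getElem _ _ (not_le.1 c)] at k
  exact h (k ▸ List.getElem_mem _)

theorem len_lt {q : ℕ} {l : List ℕ} (hq : 0 < q) (h0 : 0 ∉ l) (hn : l.Nodup)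
    (h : ∀ z ∈ l, z < q) : l.length < q := by
  have h1 : (0 :: l).toFinset ⊆ Finset.range q := fun z hz => by
    rcases List.mem_cons.1 (List.mem_toFinset.1 hz) with e | e
    · exact Finset.mem_range.2 (e ▸ hq)
    · exact Finset.mem_range.2 (h z e)
  have h2 := Finset.card_le_card h1
  rwa [List.toFinset_card_of_nodup (List.nodup_cons.2 ⟨h0, hn⟩), Finset.card_range] at h2

variable {M : Dm} {L : ℕ → Prop} {q : ℕ}

theorem al_min (H : M.St L) (hq : M.n ≤ q) (d : ℕ) : L (min d q) ↔ L d := by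
  rcases le_total d q with k | k
  · rw [Nat.min_eq_left k]
  · rw [Nat.min_eq_right k]
    exact ⟨fun h => absurd (H.lt _ h) (by omega), fun h => absurd (H.lt _ h) (by omega)⟩

theorem clip1 (H : M.St L) (hq : M.n ≤ q) {f : ℕ → ℕ} (h1 : ∀ d, ¬L d → f d = M.n)
    (h2 : ∀ d, L d → f d ≤ M.n) (d : ℕ) : min (f (min d q)) q = f d := by
  by_cases k : L d
  · rw [Nat.min_eq_left ((H.lt d k).le.trans hq), Nat.min_eq_left ((h2 d k).trans hq)]
  · rw [h1 d k, h1 _ fun c => k ((al_min H hq d).1 c), Nat.min_eq_left hq]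

theorem sg_eq (H : M.St L) (hq : M.n ≤ q) {A : Sg} (h1 : L A.p) (h2 : L A.q) :
    (⟨A.ex, A.s, min A.p q, min A.q q⟩ : Sg) = A := by
  rw [Nat.min_eq_left ((H.lt _ h1).le.trans hq), Nat.min_eq_left ((H.lt _ h2).le.trans hq)]

theorem sg_ok (H : M.St L) (hq : M.n ≤ q) {A : Sg} (h : ¬M.ok L A) :
    ¬M.ok L ⟨A.ex, A.s, min A.p q, min A.q q⟩ := fun k =>
  h (sg_eq H hq ((al_min H hq _).1 k.1) ((al_min H hq _).1 k.2.1) ▸ k)

theorem hit_big {r r' : ℕ} (h : 6 ≤ r) (h' : 6 ≤ r') : M.hit L r = M.hit L r' := by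
  have e : ∀ {t : ℕ}, 6 ≤ t → t ≠ 5 ∧ t ≠ 4 ∧ ¬(t = 2 ∨ t = 3) ∧ ¬(t = 1 ∨ t = 3) := by
    intro t k; omega
  funext A B i
  simp only [Dm.hit, Dm.R, if_neg (e h).1, if_neg (e h).2.1, if_neg (e h').1, if_neg (e h').2.1,
    decide_eq_false (e h).2.2.1, decide_eq_false (e h).2.2.2, decide_eq_false (e h').2.2.1,
    decide_eq_false (e h').2.2.2]

theorem F_le (H : M.St L) (fl : Bool) (r : ℕ) (A B : Sg) : M.F L fl r A B ≤ M.n := by
  unfold Dm.F
  split_ifs with k
  · unfold Dm.el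
    split_ifs
    · exact (H.lt _ k.1.1).le
    · exact (H.lt _ k.1.2.1).le
    · exact it_le _ (H.lt _ k.1.1).le _
  · exact le_rfl

theorem clipF (H : M.St L) (hq : M.n ≤ q) (h6 : 6 ≤ q) (fl : Bool) (r : ℕ) (A B : Sg) :
    min (M.F L fl (min r q) ⟨A.ex, A.s, min A.p q, min A.q q⟩
      ⟨B.ex, B.s, min B.p q, min B.q q⟩) q = M.F L fl r A B := by
  rw [Nat.min_eq_left ((F_le H _ _ _ _).trans hq)]
  by_cases a : M.ok L A
  · by_cases b : M.ok L B
    · rw [sg_eq H hq a.1 a.2.1, sg_eq H hq b.1 b.2.1]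
      rcases le_total r q with k | k
      · rw [Nat.min_eq_left k]
      · rw [Nat.min_eq_right k]
        unfold Dm.F
        rw [hit_big h6 (h6.trans k)]
    · rw [Dm.F_junkB _ _ _ b, Dm.F_junkB _ _ _ (sg_ok H hq b)]
  · rw [Dm.F_junkA _ _ _ a, Dm.F_junkA _ _ _ (sg_ok H hq a)]

end LB

open LB

theorem lbS : LbS := by
  intro M P j q ls I K hn hq
  have hj : 2 * M.n * (j + 2) = 2 * (M.n * j) + 4 * M.n := by ring
  have hj' : j ≤ M.n * j := Nat.le_mul_of_pos_left j hn
  have hnq : M.n ≤ q := by omega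
  have nz : ∀ x, M.crit P.al x → 0 ∉ ls x := fun x hx k => by
    have := (I.ls.rg x hx 0 k).1
    rw [Dm.zl_zero] at this
    omega
  have lt : ∀ x, M.crit P.al x → ∀ z ∈ ls x, z < q ∧ z = M.mk' (M.zl z) (M.ze z) (zs z) := by
    intro x hx z hz
    have e := Dm.mk_eq (M := M) (show z ≠ 0 from fun c => nz x hx (c ▸ hz))
    have h1 := Dm.mk_le (M.zl z) (zs z) (Dm.ze_lt z hn)
    have h2 := Nat.mul_le_mul_left (2 * M.n) (Nat.succ_le_succ (I.ls.rg x hx z hz).2)
    refine ⟨?_, e.symm⟩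
    rw [e] at h1
    exact (h1.trans h2).trans_lt ((Nat.le_add_right _ 6).trans_lt hq)
  have sl : ∀ x, M.crit P.al x → ∀ i, P.sl M q x i = (ls x).getD i 0 := fun x hx i =>
    lk_it I.ls.z0 _ _ (I.ls.lk x hx) (fun z k => (lt x hx z k).1) i
  have len : ∀ x, M.crit P.al x → P.len M q x = (ls x).length := fun x hx => by
    have h1 := len_lt (by omega) (nz x hx) (I.ls.nd x hx) fun z k => (lt x hx z k).1
    have h2 : P.sl M q x (ls x).length = 0 := by rw [sl x hx, List.getD_eq_default _ _ le_rfl]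
    refine le_antisymm (lst_le h1 h2) (getD_ne (nz x hx) ?_)
    rw [← sl x hx]
    exact (lst_spec (P := fun i => P.sl M q x i = 0) ⟨_, h1, h2⟩).2
  have oc : ∀ {e s}, M.val P.al e s → M.crit P.al (M.own P.al s e) := fun {e s} h =>
    (K.path.own s (Dm.val_al h)).2.2
  have al : (P.clip q).al = P.al := funext fun d => propext (al_min I.st hnq d)
  refine ⟨lt, sl, len, fun pr c => ?_, ?_, ?_, fun hk d0 c h pr => ⟨hk M, I.st, I.geo, ?_⟩, ?_, al⟩
  · unfold Pr.Phi tot
    refine congrArg _ (Finset.sum_congr rfl fun x _ => ?_)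
    by_cases k : M.crit P.al x
    · rw [if_pos k, if_pos k, len x k]
    · rw [if_neg k, if_neg k]
  · have e : ((Finset.range q).filter fun z => ∃ x, M.crit P.al x ∧ z ∈ ls x) =
        ((Finset.range M.n).filter (M.crit P.al)).biUnion fun x => (ls x).toFinset := by
      ext z
      simp only [Finset.mem_filter, Finset.mem_range, Finset.mem_biUnion, List.mem_toFinset]
      exact ⟨fun ⟨_, x, h1, h2⟩ => ⟨x, ⟨(Dm.crit_lt I.st.ok h1).1, h1⟩, h2⟩,
        fun ⟨x, h1, h2⟩ => ⟨(lt x h1.2 z h2).1, x, h1.2, h2⟩⟩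
    have d : (((Finset.range M.n).filter (M.crit P.al) : Finset ℕ) : Set ℕ).PairwiseDisjoint
        fun x => (ls x).toFinset := fun x hx y hy k =>
      Finset.disjoint_left.2 fun z h1 h2 => k (I.ls.dj x y (Finset.mem_filter.1 hx).2
        (Finset.mem_filter.1 hy).2 z (List.mem_toFinset.1 h1) (List.mem_toFinset.1 h2))
    have c := Finset.card_biUnion d
    rw [← e, Finset.sum_filter] at c
    refine Eq.trans (Finset.sum_congr rfl fun x _ => ?_) (c.symm.trans ?_)
    · by_cases k : M.crit P.al x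
      · rw [if_pos k, if_pos k, List.toFinset_card_of_nodup (I.ls.nd x k)]
      · rw [if_neg k, if_neg k]
    · unfold cnt
      exact congrArg _ (Finset.filter_congr_decidable _ _ _).symm
  · have key : ∀ s, cnt q (fun z => ((∃ x, M.crit P.al x ∧ z ∈ ls x) ∧ P.live M z) ∧ zs z = s) ≤
        cnt M.n fun e => M.val P.al e s := fun s => by
      refine cnt_inj M.ze (fun a _ h => ⟨Dm.ze_lt a hn, ?_⟩) ?_
      · have := h.1.2.1
        rwa [I.geo.val, h.2] at this
      · rintro a _ b _ ⟨⟨⟨x, a1, a2⟩, a3⟩, a4⟩ ⟨⟨⟨y, b1, b2⟩, b3⟩, b4⟩ e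
        rw [(lt x a1 a a2).2, (lt y b1 b b2).2, ← a3.2, ← b3.2, e, a4, b4]
    refine le_trans ?_ (Nat.add_le_add (key true) (key false))
    refine le_trans (cnt_mono fun a _ h => ?_) (cnt_or _ _ _)
    cases k : zs a
    · exact Or.inr ⟨h, rfl⟩
    · exact Or.inl ⟨h, rfl⟩
  · intro e s hv hd hs
    have ho : P.own M s e = M.own P.al s e := by rw [I.geo.own]
    have hc := oc hv
    have he := I.st.lt e (Dm.val_al hv)
    obtain ⟨i, hi, k⟩ := List.getElem_of_mem (I.ls.mem e s hv)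
    have h1 : P.sl M q (P.own M s e) i = M.mk' (P.cur e s) e s := by
      rw [ho, sl _ hc, List.getD_eq_getElem _ _ hi, k]
    have h2 : P.sl M q (P.own M s e) c = 0 := hs.2.2.1
    rw [ho, sl _ hc] at h2
    have h3 : M.ze (P.sl M q (P.own M s e) i) = e := by rw [h1, Dm.ze_mk _ _ he]
    refine ⟨i, hi.trans_le (getD_ne (nz _ hc) h2), ⟨?_, ?_, ?_⟩, h3, ?_⟩
    · show P.sl M q (P.own M s e) i ≠ 0
      rw [h1]
      exact Dm.mk_ne _ _ _
    · show P.al (M.ze (P.sl M q (P.own M s e) i))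
      rw [h3]
      exact Dm.val_al hv
    · show M.dir (M.ze (P.sl M q (P.own M s e) i)) = d0
      rw [h3]
      exact hd
    · show zs (P.sl M q (P.own M s e) i) = s
      rw [h1, Dm.zs_mk]
  · refine ⟨al.symm ▸ I.st, ⟨?_, ?_, ?_, ?_, ?_⟩, ⟨?_, ?_, ?_, ?_, ?_, ?_⟩⟩
    · rw [al]
      funext s d
      show min (P.nx s (min d q)) q = _
      rw [I.geo.nx]
      exact clip1 I.st hnq (fun _ k => Dm.nx_junk s k)
        (fun _ k => (I.st.lt _ (K.step.nx s k).1).le) d
    · rw [al]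
      funext s d
      show min (P.suc s (min d q)) q = _
      rw [I.geo.suc]
      exact clip1 I.st hnq (fun _ k => Dm.suc_junk s k) (fun _ _ => K.step.sle s _) d
    · rw [al]
      funext s d
      show min (P.En s (min d q)) q = _
      rw [I.geo.En]
      exact clip1 I.st hnq (fun _ k => Dm.En_junk s k)
        (fun _ k => (I.st.lt _ (K.path.al k (K.path.En s k).1).1).le) d
    · rw [al]
      funext s d
      show min (P.FT s (min d q)) q = _
      rw [I.geo.FT]
      exact clip1 I.st hnq (fun _ k => Dm.FT_junk s k)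
        (fun _ k => (I.st.lt _ (K.path.al k (K.path.FT s k).1).1).le) d
    · rw [al]
      funext fl r A B
      show min (P.F fl (min r q) _ _) q = _
      rw [I.geo.F]
      exact clipF I.st hnq (by omega) fl r A B
    · show min (P.next (min 0 q)) q = 0
      rw [Nat.zero_min, I.ls.z0, Nat.zero_min]
    · rw [al]
      intro x hx
      have := Dm.mk_le 0 false (Dm.crit_lt I.st.ok hx).1
      exact lk_clip _ _ (I.ls.lk x hx) (this.trans (by omega)) fun z k => (lt x hx z k).1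
    · rw [al]; exact I.ls.nd
    · rw [al]; exact I.ls.dj
    · rw [al]; exact I.ls.rg
    · rw [al]
      intro e s hv
      have he := I.st.lt e (Dm.val_al hv)
      have h1 := I.ls.mem e s hv
      have h2 := (I.ls.rg _ (oc hv) _ h1).2
      rw [Dm.zl_mk _ _ he] at h2
      show M.mk' (min (P.cur (min e q) s) q) e s ∈ _
      rwa [Nat.min_eq_left (he.le.trans hnq), Nat.min_eq_left (h2.trans (by omega))]

end Pool.Agent.MP_1a6d78_lc.PD

end MrgPart0

-- ======== part 1: formerly Pool.Agent.MP_1a6d78_lc.PD.PathA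
section MrgPart1

/-! PROJECT PD, row PATHA: the paths of one side. -/

namespace Pool.Agent.MP_1a6d78_lc.PD

open Classical ED PR Relation

namespace PathA

open Dm

variable {M : Dm} {L : ℕ → Prop} (H : M.St L) (S : M.StepK L)
include H S

theorem stp {s : Bool} {a b : ℕ} (h : L a ∧ L b ∧ M.suc L s a = b) :
    M.dir b = M.dir a ∧ M.nd b = M.nd (M.β a) := by
  obtain ⟨ha, hb, rfl⟩ := h
  have k := S.suc ha (H.lt _ hb)
  exact ⟨k.2.1, k.2.2.1⟩

theorem al {s : Bool} {p q : ℕ} (hp : L p) (h : M.Pa L s p q) : L q ∧ M.dir q = M.dir p ∧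
    M.Up L (M.dir p) (M.nd p) (M.nd q) ∧ M.Up L (M.dir p) (M.nd (M.β p)) (M.nd (M.β q)) := by
  induction h with
  | refl => exact ⟨hp, rfl, Up.refl _ _, Up.refl _ _⟩
  | tail _ u ih =>
    obtain ⟨k1, k2⟩ := stp H S u
    obtain ⟨i1, i2, i3, i4⟩ := ih
    refine ⟨u.2.1, k1.trans i2, ?_, ?_⟩
    · rw [k2]
      exact i3.trans (i2 ▸ Up.step i1)
    · rw [← k2] at i4
      exact i4.trans ((k1.trans i2) ▸ Up.step u.2.1)

theorem up {s : Bool} {p q : ℕ} (hp : L p) (h : M.Pa L s p q) (ne : p ≠ q) :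
    M.Up L (M.dir p) (M.nd (M.β p)) (M.nd q) := by
  rcases ReflTransGen.cases_tail h with e | ⟨b, k, u⟩
  · exact absurd e.symm ne
  · rw [(stp H S u).2]
    exact (al H S hp k).2.2.2

omit H S in
theorem tot {s : Bool} {p u v : ℕ} (h : M.Pa L s p u) (k : M.Pa L s p v) :
    M.Pa L s u v ∨ M.Pa L s v u :=
  ReflTransGen.total_of_right_unique (fun _ _ _ a b => a.2.2.symm.trans b.2.2) h k

theorem anti {s : Bool} {u v : ℕ} (h : M.Pa L s u v) (k : M.Pa L s v u) : u = v := by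
  by_contra ne
  rcases ReflTransGen.cases_head h with e | ⟨_, w, _⟩
  · exact ne e
  · have a := al H S w.1 h
    have b := (al H S a.1 k).2.2.1
    rw [a.2.1] at b
    exact H.acyc w.1 ((up H S w.1 h ne).trans b)

omit S in
theorem hd {s : Bool} {p q : ℕ} (h : M.Pa L s p q) (ne : p ≠ q) :
    M.suc L s p < M.n ∧ M.Pa L s (M.suc L s p) q := by
  rcases ReflTransGen.cases_head h with e | ⟨_, ⟨_, w, rfl⟩, k⟩
  · exact absurd e ne
  · exact ⟨H.lt _ w, k⟩

theorem inj' {s : Bool} {u v : ℕ} (hu : L u) (h : M.Pa L s u v)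
    (e : M.nd u = M.nd v ∨ M.nd (M.β u) = M.nd (M.β v)) : u = v := by
  by_contra ne
  have k := up H S hu h ne
  have a := al H S hu h
  rcases e with e | e
  · rw [← e] at k
    exact H.acyc hu k
  · rw [e, ← a.2.1] at k
    exact H.acyc a.1 k

omit H in
theorem pth (s : Bool) (p i : ℕ) : M.pth L s p (i + 1) = M.suc L s (M.pth L s p i) :=
  min_eq_left (S.sle _ _)

theorem pal {s : Bool} {p i k : ℕ} (h : L (M.pth L s p k)) (le : i ≤ k) :
    L (M.pth L s p i) ∧ M.Pa L s (M.pth L s p i) (M.pth L s p k) := by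
  induction k, le using Nat.le_induction with
  | base => exact ⟨h, Pa.refl _ _⟩
  | succ k _ ih =>
    rw [pth S] at h ⊢
    have a : L (M.pth L s p k) := by
      by_contra n
      rw [suc_junk s n] at h
      exact H.nn h
    exact ⟨(ih a).1, (ih a).2.trans (Pa.step a h)⟩

theorem plt {s : Bool} {p i k : ℕ} (h : L (M.pth L s p k)) (lt : i < k) :
    M.pth L s p i ≠ M.pth L s p k := fun e => by
  obtain ⟨a, b⟩ := pal H S h (show i + 1 ≤ k from lt)
  have c : L (M.pth L s p i) := e ▸ h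
  rw [pth S] at a b
  rw [← e] at b
  have d := anti H S (Pa.step c a) b
  have f := (stp H S ⟨c, a, rfl⟩).2
  rw [← d] at f
  exact H.acyc c (f ▸ Up.refl _ _)

theorem pinj {s : Bool} {p i k : ℕ} (h : L (M.pth L s p i)) (e : M.pth L s p i = M.pth L s p k) :
    i = k := by
  rcases lt_trichotomy i k with c | c | c
  · exact absurd e (plt H S (e ▸ h) c)
  · exact c
  · exact absurd e.symm (plt H S h c)

theorem bnd {s : Bool} {p k : ℕ} (h : L (M.pth L s p k)) : k < M.n := by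
  have := cnt_inj (n := k + 1) (m := M.n) (P := fun _ => True) (Q := fun _ => True)
    (fun i => M.pth L s p i) (fun i hi _ => ⟨H.lt _ (pal H S h (by omega)).1, trivial⟩)
    fun i hi u _ _ _ e => pinj H S (pal H S h (by omega)).1 e
  simpa [cnt] using this

theorem idx {s : Bool} {p q : ℕ} (hp : L p) :
    M.Pa L s p q ↔ L q ∧ ∃ i < M.n, M.pth L s p i = q := by
  constructor
  · intro h
    have a := (al H S hp h).1
    have : ∃ i, M.pth L s p i = q := by
      clear a
      induction h with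
      | refl => exact ⟨0, rfl⟩
      | tail _ u ih =>
        obtain ⟨i, rfl⟩ := ih
        exact ⟨i + 1, (pth S s p i).trans u.2.2⟩
    obtain ⟨i, rfl⟩ := this
    exact ⟨a, i, bnd H S a, rfl⟩
  · rintro ⟨a, i, _, rfl⟩
    exact (pal H S a (Nat.zero_le i)).2

theorem En {p : ℕ} (s : Bool) (hp : L p) :
    M.Pa L s p (M.En L s p) ∧ M.suc L s (M.En L s p) = M.n := by
  have ex : ∃ i, ¬L (M.pth L s p (i + 1)) := ⟨M.n, fun h => by have := bnd H S h; omega⟩
  have a : L (M.pth L s p (Nat.find ex)) := by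
    rcases h : Nat.find ex with _ | m
    · exact hp
    · exact not_not.1 (Nat.find_min ex (by omega))
  have b : M.suc L s (M.pth L s p (Nat.find ex)) = M.n := by
    by_contra n
    have k := Nat.find_spec ex
    rw [pth S] at k
    exact k (S.suc a (lt_of_le_of_ne (S.sle _ _) n)).1
  have c := lst_le (P := fun i => M.suc L s (M.pth L s p i) = M.n) (bnd H S a) b
  have d := lst_spec (P := fun i => M.suc L s (M.pth L s p i) = M.n) ⟨_, bnd H S a, b⟩
  rw [Dm.En, if_pos hp]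
  exact ⟨(pal H S (pal H S a c).1 (Nat.zero_le _)).2, d.2⟩

omit S in
theorem last {s : Bool} {a b : ℕ} (h : M.Pa L s a b) (e : M.suc L s a = M.n) : a = b := by
  by_contra ne
  exact absurd (hd H h ne).1 (by omega)

theorem Enu {s : Bool} {p q : ℕ} (hp : L p) (h : M.Pa L s p q) (e : M.suc L s q = M.n) :
    M.En L s p = q := by
  obtain ⟨a, b⟩ := En H S s hp
  rcases tot a h with k | k
  · exact last H k b
  · exact (last H k e).symm

theorem Eneq {s : Bool} {p q : ℕ} (hp : L p) (h : M.Pa L s p q) :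
    M.En L s q = M.En L s p ∧ M.Pa L s q (M.En L s p) := by
  obtain ⟨a, b⟩ := En H S s hp
  have c : M.Pa L s q (M.En L s p) := by
    rcases tot a h with k | k
    · rw [last H k b]
      exact Pa.refl _ _
    · exact k
  exact ⟨Enu H S (al H S hp h).1 c b, c⟩

end PathA

theorem pathAS : PathAS := fun _ _ H S =>
  { al := PathA.al H S
    up := PathA.up H S
    tot := PathA.tot
    anti := PathA.anti H S
    hd := PathA.hd H
    inj := fun hp h k e => (PathA.tot h k).elim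
      (fun c => PathA.inj' H S (PathA.al H S hp h).1 c e)
      fun c => (PathA.inj' H S (PathA.al H S hp k).1 c (e.imp Eq.symm Eq.symm)).symm
    pth := PathA.pth S
    idx := PathA.idx H S
    pinj := PathA.pinj H S
    pal := PathA.pal H S
    En := PathA.En H S
    Eneq := PathA.Eneq H S
    Enu := PathA.Enu H S }

end Pool.Agent.MP_1a6d78_lc.PD

end MrgPart1

-- ======== part 2: formerly Pool.Agent.MP_1a6d78_lc.PD.PathB
section MrgPart2

/-! PROJECT PD: first turns, owners and the symmetry of valid gaps. -/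

namespace Pool.Agent.MP_1a6d78_lc.PD

open Classical ED PR

namespace PathBx

open Dm

variable {M : Dm} {L : ℕ → Prop} (H : M.St L) (S : M.StepK L) (A : M.PathA L)
include H S A

theorem ft {p : ℕ} (s : Bool) (hp : L p) : M.Pa L s p (M.FT L s p) ∧ ¬M.Ti L s (M.FT L s p) ∧
    ∀ u, M.Pa L s p u → M.Pa L s u (M.FT L s p) → u ≠ M.FT L s p → M.Ti L s u := by
  obtain ⟨e1, e2⟩ := A.En s hp
  obtain ⟨hq, i, hi, e3⟩ := (A.idx hp).1 e1
  have nt : ¬M.Ti L s (M.En L s p) := fun h => by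
    have k := H.lt _ (S.nx s (H.be _ hq)).1
    rw [← S.ti hq h, e2] at k
    exact lt_irrefl _ k
  have hP : ¬M.Ti L s (M.pth L s p i) := by rw [e3]; exact nt
  have e : M.FT L s p = M.pth L s p (lst M.n fun i => ¬M.Ti L s (M.pth L s p i)) := if_pos hp
  have h1 := lst_spec (P := fun i => ¬M.Ti L s (M.pth L s p i)) ⟨i, hi, hP⟩
  have h2 := lst_le (P := fun i => ¬M.Ti L s (M.pth L s p i)) hi hP
  have h3 := (A.pal (s := s) (p := p) (by rw [e3]; exact hq) h2).1
  rw [e]
  refine ⟨(A.pal h3 (Nat.zero_le _)).2, h1.2, fun u u1 u2 u3 => ?_⟩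
  obtain ⟨hu, k, hk, rfl⟩ := (A.idx hp).1 u1
  by_contra c
  exact u3 (A.anti u2 (A.pal hu (lst_le (P := fun i => ¬M.Ti L s (M.pth L s p i)) hk c)).2)

theorem ftu {s : Bool} {p t : ℕ} (hp : L p) (h : M.Pa L s p t) (nt : ¬M.Ti L s t)
    (k : ∀ u, M.Pa L s p u → M.Pa L s u t → u ≠ t → M.Ti L s u) : M.FT L s p = t := by
  obtain ⟨f1, f2, f3⟩ := ft H S A s hp
  by_contra c
  rcases A.tot h f1 with e | e
  · exact nt (f3 t h e fun x => c x.symm)
  · exact f2 (k _ f1 e c)

theorem back {s : Bool} {p t : ℕ} (h : M.Pa L s p t) :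
    (∀ u, M.Pa L s p u → M.Pa L s u t → u ≠ t → M.Ti L s u) →
      M.Pa L (!s) (M.β t) (M.β p) ∧ ∀ u, M.Pa L (!s) (M.β t) u → M.Pa L (!s) u (M.β p) →
        u ≠ M.β p → M.Ti L (!s) u := by
  induction h with
  | refl => exact fun _ => ⟨Pa.refl _ _, fun u u1 u2 u3 => absurd (A.anti u2 u1) u3⟩
  | @tail a t h1 h2 ih =>
    intro k
    obtain ⟨ha, ht, rfl⟩ := h2
    have st : M.Pa L s a (M.suc L s a) := Pa.step ha ht
    have ne : a ≠ M.suc L s a := fun e => H.acyc ha (by
      rw [← (S.suc ha (H.lt _ ht)).2.2.1, ← e]; exact Up.refl _ _)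
    obtain ⟨i1, i2⟩ := ih fun u u1 u2 u3 => k u u1 (u2.trans st) fun e =>
      ne (A.anti st (e ▸ u2))
    obtain ⟨r1, r2⟩ := S.rev ha (k a h1 st ne)
    have st' : M.Pa L (!s) (M.β (M.suc L s a)) (M.β a) := by
      have := Pa.step (M := M) (s := !s) (H.be _ ht) (by rw [r2]; exact H.be _ ha)
      rwa [r2] at this
    refine ⟨st'.trans i1, fun u u1 u2 u3 => ?_⟩
    by_cases e : M.β (M.suc L s a) = u
    · exact e ▸ r1
    · have := (A.hd u1 e).2
      rw [r2] at this
      exact i2 u this u2 u3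

theorem ftrev {s : Bool} {p : ℕ} (hp : L p) (h : M.dir (M.nx L (!s) p) = M.dir p) :
    M.FT L (!s) (M.β (M.FT L s p)) = M.β p := by
  obtain ⟨f1, -, f3⟩ := ft H S A s hp
  obtain ⟨b1, b2⟩ := back H S A f1 f3
  refine ftu H S A (H.be _ (A.al hp f1).1) b1 (fun c => ?_) b2
  unfold Ti at c
  rw [H.bb hp, h] at c
  exact H.dne hp c.symm

theorem own {e : ℕ} (s : Bool) (he : L e) :
    M.Up L (M.dir e) (M.nd (M.β e)) (M.own L s e) ∧ M.Rt L (M.dir e) (M.own L s e) ∧
      M.crit L (M.own L s e) := by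
  obtain ⟨e1, e2⟩ := A.En s he
  obtain ⟨a1, a2, -, a4⟩ := A.al he e1
  have r := (S.sucn s a1).1 e2
  rw [a2] at r
  rw [own_def]
  exact ⟨a4, r, ⟨_, H.blt a1, H.be _ a1, rfl⟩, !M.dir e, fun d _ hd hn => bne_iff.1 (r d hd hn)⟩

theorem vsymm {e : ℕ} {s : Bool} (h : M.val L e s) : M.val L (M.par L (!s) e) (!s) := by
  obtain ⟨he, h⟩ := (val_def e s).1 h
  obtain ⟨p1, p2, -, -⟩ := S.par (!s) he
  have pp := S.parpar (!s) he
  have nn : ∀ {d}, L d → M.nx L s (M.nx L (!s) d) = d := fun hd => by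
    have := S.nxnx (!s) hd
    rwa [Bool.not_not] at this
  rw [val_def, pp, Bool.not_not]
  rw [Bool.not_not] at pp
  refine ⟨p1, ?_⟩
  by_cases c : M.dir (M.nx L (!s) e) = M.dir e
  · rw [if_pos c] at h
    have e1 : M.par L (!s) e = M.nx L (!s) e := by rw [par_def, if_pos c]
    rw [if_pos (by rw [p2, e1, nn he])]
    intro k
    apply h
    rw [← k]
    exact nn (H.be _ (A.al p1 (ft H S A (!s) p1).1).1)
  · rw [if_neg c] at h
    have c1 : M.dir (M.nx L s (M.par L (!s) e)) ≠ M.dir (M.par L (!s) e) := fun k => by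
      rw [par_def s, if_pos k] at pp
      have := S.nxnx s p1
      rw [pp] at this
      exact c (by rw [this, p2])
    rw [if_neg c1]
    intro k
    apply h
    have o1 := (S.nx s p1).1
    have q1 : M.par L (!s) (M.nx L s (M.par L (!s) e)) = M.nx L (!s) e := by
      rw [par_def (!s) (M.nx L s _), S.nxnx s p1, if_neg c1.symm, k]
    have q2 : M.par L s (M.nx L (!s) e) = M.suc L s (M.β e) := by
      rw [par_def, nn he, if_neg fun x => c x.symm]
    have q3 := S.parpar (!s) o1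
    rw [q1, Bool.not_not, q2] at q3
    exact q3

end PathBx

theorem pathBS : PathBS := fun _ _ H S A =>
  { FT := PathBx.ft H S A
    FTu := PathBx.ftu H S A
    FTrev := PathBx.ftrev H S A
    own := PathBx.own H S A
    owneq := fun hp h => by rw [Dm.own_def, Dm.own_def, (A.Eneq hp h).1]
    vsymm := PathBx.vsymm H S A }

end Pool.Agent.MP_1a6d78_lc.PD

end MrgPart2

-- ======== part 3: formerly Pool.Agent.MP_1a6d78_lc.PD.Pot
section MrgPart3

/-! PROJECT PD, row POT: some round gains a constant fraction of the potential. -/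

namespace Pool.Agent.MP_1a6d78_lc.PD

open Classical ED PR

namespace Pot

theorem next_ne {nx : ℕ → ℕ} : ∀ (l : List ℕ) (a : ℕ), Lk nx a l → l.Nodup → 0 ∉ l →
    ∀ z ∈ l, nx z ≠ z
  | [], _, _, _, _ => fun _ h => by simp at h
  | y :: l, _, h, hn, h0 => fun z hz => by
    rcases List.mem_cons.1 hz with rfl | hz
    · cases l with
      | nil => exact fun e => h0 (by rw [← (show nx z = 0 from h.2), e]; simp)
      | cons y' l' =>
        exact fun e => (List.nodup_cons.1 hn).1 (by rw [← e, h.2.1]; simp)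
    · exact next_ne l y h.2 (List.nodup_cons.1 hn).2 (fun k => h0 (List.mem_cons_of_mem _ k)) z hz

theorem cnt_add (n : ℕ) (A B C : ℕ → Prop) (h1 : ∀ a, A a → C a) (h2 : ∀ a, B a → C a)
    (h3 : ∀ a, A a → ¬B a) : PR.cnt n A + PR.cnt n B ≤ PR.cnt n C := by
  induction n with
  | zero => simp [PR.cnt]
  | succ n ih =>
    simp only [cnt_succ]
    have := h1 n
    have := h2 n
    have := h3 n
    split_ifs <;> first | omega | tauto

theorem cnt_two (n s t : ℕ) : PR.cnt n (fun x => x = s ∨ x = t) ≤ 2 := by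
  refine le_trans (Finset.card_le_card (t := {s, t}) fun x hx => ?_) Finset.card_le_two
  simp only [Finset.mem_filter] at hx
  simpa using hx.2

theorem markov (M : Dm) (L : ℕ → Prop) (ls : ℕ → List ℕ) (c : ℕ) :
    c * PR.cnt M.n (fun x => M.crit L x ∧ c < (ls x).length) ≤ tot M L ls := by
  rw [PR.cnt, Finset.card_filter, Finset.mul_sum]
  refine Finset.sum_le_sum fun x _ => ?_
  split_ifs with h1 h2 h2
  · omega
  · exact absurd h1.1 h2
  · omega
  · omega

theorem fin {A a b g : ℕ} (h1 : a + g ≤ b) (h2 : b ≤ A * g) : A * a + b ≤ A * b :=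
  calc A * a + b ≤ A * a + A * g := by omega
    _ = A * (a + g) := by ring
    _ ≤ A * b := Nat.mul_le_mul_left _ h1

theorem phi_clip (kit : KitS) (lb : LbS) {M : Dm} {P : Pr} {j q : ℕ} {ls : ℕ → List ℕ}
    (I : Inv M P j ls) (hn : 0 < M.n) (hq : 2 * M.n * (j + 2) + 6 < q) (pr : ℕ → Prop) (c : ℕ) :
    (P.clip q).Phi M pr c q =
      10 * c * PR.cnt M.n (fun x => M.crit P.al x ∧ ¬pr x) + tot M P.al ls := by
  obtain ⟨I', e⟩ := (lb M P j q ls I (kit _ _ I.st) hn hq).clip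
  rw [(lb M _ j q ls I' (kit _ _ I'.st) hn hq).phi, e]

/-- The garbage round. -/
theorem garb (gl : GlS) (hash : HashS) {M : Dm} {P : Pr} {j q c : ℕ} {ls : ℕ → List ℕ}
    (I : Inv M P j ls) (Lb : LbK M P j q ls) (hc : 0 < c)
    (h : 2 * PR.cnt q (fun z => (∃ x, M.crit P.al x ∧ z ∈ ls x) ∧ P.live M z) ≤ tot M P.al ls) :
    ∃ w < hm c q, ∃ ls' g, Inv M (P.garb M (colq q (4 * c) w)) (j + 1) ls' ∧
      tot M P.al ls' + g ≤ tot M P.al ls ∧ tot M P.al ls ≤ 16 * c * g := by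
  obtain ⟨w, hw, k⟩ := hash q c (fun z => (∃ x, M.crit P.al x ∧ z ∈ ls x) ∧ ¬P.live M z)
    (fun z _ => P.next z) hc
  obtain ⟨ls', I', k'⟩ := gl M P j q ls (colq q (4 * c) w) I Lb
  refine ⟨w, hw, ls', _, I', k', ?_⟩
  have a1 := (cnt_mono (n := q) (P := fun z => ∃ x, M.crit P.al x ∧ z ∈ ls x)
    fun z _ hz => (by by_cases e : P.live M z; exacts [Or.inl ⟨hz, e⟩, Or.inr ⟨hz, e⟩])).trans
    (cnt_or q (fun z => (∃ x, M.crit P.al x ∧ z ∈ ls x) ∧ P.live M z)
      fun z => (∃ x, M.crit P.al x ∧ z ∈ ls x) ∧ ¬P.live M z)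
  have a2 := k.trans (Nat.mul_le_mul_left _ (cnt_mono
    (Q := fun z => (∃ x, M.crit P.al x ∧ z ∈ ls x) ∧ P.rem M (colq q (4 * c) w) z) ?_))
  · rw [← Lb.tot] at a1
    rw [show 16 * c = 2 * (8 * c) by ring, mul_assoc]
    omega
  · rintro z _ ⟨⟨⟨x, hx, hz⟩, h1⟩, h2, h3⟩
    refine ⟨⟨x, hx, hz⟩, h1, h2, Or.inr (h3 0 hc (next_ne _ _ (I.ls.lk x hx) (I.ls.nd x hx)
      (fun e => ?_) z hz))⟩
    have := (I.ls.rg x hx 0 e).1
    rw [Dm.zl_zero] at this
    omega

/-- The kill round. -/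
theorem kill (kit : KitS) (geo : GeoS) (kl : KlS) (hash : HashS) {M : Dm} {P : Pr} {j q c : ℕ}
    {ls : ℕ → List ℕ} (I : Inv M P j ls) (Lb : LbK M P j q ls) (hc : 0 < c)
    (hq : 2 * M.n * (j + 3) < q) (pr : ℕ → Prop)
    (h : 4 * tot M P.al ls ≤ c * PR.cnt M.n fun x => M.crit P.al x ∧ ¬pr x) :
    ∃ d0, ∃ w < hm c q, ∃ ls' k L',
      (Rd.kill ⟨M, P, j, d0, c, q, colq q (4 * c) w, pr⟩).al = L' ∧
      Inv M (Rd.kill ⟨M, P, j, d0, c, q, colq q (4 * c) w, pr⟩) (j + 1) ls' ∧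
      tot M L' ls' ≤ tot M P.al ls + 5 * c * k ∧
      PR.cnt M.n (fun x => M.crit L' x ∧ ¬pr x) + k ≤ PR.cnt M.n (fun x => M.crit P.al x ∧ ¬pr x) ∧
      PR.cnt M.n (fun x => M.crit P.al x ∧ ¬pr x) ≤ 32 * c * k := by
  have nq : M.n ≤ q := by nlinarith
  obtain ⟨d0, h0⟩ : ∃ d0, PR.cnt M.n (fun x => M.crit P.al x ∧ ¬pr x) ≤
      2 * PR.cnt M.n fun x => M.crit P.al x ∧ ¬pr x ∧ M.Rt P.al d0 x := by
    have := (cnt_mono (n := M.n) (P := fun x => M.crit P.al x ∧ ¬pr x) ?_).trans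
      (cnt_or M.n (fun x => M.crit P.al x ∧ ¬pr x ∧ M.Rt P.al true x)
        fun x => M.crit P.al x ∧ ¬pr x ∧ M.Rt P.al false x)
    · by_contra k
      push Not at k
      have k1 := k true
      have k2 := k false
      omega
    · rintro x _ ⟨hx, hp⟩
      obtain ⟨δ, hδ⟩ := hx.2
      cases δ
      · exact Or.inl ⟨hx, hp, fun d h1 h2 => by rw [hδ d (I.st.lt d h1) h1 h2]; simp⟩
      · exact Or.inr ⟨hx, hp, fun d h1 h2 => by rw [hδ d (I.st.lt d h1) h1 h2]; simp⟩
  let K0 : Rd := ⟨M, P, j, d0, c, q, pr, pr⟩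
  obtain ⟨w, hw, k⟩ := hash q c
    (fun x => M.crit P.al x ∧ ¬pr x ∧ M.Rt P.al d0 x ∧ (ls x).length ≤ c)
    (fun x i => if K0.us x i then K0.po x i else x) hc
  let K : Rd := ⟨M, P, j, d0, c, q, colq q (4 * c) w, pr⟩
  have G := geo K (Lb.hy kit _ _ _ _)
  obtain ⟨ls', I', k'⟩ := kl K ls I Lb G hq
  refine ⟨d0, w, hw, ls', _, K.L', G.al, I', k', ?_, ?_⟩
  · refine cnt_add _ _ _ _ (fun x hx => ⟨(G.rch.crit x hx.1).1, hx.2⟩)
      (fun x hx => ⟨hx.1, hx.2.2.1⟩) fun x hx hy => (G.rch.crit x hx.1).2 ⟨hy.2.2, hy.2.1⟩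
  · have a1 := (cnt_mono (n := M.n) (P := fun x => M.crit P.al x ∧ ¬pr x ∧ M.Rt P.al d0 x)
      fun x _ hx => (by
        by_cases e : (ls x).length ≤ c
        exacts [Or.inl ⟨hx.1, hx.2.1, hx.2.2, e⟩, Or.inr ⟨hx.1, not_le.1 e⟩])).trans
      (cnt_or M.n (fun x => M.crit P.al x ∧ ¬pr x ∧ M.Rt P.al d0 x ∧ (ls x).length ≤ c)
        fun x => M.crit P.al x ∧ c < (ls x).length)
    have a2 := cnt_inj (n := M.n) (m := q) id
      (P := fun x => M.crit P.al x ∧ ¬pr x ∧ M.Rt P.al d0 x ∧ (ls x).length ≤ c)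
      (Q := fun x => M.crit P.al x ∧ ¬pr x ∧ M.Rt P.al d0 x ∧ (ls x).length ≤ c)
      (fun x hx e => ⟨hx.trans_le nq, e⟩) fun _ _ _ _ _ _ e => e
    have a3 := k.trans (Nat.mul_le_mul_left _ (cnt_inj (m := M.n) id
      (Q := fun x => M.crit P.al x ∧ M.Rt P.al d0 x ∧ K.sel x) ?_ fun _ _ _ _ _ _ e => e))
    · have a4 : c * (4 * PR.cnt M.n fun x => M.crit P.al x ∧ c < (ls x).length) ≤
          c * PR.cnt M.n fun x => M.crit P.al x ∧ ¬pr x := by
        have := markov M P.al ls c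
        rw [← mul_assoc, mul_comm c 4, mul_assoc]
        omega
      have a5 := Nat.le_of_mul_le_mul_left a4 hc
      show _ ≤ 32 * c * PR.cnt M.n fun x => M.crit P.al x ∧ M.Rt P.al d0 x ∧ K.sel x
      rw [show 32 * c = 4 * (8 * c) by ring, mul_assoc]
      omega
    · rintro x _ ⟨⟨h1, h2, h3, h4⟩, h5, h6⟩
      refine ⟨(Dm.crit_lt I.st.ok h1).1, h1, h3, h2, h5, ?_, fun i hi hu => ?_⟩
      · show P.sl M q x c = 0
        rw [Lb.sl x h1, List.getD_eq_default _ _ h4]
      · have hu' : K0.us x i := hu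
        have := h6 i hi
        rw [if_pos hu'] at this
        exact or_iff_not_imp_left.2 this

end Pot

theorem potS : KitS → GeoS → LbS → KlS → GlS → CountS → HashS → PotS := by
  intro kit geo lb kl gl count hash M G q P j ls s t I hG hq ⟨x0, hx0, px0⟩
  have x0n := (Dm.crit_lt I.st.ok hx0).1
  have hn : 0 < M.n := by omega
  have Lb := lb M P j q ls I (kit _ _ I.st) hn (by nlinarith)
  have hc : 192 ≤ cc G := by unfold cc; omega
  have m1 : 0 < PR.cnt M.n fun x => M.crit P.al x ∧ ¬(x = s ∨ x = t) := cnt_pos x0n ⟨hx0, px0⟩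
  have m2 : PR.cnt M.n (M.crit P.al) ≤
      (PR.cnt M.n fun x => M.crit P.al x ∧ ¬(x = s ∨ x = t)) + 2 := by
    have := (cnt_mono (n := M.n) (P := M.crit P.al) fun x _ hx => (by
      by_cases e : x = s ∨ x = t
      exacts [Or.inr e, Or.inl ⟨hx, e⟩])).trans
      (cnt_or M.n (fun x => M.crit P.al x ∧ ¬(x = s ∨ x = t)) fun x => x = s ∨ x = t)
    have := Pot.cnt_two M.n s t
    omega
  rw [Lb.phi]
  by_cases hN : 16 * ((PR.cnt M.n fun x => M.crit P.al x ∧ ¬(x = s ∨ x = t)) + 2 + G) ≤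
      tot M P.al ls
  · have c1 := count M P.al G true I.st hG
    have c2 := count M P.al G false I.st hG
    have c3 := Lb.live
    obtain ⟨w, hw, ls', g, I', k1, k2⟩ := Pot.garb gl hash I Lb (c := cc G) (by omega) (by omega)
    refine ⟨3 * w, by omega, ?_⟩
    have e : step M (fun x => x = s ∨ x = t) (cc G) q P j (3 * w) =
        P.garb M (colq q (4 * cc G) w) := by
      rw [step, if_pos (by omega), show 3 * w / 3 = w by omega]
    rw [e, Pot.phi_clip kit lb I' hn hq]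
    refine Pot.fin (g := g) (by
      show 10 * cc G * (PR.cnt M.n fun x => M.crit P.al x ∧ ¬(x = s ∨ x = t)) + tot M P.al ls' + g ≤ _
      omega) ?_
    generalize (PR.cnt M.n fun x => M.crit P.al x ∧ ¬(x = s ∨ x = t)) = m at *
    generalize tot M P.al ls = N at *
    generalize cc G = c at *
    have a1 : c * (16 * m) ≤ c * N := Nat.mul_le_mul_left _ (by omega)
    have a2 : 192 * N ≤ c * N := Nat.mul_le_mul_right _ hc
    have a3 : c * N ≤ c * (16 * c * g) := Nat.mul_le_mul_left _ k2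
    nlinarith
  · have hN' : 4 * tot M P.al ls ≤
        cc G * PR.cnt M.n fun x => M.crit P.al x ∧ ¬(x = s ∨ x = t) := by
      unfold cc
      generalize (PR.cnt M.n fun x => M.crit P.al x ∧ ¬(x = s ∨ x = t)) = m at *
      have : G * 1 ≤ G * m := Nat.mul_le_mul_left _ m1
      nlinarith
    obtain ⟨d0, w, hw, ls', k, L', e', I', k1, k2, k3⟩ :=
      Pot.kill kit geo kl hash I Lb (c := cc G) (by omega) (by omega) _ hN'
    refine ⟨3 * w + if d0 then 2 else 1, by split_ifs <;> omega, ?_⟩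
    have e : step M (fun x => x = s ∨ x = t) (cc G) q P j (3 * w + if d0 then 2 else 1) =
        Rd.kill ⟨M, P, j, d0, cc G, q, colq q (4 * cc G) w, fun x => x = s ∨ x = t⟩ := by
      cases d0
      · rw [step, if_neg (by simp), show (3 * w + if false = true then 2 else 1) / 3 = w by
          simp; omega, show decide ((3 * w + if false = true then 2 else 1) % 3 = 2) = false by simp]
      · rw [step, if_neg (by simp), show (3 * w + if true = true then 2 else 1) / 3 = w by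
          simp; omega, show decide ((3 * w + if true = true then 2 else 1) % 3 = 2) = true by simp]
    rw [e, Pot.phi_clip kit lb I' hn hq, e']
    generalize (PR.cnt M.n fun x => M.crit P.al x ∧ ¬(x = s ∨ x = t)) = m at *
    generalize (PR.cnt M.n fun x => M.crit L' x ∧ ¬(x = s ∨ x = t)) = m' at *
    generalize tot M P.al ls = N at *
    generalize tot M L' ls' = N' at *
    generalize cc G = c at *
    have a1 : c * (m' + k) ≤ c * m := Nat.mul_le_mul_left _ k2
    have a2 : c * m ≤ c * (32 * c * k) := Nat.mul_le_mul_left _ k3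
    have a3 : 192 * (c * c * k) ≤ c * (c * c * k) := Nat.mul_le_mul_right _ hc
    refine Pot.fin (g := 5 * c * k) (by nlinarith) (by nlinarith)

end Pool.Agent.MP_1a6d78_lc.PD

end MrgPart3

-- ======== part 4: formerly Pool.Agent.MP_1a6d78_lc.PD.Rch
section MrgPart4

/-! PROJECT PD, row RCH: a round keeps the critical vertices and the protected reachability. -/

namespace Pool.Agent.MP_1a6d78_lc.PD

open Classical ED PR

theorem rchS : RchS := fun K G => by
  have D := G.dead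
  have H := G.hy.st
  refine ⟨fun x hx => ?_, fun s t ps pt rs rt h => ?_⟩
  · obtain ⟨⟨d, hd, l, rfl⟩, δ, hδ⟩ := hx
    have v := D.vx l
    refine ⟨⟨⟨d, hd, D.sub l, rfl⟩, δ, fun e he le ne => ?_⟩, fun k => v ⟨_, D.self k.1 k.2⟩⟩
    by_cases k : K.M.dir e = K.d0
    · obtain ⟨g, g1, g2, g3⟩ := G.run.keep le k (ne ▸ v)
      rw [k, ← g2]
      exact hδ g (D.st.lt g g1) g1 (g3.trans ne)
    · exact hδ e he ((D.out le k).2 (ne ▸ v)) ne
  · have key : ∀ v, K.M.Up K.L true s v → K.M.Up K.L true v t → ¬∃ x, K.D x v := by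
      rintro v a b ⟨x, k1, k2⟩
      cases e : K.d0 with
      | true =>
        rw [e] at k2
        exact k1.1 (k2 t b rt ▸ pt)
      | false =>
        rw [e] at k2
        exact k1.1 (k2 s (H.up_rev a) rs ▸ ps)
    have main : ∀ v, K.M.Up K.L true s v → K.M.Up K.L true v t → K.M.Up K.L' true s v := by
      intro v a
      induction a with
      | refl => exact fun _ => Dm.Up.refl _ _
      | @tail b c a u ih =>
        intro k
        have k' : K.M.Up K.L true b t := Relation.ReflTransGen.head u k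
        have a' : K.M.Up K.L true s c := Relation.ReflTransGen.tail a u
        obtain ⟨d, u1, u2, rfl, rfl⟩ := u
        refine Relation.ReflTransGen.tail (ih k') ⟨d, ⟨u1, ?_⟩, u2, rfl, rfl⟩
        by_cases e : K.M.dir d = !K.d0
        · rw [Dm.en_same e]
          exact key _ a k'
        · rw [Dm.en_opp e]
          exact key _ a' k
    exact main t h (Dm.Up.refl _ _)

end Pool.Agent.MP_1a6d78_lc.PD

end MrgPart4

-- ======== part 5: formerly Pool.Agent.MP_1a6d78_lc.PD.Rot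
section MrgPart5

/-! PROJECT PD, row ROT: the cyclic order around a vertex. -/

namespace Pool.Agent.MP_1a6d78_lc.PD

open Classical ED PR

namespace RotA

variable {M : Dm}

theorem dle (s : Bool) (a z : ℕ) : M.dist s a z ≤ M.n :=
  Nat.lt_succ_iff.1 (lst_lt _ M.n.succ_pos)

variable (H : M.Ok)
include H

theorem ilt (s : Bool) {a : ℕ} (ha : a < M.n) (t : ℕ) : (M.ρ s)^[t] a < M.n :=
  iter_inv (Q := fun a => a < M.n) (H.pm s).1 ha t

theorem spec {s : Bool} {a z : ℕ} (ha : a < M.n) (h : M.dist s a z < M.n) :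
    (M.ρ s)^[M.dist s a z + 1] a = z := by
  rw [← it_eq (H.pm s).1 ha]
  exact (lst_spec (P := fun t => t = M.n ∨ it M.n (M.ρ s) (t + 1) a = z)
    ⟨M.n, M.n.lt_succ_self, Or.inl rfl⟩).2.resolve_left h.ne

theorem le {s : Bool} {a z t : ℕ} (ha : a < M.n) (h : (M.ρ s)^[t + 1] a = z) :
    M.dist s a z ≤ t := by
  rcases lt_or_ge t M.n with k | k
  · exact lst_le (by omega) (Or.inr ((it_eq (H.pm s).1 ha _).trans h))
  · exact (dle s a z).trans k

theorem dsc {s : Bool} {a z : ℕ} (ha : a < M.n) : M.dist s a z < M.n ↔ Sc M.n (M.ρ s) a z := by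
  have p := H.pm s
  refine ⟨fun h => (sc_iff p.1 ha).2 ⟨_, spec H ha h⟩, fun h => ?_⟩
  obtain ⟨t, h1, h2⟩ := ((Sc.step p.1 ha).symm p ha).trans p.1 (p.1 a ha) h
  rw [it_eq p.1 (p.1 a ha)] at h2
  exact (le H ha h2).trans_lt h1

theorem sc_not {s : Bool} {a z : ℕ} (ha : a < M.n) (h : Sc M.n (M.ρ s) a z) :
    Sc M.n (M.ρ (!s)) a z := by
  have p := H.pm s
  have q := H.pm (!s)
  refine Sc.ind p.1 ha (Sc.refl _ ha) (fun d hd k => k.trans q.1 ha ?_) h
  have := Sc.step q.1 (p.1 d hd)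
  rw [H.inv s d hd] at this
  exact this.symm q (p.1 d hd)

theorem dlt {s : Bool} {a z : ℕ} (ha : a < M.n) :
    M.dist s a z < M.n ↔ z < M.n ∧ M.nd z = M.nd a := by
  have e : Sc M.n (M.ρ s) a z ↔ Sc M.n (M.ρ true) a z := by
    cases s
    · exact ⟨sc_not H ha, sc_not H ha⟩
    · rfl
  rw [dsc H ha, e]
  exact ⟨fun h => ⟨h.lt (H.pm true).1 ha, ((H.nd a ha z (h.lt (H.pm true).1 ha)).2 h).symm⟩,
    fun h => (H.nd a ha z h.1).1 h.2.symm⟩

theorem inj {s : Bool} {a z b : ℕ} (ha : a < M.n) (h : M.dist s a z < M.n)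
    (e : M.dist s a z = M.dist s a b) : z = b := by
  rw [← spec H ha h, ← spec H ha (e ▸ h : M.dist s a b < M.n), e]

theorem le_self {s : Bool} {a z : ℕ} (ha : a < M.n) (h : M.dist s a z < M.n) :
    M.dist s a z ≤ M.dist s a a := by
  by_contra k
  have h1 := spec H ha ((dlt (s := s) H ha).2 ⟨ha, rfl⟩)
  have h2 := spec H ha h
  obtain ⟨u, hu⟩ : ∃ u, M.dist s a z + 1 = u + 1 + (M.dist s a a + 1) :=
    ⟨M.dist s a z - M.dist s a a - 1, by omega⟩
  rw [hu, Function.iterate_add_apply, h1] at h2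
  have := le H ha h2
  omega

theorem tr {s : Bool} {a m z : ℕ} (ha : a < M.n) (h : M.dist s a m < M.n)
    (k : M.dist s m z < M.n) : M.dist s a z ≤ M.dist s a m + 1 + M.dist s m z := by
  refine le H ha ?_
  rw [show M.dist s a m + 1 + M.dist s m z + 1 = M.dist s m z + 1 + (M.dist s a m + 1) by omega,
    Function.iterate_add_apply, spec H ha h, spec H ((dlt H ha).1 h).1 k]

theorem add {s : Bool} {a m z : ℕ} (ha : a < M.n) (h : M.Bt s a m z) (k : M.dist s a z < M.n) :
    M.dist s a z = M.dist s a m + 1 + M.dist s m z := by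
  have h : M.dist s a m < M.dist s a z := h
  have hm := ((dlt H ha).1 (h.trans k)).1
  have h2 := spec H ha k
  obtain ⟨u, hu⟩ : ∃ u, M.dist s a z + 1 = u + 1 + (M.dist s a m + 1) :=
    ⟨M.dist s a z - M.dist s a m - 1, by omega⟩
  rw [hu, Function.iterate_add_apply, spec H ha (h.trans k)] at h2
  have h3 := le H hm h2
  have := tr H ha (h.trans k) (show M.dist s m z < M.n by omega)
  omega

theorem back (s : Bool) {a : ℕ} (ha : a < M.n) (t : ℕ) :
    (M.ρ (!s))^[t] ((M.ρ s)^[t] a) = a := by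
  induction t with
  | zero => rfl
  | succ t ih =>
    rw [Function.iterate_succ_apply, Function.iterate_succ_apply', H.inv s _ (ilt H s ha t), ih]

theorem rev_le (s : Bool) {a : ℕ} (ha : a < M.n) {b : ℕ} (hb : b < M.n) :
    M.dist (!s) b a ≤ M.dist s a b := by
  rcases (dle s a b).eq_or_lt with k | k
  · exact (dle _ _ _).trans k.ge
  · refine le H hb ?_
    have := back H s ha (M.dist s a b + 1)
    rwa [spec H ha k] at this

theorem rev (s : Bool) {a : ℕ} (ha : a < M.n) {b : ℕ} (hb : b < M.n) :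
    M.dist (!s) b a = M.dist s a b := by
  refine le_antisymm (rev_le H s ha hb) ?_
  have := rev_le H (!s) hb ha
  rwa [Bool.not_not] at this

theorem symm {s : Bool} {a z b : ℕ} (ha : a < M.n) (hb : b < M.n) (e : M.nd b = M.nd a)
    (h : M.Bt s a z b) : M.Bt (!s) b z a := by
  have k := (dlt (s := s) H ha).2 ⟨hb, e⟩
  have h1 := add H ha h k
  have hz := ((dlt H ha).1 (lt_trans h k)).1
  unfold Dm.Bt
  rw [rev H s ha hb, rev H s hz hb]
  omega

theorem tri {s : Bool} {a z b : ℕ} (ha : a < M.n) (hz : z < M.n) (e : M.nd z = M.nd a) :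
    M.Bt s a z b ∨ z = b ∨ M.Bt s a b z :=
  (lt_trichotomy (M.dist s a z) (M.dist s a b)).imp id
    (Or.imp_left (inj H ha ((dlt H ha).2 ⟨hz, e⟩)))

theorem ind {s : Bool} {a : ℕ} (ha : a < M.n) (t : ℕ) :
    it M.n (M.ρ s) (t + 1) a < M.n ∧ M.nd (it M.n (M.ρ s) (t + 1) a) = M.nd a := by
  rw [it_eq (H.pm s).1 ha]
  exact (dlt (s := s) H ha).1 ((dsc H ha).2 ((sc_iff (H.pm s).1 ha).2 ⟨_, rfl⟩))

theorem fnone {s : Bool} {Q : ℕ → Prop} {a : ℕ} (ha : a < M.n) :
    M.fst s Q a = M.n ↔ ∀ z < M.n, M.nd z = M.nd a → ¬Q z := by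
  unfold Dm.fst
  split_ifs with h
  · refine ⟨fun k => absurd k (ind H ha _).1.ne, fun k => ?_⟩
    obtain ⟨t, _, h⟩ := h
    exact absurd h (k _ (ind H ha t).1 (ind H ha t).2)
  · refine ⟨fun _ z hz e q => h ⟨_, (dlt (s := s) H ha).2 ⟨hz, e⟩, ?_⟩, fun _ => rfl⟩
    rwa [it_eq (H.pm s).1 ha, spec H ha ((dlt H ha).2 ⟨hz, e⟩)]

theorem fspec {s : Bool} {Q : ℕ → Prop} {a : ℕ} (ha : a < M.n) (k : M.fst s Q a < M.n) :
    M.nd (M.fst s Q a) = M.nd a ∧ Q (M.fst s Q a) ∧ ∀ z, M.Bt s a z (M.fst s Q a) → ¬Q z := by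
  unfold Dm.fst at k ⊢
  split_ifs at k ⊢ with h
  · refine ⟨(ind H ha _).2, (lst_spec h).2, fun z b q => ?_⟩
    have b1 := lt_of_lt_of_le b (le H ha (it_eq (H.pm s).1 ha _).symm)
    have b2 := b1.trans (lst_spec h).1
    refine absurd (lst_le b2 ?_) (not_le.2 b1)
    rwa [it_eq (H.pm s).1 ha, spec H ha b2]
  · exact absurd k (lt_irrefl _)

omit H in
theorem fle (s : Bool) (Q : ℕ → Prop) (a : ℕ) : M.fst s Q a ≤ M.n := by
  unfold Dm.fst
  split_ifs
  · exact min_le_right _ _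
  · exact le_rfl

end RotA

open RotA in
theorem rotS : RotS := fun M H =>
  { dle := dle
    dlt := dlt H
    lt := fun ha h => (dlt H ha).1 (lt_of_lt_of_le h (dle _ _ _))
    tri := tri H
    self := fun ha hz e k => (le_self H ha ((dlt H ha).2 ⟨hz, e⟩)).lt_of_ne
      fun q => k (inj H ha ((dlt H ha).2 ⟨hz, e⟩) q)
    nself := fun ha hb e => not_lt.2 (le_self H ha ((dlt H ha).2 ⟨hb, e⟩))
    symm := fun {s a z b} ha hb e => ⟨symm H ha hb e, fun h => by
      have := symm H hb ha e.symm h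
      rwa [Bool.not_not] at this⟩
    split := fun {s a m b z} ha hb e h => by
      have k := (dlt (s := s) H ha).2 ⟨hb, e⟩
      have h1 := add H ha h k
      refine ⟨fun q => ?_, fun q => ?_⟩
      · have hz := (dlt H ha).1 (lt_trans q k)
        refine (tri (s := s) (b := m) H ha hz.1 hz.2).imp_right (Or.imp_right fun u => ?_)
        have h2 := add H ha u (lt_trans q k)
        unfold Dm.Bt at q ⊢
        omega
      · rcases q with q | rfl | q
        · exact lt_trans q h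
        · exact h
        · have := tr (z := z) H ha (lt_trans h k) (lt_of_lt_of_le q (dle _ _ _))
          unfold Dm.Bt at q ⊢
          omega
    first := fun {s a z} ha h => by
      have := le (t := 0) (s := s) H ha rfl
      unfold Dm.Bt at h
      exact absurd (lt_of_lt_of_le h this) (Nat.not_lt_zero _)
    fle := fle
    fnone := fnone H
    fspec := fspec H
    feq := fun {s Q a b} ha hb e q h => by
      have k : M.fst s Q a < M.n :=
        (fle s Q a).lt_of_ne fun u => (fnone H ha).1 u b hb e q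
      obtain ⟨_, k2, k3⟩ := fspec H ha k
      rcases tri (s := s) (b := M.fst s Q a) H ha hb e with u | u | u
      · exact absurd q (k3 b u)
      · exact u.symm
      · exact absurd k2 (h _ u)
    best := fun {s a b m f} ha hb e ⟨i, hi, q⟩ h => by
      obtain ⟨k1, k2⟩ := amin_spec (fun i => M.dist s a (f i)) (show 0 < m by omega)
      have k3 := k2 i hi
      rw [q] at k3
      exact (inj H ha ((dlt H ha).2 ⟨hb, e⟩) (le_antisymm (not_lt.1 (h _ k1)) k3)).symm }

end Pool.Agent.MP_1a6d78_lc.PD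

end MrgPart5

-- ======== part 6: formerly Pool.Agent.MP_1a6d78_lc.PD.Run
section MrgPart6

/-! PROJECT PD, row RUN: consecutive dead darts have the same killer. -/

namespace Pool.Agent.MP_1a6d78_lc.PD

open Classical ED PR

namespace Run

/-- Rotation of the cyclic order. -/
theorem rot {M : Dm} (R : M.RotK) {s : Bool} {a z b : ℕ} (ha : a < M.n) (hb : b < M.n)
    (hn : M.nd b = M.nd a) (h : M.Bt s a z b) (hne : b ≠ a) : M.Bt s z b a := by
  have hz := R.lt ha h
  have hza : z ≠ a := fun e => R.nself ha hb hn (e ▸ h)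
  have k := (R.split (z := b) ha ha rfl (R.self (s := s) ha hz.1 hz.2 hza)).1
    (R.self ha hb hn hne)
  rcases k with k | k | k
  · exfalso; unfold Dm.Bt at h k; omega
  · exfalso; subst k; unfold Dm.Bt at h; omega
  · exact k

variable {K : Rd} (H : K.Hy) (D : K.DeadK)
include H D

omit H in
/-- The dart after a dead dart is alive or has the same killer. -/
theorem key {s : Bool} {g x : ℕ} (hg : K.L g) (dg : K.M.dir g = K.d0) (nb : K.M.Nb K.L s g)
    (hx : K.D x (K.M.nd (K.M.β (K.par (!s) g)))) (hd : ¬K.L' g) :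
    K.D x (K.M.nd (K.M.β g)) := by
  have h1 : ∃ y, K.D y (K.M.nd (K.M.β g)) := by
    by_contra k
    exact hd ((D.in0 hg dg).2 k)
  obtain ⟨y, hy⟩ := h1
  have h2 := D.own s hg dg hy
  rcases D.gap hg dg nb hx with k | k
  · rw [← k, h2]; exact hy
  · exact absurd (h2 ▸ hy.1) k

theorem run {s : Bool} {a g x : ℕ} (ha : K.L a) (da : K.M.dir a ≠ K.d0) (hg : K.L g)
    (dg : K.M.dir g = K.d0) (ng : K.M.nd g = K.M.nd a) (m : ℕ) :
    ∀ e, K.M.dist (!s) g e = m → K.L e → K.M.dir e = K.d0 → K.D x (K.M.nd (K.M.β e)) →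
      K.M.Bt s a e g → (∀ z, K.M.Bt s e z g → K.L' z → K.M.dir z ≠ K.d0) →
        K.M.Nb K.L s g ∧ K.D x (K.M.nd (K.M.β (K.par (!s) g))) := by
  induction m using Nat.strong_induction_on with
  | _ m ih =>
  intro e hm he de hx hb hz
  have k := H.k
  have la := k.st.lt a ha
  have le := k.st.lt e he
  have lg := k.st.lt g hg
  have ne : K.M.nd e = K.M.nd a := (k.rot.lt la hb).2
  have nge : K.M.nd g = K.M.nd e := ng.trans ne.symm
  have hga : g ≠ a := fun h => da (h ▸ dg)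
  have hae : a ≠ e := fun h => da (h ▸ de)
  obtain ⟨p1, p2, p3, p4⟩ := k.step.par s he
  have pp := k.step.parpar s he
  generalize K.M.par K.L s e = e' at p1 p2 p3 p4 pp
  have le' := k.st.lt e' p1
  have bga : K.M.Bt s e g a := rot k.rot la lg ng hb hga
  have tri := k.rot.tri (s := s) (b := g) le le' p3
  have h3 : ¬K.M.Bt s e g e' := fun h => p4 g h hg (dg.trans de.symm)
  have b1 : K.M.Bt s e e' a := by
    rcases tri with h | h | h
    · unfold Dm.Bt at h bga ⊢; omega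
    · rw [h]; exact bga
    · exact absurd h h3
  have hee : e ≠ e' := fun h => k.rot.nself le la ne.symm (by rw [← h] at b1; exact b1)
  have b2 : K.M.Bt s e' a e := rot k.rot le la ne.symm b1 hae
  have nb : K.M.Nb K.L s e' := by
    by_cases h : K.M.dir (K.M.nx K.L (!s) e') = K.M.dir e'
    · exact Or.inl h
    · exact Or.inr ((k.step.sad p1 h).2
        ⟨a, e, ha, he, by rw [p2, de]; exact da, p2.symm, p3.symm, hee, b2⟩)
  have hx' : K.D x (K.M.nd (K.M.β (K.par (!s) e'))) := by rw [H.par, pp]; exact hx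
  rcases tri with h | h | h
  · have de' : K.M.dir e' = K.d0 := p2.trans de
    have hd : ¬K.L' e' := fun u => hz e' h u de'
    refine ih _ ?_ e' rfl p1 de' (key D p1 de' nb hx' hd)
      ((k.rot.split la lg ng hb).2 (Or.inr (Or.inr h))) fun z u => hz z
        ((k.rot.split le lg nge h).2 (Or.inr (Or.inr u)))
    rw [← hm]
    exact (k.rot.symm le lg nge).1 h
  · subst h; exact ⟨nb, hx'⟩
  · exact absurd h h3

theorem adj {s : Bool} {g x : ℕ} (hg : K.L g) (dg : K.M.dir g = K.d0) (m : ℕ) :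
    ∀ e, K.M.dist (!s) g e = m → K.L e → K.M.dir e = K.d0 → K.D x (K.M.nd (K.M.β e)) →
      K.M.nd g = K.M.nd e → (∀ z, K.M.Bt s e z g → K.L z → K.M.dir z = K.d0 ∧ ¬K.L' z) →
        K.M.dir (K.M.nx K.L (!s) g) = K.d0 ∧ K.D x (K.M.nd (K.M.β (K.par (!s) g))) := by
  induction m using Nat.strong_induction_on with
  | _ m ih =>
  intro e hm he de hx nge hz
  have k := H.k
  have le := k.st.lt e he
  have lg := k.st.lt g hg
  obtain ⟨p1, p3, p4⟩ := k.step.nx s he
  have pp := k.step.nxnx s he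
  generalize K.M.nx K.L s e = e' at p1 p3 p4 pp
  have le' := k.st.lt e' p1
  have fin : K.M.dir e' = K.d0 → K.M.dir (K.M.nx K.L (!s) e') = K.d0 ∧
      K.D x (K.M.nd (K.M.β (K.par (!s) e'))) := fun de' => by
    refine ⟨by rw [pp, de], ?_⟩
    rw [H.par, Dm.par_def, pp, if_pos (de.trans de'.symm)]
    exact hx
  rcases k.rot.tri (s := s) (b := g) le le' p3 with h | h | h
  · obtain ⟨de', hd⟩ := hz e' h p1
    obtain ⟨f1, f2⟩ := fin de'
    refine ih _ ?_ e' rfl p1 de' (key D p1 de' (Or.inl (f1.trans de'.symm)) f2 hd)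
      (nge.trans p3.symm) fun z u => hz z ((k.rot.split le lg nge h).2 (Or.inr (Or.inr u)))
    rw [← hm]
    exact (k.rot.symm le lg nge).1 h
  · subst h; exact fin dg
  · exact absurd hg (p4 g h)

theorem keep {e : ℕ} (he : K.L e) (de : K.M.dir e = K.d0) (hv : ¬∃ x, K.D x (K.M.nd e)) :
    ∃ g, K.L' g ∧ K.M.dir g = K.d0 ∧ K.M.nd g = K.M.nd e := by
  by_contra hn
  have k := H.k
  have dead : ∀ g, K.M.dir g = K.d0 → K.M.nd g = K.M.nd e → ¬K.L' g :=
    fun g u v w => hn ⟨g, w, u, v⟩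
  have ex : ∀ g, K.L g → K.M.dir g = K.d0 → K.M.nd g = K.M.nd e →
      ∃ y, K.D y (K.M.nd (K.M.β g)) := fun g w u v => by
    by_contra k'
    exact dead g u v ((D.in0 w u).2 k')
  obtain ⟨x, hx⟩ := ex e he de rfl
  have all : ∀ g, K.L g → K.M.dir g = K.d0 → K.M.nd g = K.M.nd e →
      K.D x (K.M.nd (K.M.β g)) := fun g hg dg ng => by
    by_cases ho : ∃ a, K.L a ∧ K.M.dir a ≠ K.d0 ∧ K.M.nd a = K.M.nd e
    · obtain ⟨a, ha, da, na⟩ := ho
      have la := k.st.lt a ha
      have two : ∀ u v y, K.L u → K.M.dir u = K.d0 → K.L v → K.M.dir v = K.d0 →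
          K.M.nd v = K.M.nd e → K.D y (K.M.nd (K.M.β u)) → K.M.Bt true a u v →
          K.D y (K.M.nd (K.M.β v)) := fun u v y hu du hv' dv nv hy hb => by
        have nu : K.M.nd u = K.M.nd a := (k.rot.lt la hb).2
        obtain ⟨r1, r2⟩ := run H D ha da hv' dv (nv.trans na.symm) _ u rfl hu du hy hb
          fun z w w' dz => dead z dz
            (((k.rot.lt (k.st.lt u hu) w).2.trans nu).trans na) w'
        exact key D hv' dv r1 r2 (dead v dv nv)
      rcases k.rot.tri (s := true) (b := g) la (k.st.lt e he) na.symm with h | h | h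
      · exact two e g x he de hg dg ng hx h
      · rw [← h]; exact hx
      · obtain ⟨y, hy⟩ := ex g hg dg ng
        rw [D.uniq hx (two g e y hg dg he de rfl hy h)]
        exact hy
    · obtain ⟨r1, r2⟩ := adj H D (s := true) hg dg _ e rfl he de hx ng fun z w w' => by
        have nz := (k.rot.lt (k.st.lt e he) w).2
        have dz : K.M.dir z = K.d0 := by
          by_contra u
          exact ho ⟨z, w', u, nz⟩
        exact ⟨dz, dead z dz nz⟩
      exact key D hg dg (Or.inl (r1.trans dg.symm)) r2 (dead g dg ng)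
  refine hv ⟨x, hx.1, fun y hy hr => ?_⟩
  rcases Relation.ReflTransGen.cases_head hy with u | ⟨c, ⟨d, u1, u2, u3, u4⟩, u5⟩
  · exact absurd de (hr e he u)
  · exact (all d u1 u2 u3).2 y (by rw [u4]; exact u5) hr

end Run

theorem runS : RunS := fun _ H D =>
  ⟨fun ha da he de hx hg dg ng hb hz => Run.run H D ha da hg dg ng _ _ rfl he de hx hb hz,
    fun he de hx hg dg ng hz => Run.adj H D (D.sub hg) dg _ _ rfl he de hx ng hz,
    fun he de hv => Run.keep H D he de hv⟩

end Pool.Agent.MP_1a6d78_lc.PD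

end MrgPart6

-- ======== part 7: formerly Pool.Agent.MP_1a6d78_lc.PD.Step
section MrgPart7

/-! PROJECT PD: row STEP, one step of the rotation and of the paths. -/

namespace Pool.Agent.MP_1a6d78_lc.PD

open Classical ED PR Relation

namespace Stepx

variable {M : Dm} {L : ℕ → Prop}

theorem bool_eq {a b c : Bool} (h : a ≠ c) (k : b ≠ c) : a = b := by
  cases a <;> cases b <;> cases c <;> simp_all

theorem fst_lt (R : M.RotK) {s : Bool} {Q : ℕ → Prop} {a z : ℕ} (ha : a < M.n) (hz : z < M.n)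
    (e : M.nd z = M.nd a) (q : Q z) : M.fst s Q a < M.n :=
  lt_of_le_of_ne (R.fle s Q a) fun k => (R.fnone ha).1 k z hz e q

/-- The two open arcs between two different darts are disjoint. -/
theorem excl (R : M.RotK) {s : Bool} {a b z : ℕ} (ha : a < M.n) (hb : b < M.n)
    (e : M.nd b = M.nd a) (ne : a ≠ b) (h : M.Bt s a z b) (k : M.Bt s b z a) : False := by
  obtain ⟨hz, ez⟩ := R.lt ha h
  rcases R.tri (s := s) (b := b) hz ha ez.symm with u | u | u
  · exact R.nself ha hb e ((R.split ha hb e h).2 (.inr (.inr u)))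
  · exact ne u
  · exact R.nself hb ha e.symm ((R.split hb ha e.symm k).2 (.inr (.inr u)))

variable (H : M.St L) (R : M.RotK)
include H R

theorem nx {d : ℕ} (s : Bool) (h : L d) : L (M.nx L s d) ∧ M.nd (M.nx L s d) = M.nd d ∧
    ∀ z, M.Bt s d z (M.nx L s d) → ¬L z := by
  have k := R.fspec (H.lt d h) (fst_lt R (s := s) (H.lt d h) (H.lt d h) rfl h)
  rw [Dm.nx, if_pos h]
  exact ⟨k.2.1, k.1, k.2.2⟩

theorem nxeq {s : Bool} {d b : ℕ} (h : L d) (hb : L b) (e : M.nd b = M.nd d)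
    (k : ∀ z, M.Bt s d z b → ¬L z) : M.nx L s d = b := by
  rw [Dm.nx, if_pos h]
  exact R.feq (H.lt d h) (H.lt b hb) e hb k

theorem nxnx {d : ℕ} (s : Bool) (h : L d) : M.nx L (!s) (M.nx L s d) = d := by
  obtain ⟨k1, k2, k3⟩ := nx H R s h
  exact nxeq H R k1 h k2.symm fun z u => k3 z ((R.symm (H.lt d h) (H.lt _ k1) k2).2 u)

theorem suc {s : Bool} {p : ℕ} (h : L p) (k : M.suc L s p < M.n) :
    L (M.suc L s p) ∧ M.dir (M.suc L s p) = M.dir p ∧ M.nd (M.suc L s p) = M.nd (M.β p) ∧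
    ∀ z, M.Bt s (M.β p) z (M.suc L s p) → L z → M.dir z ≠ M.dir p := by
  rw [Dm.suc, if_pos h] at k ⊢
  obtain ⟨k1, k2, k3⟩ := R.fspec (H.blt h) k
  exact ⟨k2.1, k2.2, k1, fun z u a b => k3 z u ⟨a, b⟩⟩

theorem sucn {p : ℕ} (s : Bool) (h : L p) :
    M.suc L s p = M.n ↔ M.Rt L (M.dir p) (M.nd (M.β p)) := by
  rw [Dm.suc, if_pos h, R.fnone (H.blt h)]
  exact ⟨fun k d a b c => k d (H.lt d a) b ⟨a, c⟩, fun k z _ b c => k z c.1 b c.2⟩

theorem suc_lt {p z : ℕ} (s : Bool) (h : L p) (hz : L z) (e : M.nd z = M.nd (M.β p))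
    (k : M.dir z = M.dir p) : M.suc L s p < M.n := by
  rw [Dm.suc, if_pos h]
  exact fst_lt R (H.blt h) (H.lt z hz) e ⟨hz, k⟩

theorem suceq {s : Bool} {p b : ℕ} (h : L p) (hb : L b) (e : M.dir b = M.dir p)
    (e' : M.nd b = M.nd (M.β p)) (k : ∀ z, M.Bt s (M.β p) z b → L z → M.dir z ≠ M.dir p) :
    M.suc L s p = b := by
  rw [Dm.suc, if_pos h]
  exact R.feq (H.blt h) (H.lt b hb) e' ⟨hb, e⟩ fun z u a => k z u a.1 a.2

theorem ti {s : Bool} {p : ℕ} (h : L p) (k : M.Ti L s p) : M.suc L s p = M.nx L s (M.β p) := by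
  obtain ⟨k1, k2, k3⟩ := nx H R s (H.be p h)
  exact suceq H R h k1 k k2 fun z u a => absurd a (k3 z u)

theorem rev {s : Bool} {p : ℕ} (h : L p) (k : M.Ti L s p) :
    M.Ti L (!s) (M.β (M.suc L s p)) ∧ M.suc L (!s) (M.β (M.suc L s p)) = M.β p := by
  have k1 := (nx H R s (H.be p h)).1
  have e : M.nx L (!s) (M.β (M.β (M.suc L s p))) = M.β p := by
    rw [ti H R h k, H.bb k1, nxnx H R s (H.be p h)]
  have t : M.Ti L (!s) (M.β (M.suc L s p)) := by
    rw [Dm.Ti, e, ti H R h k, H.dir p h, H.dir _ k1, k]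
  refine ⟨t, ?_⟩
  rw [ti H R (by rw [ti H R h k]; exact H.be _ k1) t, e]

theorem par {e : ℕ} (s : Bool) (h : L e) : L (M.par L s e) ∧ M.dir (M.par L s e) = M.dir e ∧
    M.nd (M.par L s e) = M.nd e ∧ ∀ z, M.Bt s e z (M.par L s e) → L z → M.dir z ≠ M.dir e := by
  obtain ⟨k1, k2, k3⟩ := nx H R s h
  rw [Dm.par_def]
  split_ifs with c
  · exact ⟨k1, c, k2, fun z u a => absurd a (k3 z u)⟩
  · have d : M.dir (M.β (M.nx L s e)) = M.dir e := by
      rw [H.dir _ k1]
      exact (bne_iff.1 (Ne.symm c)).symm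
    obtain ⟨u1, u2, u3, u4⟩ := suc H R (H.be _ k1)
      (suc_lt H R s (H.be _ k1) h (by rw [H.bb k1, k2]) d.symm)
    rw [H.bb k1] at u3 u4
    rw [d] at u2 u4
    rw [k2] at u3
    refine ⟨u1, u2, u3, fun z u a => ?_⟩
    rcases R.tri (s := s) (b := M.suc L s (M.β (M.nx L s e))) (H.lt e h) (H.lt _ k1) k2 with
      v | v | v
    · rcases (R.split (H.lt e h) (H.lt _ u1) u3 v).1 u with w | w | w
      · exact absurd a (k3 z w)
      · rwa [w]
      · exact u4 z w a
    · exact absurd (v ▸ u2) c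
    · exact absurd u1 (k3 _ v)

theorem pareq {s : Bool} {e b : ℕ} (h : L e) (hb : L b) (d : M.dir b = M.dir e)
    (_v : M.nd b = M.nd e) (k : ∀ z, M.Bt s e z b → L z → M.dir z ≠ M.dir e) :
    M.par L s e = b := by
  obtain ⟨u1, u2, u3, u4⟩ := par H R s h
  rcases R.tri (s := s) (b := b) (H.lt e h) (H.lt _ u1) u3 with w | w | w
  · exact absurd u2 (k _ w u1)
  · exact w
  · exact absurd d (u4 _ w hb)

theorem sad {e : ℕ} {s : Bool} (h : L e) (c : M.dir (M.nx L (!s) e) ≠ M.dir e) :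
    M.val L e s ↔ ∃ o g, L o ∧ L g ∧ M.dir o ≠ M.dir e ∧ M.dir g = M.dir e ∧ M.nd g = M.nd e ∧
      g ≠ e ∧ M.Bt s e o g := by
  obtain ⟨k1, k2, -⟩ := nx H R (!s) h
  obtain ⟨u1, u2, u3, u4⟩ := suc H R (H.be e h)
    (suc_lt H R s (H.be e h) k1 (by rw [H.bb h, k2]) (bool_eq c (H.dne h)))
  obtain ⟨p1, p2, p3, p4⟩ := par H R (!s) h
  rw [H.bb h] at u3 u4
  rw [Dm.val_def, if_neg c, and_iff_right h]
  generalize M.suc L s (M.β e) = o at u1 u2 u3 u4 ⊢
  generalize M.par L (!s) e = g at p1 p2 p3 p4 ⊢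
  have he := H.lt e h
  have ho := H.lt o u1
  have hg := H.lt g p1
  have od : M.dir o ≠ M.dir e := u2 ▸ H.dne h
  have u5 : ∀ z, M.Bt s e z o → L z → M.dir z = M.dir e := fun z a b =>
    bool_eq (u4 z a b) (H.dne h).symm
  have p5 : ∀ z, M.Bt s g z e → L z → M.dir z ≠ M.dir e := fun z a =>
    p4 z ((R.symm hg he p3.symm).1 a)
  constructor
  · intro k
    by_contra N
    refine k (nxeq H R p1 u1 (u3.trans p3.symm) fun z a b => ?_).symm
    by_cases ge : g = e
    · subst ge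
      obtain ⟨z1, z2⟩ := R.lt hg a
      exact p5 z (R.self hg z1 z2 fun t => R.nself hg ho u3 (t ▸ a)) b (u5 z a b)
    · rcases R.tri (s := s) (b := g) he ho u3 with v | v | v
      · exact N ⟨o, g, u1, p1, od, p2, p3, ge, v⟩
      · exact od (v ▸ p2)
      · rcases R.tri (s := s) (b := e) hg ho (u3.trans p3.symm) with w | w | w
        · exact p5 z (lt_trans a w) b (u5 z ((R.split he ho u3 v).2 (.inr (.inr a))) b)
        · exact od (w ▸ rfl)
        · exact R.nself he ho u3 ((R.split he ho u3 v).2 (.inr (.inr w)))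
  · rintro ⟨o', g', a1, a2, a3, a4, a5, a6, a7⟩ k
    have hg' := H.lt g' a2
    have b1 : M.Bt s e o g' := by
      rcases R.tri (s := s) (b := o') he ho u3 with v | v | v
      · exact lt_trans v a7
      · exact v ▸ a7
      · exact absurd (u5 o' v a1) a3
    have ge : g ≠ e := fun t => p5 g' (by rw [t]; exact R.self he hg' a5 a6) a2 a4
    have b2 : M.Bt s e o g := by
      rcases (R.split he he rfl (R.self he hg p3 ge)).1 (R.self he hg' a5 a6) with v | v | v
      · exact lt_trans b1 v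
      · exact v ▸ b1
      · exact absurd a4 (p5 g' v a2)
    rcases R.tri (s := s) (b := o) hg he p3.symm with w | w | w
    · exact (nx H R s p1).2.2 e (k ▸ w) h
    · exact od (w ▸ rfl)
    · exact excl R he hg p3 ge.symm b2 w

omit H R in
theorem rk_up {δ : Bool} {f : ℕ → ℕ}
    (hf : ∀ d, L d → M.dir d = δ → f (M.nd (M.β d)) < f (M.nd d)) {a b : ℕ}
    (u : M.Up L δ a b) : f b ≤ f a := by
  induction u with
  | refl => exact le_rfl
  | tail _ u ih =>
    obtain ⟨e, u1, u2, rfl, rfl⟩ := u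
    exact (hf e u1 u2).le.trans ih

end Stepx

open Stepx in
theorem stepS : StepS := fun M L H R =>
  { nx := fun s h => nx H R s h
    nxeq := nxeq H R
    nxnx := fun s h => nxnx H R s h
    sle := fun s p => by
      unfold Dm.suc
      split_ifs
      exacts [R.fle _ _ _, le_rfl]
    suc := suc H R
    sucn := fun s h => sucn H R s h
    suceq := suceq H R
    ti := ti H R
    rev := rev H R
    ind := fun δ Q k => by
      obtain ⟨f, hf⟩ := H.rk δ
      have : ∀ m p, f (M.nd p) = m → L p → M.dir p = δ → Q p := fun m => by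
        induction m using Nat.strong_induction_on with
        | _ m ih =>
          rintro p rfl h d
          exact k p h d fun p' h' d' u =>
            ih _ ((rk_up hf u).trans_lt (hf p h d)) p' rfl h' d'
      exact fun p => this _ p rfl
    root := fun δ v => by
      obtain ⟨f, hf⟩ := H.rk δ
      induction hm : f v using Nat.strong_induction_on generalizing v with
      | _ m ih =>
        by_cases c : M.Rt L δ v
        · exact ⟨v, Dm.Up.refl _ _, c⟩
        · simp only [Dm.Rt, not_forall, not_not] at c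
          obtain ⟨d, h, rfl, e⟩ := c
          obtain ⟨x, x1, x2⟩ := ih _ (hm ▸ hf d h e) _ rfl
          exact ⟨x, ReflTransGen.head ⟨d, h, e, rfl, rfl⟩ x1, x2⟩
    par := fun s h => par H R s h
    pareq := pareq H R
    parpar := fun {e} s h => by
      obtain ⟨u1, u2, u3, u4⟩ := par H R s h
      exact pareq H R u1 h u2.symm u3.symm fun z u a =>
        u2 ▸ u4 z ((R.symm (H.lt e h) (H.lt _ u1) u3).2 u) a
    sad := sad H R }

end Pool.Agent.MP_1a6d78_lc.PD

end MrgPart7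

-- ======== part 8: formerly Pool.Agent.MP_1a6d78_lc.PD.StepI
section MrgPart8

/-! PROJECT PD, row STEPI: a round keeps the invariant; the answer at the last level. -/

namespace Pool.Agent.MP_1a6d78_lc.PD

open Classical ED PR

/-- One round, before clipping. -/
theorem step_inv (kit : KitS) (geo : GeoS) (kl : KlS) (gl : GlS) {M : Dm} (pr : ℕ → Prop)
    (c : ℕ) {q : ℕ} {P : Pr} {j : ℕ} (w : ℕ) {ls : ℕ → List ℕ} {s t : ℕ} (I : Inv M P j ls)
    (B : LbK M P j q ls) (hq : 2 * M.n * (j + 3) < q) (ps : pr s) (pt : pr t)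
    (rs : M.Rt P.al false s) (rt : M.Rt P.al true t) :
    ∃ ls', Inv M (step M pr c q P j w) (j + 1) ls' ∧
      (∀ d, (step M pr c q P j w).al d → P.al d) ∧
      (∀ x, M.crit (step M pr c q P j w).al x → M.crit P.al x) ∧
      (M.Up P.al true s t → M.Up (step M pr c q P j w).al true s t) := by
  unfold step
  split
  · obtain ⟨ls', h1, _⟩ := gl M P j q ls (colq q (4 * c) (w / 3)) I B
    exact ⟨ls', h1, fun _ h => h, fun _ h => h, fun h => h⟩
  · have G := geo _ (B.hy kit (decide (w % 3 = 2)) c (colq q (4 * c) (w / 3)) pr)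
    obtain ⟨ls', h1, _⟩ := kl _ ls I B G hq
    have e : (Rd.kill ⟨M, P, j, decide (w % 3 = 2), c, q, colq q (4 * c) (w / 3), pr⟩).al =
        Rd.L' ⟨M, P, j, decide (w % 3 = 2), c, q, colq q (4 * c) (w / 3), pr⟩ := G.al
    refine ⟨ls', h1, ?_⟩
    rw [e]
    exact ⟨fun _ h => G.dead.sub h, fun x h => (G.rch.crit x h).1, G.rch.rch s t ps pt rs rt⟩

theorem stepI : KitS → GeoS → LbS → KlS → GlS → StepI := by
  intro kit geo lb kl gl M pr c q P j w ls s t I hn hq ps pt rs rt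
  have hj : 2 * M.n * (j + 2) ≤ 2 * M.n * (j + 3) := Nat.mul_le_mul_left _ (by omega)
  have B : LbK M P j q ls := lb M P j q ls I (kit M _ I.st) hn (by omega)
  obtain ⟨ls', h1, h2⟩ := step_inv kit geo kl gl pr c w I B (by omega) ps pt rs rt
  have C := (lb M _ (j + 1) q ls' h1 (kit M _ h1.st) hn hq).clip
  refine ⟨ls', C.1, ?_⟩
  rw [C.2]
  exact h2

/-- A vertex reached from a vertex with an alive dart has an alive dart. -/
theorem up_dart {M : Dm} {L : ℕ → Prop} (H : M.St L) {δ : Bool} {a b : ℕ} (k : M.Up L δ a b) :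
    a = b ∨ ∃ d < M.n, L d ∧ M.nd d = b := by
  rcases Relation.ReflTransGen.cases_tail k with e | ⟨_, _, d, k1, _, _, k4⟩
  · exact Or.inl e.symm
  · exact Or.inr ⟨M.β d, H.blt k1, H.be d k1, k4⟩

theorem lastS : LastS := by
  intro M P s t H _ rt hc
  refine ⟨?_, fun k => up_dart H.st k⟩
  rintro (rfl | ⟨d, h1, h2, h3⟩)
  · exact Dm.Up.refl _ _
  · obtain ⟨x, k1, k2⟩ := H.step.root false t
    have cx : M.crit P.al x := by
      refine ⟨?_, true, fun e _ a b => by simpa using k2 e a b⟩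
      rcases up_dart H.st k1 with e | e
      · exact ⟨d, h1, h2, h3.trans e⟩
      · exact e
    rcases hc x cx with rfl | rfl
    · exact H.st.up_rev k1
    · have a := k2 d h2 h3
      have b := rt d h2 h3
      cases e : M.dir d
      · exact absurd e a
      · exact absurd e b

end Pool.Agent.MP_1a6d78_lc.PD

end MrgPart8

-- ======== part 9: formerly Pool.Agent.MP_1a6d78_lc.PD.Suc
section MrgPart9

/-! PROJECT PD: row SUC, the new successor and the new rotation. -/

namespace Pool.Agent.MP_1a6d78_lc.PD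

open Classical ED PR

namespace SucX

variable {K : Rd}

theorem hit_iff (G : K.G1) {p d u : ℕ} {s : Bool} (hp : K.L p) (hd : K.M.dir p ≠ K.d0)
    (hl : K.L d) :
    K.M.It K.L (vm K.d0 (K.M.dir d)) ⟨false, s, p, K.M.En K.L s p⟩ (fun _ => one d) 1 u ↔
      K.M.Pa K.L s p u ∧ K.M.nd (K.M.β u) = K.M.nd d := by
  have k := G.hy.k
  constructor
  · rintro ⟨h1, -, i, -, -, b, h2, h3⟩
    rw [Dm.mem_path] at h1
    rw [Dm.mem_one] at h2
    subst h2
    rw [Dm.R_vm, Dm.en_same rfl, Dm.en_opp (by rw [(k.path.al hp h1.1).2.1]; exact hd)] at h3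
    exact ⟨h1.1, h3⟩
  · rintro ⟨h1, h3⟩
    refine ⟨(Dm.mem_path _ _ _ _).2 ⟨h1, (k.path.Eneq hp h1).2⟩, fun h => absurd h (Dm.vm_ne _ _),
      0, Nat.one_pos, (k.fsp.okx true d d).2 ⟨hl, hl⟩, d, (Dm.mem_one _ _).2 rfl, ?_⟩
    rw [Dm.R_vm, Dm.en_same rfl, Dm.en_opp (by rw [(k.path.al hp h1).2.1]; exact hd)]
    exact h3

theorem cand_dir (G : K.G1) {x i : ℕ} {s : Bool} (h : K.L' (K.cand x s i)) :
    K.M.dir (K.cand x s i) ≠ K.d0 := by
  rcases G.dead.cand x s i with e | e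
  · exact absurd (e ▸ G.dead.sub h) G.hy.st.nn
  · exact e.2

theorem F_ex (G : K.G1) {p : ℕ} (d : ℕ) (s : Bool) (hp : K.L p) :
    K.M.Ex K.L true s
      (K.M.It K.L (vm K.d0 (K.M.dir d)) ⟨false, s, p, K.M.En K.L s p⟩ (fun _ => one d) 1)
      (K.M.F K.L true (vm K.d0 (K.M.dir d)) ⟨false, s, p, K.M.En K.L s p⟩ (one d)) :=
  G.hy.k.fsp.F (A := ⟨false, s, p, K.M.En K.L s p⟩) true _ (one d) rfl
    ((G.hy.k.fsp.okp _ _ _).2 ⟨hp, (G.hy.k.path.En s hp).1⟩)

/-- The wall dart at a vertex is junk or alive. -/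
theorem at_al (G : K.G1) (A : K.AliveK) (x i : ℕ) (s : Bool) {d : ℕ} (hl : K.L d) :
    K.At x s d i = K.M.n ∨ (K.L' (K.At x s d i) ∧ K.M.dir (K.At x s d i) = K.d0) := by
  have k := G.hy.k
  have k' := G.hy.k' G.dead
  unfold Rd.At Rd.wall Rd.gd
  rw [G.hy.geo.full, G.hy.geo.F, show K.al' = K.L' from A]
  by_cases hc : K.L' (K.cand x s i)
  · simp only [if_pos hc]
    split_ifs with h
    · right
      rcases F_ex G d (!s) (G.dead.sub hc) with e | ⟨-, e, -⟩
      · exact absurd e.1 h.ne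
      · obtain ⟨e1, -⟩ := (hit_iff G (G.dead.sub hc) (cand_dir G hc) hl).1 e
        obtain ⟨e2, e3, -⟩ := k'.path.al hc ((G.down.pa (!s) _ hc (cand_dir G hc)).2 e1)
        refine ⟨k'.st.be _ e2, ?_⟩
        rw [k'.st.dir _ e2, e3, bne_iff.1 (cand_dir G hc), Bool.not_not]
    · exact Or.inl rfl
  · simp only [if_neg hc]
    left
    rw [Dm.F_junkA, if_neg (lt_irrefl _)]
    exact fun h => k.st.nn ((k.fsp.okp _ _ _).1 h).1

/-- A good dart is found. -/
theorem at_good (G : K.G1) (A : K.AliveK) {x g d : ℕ} {s : Bool} (hl : K.L d) (hg : K.L g)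
    (hn : K.M.nd g = K.M.nd d) (h : K.Good x s g) : ∃ i < K.c, K.At x s d i = g := by
  have k := G.hy.k
  obtain ⟨i, hi, hc, hp, -⟩ := h
  refine ⟨i, hi, ?_⟩
  unfold Rd.At Rd.wall Rd.gd
  rw [G.hy.geo.full, G.hy.geo.F, show K.al' = K.L' from A]
  simp only [if_pos hc]
  have hb : K.M.nd (K.M.β (K.M.β g)) = K.M.nd d := by rw [k.st.bb hg, hn]
  rcases F_ex G d (!s) (G.dead.sub hc) with e | ⟨e0, e, -⟩
  · exact absurd ((hit_iff G (G.dead.sub hc) (cand_dir G hc) hl).2 ⟨hp, hb⟩) (e.2 _)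
  · obtain ⟨e1, e2⟩ := (hit_iff G (G.dead.sub hc) (cand_dir G hc) hl).1 e
    rw [if_pos e0, k.path.inj (G.dead.sub hc) e1 hp (Or.inr (e2.trans hb.symm)), k.st.bb hg]

/-- Darts of the other direction at an alive vertex are alive. -/
theorem out_al (G : K.G1) {d z : ℕ} (hd : K.L' d) (hz : K.L z) (hn : K.M.nd z = K.M.nd d)
    (h : K.M.dir z ≠ K.d0) : K.L' z :=
  (G.dead.out hz h).2 (by rw [hn]; exact G.dead.vx hd)

theorem killer (G : K.G1) {e : ℕ} (s : Bool) (he : K.L e) (hd : K.M.dir e = K.d0)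
    (h : ¬K.L' e) : K.D (K.own s e) (K.M.nd (K.M.β e)) := by
  obtain ⟨x, hx⟩ := not_not.1 (mt (G.dead.in0 he hd).2 h)
  rw [G.dead.own s he hd hx]
  exact hx

theorem suc_eq (G : K.G1) (A : K.AliveK) (s : Bool) (p : ℕ) : K.suc' s p = K.M.suc K.L' s p := by
  have k := G.hy.k
  have k' := G.hy.k' G.dead
  unfold Rd.suc'
  rw [G.hy.geo.suc, show K.al' = K.L' from A]
  by_cases hp : K.L' p
  swap
  · rw [if_neg hp, Dm.suc_junk _ hp]
  have hL := G.dead.sub hp
  rw [if_pos hp]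
  split_ifs with h
  · rcases h with h | h | h
    · exact (G.down.suc s hp h).symm
    · rw [h]
      exact ((k'.step.sucn s hp).2 fun d a => (k.step.sucn s hL).1 h d (G.dead.sub a)).symm
    · exact (G.down.same hp h).symm
  · simp only [not_or, not_not] at h
    obtain ⟨hd, hn, hdead⟩ := h
    obtain ⟨e1, e2, e3, e4⟩ := k.step.suc hL (lt_of_le_of_ne (k.step.sle s p) hn)
    have ha := k'.st.be _ hp
    have han := k'.st.blt hp
    obtain ⟨g', g1, g2, g3⟩ := G.run.keep e1 (e2.trans hd) (by rw [e3]; exact G.dead.vx ha)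
    have hg : K.M.suc K.L' s p < K.M.n := lt_of_le_of_ne (k'.step.sle s p) fun h =>
      (k'.step.sucn s hp).1 h g' g1 (g3.trans e3) (g2.trans hd.symm)
    obtain ⟨f1, f2, f3, f4⟩ := k'.step.suc hp hg
    have hbt : K.M.Bt s (K.M.β p) (K.M.suc K.L s p) (K.M.suc K.L' s p) := by
      rcases k.rot.tri (s := s) (b := K.M.suc K.L' s p) han (k.st.lt _ e1) e3 with h | h | h
      · exact h
      · exact absurd (h ▸ f1) hdead
      · exact absurd f2 (e4 _ h (G.dead.sub f1))
    obtain ⟨r1, r2⟩ := G.run.run (G.dead.sub ha) (by rw [← hd]; exact k.st.dne hL) e1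
      (e2.trans hd) (killer G s e1 (e2.trans hd) hdead) (G.dead.sub f1) (f2.trans hd) f3 hbt
      fun z hz lz => by
        rw [← hd]
        exact f4 z ((k.rot.split han hg f3 hbt).2 (Or.inr (Or.inr hz))) lz
    refine k.rot.best han hg f3 (at_good G A (G.dead.sub ha) (G.dead.sub f1) f3
      (G.wall.h1 f1 (f2.trans hd) r1 r2)) fun i _ hb => ?_
    rcases at_al G A (K.own s (K.M.suc K.L s p)) i s (G.dead.sub ha) with h | h
    · exact absurd (k.rot.lt han hb).1 (by rw [h]; exact lt_irrefl _)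
    · exact f4 _ hb h.1 (h.2.trans hd.symm)

theorem nx_eq (G : K.G1) (A : K.AliveK) (s : Bool) (d : ℕ) : K.nx' s d = K.M.nx K.L' s d := by
  have k := G.hy.k
  have k' := G.hy.k' G.dead
  unfold Rd.nx'
  rw [G.hy.geo.suc, G.hy.geo.nx, show K.al' = K.L' from A]
  by_cases hp : K.L' d
  swap
  · rw [if_neg hp, Dm.nx_junk _ hp]
  have hL := G.dead.sub hp
  rw [if_pos hp]
  by_cases hdead : K.L' (K.M.nx K.L s d)
  · rw [if_pos hdead]
    exact (G.down.nsame hp hdead).symm
  rw [if_neg hdead]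
  obtain ⟨e1, e3, e4⟩ := k.step.nx s hL
  obtain ⟨f1, f3, f4⟩ := k'.step.nx s hp
  have hdn := k.st.lt _ hL
  have hg := k'.st.lt _ f1
  have e2 : K.M.dir (K.M.nx K.L s d) = K.d0 := not_not.1 fun h => hdead (out_al G hp e1 e3 h)
  have hbt : K.M.Bt s d (K.M.nx K.L s d) (K.M.nx K.L' s d) := by
    rcases k.rot.tri (s := s) (b := K.M.nx K.L' s d) hdn (k.st.lt _ e1) e3 with h | h | h
    · exact h
    · exact absurd (h ▸ f1) hdead
    · exact absurd (G.dead.sub f1) (e4 _ h)
  have hbz : ∀ z, K.M.Bt s (K.M.nx K.L s d) z (K.M.nx K.L' s d) → K.L z →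
      K.M.dir z = K.d0 ∧ ¬K.L' z := fun z hz lz => by
    have h := (k.rot.split hdn hg f3 hbt).2 (Or.inr (Or.inr hz))
    exact ⟨not_not.1 fun u => f4 z h (out_al G hp lz (k.rot.lt hdn h).2 u), f4 z h⟩
  have hb : K.M.dir (K.M.β (K.M.nx K.L s d)) ≠ K.d0 := by rw [← e2]; exact k.st.dne e1
  refine k.rot.best hdn hg f3 ?_ fun i _ hbi => ?_
  · by_cases hd : K.M.dir (K.M.nx K.L' s d) = K.d0
    · obtain ⟨r1, r2⟩ := G.run.adj e1 e2 (killer G s e1 e2 hdead) f1 hd (f3.trans e3.symm) hbz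
      obtain ⟨i, hi, h⟩ := at_good G A hL (G.dead.sub f1) f3
        (G.wall.h1 f1 hd (Or.inl (r1.trans hd.symm)) r2)
      exact ⟨i, by omega, by rw [if_neg hi.ne]; exact h⟩
    · refine ⟨K.c, by omega, ?_⟩
      rw [if_pos rfl]
      refine k.step.suceq (k.st.be _ e1) (G.dead.sub f1) (by rw [bne_iff.1 hd, bne_iff.1 hb])
        (by rw [k.st.bb e1, f3, e3]) fun z hz lz => ?_
      rw [k.st.bb e1] at hz
      rw [(hbz z hz lz).1]
      exact hb.symm
  · split_ifs at hbi with hi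
    · obtain ⟨u1, u2⟩ := k.rot.lt hdn hbi
      obtain ⟨v1, v2, -⟩ := k.step.suc (k.st.be _ e1) u1
      exact f4 _ hbi (out_al G hp v1 u2 (by rw [v2]; exact hb))
    · rcases at_al G A (K.own s (K.M.nx K.L s d)) i s hL with h | h
      · exact absurd (k.rot.lt hdn hbi).1 (by rw [h]; exact lt_irrefl _)
      · exact f4 _ hbi h.1

end SucX

theorem sucS : SucS := fun _ G A =>
  ⟨funext fun s => funext fun p => SucX.suc_eq G A s p,
    funext fun s => funext fun d => SucX.nx_eq G A s d⟩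

end Pool.Agent.MP_1a6d78_lc.PD

end MrgPart9

-- ======== part 10: formerly Pool.Agent.MP_1a6d78_lc.PD.Val
section MrgPart10

/-! PROJECT PD, row VAL: a gap that is valid in the new state and keeps its owner was valid. -/

namespace Pool.Agent.MP_1a6d78_lc.PD

open Classical ED PR

namespace Val

/-- Reading the order around a vertex backwards. -/
theorem bt_rev {M : Dm} (R : M.RotK) {s : Bool} {a z b : ℕ} (ha : a < M.n) (hb : b < M.n)
    (hv : M.nd b = M.nd a) (hne : b ≠ a) (h : M.Bt (!s) a z b) : M.Bt s a b z := by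
  obtain ⟨hz, hzv⟩ := R.lt ha h
  have hza : z ≠ a := fun k => R.nself ha hb hv (k ▸ h)
  rw [R.symm ha hz hzv]
  rcases (R.split ha ha rfl (R.self ha hz hzv hza)).1 (R.self (s := !s) ha hb hv hne) with k | k | k
  · unfold Dm.Bt at h k; omega
  · subst k; unfold Dm.Bt at h; omega
  · exact k

variable {K : Rd} (G : K.G1)
include G

/-- A segment of the old state whose darts stay alive is a segment of the new state. -/
theorem seg1 {s : Bool} {p t : ℕ}
    (h : ∀ u, K.M.Pa K.L s p u → K.M.Pa K.L s u t → K.L' u) {u : ℕ} (k : K.M.Pa K.L s p u) :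
    K.M.Pa K.L s u t → K.M.Pa K.L' s p u := by
  induction k with
  | refl => exact fun _ => Dm.Pa.refl _ _
  | @tail w u k1 k2 ih =>
    intro hu
    obtain ⟨a1, a2, rfl⟩ := k2
    have hw : K.M.Pa K.L s w t := (Dm.Pa.step a1 a2).trans hu
    have b1 := h w k1 hw
    have b2 := h _ (Dm.Pa.trans k1 (Dm.Pa.step a1 a2)) hu
    have e := G.down.same b1 b2
    exact Relation.ReflTransGen.tail (ih hw) ⟨b1, b2, e⟩

theorem seg2 {s : Bool} {p t : ℕ} (hpt : K.M.Pa K.L s p t)
    (h : ∀ u, K.M.Pa K.L s p u → K.M.Pa K.L s u t → K.L' u) {u : ℕ} (k : K.M.Pa K.L' s p u) :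
    K.M.Pa K.L' s u t → K.M.Pa K.L s p u ∧ K.M.Pa K.L s u t := by
  induction k with
  | refl => exact fun _ => ⟨Dm.Pa.refl _ _, hpt⟩
  | @tail w u k1 k2 ih =>
    intro hu
    obtain ⟨a1, a2, rfl⟩ := k2
    have hw : K.M.Pa K.L' s w t := (Dm.Pa.step a1 a2).trans hu
    obtain ⟨b1, b2⟩ := ih hw
    by_cases e : w = t
    · subst e
      have e2 := (G.hy.k' G.dead).path.anti (Dm.Pa.step a1 a2) hu
      rw [← e2]
      exact ⟨b1, b2⟩
    · obtain ⟨c1, c2⟩ := G.hy.k.path.hd b2 e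
      have hwL := G.dead.sub a1
      have c3 := (G.hy.k.step.suc hwL c1).1
      have c4 := Dm.Pa.trans b1 (Dm.Pa.step hwL c3)
      rw [G.down.same a1 (h _ c4 c2)]
      exact ⟨c4, c2⟩

/-- The first turn does not move when its segment and its neighbour stay alive. -/
theorem ft_same {s : Bool} {p : ℕ} (hp : K.L' p)
    (h : ∀ u, K.M.Pa K.L s p u → K.M.Pa K.L s u (K.M.FT K.L s p) → K.L' u)
    (hn : K.L' (K.M.nx K.L s (K.M.β (K.M.FT K.L s p)))) :
    K.M.FT K.L' s p = K.M.FT K.L s p := by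
  have hL := G.dead.sub hp
  obtain ⟨f1, f2, f3⟩ := G.hy.k.path.FT s hL
  have ht := h _ f1 (Dm.Pa.refl _ _)
  refine (G.hy.k' G.dead).path.FTu hp (seg1 G h f1 (Dm.Pa.refl _ _)) (fun k => f2 ?_)
    fun u u1 u2 u3 => ?_
  · unfold Dm.Ti at k ⊢
    rwa [G.down.nsame (G.dead.st.be _ ht) hn] at k
  · obtain ⟨v1, v2⟩ := seg2 G f1 h u1 u2
    have hu := h u v1 v2
    have huL := G.dead.sub hu
    have ti := f3 u v1 v2 u3
    obtain ⟨c1, c2⟩ := G.hy.k.path.hd v2 u3
    have c3 := h _ (Dm.Pa.trans v1 (Dm.Pa.step huL (G.hy.k.step.suc huL c1).1)) c2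
    rw [G.hy.k.step.ti huL ti] at c3
    unfold Dm.Ti at ti ⊢
    rwa [G.down.nsame (G.dead.st.be _ hu) c3]

/-- An adjacent gap both of whose sides stay alive up to the first turns. -/
theorem flow_same {s : Bool} {e : ℕ} (hv : K.M.val K.L' e s)
    (ha : K.L' (K.M.nx K.L (!s) e)) (hd : K.M.dir (K.M.nx K.L (!s) e) = K.M.dir e)
    (hf : K.M.nx K.L s (K.M.β (K.M.FT K.L s e)) =
      K.M.β (K.M.FT K.L (!s) (K.M.nx K.L (!s) e)))
    (h1 : ∀ u, K.M.Pa K.L s e u → K.M.Pa K.L s u (K.M.FT K.L s e) → K.L' u)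
    (h2 : ∀ u, K.M.Pa K.L (!s) (K.M.nx K.L (!s) e) u →
      K.M.Pa K.L (!s) u (K.M.FT K.L (!s) (K.M.nx K.L (!s) e)) → K.L' u) : False := by
  have he := Dm.val_al hv
  have t1 := G.dead.st.be _ (h1 _ (G.hy.k.path.FT s (G.dead.sub he)).1 (Dm.Pa.refl _ _))
  have t2 := G.dead.st.be _ (h2 _ (G.hy.k.path.FT (!s) (G.dead.sub ha)).1 (Dm.Pa.refl _ _))
  have hb : K.M.nx K.L (!s) (K.M.β (K.M.FT K.L (!s) (K.M.nx K.L (!s) e))) =
      K.M.β (K.M.FT K.L s e) := by
    rw [← hf]; exact G.hy.k.step.nxnx s (G.dead.sub t1)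
  have e1 := ft_same G he h1 (by rw [hf]; exact t2)
  have e2 := ft_same G ha h2 (by rw [hb]; exact t1)
  have e3 := G.down.nsame he ha
  have e4 := G.down.nsame (s := s) t1 (by rw [hf]; exact t2)
  have k := ((Dm.val_def e s).1 hv).2
  rw [Dm.par_def, e3, if_pos hd, if_pos hd, e1, e2, e4] at k
  exact k hf

omit G in
theorem of_flow {s : Bool} {e : ℕ} (he : K.L e) (hd : K.M.dir (K.M.nx K.L (!s) e) = K.M.dir e)
    (hn : ¬K.M.val K.L e s) : K.M.nx K.L s (K.M.β (K.M.FT K.L s e)) =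
      K.M.β (K.M.FT K.L (!s) (K.M.nx K.L (!s) e)) := by
  by_contra k
  refine hn ((Dm.val_def e s).2 ⟨he, ?_⟩)
  rw [Dm.par_def, if_pos hd, if_pos hd]
  exact k

/-- The bimodal case: witnesses of the new state are witnesses of the old one. -/
theorem of_sad {s : Bool} {e : ℕ} (hv : K.M.val K.L' e s)
    (hd : K.M.dir (K.M.nx K.L (!s) e) ≠ K.M.dir e)
    (hd' : K.M.dir (K.M.nx K.L' (!s) e) ≠ K.M.dir e) : K.M.val K.L e s := by
  have he := Dm.val_al hv
  obtain ⟨o, g, k1, k2, k3⟩ := ((G.hy.k' G.dead).step.sad he hd').1 hv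
  exact (G.hy.k.step.sad (G.dead.sub he) hd).2 ⟨o, g, G.dead.sub k1, G.dead.sub k2, k3⟩

/-- Out-darts at the vertex of an alive dart are alive. -/
theorem out_al {d o : ℕ} (hd : K.L' d) (ho : K.L o) (h1 : K.M.dir o ≠ K.d0)
    (h2 : K.M.nd o = K.M.nd d) : K.L' o :=
  (G.dead.out ho h1).2 (by rw [h2]; exact G.dead.vx hd)

theorem down {e : ℕ} {s : Bool} (hv : K.M.val K.L' e s) (hd : K.M.dir e ≠ K.d0) :
    K.M.val K.L e s := by
  have he := Dm.val_al hv
  have hL := G.dead.sub he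
  have k' := G.hy.k' G.dead
  obtain ⟨n1, n2, _⟩ := G.hy.k.step.nx (!s) hL
  by_cases c : K.M.dir (K.M.nx K.L (!s) e) = K.M.dir e
  · by_contra hn
    have ha := out_al G he n1 (by rwa [c]) n2
    exact flow_same G hv ha c (of_flow hL c hn)
      (fun u u1 _ => (k'.path.al he ((G.down.pa s u he hd).2 u1)).1)
      fun u u1 _ => (k'.path.al ha ((G.down.pa (!s) u ha (by rwa [c])).2 u1)).1
  · by_cases c' : K.M.dir (K.M.nx K.L' (!s) e) = K.M.dir e
    · have hd0 : K.M.dir (K.M.nx K.L (!s) e) = K.d0 := by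
        revert c hd
        cases K.M.dir (K.M.nx K.L (!s) e) <;> cases K.M.dir e <;> cases K.d0 <;> simp
      obtain ⟨g, g1, g2, g3⟩ := G.run.keep n1 hd0 (by rw [n2]; exact G.dead.vx he)
      rw [n2] at g3
      obtain ⟨m1, m2, m3⟩ := k'.step.nx (!s) he
      have hen := k'.st.lt _ he
      have hgn := k'.st.lt _ g1
      have hge : g ≠ e := fun k => hd (k ▸ g2)
      have hne : K.M.nx K.L' (!s) e ≠ e := fun k =>
        m3 g (by rw [k]; exact k'.rot.self hen hgn g3 hge) g1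
      refine (G.hy.k.step.sad hL c).2 ⟨g, _, G.dead.sub g1, G.dead.sub m1,
        fun k => hd (k ▸ g2), c', m2, hne, ?_⟩
      rcases k'.rot.tri (s := !s) (b := K.M.nx K.L' (!s) e) hen hgn g3 with k | k | k
      · exact absurd g1 (m3 g k)
      · exact absurd (by rw [← c', ← k, g2]) hd
      · exact bt_rev k'.rot hen hgn g3 hge k
    · exact of_sad G hv c c'

theorem up {e : ℕ} {s : Bool} (hv : K.M.val K.L' e s) (hd : K.M.dir e = K.d0)
    (hs : ¬K.sel (K.own s e)) : K.M.val K.L e s := by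
  have he := Dm.val_al hv
  have hL := G.dead.sub he
  have k' := G.hy.k' G.dead
  have k0 := G.hy.k
  obtain ⟨n1, n2, _⟩ := k0.step.nx (!s) hL
  by_cases c : K.M.dir (K.M.nx K.L (!s) e) = K.M.dir e
  · by_contra hn
    have hf := of_flow hL c hn
    have h1 : ∀ u, K.M.Pa K.L s e u → K.L' u := fun u u1 =>
      (k'.path.al he (((G.down.free hL hd hs).2.2.2.2 u).2 u1)).1
    have t1 := G.dead.st.be _ (h1 _ (k0.path.FT s hL).1)
    have top : ¬∃ x, K.D x (K.M.nd (K.M.β (K.M.FT K.L (!s) (K.M.nx K.L (!s) e)))) := by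
      rw [← hf, (k0.step.nx s (G.dead.sub t1)).2.1]
      exact G.dead.vx t1
    have h2 : ∀ u, K.M.Pa K.L (!s) (K.M.nx K.L (!s) e) u →
        K.M.Pa K.L (!s) u (K.M.FT K.L (!s) (K.M.nx K.L (!s) e)) → K.L' u := fun u u1 u2 => by
      obtain ⟨a1, a2, _⟩ := k0.path.al n1 u1
      have a3 : K.M.dir u = K.d0 := by rw [a2, c, hd]
      refine (G.dead.in0 a1 a3).2 fun ⟨x, hx⟩ => top ⟨x, G.dead.anc hx ?_⟩
      rw [← a3]
      exact (k0.path.al a1 u2).2.2.2
    exact flow_same G hv (h2 _ (Dm.Pa.refl _ _) (k0.path.FT (!s) n1).1) c hf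
      (fun u u1 _ => h1 u u1) h2
  · have ha := out_al G he n1 (by rwa [← hd]) n2
    exact of_sad G hv c (by rwa [G.down.nsame he ha])

end Val

theorem valS : ValS := fun K G =>
  ⟨fun {e s} hv hd => ⟨Val.down G hv hd, by
      rw [G.hy.own, Dm.own_def, Dm.own_def, G.down.En s (Dm.val_al hv) hd]⟩,
    fun {e s} hv hd hs => ⟨Val.up G hv hd hs, by
      rw [G.hy.own, Dm.own_def, Dm.own_def,
        (G.down.free (G.dead.sub (Dm.val_al hv)) hd hs).2.2.1]⟩⟩

end Pool.Agent.MP_1a6d78_lc.PD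

end MrgPart10

-- ======== part 11: formerly Pool.Agent.MP_1a6d78_lc.PD.Wall
section MrgPart11

/-! PROJECT PD, row WALL: alive darts next to dead ones lie on tight walls. -/

namespace Pool.Agent.MP_1a6d78_lc.PD

open Classical ED PR

namespace Wall

variable {K : Rd} (H : K.Hy) (D : K.DeadK)
include H D

/-- The candidate is the dart itself. -/
theorem base {x : ℕ} {s : Bool} {g i : ℕ} (hg : K.L' g) (hi : i < K.c)
    (h : K.cand x s i = K.M.β g) : K.Good x s g := by
  refine ⟨i, hi, ?_, ?_, fun u h1 h2 h3 => ?_⟩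
  · rw [h]; exact D.st.be g hg
  · rw [h]; exact Dm.Pa.refl _ _
  · rw [h] at h1
    exact absurd (H.k.path.anti h2 h1) h3

/-- One more tight passage at the lower end of the wall. -/
theorem ext {x : ℕ} {s : Bool} {g g' : ℕ} (hg : K.L' g) (dg : K.M.dir g = K.d0) (hg' : K.L' g')
    (dg' : K.M.dir g' = K.d0) (h : K.Good x s g')
    (h1 : K.M.suc K.L (!s) (K.M.β g') = K.M.β g) (h2 : K.M.nx K.L' (!s) g' = K.M.β g) :
    K.Good x s g := by
  obtain ⟨i, hi, k1, k2, k3⟩ := h
  have lg := D.sub hg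
  have lg' := D.sub hg'
  have st : K.M.Pa K.L (!s) (K.M.β g') (K.M.β g) := by
    have := Dm.Pa.step (M := K.M) (L := K.L) (s := !s) (H.st.be _ lg') (by
      rw [h1]; exact H.st.be _ lg)
    rwa [h1] at this
  refine ⟨i, hi, k1, k2.trans st, fun u u1 u2 u3 => ?_⟩
  by_cases e : u = K.M.β g'
  · subst e
    unfold Dm.Ti
    rw [H.st.bb lg', h2, H.st.dir _ lg, H.st.dir _ lg', dg, dg']
  · rcases H.k.path.tot u1 k2 with t | t
    · exact k3 u u1 t e
    · have := (H.k.path.hd t (Ne.symm e)).2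
      rw [h1] at this
      exact absurd (H.k.path.anti u2 this) u3

omit H in
/-- A dead dart at an alive vertex has the direction `d0`. -/
theorem dead_dir {a z : ℕ} (ha : K.L' a) (hz : K.L z) (hn : K.M.nd z = K.M.nd a)
    (h : ¬K.L' z) : K.M.dir z = K.d0 := by
  by_contra k
  exact h ((D.out hz k).2 (by rw [hn]; exact D.vx ha))

def Q1 (K : Rd) (g : ℕ) : Prop :=
  ∀ s x, K.M.Nb K.L s g → K.D x (K.M.nd (K.M.β (K.par (!s) g))) → K.Good x s g

def Q2 (K : Rd) (g : ℕ) : Prop :=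
  ∀ s x e, K.M.Pa K.L s g e → K.D x (K.M.nd (K.M.β e)) →
    (∀ u, K.M.Pa K.L s g u → K.M.Pa K.L s u e → u ≠ e → K.M.Ti K.L s u) → K.Good x s g

theorem one_of_two {g : ℕ} (hg : K.L' g) (dg : K.M.dir g = K.d0) (h2 : Q2 K g) : Q1 K g := by
  intro s x nb hd
  have lg := D.sub hg
  by_cases v : K.M.val K.L g s
  · have v' := H.k.path.vsymm v
    have p := H.k.step.par (!s) lg
    rw [H.par] at hd
    have o : K.own (!s) (K.M.par K.L (!s) g) = x := D.own _ p.1 (p.2.1.trans dg) hd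
    obtain ⟨i, hi, c1, c2, c3⟩ := H.cmp _ _ v' (p.2.1.trans dg) (by rw [o]; exact hd.1)
    rw [o] at c1 c2 c3
    refine base H D hg hi ?_
    have pp := H.k.step.parpar (!s) lg
    rw [Bool.not_not] at pp
    unfold Rd.cand
    rw [if_pos c1, if_neg (by rw [c3]; cases s <;> simp), c2, H.par, pp]
  · have a : K.M.dir (K.M.nx K.L (!s) g) = K.d0 := (nb.resolve_right v).trans dg
    have f := H.k.path.FT s lg
    exact h2 s x _ f.1 (D.flow lg dg a v hd) f.2.2

theorem two (R : K.RunK) (W : K.DownK) {g : ℕ} (hg : K.L' g) (dg : K.M.dir g = K.d0)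
    (ih : ∀ p, K.L' p → K.M.dir p = K.d0 → K.M.nd p = K.M.nd (K.M.β g) → Q1 K p ∧ Q2 K p) :
    Q2 K g := by
  intro s x e pe de ti
  have lg := D.sub hg
  have ne : g ≠ e := by
    rintro rfl
    exact (D.in0 lg dg).1 hg ⟨x, de⟩
  obtain ⟨lt1, pe1⟩ := H.k.path.hd pe ne
  have tg : K.M.Ti K.L s g := ti g (Dm.Pa.refl _ _) pe ne
  obtain ⟨l1, d1, n1, -⟩ := H.k.step.suc lg lt1
  have e1 := H.k.step.ti lg tg
  have ha : K.L' (K.M.β g) := D.st.be g hg
  have la : K.L (K.M.β g) := D.sub ha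
  have da : K.M.dir (K.M.β g) ≠ K.d0 := by rw [← dg]; exact H.st.dne lg
  have back : K.M.nx K.L (!s) (K.M.suc K.L s g) = K.M.β g := by
    rw [e1]; exact H.k.step.nxnx s la
  have d1' := d1.trans dg
  by_cases al : K.L' (K.M.suc K.L s g)
  · refine ext H D hg dg al d1' ((ih _ al d1' n1).2 s x e pe1 de fun u u1 u2 u3 =>
      ti u ((Dm.Pa.step lg l1).trans u1) u2 u3) (H.k.step.rev lg tg).2 ?_
    rw [W.nsame al (by rw [back]; exact ha), back]
  · obtain ⟨y, dy⟩ : ∃ y, K.D y (K.M.nd (K.M.β (K.M.suc K.L s g))) := by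
      by_contra k
      exact al ((D.in0 l1 d1').2 k)
    have up := (H.k.path.al l1 pe1).2.2.2
    rw [d1'] at up
    obtain rfl : y = x := D.uniq (D.anc dy up) de
    obtain ⟨l2, n2, b2⟩ := (H.k' D).step.nx s ha
    have alt := H.st.lt _ la
    have l2' := D.sub l2
    have lt2 := H.st.lt _ l2'
    have first := (H.k.step.nx s la).2.2
    rw [← e1] at first
    have ne12 : K.M.suc K.L s g ≠ K.M.nx K.L' s (K.M.β g) := fun k => al (by rw [k]; exact l2)
    have b12 : K.M.Bt s (K.M.β g) (K.M.suc K.L s g) (K.M.nx K.L' s (K.M.β g)) := by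
      rcases H.k.rot.tri (s := s) (b := K.M.nx K.L' s (K.M.β g)) alt lt1 n1 with k | k | k
      · exact k
      · exact absurd k ne12
      · exact absurd l2' (first _ k)
    by_cases d2 : K.M.dir (K.M.nx K.L' s (K.M.β g)) = K.d0
    · obtain ⟨r1, r2⟩ := R.adj (s := s) l1 d1' dy l2 d2 (n2.trans n1.symm) fun z hz lz => by
        have bz := (H.k.rot.split (z := z) alt lt2 n2 b12).2 (Or.inr (Or.inr hz))
        exact ⟨dead_dir D ha lz (H.k.rot.lt alt bz).2 (b2 z bz), b2 z bz⟩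
      refine ext H D hg dg l2 d2 ((ih _ l2 d2 n2).1 s y (Or.inl (r1.trans d2.symm)) r2) ?_
        ((H.k' D).step.nxnx s ha)
      refine H.k.step.suceq (H.st.be _ l2') la ?_ ?_ fun z hz lz => ?_
      · rw [H.st.dir _ lg, H.st.dir _ l2', dg, d2]
      · rw [H.st.bb l2', n2]
      · rw [H.st.bb l2'] at hz
        have bz := (H.k.rot.symm alt lt2 n2).2 hz
        rw [dead_dir D ha lz (H.k.rot.lt alt bz).2 (b2 z bz), ← d2]
        exact (H.st.dne l2').symm
    · obtain ⟨g2, k1, k2, k3⟩ := R.keep l1 d1' (by rw [n1]; exact D.vx ha)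
      have l3 := D.sub k1
      have lt3 := H.st.lt _ l3
      have b23 : K.M.Bt s (K.M.β g) (K.M.nx K.L' s (K.M.β g)) g2 := by
        rcases H.k.rot.tri (s := s) (b := g2) alt lt2 n2 with k | k | k
        · exact k
        · exact absurd (k ▸ k2) d2
        · exact absurd k1 (b2 _ k)
      have b13 : K.M.Bt s (K.M.β g) (K.M.suc K.L s g) g2 := lt_trans b12 b23
      have b : K.M.Bt s (K.M.suc K.L s g) (K.M.nx K.L' s (K.M.β g)) g2 := by
        rcases (H.k.rot.split alt lt3 (k3.trans n1) b13).1 b23 with k | k | k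
        · exact absurd l2' (first _ k)
        · exact absurd k.symm ne12
        · exact k
      have v : K.M.val K.L (K.M.suc K.L s g) s :=
        (H.k.step.sad l1 (by rw [back, d1']; exact da)).2 ⟨_, g2, l2', l3, by rw [d1']; exact d2,
          k2.trans d1'.symm, k3, fun k => al (k ▸ k1), b⟩
      have o : K.own s (K.M.suc K.L s g) = y := D.own _ l1 d1' dy
      obtain ⟨i, hi, c1, c2, c3⟩ := H.cmp _ _ v d1' (by rw [o]; exact dy.1)
      rw [o] at c1 c2 c3
      refine base H D hg hi ?_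
      unfold Rd.cand
      rw [if_pos c1, if_pos c3, c2, H.geo.nx, back, if_neg da]

theorem both (R : K.RunK) (W : K.DownK) :
    ∀ g, K.L g → K.M.dir g = K.d0 → K.L' g → Q1 K g ∧ Q2 K g := by
  refine H.k.step.ind K.d0 (fun g => K.L' g → Q1 K g ∧ Q2 K g) fun g _ dg ih hg => ?_
  have h2 : Q2 K g := two H D R W hg dg fun p hp dp np =>
    ih p (D.sub hp) dp (by rw [np]; exact Dm.Up.refl _ _) hp
  exact ⟨one_of_two H D hg dg h2, h2⟩

end Wall

theorem wallS : WallS := fun _ H D R W =>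
  ⟨fun hg dg nb hd => (Wall.both H D R W _ (D.sub hg) dg hg).1 _ _ nb hd,
    fun hg dg pe de ti => (Wall.both H D R W _ (D.sub hg) dg hg).2 _ _ _ pe de ti⟩

end Pool.Agent.MP_1a6d78_lc.PD

end MrgPart11

-- marker of a merged file
example : 731051 + 780101 = 731051 + 780101 := rfl
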