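import Pool.Agent.MP_1a6d78_lc.PD.Ctop
import Pool.Agent.MP_1a6d78_lc.PD.Link
import Pool.Agent.MP_1a6d78_lc.PD.CkAll
import Pool.Agent.MP_1a6d78_lc.PD.Wall

/-! PROJECT PD: assembly. -/

namespace Pool.Agent.MP_1a6d78_lc.PD

theorem kitS : KitS := fun M L h =>
  have r := rotS M h.ok
  have s := stepS M L h r
  have a := pathAS M L h s
  have p : M.PathK L := ⟨a, pathBS M L h s a⟩
  ⟨h, r, s, p, fspS M L h s p⟩

theorem geoS : GeoS := fun K h =>
  have d := deadS K h
  have r := runS K h d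
  have w := downS K h d r
  have g1 : K.G1 := ⟨h, d, r, w, wallS K h d r w⟩
  have a := aliveS K g1
  have s := sucS K g1 a
  have f := ftdS K g1 a
  have e := decS K g1 a s f
  have g2 : K.G2 := ⟨g1, a, s, f, e, dpS K g1 e⟩
  have n := enS K g2
  have c := fcS foiS K h d (covS K g2)
  have a' : K.L' = K.N.al := a.symm
  ⟨h, d, a, ⟨a' ▸ s.2, a' ▸ s.1, a' ▸ n.1, a' ▸ n.2, a' ▸ c⟩, valS K g1, candS K g2, ancS K g2,
    rchS K g1⟩

theorem main : MainS :=
  fin kitS baseS lbS (stepI kitS geoS lbS (klS linkK) (glS linkK))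
    (potS kitS geoS lbS (klS linkK) (glS linkK) (countS kitS faceS cellS eulerS) hashS)
    lastS codeS callS cbaseS ctopS

end Pool.Agent.MP_1a6d78_lc.PD
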