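import Pool.Agent.MP_1a6d78_lc.PD.MBasic

/-! PROJECT PD, row CK2: closure proofs for the loop of the kill round. -/

namespace Pool.Agent.MP_1a6d78_lc.PD

open Classical ED PR SC

namespace Ck2

variable {κ m β q : List Bool → ℕ} {c : ℕ} (H : Cx κ m β q c)
include H

theorem cm (x : List Bool) : c + 1 ≤ m x := by
  have := H.m x
  omega

theorem own : TS κ m β q c Rd.own := fun _ _ hs ha => H.o.own hs ha

variable (C : C1 κ m β q c)
include C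

theorem wall {j w a b : EN} {s : EB} (hj : Nq κ m β j) (hw : Nq κ m β w) (hs : Bv κ m β s)
    (ha : Nq κ m β a) (hb : Nq κ m β b) : Sv κ m β fun x g ρ =>
      (Kx c q x g (j x g ρ) (w x g ρ)).wall (a x g ρ) (s x g ρ) (b x g ρ) :=
  H.o.full hs.not (C.gd hj hw hs ha hb)

theorem fo {j w a r : EN} {s fl : EB} {A : ES} (hj : Nq κ m β j) (hw : Nq κ m β w)
    (hs : Bv κ m β s) (ha : Nq κ m β a) (hf : Bv κ m β fl) (hr : Nq κ m β r) (hA : Sv κ m β A) :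
    Nq κ m β fun x g ρ => (ofO (q x) g).fo (im x) (fl x g ρ) (r x g ρ) (A x g ρ)
      ((Kx c q x g (j x g ρ) (w x g ρ)).wall (a x g ρ) (s x g ρ)) c :=
  H.o.fo (B := fun x g ρ => (Kx c q x g (j x g ρ) (w x g ρ)).wall (a x g ρ) (s x g ρ)) hf hr hA
    (wall H C (Q.w hj) (Q.w hw) hs.w (Q.w ha) (Q.v 0)) (Q.c c)
    fun x _ _ => (Nat.le_succ c).trans (cm H x)

theorem fh : TS κ m β q c Rd.fh := fun hj hw hs ha =>
  fo H C hj hw hs (H.o.own hs (H.o.nx hs (QM.be ha))) (Bv.c true) (Q.c 5) (H.o.full hs ha)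

theorem FTd : TS κ m β q c Rd.FTd := fun hj hw hs ha =>
  have h := fh H C hj hw hs (H.o.FT hs ha)
  Q.ite (C.al hj hw (H.o.nx hs (QM.be (H.o.FT hs ha)))) (H.o.FT hs ha)
    (Q.ite (Q.lt h QM.n) h (H.o.En hs ha))

theorem dq : TS κ m β q c Rd.dq := fun {j _ _ _} hj hw hs ha =>
  Q.ite (C.sel hj hw (H.o.own hs ha))
    (fo H C hj hw hs (H.o.own hs ha) (Bv.c false)
      (Bv.vm (Cx.d0 (q := q) (c := c) (j := j) hw).not (Cx.d0 (q := q) (c := c) (j := j) hw))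
      (H.o.full hs ha)) (H.o.En hs ha)

theorem dg : TS κ m β q c Rd.dg := fun hj hw hs ha => C.suc hj hw hs (dq H C hj hw hs ha)

theorem db : TS κ m β q c Rd.db := fun {j w a s} hj hw hs ha =>
  have h := C.gd (Q.w hj) (Q.w hw) hs.w (H.o.own hs.w (Q.w ha)) (Q.v 0)
  C.gd hj hw hs (H.o.own hs ha) (Q.lst (P := fun x g ρ i => (ofO (q x) g).On (im x)
      ((Kx c q x g (j x g ρ) (w x g ρ)).dg (s x g ρ) (a x g ρ))
      ⟨false, !s x g ρ, (Kx c q x g (j x g ρ) (w x g ρ)).gd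
        ((Kx c q x g (j x g ρ) (w x g ρ)).own (s x g ρ) (a x g ρ)) (s x g ρ) i,
        (Kx c q x g (j x g ρ) (w x g ρ)).FTd (!s x g ρ) ((Kx c q x g (j x g ρ) (w x g ρ)).gd
          ((Kx c q x g (j x g ρ) (w x g ρ)).own (s x g ρ) (a x g ρ)) (s x g ρ) i)⟩)
    (Q.c c) (fun x _ _ => (Nat.le_succ c).trans (cm H x))
    (H.o.On (dg H C (Q.w hj) (Q.w hw) hs.w (Q.w ha))
      (Sv.mk (Bv.c false) hs.w.not h (FTd H C (Q.w hj) (Q.w hw) hs.w.not h))))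

theorem dp {j w a k : EN} {s : EB} (hj : Nq κ m β j) (hw : Nq κ m β w) (hs : Bv κ m β s)
    (ha : Nq κ m β a) (hk : Nq κ m β k) (hm : ∀ x g ρ, k x g ρ ≤ m x) :
    Nq κ m β fun x g ρ => (Kx c q x g (j x g ρ) (w x g ρ)).dp (s x g ρ) (a x g ρ) (k x g ρ) :=
  Q.it (f := fun x g ρ u => if (Kx c q x g (j x g ρ) (w x g ρ)).sel
      ((Kx c q x g (j x g ρ) (w x g ρ)).own (s x g ρ) u) then
      (im x).β ((Kx c q x g (j x g ρ) (w x g ρ)).db (s x g ρ) u) else u) QM.n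
    (Q.ite (C.sel (Q.w hj) (Q.w hw) (H.o.own hs.w (Q.v 0)))
      (QM.be (db H C (Q.w hj) (Q.w hw) hs.w (Q.v 0))) (Q.v 0)) hk hm ha

theorem En : TS κ m β q c Rd.En' := fun {j _ _ _} hj hw hs ha =>
  Q.ite (C.al hj hw ha) (H.o.En hs (Q.ite (Bv.eq (QM.dir ha) (Cx.d0 (q := q) (c := c) (j := j) hw))
    (dp H C hj hw hs ha (Q.c c) fun x _ _ => (Nat.le_succ c).trans (cm H x)) ha)) QM.n

theorem old {j w a : EN} {s : EB} (hj : Nq κ m β j) (hw : Nq κ m β w) (hs : Bv κ m β s)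
    (ha : Nq κ m β a) :
    Pq κ m β fun x g ρ => (Kx c q x g (j x g ρ) (w x g ρ)).old (s x g ρ) (a x g ρ) :=
  Q.or (Q.not (C.sel hj hw (H.o.own hs ha))) (C.al hj hw (H.o.suc hs (H.o.FT hs ha)))

/-- The test of the loop in `ft`. -/
def tst (K : Rd) (s : Bool) (p k : ℕ) : Prop :=
  K.old s (K.dp s p k) ∨ K.M.dir (K.nx' s (K.M.β (K.dq s (K.dp s p k)))) ≠ K.d0

theorem ft : TS κ m β q c Rd.ft := fun {j w a s} hj hw hs ha => by
  have h := dp H C (Q.w hj) (Q.w hw) hs.w (Q.w ha) (Q.min (Q.v 0) (Q.c c))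
    fun x _ _ => (min_le_right _ _).trans ((Nat.le_succ c).trans (cm H x))
  have k : Nq κ m β fun x g ρ =>
      lst (c + 1) (tst (Kx c q x g (j x g ρ) (w x g ρ)) (s x g ρ) (a x g ρ)) :=
    Q.cg (Q.lst (P := fun x g ρ i =>
        tst (Kx c q x g (j x g ρ) (w x g ρ)) (s x g ρ) (a x g ρ) (min i c))
      (Q.c (c + 1)) (fun x _ _ => cm H x) (Q.or (old H C (Q.w hj) (Q.w hw) hs.w h)
        (Bv.ne (QM.dir (C.nx (Q.w hj) (Q.w hw) hs.w (QM.be (dq H C (Q.w hj) (Q.w hw) hs.w h))))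
          (Cx.d0 (q := q) (c := c) (j := fun x g ρ => j x g (tl ρ)) (Q.w hw)))))
      fun x g ρ => lst_congr fun i hi => by rw [min_eq_left (Nat.lt_succ_iff.1 hi)]
  exact dp H C hj hw hs ha k fun x _ _ => (lst_lt _ c.succ_pos).le.trans (cm H x)

theorem FT : TS κ m β q c Rd.FT' := fun {j _ _ _} hj hw hs ha =>
  have h := ft H C hj hw hs ha
  Q.ite (C.al hj hw ha) (Q.ite (Bv.eq (QM.dir ha) (Cx.d0 (q := q) (c := c) (j := j) hw))
    (Q.ite (old H C hj hw hs h) (H.o.FT hs h) (dq H C hj hw hs h)) (FTd H C hj hw hs ha)) QM.n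

end Ck2

theorem ck2S : Ck2S := fun _ _ _ _ _ H C =>
  ⟨Ck2.FTd H C, Ck2.dq H C, Ck2.dg H C, Ck2.db H C, Ck2.dp H C, Ck2.En H C, Ck2.FT H C⟩

end Pool.Agent.MP_1a6d78_lc.PD
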