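import Pool.Agent.MP_1a6d78_lc.PD.MBasic

/-! PROJECT PD, row CK3: the new two-path primitive is computable. -/

namespace Pool.Agent.MP_1a6d78_lc.PD

open Classical ED PR SC

namespace Ck3

theorem fo_clip (P : Pr) (M : Dm) (fl : Bool) (r : ℕ) (X : Sg) (B : ℕ → Sg) (u : ℕ) :
    ∀ m ≤ u + 1, P.fo M fl r X (fun i => B (min i u)) m = P.fo M fl r X B m := by
  intro m
  induction m with
  | zero => exact fun _ => rfl
  | succ m ih =>
    intro h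
    have e := ih (by omega)
    unfold Pr.fo at e ⊢
    rw [itr, itr, e]
    simp only [min_eq_left (show m ≤ u by omega)]

theorem pick_clip (fl : Bool) {n u : ℕ} (P : ℕ → Prop) (h : n ≤ u + 1) :
    pick fl n (fun k => P (min k u)) = pick fl n P := by
  unfold pick
  rw [lst_congr (Q := P) fun k hk => by rw [min_eq_left (by omega)],
    lst_congr (P := fun i => P (min (n - 1 - i) u)) (Q := fun i => P (n - 1 - i))
      fun k hk => by rw [min_eq_left (by omega)]]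

theorem pick_le (fl : Bool) (n : ℕ) (P : ℕ → Prop) : pick fl (n + 1) P ≤ n := by
  unfold pick
  have := lst_lt (n := n + 1) P (by omega)
  split_ifs <;> omega

theorem ex_clip {n u : ℕ} (P : ℕ → Prop) (h : n ≤ u + 1) :
    (∃ k < n, P (min k u)) ↔ ∃ k < n, P k :=
  exists_congr fun k => and_congr_right fun hk => by rw [min_eq_left (by omega)]

theorem np_le (K : Rd) (A : Sg) : K.np A ≤ 3 * K.c := by
  unfold Rd.np
  have := lst_lt (n := 3 * K.c + 1) (K.cut A) (by omega)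
  split_ifs <;> omega

variable {κ m β q : List Bool → ℕ} {c : ℕ} (H : Cx κ m β q c) (H1 : C1 κ m β q c)
  (H2 : C2 κ m β q c) {j w a k r : EN} {s fl : EB} {A B : ES}

theorem clip : Nq κ m β fun _ _ ρ => min (hd (ρ 0)) (3 * c) := Q.min (Q.v 0) (Q.c _)

theorem sim (hw : Nq κ m β w) (hA : Sv κ m β A) :
    Pq κ m β fun x g ρ => (Kx c q x g (j x g ρ) (w x g ρ)).sim (A x g ρ) :=
  Q.or hA.1 (Bv.ne (QM.dir hA.2.2.1) (Cx.d0 (q := q) (c := c) (j := j) hw))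

theorem rv (hw : Nq κ m β w) (hA : Sv κ m β A) (hk : Nq κ m β k) :
    Bv κ m β fun x g ρ => (Kx c q x g (j x g ρ) (w x g ρ)).rv (A x g ρ) (k x g ρ) :=
  Bv.dec (Q.and (Q.not (sim hw hA)) (Q.eq (Q.mod hk (Q.c 3)) (Q.c 2)))

include H H2

theorem dp (hj : Nq κ m β j) (hw : Nq κ m β w) (hs : Bv κ m β s) (ha : Nq κ m β a)
    (hk : Nq κ m β k) (hb : ∀ x g ρ, k x g ρ ≤ 3 * c) : Nq κ m β fun x g ρ =>
      (Kx c q x g (j x g ρ) (w x g ρ)).dp (s x g ρ) (a x g ρ) (k x g ρ / 3) :=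
  H2.dp hj hw hs ha (Q.div hk (Q.c 3)) fun x g ρ => by
    have := hb x g ρ
    have := H.m x
    omega

theorem pf (hj : Nq κ m β j) (hw : Nq κ m β w) (hs : Bv κ m β s) (ha : Nq κ m β a)
    (hk : Nq κ m β k) (hb : ∀ x g ρ, k x g ρ ≤ 3 * c) : Sv κ m β fun x g ρ =>
      (Kx c q x g (j x g ρ) (w x g ρ)).pf (s x g ρ) (a x g ρ) (k x g ρ) :=
  have h := dp H H2 hj hw hs ha hk hb
  Sv.ite (Q.eq (Q.mod hk (Q.c 3)) (Q.c 0)) (Sv.mk (Bv.c false) hs h (H2.dq hj hw hs h))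
    (Sv.ite (Q.eq (Q.mod hk (Q.c 3)) (Q.c 1))
      (Sv.mk (Bv.c true) hs (H2.dq hj hw hs h) (H2.dg hj hw hs h))
      (Sv.mk (Bv.c false) hs.not (H2.db hj hw hs h) (QM.be (H2.dg hj hw hs h))))

include H1

theorem cut (hj : Nq κ m β j) (hw : Nq κ m β w) (hA : Sv κ m β A) (hk : Nq κ m β k)
    (hb : ∀ x g ρ, k x g ρ ≤ 3 * c) :
    Pq κ m β fun x g ρ => (Kx c q x g (j x g ρ) (w x g ρ)).cut (A x g ρ) (k x g ρ) :=
  Q.and (Q.or (Q.eq (Q.mod hk (Q.c 3)) (Q.c 0)) (Q.and (Q.eq (Q.mod hk (Q.c 3)) (Q.c 2))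
    (H1.sel hj hw (H.o.own hA.2.1 (dp H H2 hj hw hA.2.1 hA.2.2.1 hk hb)))))
    (H.o.On hA.2.2.2 (pf H H2 hj hw hA.2.1 hA.2.2.1 hk hb))

theorem cut' (hj : Nq κ m β j) (hw : Nq κ m β w) (hA : Sv κ m β A) :
    P1q κ m β fun x g ρ i => (Kx c q x g (j x g ρ) (w x g ρ)).cut (A x g ρ) (min i (3 * c)) :=
  cut H H1 H2 (Q.w hj) (Q.w hw) hA.w clip fun _ _ _ => min_le_right _ _

theorem ok' (hj : Nq κ m β j) (hw : Nq κ m β w) (hA : Sv κ m β A) :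
    Pq κ m β fun x g ρ => (Kx c q x g (j x g ρ) (w x g ρ)).ok' (A x g ρ) :=
  have h := Bv.eq (QM.dir hA.2.2.1) (Cx.d0 (q := q) (c := c) (j := j) hw)
  Q.and (H1.al hj hw hA.2.2.1) (Q.and (H1.al hj hw hA.2.2.2) (Q.or hA.1
    (Q.and (Bv.eq (QM.dir hA.2.2.2) (QM.dir hA.2.2.1)) (Q.cgP (Q.or
      (Q.and h (Q.ex (Q.c (3 * c + 1)) (fun x _ _ => by have := H.m x; omega)
        (cut' H H1 H2 hj hw hA)))
      (Q.and (Q.not h) (H.o.On hA.2.2.2 (H.o.full hA.2.1 hA.2.2.1)))) fun x g ρ => by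
        rw [ex_clip _ le_rfl]
        by_cases u : (im x).dir (A x g ρ).p = (Kx c q x g (j x g ρ) (w x g ρ)).d0
        · rw [if_pos (show (Kx c q x g (j x g ρ) (w x g ρ)).M.dir _ = _ from u)]
          exact ⟨fun k => k.elim (fun k => k.2) fun k => absurd u k.1, fun k => Or.inl ⟨u, k⟩⟩
        · rw [if_neg (show ¬(Kx c q x g (j x g ρ) (w x g ρ)).M.dir _ = _ from u)]
          exact ⟨fun k => k.elim (fun k => absurd k.1 u) fun k => k.2, fun k => Or.inr ⟨u, k⟩⟩))))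

theorem np (hj : Nq κ m β j) (hw : Nq κ m β w) (hA : Sv κ m β A) :
    Nq κ m β fun x g ρ => (Kx c q x g (j x g ρ) (w x g ρ)).np (A x g ρ) :=
  Q.ite (sim hw hA) (Q.c 0) (Q.cg (Q.lst (Q.c (3 * c + 1))
    (fun x _ _ => by have := H.m x; omega) (cut' H H1 H2 hj hw hA)) fun _ _ _ =>
      lst_congr fun i hi => by rw [min_eq_left (by omega)])

theorem pc (hj : Nq κ m β j) (hw : Nq κ m β w) (hA : Sv κ m β A) (hk : Nq κ m β k)
    (hb : ∀ x g ρ, k x g ρ ≤ 3 * c) :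
    Sv κ m β fun x g ρ => (Kx c q x g (j x g ρ) (w x g ρ)).pc (A x g ρ) (k x g ρ) :=
  have h := pf H H2 hj hw hA.2.1 hA.2.2.1 hk hb
  Sv.ite (sim hw hA) hA (Sv.ite (Q.eq hk (np H H1 H2 hj hw hA))
    (Sv.ite (Q.eq (Q.mod hk (Q.c 3)) (Q.c 0)) (Sv.mk (Bv.c false) hA.2.1 h.2.2.1 hA.2.2.2)
      (Sv.mk (Bv.c false) hA.2.1.not (QM.be hA.2.2.2) h.2.2.2)) h)

theorem res (hj : Nq κ m β j) (hw : Nq κ m β w) (hf : Bv κ m β fl) (hr : Nq κ m β r)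
    (hA : Sv κ m β A) (hB : Sv κ m β B) (hk : Nq κ m β k) (hb : ∀ x g ρ, k x g ρ ≤ 3 * c) :
    Nq κ m β fun x g ρ => (Kx c q x g (j x g ρ) (w x g ρ)).res (fl x g ρ) (r x g ρ) (A x g ρ)
      (B x g ρ) (k x g ρ) :=
  Q.cg (H.o.fo (B := fun x g ρ i => (Kx c q x g (j x g ρ) (w x g ρ)).pc (B x g ρ) (min i (3 * c)))
    (hf.xor (rv (j := j) hw hA hk)) hr (pc H H1 H2 hj hw hA hk hb)
    (pc H H1 H2 (Q.w hj) (Q.w hw) hB.w clip fun _ _ _ => min_le_right _ _)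
    (Q.add (np H H1 H2 hj hw hB) (Q.c 1)) fun x g ρ =>
      (Nat.succ_le_succ (np_le _ _)).trans (by
        have := H.m x
        show 3 * c + 1 ≤ _
        omega)) fun _ _ _ => fo_clip _ _ _ _ _ _ _ _ (Nat.succ_le_succ (np_le _ _))

theorem cv (hj : Nq κ m β j) (hw : Nq κ m β w) (hf : Bv κ m β fl) (hr : Nq κ m β r)
    (hA : Sv κ m β A) (hB : Sv κ m β B) (hk : Nq κ m β k) (hb : ∀ x g ρ, k x g ρ ≤ 3 * c) :
    Nq κ m β fun x g ρ => (Kx c q x g (j x g ρ) (w x g ρ)).cv (fl x g ρ) (r x g ρ) (A x g ρ)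
      (B x g ρ) (k x g ρ) :=
  have h := res H H1 H2 hj hw hf hr hA hB hk hb
  Q.ite (rv (j := j) hw hA hk) (QM.be (Q.ite (Q.eq hr (Q.c 5)) (H.o.suc hA.2.1.not h) h)) h

theorem F' (hj : Nq κ m β j) (hw : Nq κ m β w) (hf : Bv κ m β fl) (hr : Nq κ m β r)
    (hA : Sv κ m β A) (hB : Sv κ m β B) : Nq κ m β fun x g ρ =>
      (Kx c q x g (j x g ρ) (w x g ρ)).F' (fl x g ρ) (r x g ρ) (A x g ρ) (B x g ρ) := by
  have h : P1q κ m β fun x g ρ i => (Kx c q x g (j x g ρ) (w x g ρ)).res (fl x g ρ) (r x g ρ)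
      (A x g ρ) (B x g ρ) (min i (3 * c)) < (im x).n :=
    Q.lt (res H H1 H2 (Q.w hj) (Q.w hw) hf.w (Q.w hr) hA.w hB.w clip
      fun _ _ _ => min_le_right _ _) QM.n
  have hn := Q.add (np H H1 H2 hj hw hA) (Q.c 1)
  have b0 : ∀ x g ρ, (Kx c q x g (j x g ρ) (w x g ρ)).np (A x g ρ) + 1 ≤ 3 * c + 1 :=
    fun _ _ _ => Nat.succ_le_succ (np_le _ _)
  have b1 : ∀ x g ρ, (Kx c q x g (j x g ρ) (w x g ρ)).np (A x g ρ) + 1 ≤ m x := fun x g ρ =>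
    (b0 x g ρ).trans (by have := H.m x; omega)
  exact Q.ite (Q.and (ok' H H1 H2 hj hw hA) (Q.and (ok' H H1 H2 hj hw hB)
    (Q.cgP (Q.ex hn b1 h) fun x g ρ => ex_clip (fun i => (Kx c q x g (j x g ρ) (w x g ρ)).res
      (fl x g ρ) (r x g ρ) (A x g ρ) (B x g ρ) i < (im x).n) (b0 x g ρ))))
    (cv H H1 H2 hj hw hf hr hA hB (Q.cg (QM.pick hf hn b1 h) fun x g ρ =>
      pick_clip _ (fun i => (Kx c q x g (j x g ρ) (w x g ρ)).res
        (fl x g ρ) (r x g ρ) (A x g ρ) (B x g ρ) i < (im x).n) (b0 x g ρ))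
      fun _ _ _ => (pick_le _ _ _).trans (np_le _ _)) QM.n

end Ck3

theorem ck3S : Ck3S := fun _ _ _ _ _ H H1 H2 _ _ _ _ _ _ hj hw hf hr hA hB =>
  Ck3.F' H H1 H2 hj hw hf hr hA hB

end Pool.Agent.MP_1a6d78_lc.PD
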