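import Pool.Agent.MP_1a6d78_lc.PD.MBasic

/-! PROJECT PD, row CK4: the lists of the kill round are computable. -/

namespace Pool.Agent.MP_1a6d78_lc.PD

open Classical ED PR SC

namespace Ck4

variable {κ m β q : List Bool → ℕ} {c : ℕ} (H : Cx κ m β q c) (h1 : C1 κ m β q c)
  (h2 : C2 κ m β q c) (h3 : C3 κ m β q c) {j w a b y z : EN} {s : EB}

theorem ss (h1 : C1 κ m β q c) (hj : Nq κ m β j) (hw : Nq κ m β w) (ha : Nq κ m β a)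
    (hb : Nq κ m β b) :
    Bv κ m β fun x g ρ => (Kx c q x g (j x g ρ) (w x g ρ)).ss (a x g ρ) (b x g ρ) :=
  h1.ss hj hw ha hb

include H

theorem own (hs : Bv κ m β s) (ha : Nq κ m β a) :
    Nq κ m β fun x g ρ => (Kx c q x g (j x g ρ) (w x g ρ)).own (s x g ρ) (a x g ρ) :=
  H.o.own hs ha

theorem par (hs : Bv κ m β s) (ha : Nq κ m β a) :
    Nq κ m β fun x g ρ => (Kx c q x g (j x g ρ) (w x g ρ)).par (s x g ρ) (a x g ρ) :=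
  H.o.par hs ha

include h1

theorem ap (hj : Nq κ m β j) (hw : Nq κ m β w) (ha : Nq κ m β a) (hy : Nq κ m β y)
    (hb : Nq κ m β b) :
    Pq κ m β fun x g ρ => (Kx c q x g (j x g ρ) (w x g ρ)).ap (a x g ρ) (y x g ρ) (b x g ρ) :=
  Q.and (h1.us hj hw ha hb) (Q.and (H.o.val (ss h1 hj hw ha hb) (h1.se hj hw ha hb))
    (Q.and (Q.eq (own H (ss h1 hj hw ha hb) (h1.se hj hw ha hb)) ha)
      (Q.eq (h1.po hj hw ha hb) hy)))

theorem ps (hj : Nq κ m β j) (hw : Nq κ m β w) (ha : Nq κ m β a) (hb : Nq κ m β b) :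
    Nq κ m β fun x g ρ => (Kx c q x g (j x g ρ) (w x g ρ)).ps (a x g ρ) (b x g ρ) :=
  have k := (ss h1 hj hw ha hb).not
  have p := par (j := j) (w := w) H k (h1.se hj hw ha hb)
  QM.mk' (H.o.cur k p) p k

omit H in
theorem Cs (hj : Nq κ m β j) (hw : Nq κ m β w) (ha : Nq κ m β a) (hb : Nq κ m β b) :
    Bv κ m β fun x g ρ => (Kx c q x g (j x g ρ) (w x g ρ)).Cs (a x g ρ) (b x g ρ) :=
  Bv.ite (Q.eq (Q.div hb (Q.c c)) (Q.c 0)) (ss h1 hj hw ha hb)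
    (Bv.dec (Q.eq (Q.mod (Q.div hb (Q.c c)) (Q.c 2)) (Q.c 1)))

include h2

omit H in
theorem Ce (hj : Nq κ m β j) (hw : Nq κ m β w) (ha : Nq κ m β a) (hb : Nq κ m β b) :
    Nq κ m β fun x g ρ => (Kx c q x g (j x g ρ) (w x g ρ)).Ce (a x g ρ) (b x g ρ) :=
  have k := Cs h1 hj hw ha hb
  have d := h1.gd hj hw k ha (Q.mod hb (Q.c c))
  Q.ite (Q.eq (Q.div hb (Q.c c)) (Q.c 0)) (h1.se hj hw ha hb)
    (Q.ite (Q.lt (Q.div hb (Q.c c)) (Q.c 3)) (h1.suc hj hw k (QM.be d))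
      (QM.be (h2.FTd hj hw k.not d)))

omit H in
theorem cd (hj : Nq κ m β j) (hw : Nq κ m β w) (ha : Nq κ m β a) (hb : Nq κ m β b) :
    Nq κ m β fun x g ρ => (Kx c q x g (j x g ρ) (w x g ρ)).cd (a x g ρ) (b x g ρ) :=
  QM.mk' (Q.add hj (Q.c 2)) (Ce h1 h2 hj hw ha hb) (Cs h1 hj hw ha hb)

include h3

theorem N (hj : Nq κ m β j) (hw : Nq κ m β w) :
    PC κ m β fun x g ρ => (Kx c q x g (j x g ρ) (w x g ρ)).N :=
  ⟨h1.al hj hw, h1.nx hj hw, h1.suc hj hw, h2.En hj hw, h2.FT hj hw, h3 hj hw, H.o.next, H.o.cur⟩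

theorem ins (hj : Nq κ m β j) (hw : Nq κ m β w) (hs : Bv κ m β s) (ha : Nq κ m β a) :
    Pq κ m β fun x g ρ => (Kx c q x g (j x g ρ) (w x g ρ)).ins (a x g ρ) (s x g ρ) :=
  Q.and (Bv.eq (QM.dir ha) (Cx.d0 (j := j) (q := q) (c := c) hw))
    (Q.and ((N H h1 h2 h3 hj hw).val hs ha) (h1.sel hj hw (own H hs ha)))

theorem anc (hj : Nq κ m β j) (hw : Nq κ m β w) (hs : Bv κ m β s) (ha : Nq κ m β a) :
    Nq κ m β fun x g ρ => (Kx c q x g (j x g ρ) (w x g ρ)).anc (a x g ρ) (s x g ρ) :=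
  have o := own (j := j) (w := w) H hs ha
  have l : ∀ x (_ : Orc) (_ : Env), c ≤ m x := fun x _ _ => by have := H.m x; omega
  ps H h1 hj hw o (Q.lst (P := fun x g ρ i => (Kx c q x g (j x g ρ) (w x g ρ)).ap
      ((Kx c q x g (j x g ρ) (w x g ρ)).own (s x g ρ) (a x g ρ))
      ((Kx c q x g (j x g ρ) (w x g ρ)).N.own (im x) (s x g ρ) (a x g ρ)) i) (Q.c c) l
    (ap H h1 (Q.w hj) (Q.w hw) (Q.w o) (Q.w ((N H h1 h2 h3 hj hw).own hs ha)) (Q.v 0)))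

theorem cI (hj : Nq κ m β j) (hw : Nq κ m β w) (ha : Nq κ m β a) (hz : Nq κ m β z)
    (hy : Nq κ m β y) (hb : Nq κ m β b) : Pq κ m β fun x g ρ =>
      (Kx c q x g (j x g ρ) (w x g ρ)).cI (a x g ρ) (z x g ρ) (y x g ρ) (b x g ρ) :=
  have k := Cs h1 hj hw ha hb
  have e := Ce h1 h2 hj hw ha hb
  Q.and (ins H h1 h2 h3 hj hw k e) (Q.and (Q.eq (anc H h1 h2 h3 hj hw k e) hz)
    (Q.lt hy (cd h1 h2 hj hw ha hb)))

theorem nI (hj : Nq κ m β j) (hw : Nq κ m β w) (ha : Nq κ m β a) (hz : Nq κ m β z)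
    (hy : Nq κ m β y) :
    Nq κ m β fun x g ρ => (Kx c q x g (j x g ρ) (w x g ρ)).nI (a x g ρ) (z x g ρ) (y x g ρ) :=
  have k := cI H h1 h2 h3 (Q.w hj) (Q.w hw) (Q.w ha) (Q.w hz) (Q.w hy) (Q.v 0)
  have l : ∀ x (_ : Orc) (_ : Env), 5 * c ≤ m x := fun x _ _ => by have := H.m x; omega
  Q.ite (Q.ex (P := fun x g ρ i =>
      (Kx c q x g (j x g ρ) (w x g ρ)).cI (a x g ρ) (z x g ρ) (y x g ρ) i) (Q.c (5 * c)) l k)
    (cd h1 h2 hj hw ha (Q.amin (f := fun x g ρ i =>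
      if (Kx c q x g (j x g ρ) (w x g ρ)).cI (a x g ρ) (z x g ρ) (y x g ρ) i then
        (Kx c q x g (j x g ρ) (w x g ρ)).cd (a x g ρ) i else q x) (Q.c (5 * c)) l
      (Q.ite k (cd h1 h2 (Q.w hj) (Q.w hw) (Q.w ha) (Q.v 0)) (Q.lift H.cq))))
    (H.o.next hz)

end Ck4

open Ck4 in
theorem ck4S : Ck4S := fun _ _ _ _ _ H h1 h2 h3 j w hj hw =>
  have n := N H h1 h2 h3 hj hw
  ⟨n.al, n.nx, n.suc, n.En, n.FT, n.F, fun hz =>
    Q.ite (Q.eq (QM.zl hz) (Q.add hj (Q.c 2)))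
      (nI H h1 h2 h3 hj hw (own H (Bv.zs hz) (QM.ze hz))
        (anc H h1 h2 h3 hj hw (Bv.zs hz) (QM.ze hz)) hz)
      (nI H h1 h2 h3 hj hw (own H (Bv.zs hz).not (par (j := j) (w := w) H (Bv.zs hz).not (QM.ze hz)))
        hz (Q.c 0)),
    fun hs ha => Q.ite (ins H h1 h2 h3 hj hw hs ha) (Q.add hj (Q.c 2)) (H.o.cur hs ha)⟩

end Pool.Agent.MP_1a6d78_lc.PD
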