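import Pool.Agent.MP_1a6d78_lc.PD.Spec2
import Pool.Agent.MP_1a6d78_lc.PR.Next
import Pool.Agent.MP_1a6d78_lc.PD.MBasic

-- ======== part 0: formerly Pool.Agent.MP_1a6d78_lc.PD.Alive
section MrgPart0

/-! PROJECT PD, row ALIVE: the computed set of alive darts is the new state. -/

namespace Pool.Agent.MP_1a6d78_lc.PD

open Classical ED PR

namespace Alive

variable {K : Rd}

/-- A walk up with at least one step. -/
def Str (K : Rd) (v w : ℕ) : Prop :=
  ∃ g, K.L g ∧ K.M.dir g = K.d0 ∧ K.M.Up K.L K.d0 v (K.M.nd g) ∧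
    K.M.Up K.L K.d0 (K.M.nd (K.M.β g)) w

theorem Str.up {v w : ℕ} (h : Str K v w) : K.M.Up K.L K.d0 v w := by
  obtain ⟨g, h1, h2, h3, h4⟩ := h
  have := Dm.Up.step (M := K.M) h1
  rw [h2] at this
  exact h3.trans (this.trans h4)

theorem Str.trans {u v w : ℕ} (h : Str K u v) (k : Str K v w) : Str K u w := by
  obtain ⟨g, h1, h2, h3, h4⟩ := h
  exact ⟨g, h1, h2, h3, h4.trans k.up⟩

theorem Str.irr (H : K.Hy) (v : ℕ) : ¬Str K v v := by
  rintro ⟨g, h1, h2, h3, h4⟩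
  have := H.st.acyc h1
  rw [h2] at this
  exact this (h4.trans h3)

theorem meets_iff (H : K.Hy) {p b : ℕ} (hp : K.L p) :
    K.meets p b ↔ K.L b ∧ ∃ u z, K.M.Pa K.L true p u ∧ K.M.Pa K.L false b z ∧
      K.M.en (!K.d0) u = K.M.en K.d0 z := by
  have ok : ∀ s q, K.M.ok K.L ⟨false, s, q, K.M.En K.L s q⟩ ↔ K.L q := fun s q =>
    ⟨fun h => h.1, fun h => (H.k.fsp.okp _ _ _).2 ⟨h, (H.k.path.En s h).1⟩⟩
  have hF := H.k.fsp.F (A := ⟨false, true, p, K.M.En K.L true p⟩) true (vm (!K.d0) K.d0)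
    ⟨false, false, b, K.M.En K.L false b⟩ rfl ((ok _ _).2 hp)
  unfold Rd.meets
  rw [H.geo.full, H.geo.full, H.geo.F]
  constructor
  · intro h
    rcases hF with ⟨e, _⟩ | ⟨_, ⟨h1, _, i, _, h2, z, h3, h4⟩, _⟩
    · exact absurd e h.ne
    · exact ⟨h2.1, _, z, ((Dm.mem_path _ _ _ _).1 h1).1, ((Dm.mem_path _ _ _ _).1 h3).1,
        (Dm.R_vm _ _ _ _ _ _).1 h4⟩
  · rintro ⟨hb, u, z, h1, h2, h3⟩
    rcases hF with ⟨_, e⟩ | ⟨h, _⟩
    · exact absurd ⟨(Dm.mem_path _ _ _ _).2 ⟨h1, (H.k.path.Eneq hp h1).2⟩,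
        fun k => absurd k (Dm.vm_ne _ _), 0, Nat.one_pos, (ok _ _).2 hb, z,
        (Dm.mem_path _ _ _ _).2 ⟨h2, (H.k.path.Eneq hb h2).2⟩, (Dm.R_vm _ _ _ _ _ _).2 h3⟩ (e u)
    · exact h

/-- A path that meets a wall lies below the start of the wall. -/
theorem meets_up (H : K.Hy) {p b : ℕ} (hp : K.L p) (dp : K.M.dir p = K.d0)
    (db : K.M.dir b ≠ K.d0) (h : K.meets p b) :
    K.M.Up K.L K.d0 (K.M.nd (K.M.β p)) (K.M.nd b) := by
  obtain ⟨hb, u, z, h1, h2, h3⟩ := (meets_iff H hp).1 h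
  obtain ⟨_, a2, _, a4⟩ := H.k.path.al hp h1
  obtain ⟨_, b2, _, b4⟩ := H.k.path.al hb h2
  rw [Dm.en_opp (by rw [a2, dp]; simp), Dm.en_opp (by rw [b2]; exact db)] at h3
  have k := H.st.up_rev ((Dm.Up.step (M := K.M) hb).trans b4)
  rw [bne_iff.1 db, Bool.not_not] at k
  rw [dp, h3] at a4
  exact a4.trans k

theorem cand_al (_ : K.Hy) (D : K.DeadK) {x i : ℕ} (h : K.cand x true i < K.M.n) :
    K.L (K.cand x true i) ∧ K.M.dir (K.cand x true i) ≠ K.d0 :=
  (D.cand x true i).resolve_left h.ne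

theorem be_dir (H : K.Hy) {b : ℕ} (hb : K.L b) (db : K.M.dir b ≠ K.d0) :
    K.M.dir (K.M.β b) = K.d0 := by
  rw [H.st.dir b hb, bne_iff.1 db, Bool.not_not]

/-- Soundness of the marks. -/
theorem S_sound (H : K.Hy) (D : K.DeadK) (x : ℕ) : ∀ k i, K.S k x i →
    K.cand x true i < K.M.n ∧ ¬K.D x (K.M.nd (K.cand x true i))
  | 0, _, h => h.elim
  | k + 1, i, h => by
    obtain ⟨h0, h⟩ := h
    obtain ⟨hb, db⟩ := cand_al H D h0
    refine ⟨h0, fun hD => ?_⟩
    rcases h with h | ⟨i', _, h1, h2⟩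
    · exact h (D.own true (H.st.be _ hb) (be_dir H hb db) (by rw [H.st.bb hb]; exact hD))
    · obtain ⟨k1, k2⟩ := S_sound H D x k i' h1
      have := meets_up H (H.st.be _ hb) (be_dir H hb db) (cand_al H D k1).2 h2
      rw [H.st.bb hb] at this
      exact k2 (D.anc hD this)

/-- An alive dart with a selected owner meets an alive wall. -/
theorem exit (G : K.G1) {e : ℕ} (he : K.L' e) (de : K.M.dir e = K.d0)
    (hs : K.sel (K.own true e)) : ∃ i < K.c, K.L' (K.cand (K.own true e) true i) ∧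
      K.meets e (K.cand (K.own true e) true i) ∧
      Str K (K.M.nd (K.M.β e)) (K.M.nd (K.cand (K.own true e) true i)) := by
  obtain ⟨H, D, Rn, Dn, W⟩ := G
  obtain ⟨a, h1, h2, h3, h4, h5, h6⟩ := Dn.last he de hs
  have hL := D.sub he
  obtain ⟨a1, a2, _, a4⟩ := H.k.path.al hL h1
  rw [de] at a2 a4
  obtain ⟨_, s2, _, _⟩ := H.k.step.suc a1 (H.st.lt _ h3)
  obtain ⟨_, t2, t3, t4⟩ := (H.k' D).step.suc h2 (D.st.lt _ h5)
  rw [a2] at s2 t2 t4
  have g1 := D.sub h5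
  obtain ⟨r1, r2⟩ := Rn.run (H.st.be _ a1) (by rw [← a2]; exact H.st.dne a1) h3 s2 h4 g1 t2 t3 h6
    fun z hz => t4 z ((H.k.rot.split (H.st.blt a1) (H.st.lt _ g1) t3 h6).2 (Or.inr (Or.inr hz)))
  obtain ⟨i, hi, c1, c2, _⟩ := W.h1 h5 t2 r1 r2
  have c3 := D.sub c1
  have c4 := (cand_al H D (H.st.lt _ c3)).2
  obtain ⟨_, b2, b3, _⟩ := H.k.path.al c3 c2
  refine ⟨i, hi, c1, (meets_iff H hL).2 ⟨c3, a, _, h1, c2, ?_⟩, _, g1, t2, t3 ▸ a4, ?_⟩
  · rw [Dm.en_opp (by rw [a2]; simp), Dm.en_opp (by rw [b2]; exact c4), H.st.bb g1, t3]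
  · have k := H.st.up_rev b3
    rwa [bne_iff.1 c4, Bool.not_not] at k

/-- Completeness of the marks. -/
theorem S_compl (G : K.G1) {x : ℕ} (hs : K.sel x) : ∀ k i, K.L' (K.cand x true i) →
    cnt K.c (fun j => Str K (K.M.nd (K.cand x true i)) (K.M.nd (K.cand x true j))) < k →
      K.S k x i
  | 0, _, _, h => absurd h (Nat.not_lt_zero _)
  | k + 1, i, h, hk => by
    have H := G.hy
    have hb := G.dead.sub h
    have h0 := H.st.lt _ hb
    have db := (cand_al H G.dead h0).2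
    refine ⟨h0, ?_⟩
    by_cases e : K.own true (K.M.β (K.cand x true i)) = x
    · obtain ⟨j, hj, c1, c2, c3⟩ := exit G (G.dead.st.be _ h) (be_dir H hb db) (e.symm ▸ hs)
      rw [e] at c1 c2 c3
      rw [H.st.bb hb] at c3
      refine Or.inr ⟨j, hj, S_compl G hs k j c1 (lt_of_lt_of_le ?_ (Nat.lt_succ_iff.1 hk)), c2⟩
      exact cnt_lt (fun _ _ t => c3.trans t) hj c3 (Str.irr H _)
    · exact Or.inl e

theorem nrm_spec (H : K.Hy) {p : ℕ} (hp : K.L p) : K.L (K.nrm p) ∧ K.M.dir (K.nrm p) = K.d0 ∧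
    K.M.en (!K.d0) p = K.M.nd (K.M.β (K.nrm p)) := by
  unfold Rd.nrm
  split_ifs with h
  · exact ⟨hp, h, Dm.en_opp (by rw [h]; simp)⟩
  · exact ⟨H.st.be _ hp, be_dir H hp h, by rw [H.st.bb hp, Dm.en_same (bne_iff.1 h)]⟩

end Alive

open Alive in
theorem aliveS : AliveS := fun K G => by
  have H := G.hy
  funext p
  refine propext ⟨fun ⟨hp, h⟩ => ⟨hp, fun ⟨x, hx⟩ => ?_⟩, fun ⟨hp, h⟩ => ⟨hp, ?_⟩⟩
  · obtain ⟨e1, e2, e3⟩ := nrm_spec H hp
    rw [e3] at hx
    rw [G.dead.own true e1 e2 hx] at h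
    rcases h with h | ⟨i, _, h1, h2⟩
    · exact h hx.1
    · obtain ⟨k1, k2⟩ := S_sound H G.dead x _ i h1
      exact k2 (G.dead.anc hx (meets_up H e1 e2 (cand_al H G.dead k1).2 h2))
  · obtain ⟨e1, e2, e3⟩ := nrm_spec H hp
    rw [e3] at h
    by_cases hs : K.sel (K.own true (K.nrm p))
    · obtain ⟨i, hi, c1, c2, _⟩ := exit G ((G.dead.in0 e1 e2).2 h) e2 hs
      refine Or.inr ⟨i, hi, S_compl G hs _ i c1 ?_, c2⟩
      exact lt_of_lt_of_le (cnt_lt (Q := fun _ => True) (fun _ _ _ => trivial) hi trivial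
        (Str.irr H _)) (cnt_le _ _)
    · exact Or.inl hs

end Pool.Agent.MP_1a6d78_lc.PD

end MrgPart0

-- ======== part 1: formerly Pool.Agent.MP_1a6d78_lc.PD.Anc
section MrgPart1

/-! PROJECT PD, row ANC: the anchor of a new entry exists. -/

namespace Pool.Agent.MP_1a6d78_lc.PD

open Classical ED PR

namespace Anc

variable {K : Rd} (H : K.Hy) (D : K.DeadK)
include H D

/-- The dart `g` with a dead partner and an unselected owner gives the slot. -/
theorem slot (W : K.DownK) {g x : ℕ} {s : Bool} (lg : K.L g) (dg : K.M.dir g = K.d0)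
    (nb : K.M.Nb K.L s g) (hd : K.D x (K.M.nd (K.M.β (K.par (!s) g))))
    (ns : ¬K.sel (K.own s g)) : ∃ i < K.c, K.ap x (K.M.own K.L' s g) i := by
  have v : K.M.val K.L g s := by
    by_contra v
    have a : K.M.dir (K.M.nx K.L (!s) g) = K.d0 := (nb.resolve_right v).trans dg
    have f := (H.k.path.FT s lg).1
    have al := H.k.path.al lg f
    have o := D.own s al.1 (al.2.1.trans dg) (D.flow lg dg a v hd)
    rw [H.own, H.k.path.owneq lg f, ← H.own] at o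
    exact ns (by rw [o]; exact hd.1)
  have v' := H.k.path.vsymm v
  have p := H.k.step.par (!s) lg
  rw [H.par] at hd
  have o : K.own (!s) (K.M.par K.L (!s) g) = x := D.own _ p.1 (p.2.1.trans dg) hd
  obtain ⟨i, hi, c1, c2, c3⟩ := H.cmp _ _ v' (p.2.1.trans dg) (by rw [o]; exact hd.1)
  rw [o] at c1 c2 c3
  refine ⟨i, hi, c1, ?_, ?_, ?_⟩
  · rw [c2, c3, H.geo.val]; exact v'
  · rw [c2, c3, o]
  · unfold Rd.po
    rw [c2, c3, H.par, H.k.step.parpar (!s) lg, Bool.not_not, H.own, Dm.own_def, Dm.own_def,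
      (W.free lg dg ns).2.2.1]

theorem main (R : K.RunK) (W : K.DownK) (P : K.DpK) (s : Bool) :
    ∀ e, K.L' e → K.M.dir e = K.d0 → K.sel (K.own s e) →
      ∃ i < K.c, K.ap (K.own s e) (K.M.own K.L' s e) i := by
  refine (H.k' D).step.ind K.d0 (fun e => K.sel (K.own s e) →
    ∃ i < K.c, K.ap (K.own s e) (K.M.own K.L' s e) i) fun e he de ih se => ?_
  have le := D.sub he
  obtain ⟨a, pa, ha, l0, dx, hg, bt⟩ := W.last he de se
  have key : K.L' (K.M.suc K.L' s e) → K.sel (K.own s (K.M.suc K.L' s e)) →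
      ∃ i < K.c, K.ap (K.own s e) (K.M.own K.L' s e) i := fun hg sg => by
    have st : K.M.Pa K.L' s e (K.M.suc K.L' s e) := Dm.Pa.step he hg
    obtain ⟨-, d1, n1, -⟩ := (H.k' D).step.suc he (D.st.lt _ hg)
    have := ih _ hg (d1.trans de) (by rw [n1]; exact Dm.Up.refl _ _) sg
    rwa [(P.inv he de se st).resolve_right (not_not.2 sg), (H.k' D).path.owneq he st] at this
  by_cases ea : e = a
  · subst ea
    by_cases sg : K.sel (K.own s (K.M.suc K.L' s e))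
    · exact key hg sg
    · have st : K.M.Pa K.L' s e (K.M.suc K.L' s e) := Dm.Pa.step he hg
      obtain ⟨-, d1, n1, f1⟩ := (H.k' D).step.suc he (D.st.lt _ hg)
      obtain ⟨-, d0, -, -⟩ := H.k.step.suc le (H.st.lt _ l0)
      obtain ⟨nb, hd⟩ := R.run (s := s) (H.st.be _ le) (by rw [← de]; exact H.st.dne le) l0
        (d0.trans de) dx (D.sub hg) (d1.trans de) n1 bt fun z hz lz => by
          rw [← de]
          exact f1 z ((H.k.rot.split (H.st.blt le) (D.st.lt _ hg) n1 bt).2 (Or.inr (Or.inr hz))) lz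
      rw [← (H.k' D).path.owneq he st]
      exact slot H D W (D.sub hg) (d1.trans de) nb hd sg
  · obtain ⟨lt1, p1⟩ := H.k.path.hd pa ea
    obtain ⟨l1, d1, -, -⟩ := H.k.step.suc le lt1
    have al := H.k.path.al l1 p1
    have h1 : K.L' (K.M.suc K.L s e) := (D.in0 l1 (d1.trans de)).2 fun ⟨y, dy⟩ =>
      (D.in0 al.1 (al.2.1.trans (d1.trans de))).1 ha
        ⟨y, D.anc dy (by have := al.2.2.2; rwa [d1, de] at this)⟩
    have sm := W.same he h1
    refine key (by rw [sm]; exact h1) ?_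
    rw [sm, H.own, H.k.path.owneq le (Dm.Pa.step le l1), ← H.own]
    exact se

end Anc

theorem ancS : AncS := fun _ G e s he de se =>
  Anc.main G.g1.hy G.g1.dead G.g1.run G.g1.down G.dp s e he de se

end Pool.Agent.MP_1a6d78_lc.PD

end MrgPart1

-- ======== part 2: formerly Pool.Agent.MP_1a6d78_lc.PD.Base
section MrgPart2

/-! PROJECT PD, row BASE: the lists of level 0. -/

namespace Pool.Agent.MP_1a6d78_lc.PD

open Classical ED PR

namespace Base

/-- The sorted list of the numbers with `A` is linked by the map to the next such number. -/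
theorem lk_range {nx : ℕ → ℕ} {A : ℕ → Prop} {N : ℕ}
    (h : ∀ z, A z → nx z = lst N fun w => z + 1 ≤ w ∧ A w) :
    ∀ k b a, b + k = N → (nx a = lst N fun w => b ≤ w ∧ A w) →
      Lk nx a ((List.range' b k).filter fun w => decide (A w)) := by
  intro k
  induction k with
  | zero =>
    intro b a e ha
    show nx a = 0
    rw [ha]
    refine lst_none ?_
    rintro ⟨m, h1, h2, _⟩
    omega
  | succ k ih =>
    intro b a e ha
    rw [List.range'_succ]
    by_cases hb : A b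
    · rw [List.filter_cons_of_pos (by simpa using hb)]
      refine ⟨?_, ih (b + 1) b (by omega) (h b hb)⟩
      have h1 : lst N (fun w => b ≤ w ∧ A w) ≤ b := lst_le (by omega) ⟨le_rfl, hb⟩
      have h2 := (lst_spec (n := N) (P := fun w => b ≤ w ∧ A w) ⟨b, by omega, le_rfl, hb⟩).2.1
      omega
    · rw [List.filter_cons_of_neg (by simpa using hb)]
      refine ih (b + 1) a (by omega) (ha.trans (lst_congr fun m _ => ⟨fun k => ⟨?_, k.2⟩,
        fun k => ⟨by omega, k.2⟩⟩))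
      rcases k.1.eq_or_lt with e' | e'
      · exact absurd (e' ▸ k.2) hb
      · exact e'

variable (M : Dm) (L : ℕ → Prop)

/-- `w` is the code of a valid entry of `x`. -/
def A (x w : ℕ) : Prop :=
  M.zl w = 1 ∧ M.val L (M.ze w) (zs w) ∧ M.own L (zs w) (M.ze w) = x

noncomputable def ls (x : ℕ) : List ℕ :=
  (List.range' 0 (4 * M.n + 1)).filter fun w => decide (A M L x w)

theorem mem_ls {x w : ℕ} : w ∈ ls M L x ↔ w < 4 * M.n + 1 ∧ A M L x w := by
  simp [ls, List.mem_filter]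

variable {M}

theorem zl_one {w : ℕ} (h : M.zl w = 1) : 2 * M.n < w := by
  have h1 := Nat.div_mul_le_self ((w - 1) / 2) M.n
  have h0 : w ≠ 0 := fun e => by rw [e, Dm.zl_zero] at h; omega
  unfold Dm.zl at h
  rw [h] at h1
  omega

theorem next_def (z : ℕ) : (M.base L).next z = lst (4 * M.n + 1) fun w => z ≠ 0 ∧ z < w ∧
    M.zl w = 1 ∧ M.val L (M.ze w) (zs w) ∧
      M.own L (zs w) (M.ze w) = if M.zl z = 0 then M.ze z else M.own L (zs z) (M.ze z) := rfl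

theorem lk {x : ℕ} (hx : x < M.n) : Lk (M.base L).next (M.hz x) (ls M L x) := by
  refine lk_range (N := 4 * M.n + 1) (fun z hz => ?_) _ 0 _ (Nat.zero_add _) ?_
  · have h0 : z ≠ 0 := by have := zl_one hz.1; omega
    rw [next_def, if_neg (by rw [hz.1]; omega), hz.2.2]
    exact lst_congr fun m _ => ⟨fun k => k.2, fun k => ⟨h0, k⟩⟩
  · have e : M.hz x = 2 * x + 1 := by simp [Dm.hz, Dm.mk']; omega
    rw [next_def, if_pos (by rw [Dm.hz, Dm.zl_mk _ _ hx]), Dm.hz, Dm.ze_mk _ _ hx]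
    refine lst_congr fun m _ => ⟨fun k => ⟨Nat.zero_le _, k.2.2⟩, fun k => ⟨Dm.mk_ne _ _ _, ?_, k.2⟩⟩
    have := zl_one k.2.1
    rw [Dm.hz] at e
    omega

theorem len_ls (x : ℕ) : (ls M L x).length = (((Finset.range (4 * M.n + 1)).filter fun w =>
    M.zl w = 1 ∧ M.val L (M.ze w) (zs w)).filter fun w => M.own L (zs w) (M.ze w) = x).card := by
  have nd : (ls M L x).Nodup := (List.nodup_range' (s := 0) (n := 4 * M.n + 1)).filter _
  rw [← List.toFinset_card_of_nodup nd]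
  congr 1
  ext w
  simp only [List.mem_toFinset, mem_ls, Finset.mem_filter, Finset.mem_range, A, and_assoc]

theorem tot_le : tot M L (ls M L) ≤ 2 * M.n := by
  calc tot M L (ls M L) ≤ ∑ x ∈ Finset.range M.n, (((Finset.range (4 * M.n + 1)).filter fun w =>
        M.zl w = 1 ∧ M.val L (M.ze w) (zs w)).filter
          fun w => M.own L (zs w) (M.ze w) = x).card := by
        refine Finset.sum_le_sum fun x _ => ?_
        split_ifs
        · exact (len_ls L x).le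
        · exact Nat.zero_le _
    _ ≤ (Finset.Ioc (2 * M.n) (4 * M.n)).card := by
        rw [Finset.sum_card_fiberwise_eq_card_filter]
        refine Finset.card_le_card fun w hw => ?_
        simp only [Finset.mem_filter, Finset.mem_range] at hw
        have := zl_one hw.1.2.1
        exact Finset.mem_Ioc.2 ⟨this, by omega⟩
    _ = 2 * M.n := by rw [Nat.card_Ioc]; omega

end Base

theorem baseS : BaseS := by
  intro M L H
  refine ⟨Base.ls M L, ⟨H.st, ⟨rfl, rfl, rfl, rfl, rfl⟩, ?_, fun x hx => ?_, fun x _ => ?_,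
    fun x y _ _ z h1 h2 => ?_, fun x _ z h => ?_, fun e s h => ?_⟩, Base.tot_le L⟩
  · rw [Base.next_def]
    exact lst_none fun ⟨_, _, k, _⟩ => k rfl
  · exact Base.lk L (Dm.crit_lt H.st.ok hx).1
  · exact (List.nodup_range' (s := 0) (n := 4 * M.n + 1)).filter _
  · exact ((Base.mem_ls M L).1 h1).2.2.2.symm.trans ((Base.mem_ls M L).1 h2).2.2.2
  · rw [((Base.mem_ls M L).1 h).2.1]; omega
  · have he : e < M.n := H.st.lt e h.1
    have := Dm.mk_le (M := M) 1 s he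
    refine (Base.mem_ls M L).2 ⟨by show M.mk' 1 e s < _; omega, Dm.zl_mk 1 s he, ?_, ?_⟩
    · show M.val L (M.ze (M.mk' 1 e s)) (zs (M.mk' 1 e s))
      rw [Dm.ze_mk _ _ he, Dm.zs_mk]; exact h
    · show M.own L (zs (M.mk' 1 e s)) (M.ze (M.mk' 1 e s)) = M.own L s e
      rw [Dm.ze_mk _ _ he, Dm.zs_mk]

end Pool.Agent.MP_1a6d78_lc.PD

end MrgPart2

-- ======== part 3: formerly Pool.Agent.MP_1a6d78_lc.PD.Cand
section MrgPart3

/-! PROJECT PD, row CAND: every new valid entry of a killed vertex is one of the candidates. -/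

namespace Pool.Agent.MP_1a6d78_lc.PD

open Classical ED PR

namespace Cand

variable {K : Rd}

theorem dm {c i : ℕ} (a : ℕ) (h : i < c) : (a * c + i) / c = a ∧ (a * c + i) % c = i := by
  rw [Nat.mul_comm, Nat.mul_add_div (by omega), Nat.div_eq_of_lt h, Nat.mul_add_mod,
    Nat.mod_eq_of_lt h]
  exact ⟨rfl, rfl⟩

theorem idx1 {x i e : ℕ} {s : Bool} (h : i < K.c) (k : K.suc' s (K.M.β (K.gd x s i)) = e) :
    ∃ i < 5 * K.c, K.Ce x i = e ∧ K.Cs x i = s := by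
  cases s
  · refine ⟨2 * K.c + i, by omega, ?_⟩
    simpa [Rd.Ce, Rd.Cs, dm 2 h] using k
  · refine ⟨1 * K.c + i, by omega, ?_⟩
    simp only [Rd.Ce, Rd.Cs, dm 1 h]
    simpa using k

theorem idx2 {x i e : ℕ} {s : Bool} (h : i < K.c) (k : K.M.β (K.FTd (!s) (K.gd x s i)) = e) :
    ∃ i < 5 * K.c, K.Ce x i = e ∧ K.Cs x i = s := by
  cases s
  · refine ⟨4 * K.c + i, by omega, ?_⟩
    simpa [Rd.Ce, Rd.Cs, dm 4 h] using k
  · refine ⟨3 * K.c + i, by omega, ?_⟩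
    simpa [Rd.Ce, Rd.Cs, dm 3 h] using k

/-- Below an alive top nothing changes. -/
theorem ft_same (G : K.G1) {p : ℕ} {s : Bool} (hp : K.L p) (hd : K.M.dir p = K.d0)
    (ht : ¬∃ y, K.D y (K.M.nd (K.M.β (K.M.FT K.L s p)))) :
    K.M.FT K.L' s p = K.M.FT K.L s p ∧
      K.M.nx K.L' s (K.M.β (K.M.FT K.L s p)) = K.M.nx K.L s (K.M.β (K.M.FT K.L s p)) := by
  have k := G.hy.k
  have k' := G.hy.k' G.dead
  obtain ⟨f1, f2, f3⟩ := k.path.FT s hp
  generalize K.M.FT K.L s p = t at *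
  have al : ∀ u, K.M.Pa K.L s p u → K.M.Pa K.L s u t → K.L' u ∧ K.M.dir u = K.d0 := fun u a b => by
    obtain ⟨a1, a2, -⟩ := k.path.al hp a
    have a3 := a2.trans hd
    refine ⟨(G.dead.in0 a1 a3).2 fun ⟨y, hy⟩ => ht ⟨y, G.dead.anc hy ?_⟩, a3⟩
    exact a3 ▸ (k.path.al a1 b).2.2.2
  have st : ∀ u, K.M.Pa K.L s p u → K.M.Pa K.L s u t → u ≠ t →
      K.M.Pa K.L s p (K.M.suc K.L s u) ∧ K.M.Pa K.L s (K.M.suc K.L s u) t ∧
        K.L' (K.M.suc K.L s u) := fun u a b c => by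
    obtain ⟨b1, b2⟩ := k.path.hd b c
    have a1 := (k.path.al hp a).1
    have a2 := a.trans (Dm.Pa.step a1 (k.step.suc a1 b1).1)
    exact ⟨a2, b2, (al _ a2 b2).1⟩
  have pa : ∀ u, K.M.Pa K.L s p u → K.M.Pa K.L s u t → K.M.Pa K.L' s p u := fun u a => by
    induction a with
    | refl => exact fun _ => Dm.Pa.refl _ _
    | @tail b c a e ih =>
      intro d
      have d' : K.M.Pa K.L s b t := Relation.ReflTransGen.head e d
      have c1 := (al c (Relation.ReflTransGen.tail a e) d).1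
      obtain ⟨-, -, rfl⟩ := e
      exact Relation.ReflTransGen.tail (ih d') ⟨(al b a d').1, c1, G.down.same (al b a d').1 c1⟩
  have ap : ∀ u, K.M.Pa K.L' s p u → K.M.Pa K.L' s u t →
      K.M.Pa K.L s p u ∧ K.M.Pa K.L s u t := fun u a => by
    induction a with
    | refl => exact fun _ => ⟨Dm.Pa.refl _ _, f1⟩
    | @tail b c a e ih =>
      intro d
      obtain ⟨i1, i2⟩ := ih (Relation.ReflTransGen.head e d)
      by_cases q : b = t
      · subst q
        obtain rfl := k'.path.anti d (Relation.ReflTransGen.single e)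
        exact ⟨i1, i2⟩
      · obtain ⟨s1, s2, s3⟩ := st b i1 i2 q
        rw [← e.2.2, G.down.same e.1 s3]
        exact ⟨s1, s2⟩
  obtain ⟨t1, t2⟩ := al t f1 (Dm.Pa.refl _ _)
  have b1 := k.st.be _ (G.dead.sub t1)
  obtain ⟨n1, n2, -⟩ := k.step.nx s b1
  have n3 : K.M.nx K.L' s (K.M.β t) = K.M.nx K.L s (K.M.β t) :=
    G.down.nsame (k'.st.be _ t1) ((G.dead.out n1 (t2 ▸ f2)).2 (n2 ▸ ht))
  refine ⟨k'.path.FTu (al p (Dm.Pa.refl _ _) f1).1 (pa t f1 (Dm.Pa.refl _ _))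
    (fun h => f2 (by rwa [Dm.Ti, n3] at h)) fun u a b c => ?_, n3⟩
  obtain ⟨i1, i2⟩ := ap u a b
  exact (G.down.ti (al u i1 i2).1 (al u i1 i2).2 (st u i1 i2 c).2.2).2 (f3 u i1 i2 c)

/-- A gap that becomes valid was between two adjacent darts. -/
theorem adj (G : K.G1) {e : ℕ} {s : Bool} (hv : K.M.val K.L' e s) (hd : K.M.dir e = K.d0)
    (hn : ¬K.M.val K.L e s) : K.M.dir (K.M.nx K.L (!s) e) = K.M.dir e := by
  have k := G.hy.k
  have k' := G.hy.k' G.dead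
  have e1 : K.L' e := hv.1
  have e0 := G.dead.sub e1
  by_contra h
  obtain ⟨n1, n2, -⟩ := k.step.nx (!s) e0
  have n3 := G.down.nsame e1 ((G.dead.out n1 (hd ▸ h)).2 (n2 ▸ G.dead.vx e1))
  obtain ⟨o, g, a, b, c⟩ := (k'.step.sad e1 (n3 ▸ h)).1 hv
  exact hn ((k.step.sad e0 h).2 ⟨o, g, G.dead.sub a, G.dead.sub b, c⟩)

/-- The new neighbour has the same direction: the dart is on a wall. -/
theorem good (G : K.G1) {e : ℕ} {s : Bool} (hv : K.M.val K.L' e s) (hd : K.M.dir e = K.d0)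
    (hs : K.sel (K.own s e)) (hn : ¬K.M.val K.L e s)
    (ho : K.M.dir (K.M.nx K.L' (!s) e) = K.M.dir e) : K.Good (K.own s e) s e := by
  have k := G.hy.k
  have k' := G.hy.k' G.dead
  have e1 : K.L' e := hv.1
  have e0 := G.dead.sub e1
  have ha := adj G hv hd hn
  have hp : K.M.par K.L (!s) e = K.M.nx K.L (!s) e := by rw [Dm.par_def, if_pos ha]
  obtain ⟨n1, n2, -⟩ := k.step.nx (!s) e0
  by_cases h1 : K.L' (K.M.nx K.L (!s) e)
  · obtain ⟨f1, f2, f3⟩ := k.path.FT s e0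
    by_cases h2 : ∃ y, K.D y (K.M.nd (K.M.β (K.M.FT K.L s e)))
    · obtain ⟨y, hy⟩ := h2
      obtain ⟨a1, a2, -⟩ := k.path.al e0 f1
      have : K.own s e = y := by
        rw [← G.dead.own s a1 (a2.trans hd) hy, G.hy.own, k.path.owneq e0 f1]
      exact this ▸ G.wall.h2 e1 hd f1 hy f3
    · exfalso
      have n3 := G.down.nsame e1 h1
      rw [Dm.val_def, if_pos ha, hp, not_and, not_not] at hn
      have q := hn e0
      obtain ⟨u1, u2⟩ := ft_same G e0 hd h2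
      have b1 := k.st.be _ (k.path.al e0 f1).1
      obtain ⟨v1, -⟩ := ft_same (s := !s) G n1 (ha.trans hd) (by
        rwa [← q, (k.step.nx s b1).2.1])
      rw [Dm.val_def, if_pos ho, Dm.par_def, if_pos ho, n3, u1, u2, v1] at hv
      exact hv.2 q
  · obtain ⟨y, hy⟩ := not_not.1 fun h => h1 ((G.dead.in0 n1 (ha.trans hd)).2 h)
    rw [← hp, ← G.hy.par] at hy
    have : K.own s e = y := (G.dead.gap e0 hd (Or.inl ha) hy).resolve_right (not_not.2 hs)
    exact this ▸ G.wall.h1 e1 hd (Or.inl ha) hy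

/-- The new neighbour has the other direction: it is a candidate. -/
theorem out (G : K.G1) {e : ℕ} {s : Bool} (hv : K.M.val K.L' e s) (hd : K.M.dir e = K.d0)
    (hs : K.sel (K.own s e)) (hn : ¬K.M.val K.L e s)
    (ho : K.M.dir (K.M.nx K.L' (!s) e) ≠ K.M.dir e) :
    ∃ i < K.c, K.cand (K.own s e) s i = K.M.nx K.L' (!s) e := by
  have k := G.hy.k
  have k' := G.hy.k' G.dead
  have e1 : K.L' e := hv.1
  have e0 := G.dead.sub e1
  have ha := adj G hv hd hn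
  obtain ⟨o', g, a1, a2, a3, a4, a5, a6, a7⟩ := (k'.step.sad e1 ho).1 hv
  obtain ⟨o1, o2, o3⟩ := k'.step.nx (!s) e1
  generalize K.M.nx K.L' (!s) e = o at *
  have o0 := G.dead.sub o1
  have ol := k.st.lt _ o0
  have el := k.st.lt _ e0
  obtain ⟨m1, m2, m3⟩ := k.step.nx s o0
  have m4 := k.step.nxnx s o0
  generalize K.M.nx K.L s o = e2 at *
  have ml := k.st.lt _ m1
  have no : ∀ z, K.M.Bt s o z e → ¬K.L' z := fun z h => o3 z ((k.rot.symm ol el o2.symm).1 h)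
  have b1 : K.M.Bt s o e2 e := by
    rcases k.rot.tri (s := s) (b := e) ol ml m2 with h | h | h
    · exact h
    · exact absurd ha (by rw [← h, m4, h]; exact ho)
    · exact absurd e0 (m3 e h)
  have d1 := no _ b1
  have d2 : K.M.dir e2 = K.d0 := by
    by_contra h
    exact d1 ((G.dead.out m1 h).2 (by rw [m2, o2]; exact G.dead.vx e1))
  obtain ⟨y, hy⟩ := not_not.1 fun h => d1 ((G.dead.in0 m1 d2).2 h)
  have in2 : ∀ z, K.M.Bt s e2 z e → ¬K.L' z := fun z h =>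
    no z ((k.rot.split ol el o2.symm b1).2 (Or.inr (Or.inr h)))
  obtain ⟨r1, r2⟩ := G.run.run o0 (hd ▸ ho) m1 d2 hy e0 hd o2.symm b1 fun z h a => (in2 z h a).elim
  have x1 : K.own s e = y := (G.dead.gap e0 hd r1 r2).resolve_right (not_not.2 hs)
  have x2 : K.own s e2 = y := G.dead.own s m1 d2 hy
  have gl := k.st.lt _ (G.dead.sub a2)
  have b2 : K.M.Bt s e2 e g := by
    rcases k.rot.tri (s := s) (b := g) ml el (m2.trans o2).symm with h | h | h
    · exact h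
    · exact absurd h.symm a6
    · exact absurd a2 (in2 g h)
  have v2 : K.M.val K.L e2 s := (k.step.sad m1 (by rw [m4, d2, ← hd]; exact ho)).2
    ⟨o', g, G.dead.sub a1, G.dead.sub a2, by rw [d2, ← hd]; exact a3, by rw [d2, ← hd]; exact a4,
      a5.trans (m2.trans o2).symm, fun h => d1 (h ▸ a2),
      (k.rot.split ml gl (a5.trans (m2.trans o2).symm) b2).2 (Or.inr (Or.inr a7))⟩
  obtain ⟨i, i1, i2, i3, i4⟩ := G.hy.cmp e2 s v2 d2 (by rw [x2, ← x1]; exact hs)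
  rw [x2, ← x1] at i2 i3 i4
  refine ⟨i, i1, ?_⟩
  rw [Rd.cand, if_pos i2, if_pos i4, i3, G.hy.geo.nx, m4, if_neg (hd ▸ ho)]

end Cand

open Cand in
theorem candS : CandS := by
  intro K G e s hv hd hs
  have k := G.g1.hy.k
  have k' := G.g1.hy.k' G.g1.dead
  have al : K.al' = K.L' := G.al
  have e1 : K.L' e := hv.1
  by_cases hn : K.M.val K.L e s
  · obtain ⟨i, i1, -, i3, i4⟩ := G.g1.hy.cmp e s hn hd hs
    exact ⟨i, by omega, by rw [Rd.Ce, if_pos (Nat.div_eq_of_lt i1), i3],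
      by rw [Rd.Cs, if_pos (Nat.div_eq_of_lt i1), i4]⟩
  by_cases ho : K.M.dir (K.M.nx K.L' (!s) e) = K.M.dir e
  · obtain ⟨i, i1, i2, i3, i4⟩ := good G.g1 hv hd hs hn ho
    refine idx2 i1 ?_
    have c1 : K.M.dir (K.cand (K.own s e) s i) ≠ K.d0 :=
      ((G.g1.dead.cand _ s i).resolve_left (k'.st.lt _ i2).ne).2
    rw [Rd.gd, al, if_pos i2, G.ftd _ _ i2 c1, k'.path.FTu i2 ((G.g1.down.pa _ _ i2 c1).2 i3)
      (fun h => ?_) fun u a b c => ?_, k'.st.bb e1]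
    · rw [Dm.Ti, k'.st.bb e1, ho] at h
      exact k'.st.dne e1 h.symm
    · obtain ⟨a1, a2, -⟩ := k'.path.al i2 a
      exact i4 u ((G.g1.down.pa _ _ i2 c1).1 a) ((G.g1.down.pa _ _ a1 (a2 ▸ c1)).1 b) c
  · obtain ⟨i, i1, i2⟩ := out G.g1 hv hd hs hn ho
    refine idx1 i1 ?_
    obtain ⟨o1, o2, o3⟩ := k'.step.nx (!s) e1
    rw [Rd.gd, al, i2, if_pos o1, G.suc.1]
    refine k'.step.suceq (k'.st.be _ o1) e1 ?_ ?_ fun z h a => ?_
    · rw [k'.st.dir _ o1]
      exact bne_iff.1 (Ne.symm ho)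
    · rw [k'.st.bb o1, o2]
    · rw [k'.st.bb o1] at h
      exact (o3 z ((k.rot.symm (k'.st.lt _ o1) (k'.st.lt _ e1) o2.symm).1 h) a).elim

end Pool.Agent.MP_1a6d78_lc.PD

end MrgPart3

-- ======== part 4: formerly Pool.Agent.MP_1a6d78_lc.PD.Cell
section MrgPart4

/-! PROJECT PD: row CELL. -/

namespace Pool.Agent.MP_1a6d78_lc.PD

open Classical ED PR Finset

namespace Cell

theorem fibre (S T : Finset ℕ) (f : ℕ → ℕ) (hT : T ⊆ S)
    (h : ∀ e ∈ T, ∃ e' ∈ S, e' ≠ e ∧ f e' = f e) :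
    T.card + 2 * (S.image f).card ≤ 2 * S.card := by
  have h1 : S.card = ∑ y ∈ S.image f, (S.filter fun e => f e = y).card :=
    card_eq_sum_card_fiberwise fun e he => mem_coe.2 (mem_image_of_mem f (mem_coe.1 he))
  have h2 : T.card = ∑ y ∈ S.image f, (T.filter fun e => f e = y).card :=
    card_eq_sum_card_fiberwise fun e he => mem_coe.2 (mem_image_of_mem f (hT (mem_coe.1 he)))
  have h3 : ∀ y ∈ S.image f,
      (T.filter fun e => f e = y).card + 2 ≤ 2 * (S.filter fun e => f e = y).card := by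
    intro y hy
    rcases (T.filter fun e => f e = y).eq_empty_or_nonempty with k | ⟨e, he⟩
    · obtain ⟨e, he, k'⟩ := mem_image.1 hy
      have : 0 < (S.filter fun e => f e = y).card := card_pos.2 ⟨e, mem_filter.2 ⟨he, k'⟩⟩
      rw [k, card_empty]
      omega
    · obtain ⟨he1, he2⟩ := mem_filter.1 he
      obtain ⟨e', k1, k2, k3⟩ := h e he1
      have k4 : 1 < (S.filter fun e => f e = y).card :=
        one_lt_card.2 ⟨e', mem_filter.2 ⟨k1, k3.trans he2⟩, e, mem_filter.2 ⟨hT he1, he2⟩, k2⟩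
      have k5 : (T.filter fun e => f e = y).card ≤ (S.filter fun e => f e = y).card :=
        card_le_card (filter_subset_filter _ hT)
      omega
  have h4 := sum_le_sum h3
  rw [sum_add_distrib, ← mul_sum, ← h1, ← h2, sum_const, smul_eq_mul] at h4
  omega

theorem cnt_map {n : ℕ} {P : ℕ → Prop} (f : ℕ → ℕ) (T : Finset ℕ) (h : ∀ a < n, P a → f a ∈ T)
    (inj : ∀ a b, f a = f b → a = b) : cnt n P ≤ T.card := by
  unfold cnt
  refine card_le_card_of_injOn f (fun a ha => ?_) fun a _ b _ k => inj a b k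
  simp only [coe_filter, mem_range, Set.mem_ofPred_eq] at ha
  exact mem_coe.2 (h a ha.1 ha.2)

variable {M : Dm} {L : ℕ → Prop}

theorem pm (H : M.St L) : Pm M.n (M.ph L) := by
  have h : Iv M.n fun d => if L d then M.β d else d := fun d hd => by
    by_cases k : L d
    · simp only [if_pos k, if_pos (H.be d k)]
      exact ⟨H.blt k, H.bb k⟩
    · simp only [if_neg k]
      exact ⟨hd, trivial⟩
  exact (H.ok.pm true).comp h.pm

/-- The first dart of direction `δ` after a dart of the other direction. -/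
theorem turn (H : M.Kit L) {δ : Bool} {a b : ℕ} (ha : L a) (da : M.dir a ≠ δ) (hb : L b)
    (db : M.dir b = δ) (e : M.nd b = M.nd a) :
    ∃ g, L g ∧ M.dir g = δ ∧ M.nd g = M.nd a ∧ M.dir (M.nx L false g) ≠ δ ∧
      ∀ z, M.Bt true a z g → ¬(L z ∧ M.dir z = δ) := by
  have an := H.st.lt a ha
  have h1 : M.fst true (fun z => L z ∧ M.dir z = δ) a < M.n :=
    lt_of_le_of_ne (H.rot.fle _ _ _) fun k =>
      (H.rot.fnone an).1 k b (H.st.lt b hb) e ⟨hb, db⟩
  obtain ⟨k1, ⟨k2, k3⟩, k4⟩ := H.rot.fspec an h1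
  refine ⟨_, k2, k3, k1, ?_, k4⟩
  obtain ⟨n1, n2, n3⟩ := H.step.nx false k2
  rcases H.rot.tri (s := false) (b := M.nx L false (M.fst true (fun z => L z ∧ M.dir z = δ) a))
    h1 an k1.symm with k | k | k
  · exact absurd ha (n3 a k)
  · rwa [← k]
  · exact fun d => k4 _ ((H.rot.symm h1 an k1.symm).1 k) ⟨n1, d⟩

/-- The cell of a dart. -/
noncomputable def cell (M : Dm) (L : ℕ → Prop) (e : ℕ) : ℕ :=
  if M.dir (M.nx L false e) = M.dir e then lst M.n (Sc M.n (M.ph L) e) else M.n + M.nd e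

theorem twin (H : M.Kit L) (F : M.FaceK L) {e : ℕ} (h : M.val L e true) :
    ∃ e', L e' ∧ M.dir e' = M.dir e ∧ e' ≠ e ∧ cell M L e' = cell M L e := by
  have he := Dm.val_al h
  have en := H.st.lt e he
  by_cases k : M.dir (M.nx L false e) = M.dir e
  · obtain ⟨e', k1, k2, k3, k4, k5⟩ := F.two e h k
    refine ⟨e', k2, k3, k1, ?_⟩
    have P := pm H.st
    rw [cell, cell, if_pos k, if_pos (k4.trans k3.symm)]
    exact lst_congr fun m _ => ⟨fun u => k5.trans P.1 en u,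
      fun u => (k5.symm P en).trans P.1 (H.st.lt _ k2) u⟩
  · obtain ⟨o, g, lo, lg, do', dg, ng, ge, bt⟩ := (H.step.sad (s := true) he k).1 h
    obtain ⟨on, no⟩ := H.rot.lt en bt
    obtain ⟨e', k1, k2, k3, k4, k5⟩ := turn H lo do' he rfl no.symm
    refine ⟨e', k1, k2, fun q => ?_, ?_⟩
    · have oe : o ≠ e := fun u => do' (by rw [u])
      rcases (H.rot.split (z := g) en en rfl (H.rot.self (s := true) en on no oe)).1
        (H.rot.self en (H.st.lt g lg) ng ge) with u | u | u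
      · unfold Dm.Bt at u bt
        omega
      · exact do' (u ▸ dg)
      · exact k5 g (q ▸ u) ⟨lg, dg⟩
    · rw [cell, cell, if_neg k, if_neg (k2 ▸ k4), k3, no]

theorem half (H : M.St L) (δ : Bool) :
    2 * ((range M.n).filter fun e => L e ∧ M.dir e = δ).card ≤ cnt M.n L := by
  have h1 : cnt M.n (fun e => L e ∧ M.dir e = δ) ≤ cnt M.n fun e => L e ∧ ¬M.dir e = δ :=
    cnt_inj M.β (fun a _ k => ⟨H.blt k.1, H.be a k.1, fun u => H.dne k.1 (u.trans k.2.symm)⟩)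
      fun a _ b _ ka kb u => by rw [← H.bb ka.1, u, H.bb kb.1]
  have h2 := card_filter_add_card_filter_not (s := (range M.n).filter L) fun e => M.dir e = δ
  rw [filter_filter, filter_filter] at h2
  unfold cnt at h1 ⊢
  have h3 : ∀ (P : ℕ → Prop) (i j : DecidablePred P),
      (@filter ℕ P i (range M.n)).card = (@filter ℕ P j (range M.n)).card := fun P i j => by
    rw [Subsingleton.elim i j]
  rw [h3 _ _ fun _ => instDecidableAnd, h3 (fun e => L e ∧ ¬M.dir e = δ) _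
    fun _ => instDecidableAnd] at h1
  omega

theorem onto (H : M.Kit L) (F : M.FaceK L) (δ : Bool) :
    M.nV L + M.nF L ≤
      (((range M.n).filter fun e => L e ∧ M.dir e = δ).image (cell M L)).card +
        cnt M.n (M.crit L) := by
  have P := pm H.st
  obtain ⟨I, hI⟩ : ∃ I, I = ((range M.n).filter fun e => L e ∧ M.dir e = δ).image (cell M L) :=
    ⟨_, rfl⟩
  have mem : ∀ e, L e → M.dir e = δ → cell M L e ∈ I := fun e k1 k2 =>
    hI ▸ mem_image_of_mem _ (mem_filter.2 ⟨mem_range.2 (H.st.lt e k1), k1, k2⟩)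
  have h1 : M.nF L ≤ (I.filter fun y => y < M.n).card := by
    refine cnt_map id _ (fun d dn hd => ?_) fun _ _ k => k
    obtain ⟨⟨e, en, de, le⟩, hm⟩ := hd
    obtain ⟨e', k1, k2, k3, k4⟩ := F.ex δ e le
    have k5 : Sc M.n (M.ph L) d e' := de.trans P.1 dn k4
    have k6 := k5.symm P dn
    have k7 := lst_spec ⟨d, dn, k6⟩
    have k8 : cell M L e' = d := by
      rw [cell, if_pos (k3.trans k2.symm)]
      exact le_antisymm (lst_le dn k6) (hm _ k7.1 (k5.trans P.1 dn k7.2))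
    have k9 := mem e' k1 k2
    rw [k8] at k9
    exact mem_filter.2 ⟨k9, dn⟩
  have h2 : cnt M.n (fun x => (∃ d < M.n, L d ∧ M.nd d = x) ∧ ¬M.crit L x) ≤
      (I.filter fun y => ¬y < M.n).card := by
    refine cnt_map (fun x => M.n + x) _ (fun x _ hx => ?_) fun a b k => Nat.add_left_cancel k
    obtain ⟨hd, hc⟩ := hx
    have hc' : ∀ ε : Bool, ∃ d, L d ∧ M.nd d = x ∧ M.dir d ≠ ε := fun ε => by
      by_contra k
      exact hc ⟨hd, ε, fun d _ k1 k2 => by_contra fun k3 => k ⟨d, k1, k2, k3⟩⟩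
    obtain ⟨a, la, na, da⟩ := hc' δ
    obtain ⟨b, lb, nb, db⟩ := hc' (!δ)
    have db' : M.dir b = δ := by rw [bne_iff.1 db, Bool.not_not]
    obtain ⟨g, k1, k2, k3, k4, _⟩ := turn H la da lb db' (nb.trans na.symm)
    have k5 : cell M L g = M.n + x := by rw [cell, if_neg (k2 ▸ k4), k3, na]
    have k6 := mem g k1 k2
    rw [k5] at k6
    exact mem_filter.2 ⟨k6, Nat.not_lt.2 (Nat.le_add_right _ _)⟩
  have h3 : M.nV L ≤ cnt M.n (fun x => (∃ d < M.n, L d ∧ M.nd d = x) ∧ ¬M.crit L x) +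
      cnt M.n (M.crit L) :=
    (cnt_mono fun x _ k => (Classical.em (M.crit L x)).elim Or.inr fun u => Or.inl ⟨k, u⟩).trans
      (cnt_or _ _ _)
  have h4 := card_filter_add_card_filter_not (s := I) fun y => y < M.n
  rw [← hI]
  omega

end Cell

theorem cellS : CellS := by
  intro M L δ H F
  have h1 := Cell.fibre ((range M.n).filter fun e => L e ∧ M.dir e = δ)
    ((range M.n).filter fun e => M.val L e true ∧ M.dir e = δ) (Cell.cell M L)
    (fun e he => mem_filter.2 ⟨(mem_filter.1 he).1, Dm.val_al (mem_filter.1 he).2.1,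
      (mem_filter.1 he).2.2⟩) fun e he => by
      obtain ⟨e', k1, k2, k3, k4⟩ := Cell.twin H F (mem_filter.1 he).2.1
      exact ⟨e', mem_filter.2 ⟨mem_range.2 (H.st.lt _ k1), k1, k2.trans (mem_filter.1 he).2.2⟩,
        k3, k4⟩
  have h2 := Cell.half H.st δ
  have h3 := Cell.onto H F δ
  have h4 : cnt M.n (fun e => M.val L e true ∧ M.dir e = δ) ≤
      ((range M.n).filter fun e => M.val L e true ∧ M.dir e = δ).card :=
    Cell.cnt_map id _ (fun e en he => mem_filter.2 ⟨mem_range.2 en, he⟩) fun _ _ k => k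
  omega

end Pool.Agent.MP_1a6d78_lc.PD

end MrgPart4

-- ======== part 5: formerly Pool.Agent.MP_1a6d78_lc.PD.Code
section MrgPart5

/-! PROJECT PD, row CODE: the map read from the code of an instance. -/

namespace Pool.Agent.MP_1a6d78_lc.PD

open Classical ED PR Relation

namespace CodeR

variable {x : List Bool}

theorem surj {n : ℕ} {f : ℕ → ℕ} (hf : Pm n f) {d : ℕ} (hd : d < n) : ∃ e < n, f e = d := by
  have h : Function.Surjective fun a : Fin n => (⟨f a, hf.1 a a.2⟩ : Fin n) :=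
    Finite.injective_iff_surjective.1 fun a b e => Fin.ext (hf.2 a a.2 b b.2 (congrArg Fin.val e))
  obtain ⟨e, he⟩ := h ⟨d, hd⟩
  exact ⟨e, e.2, congrArg Fin.val he⟩

theorem ok (h1 : Pm (inp x).n (inp x).ρ) (h2 : Iv (inp x).n (inp x).β) : (im x).Ok := by
  have k : ∀ d < (inp x).n, (im x).ρ false d < (inp x).n ∧ (inp x).ρ ((im x).ρ false d) = d :=
    fun d hd => lst_spec (surj h1 hd)
  refine ⟨fun s => ?_, fun s d hd => ?_, h2, fun a ha b hb => Mp.nd_iff h1 ha hb,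
    fun a ha => ⟨(Mp.nd_spec ha).1, Mp.nd_nd h1 ha⟩⟩
  · cases s
    · exact ⟨fun d hd => (k d hd).1, fun a ha b hb e => by rw [← (k a ha).2, e, (k b hb).2]⟩
    · exact h1
  · cases s
    · exact (k d hd).2
    · exact h1.2 _ (k _ (h1.1 d hd)).1 _ hd (k _ (h1.1 d hd)).2

/-- No directed cycle, on vertices. -/
def Ac (x : List Bool) : Prop :=
  ∀ d < (inp x).n, (inp x).dir d →
    ¬ReflTransGen (inp x).arc ((inp x).nd ((inp x).β d)) ((inp x).nd d)

theorem dir_true {d : ℕ} : (im x).dir d = true ↔ (inp x).dir d := decide_eq_true_iff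

theorem arc_of {d : ℕ} (hd : d < (inp x).n) (h : (im x).dir d = true) :
    (inp x).arc ((inp x).nd d) ((inp x).nd ((inp x).β d)) := ⟨d, hd, dir_true.1 h, rfl, rfl⟩

theorem st (h1 : Pm (inp x).n (inp x).ρ) (h2 : Iv (inp x).n (inp x).β) (h3 : Ac x) (s t : ℕ) :
    (im x).St (L0 (im x) s t) := by
  refine ⟨ok h1 h2, fun d h => h.1, fun d h => ?_, fun d h => h.2.1, fun δ => ?_⟩
  · obtain ⟨k1, k2, k3, k4⟩ := h
    have bb : (im x).β ((im x).β d) = d := (h2 d k1).2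
    have en : ∀ δ, (im x).en δ ((im x).β d) = (im x).en δ d := fun δ => by
      unfold Dm.en
      rw [k2, bb]
      cases δ <;> cases (im x).dir d <;> simp
    exact ⟨(h2 d k1).1, by rw [bb, k2, Bool.not_not], by rwa [en], by rwa [en]⟩
  · cases δ
    · refine ⟨fun v => cnt (inp x).n fun e => ReflTransGen (inp x).arc ((inp x).nd e) v,
        fun d h hd => ?_⟩
      have bb : (inp x).β ((inp x).β d) = d := (h2 d h.1).2
      have k : (im x).dir ((inp x).β d) = true := by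
        have := h.2.1
        rw [hd] at this
        exact this
      have a := arc_of (h2 d h.1).1 k
      have c := h3 _ (h2 d h.1).1 (dir_true.1 k)
      rw [bb] at a c
      exact cnt_lt (fun e _ u => u.tail a) h.1 ReflTransGen.refl c
    · refine ⟨fun v => cnt (inp x).n fun e => ReflTransGen (inp x).arc v ((inp x).nd e),
        fun d h hd => ?_⟩
      exact cnt_lt (fun e _ u => u.head (arc_of h.1 hd)) h.1 ReflTransGen.refl
        (h3 d h.1 (dir_true.1 hd))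

theorem up_iff (h2 : Iv (inp x).n (inp x).β) (h3 : Ac x) (s t : ℕ) :
    ReflTransGen (inp x).arc s t ↔ (im x).Up (L0 (im x) s t) true s t := by
  constructor
  · have key : ∀ b, ReflTransGen (inp x).arc s b → ReflTransGen (inp x).arc b t →
        (im x).Up (L0 (im x) s t) true s b := fun b k => by
      induction k with
      | refl => exact fun _ => Dm.Up.refl _ _
      | @tail b c k u ih =>
        intro v
        have i := ih (v.head u)
        obtain ⟨d, u1, u2, rfl, rfl⟩ := u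
        have d1 : (im x).dir d = true := dir_true.2 u2
        have bb : (inp x).β ((inp x).β d) = d := (h2 d u1).2
        refine ReflTransGen.tail i ⟨d, ⟨u1, ?_, ?_, ?_⟩, d1, rfl, rfl⟩
        · rw [d1]
          refine Bool.eq_false_iff.2 fun e => h3 _ (h2 d u1).1 (dir_true.1 e) ?_
          rw [bb]
          exact ReflTransGen.single (arc_of u1 d1)
        · rw [Dm.en_opp (by rw [d1]; simp)]
          intro e
          have e' : (inp x).nd ((inp x).β d) = s := e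
          exact h3 d u1 u2 (by rw [e']; exact k)
        · rw [Dm.en_same d1]
          intro e
          have e' : (inp x).nd d = t := e
          exact h3 d u1 u2 (by rw [e']; exact v)
    exact fun k => key t k ReflTransGen.refl
  · have key : ∀ a b, (im x).Up (L0 (im x) s t) true a b → ReflTransGen (inp x).arc a b :=
      fun a b k => by
        induction k with
        | refl => exact ReflTransGen.refl
        | tail _ u ih =>
          obtain ⟨d, u1, u2, rfl, rfl⟩ := u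
          exact ih.tail (arc_of u1.1 u2)
    exact key s t

end CodeR

theorem codeS : CodeS := by
  intro g n σ α dir s t x hα hG hA hx
  have h : Rep σ α dir s t (inp x) := hx ▸ cod_rep σ α dir s t
  have h1 := h.cod_pm
  have h2 : Iv (inp x).n (inp x).β := by
    rw [h.hn]
    refine fun d hd => ⟨(Eul.pm h.β).1 d hd, ?_⟩
    rw [show (inp x).β d = α ⟨d, hd⟩ from h.β ⟨d, hd⟩, h.β, ← Equiv.Perm.mul_apply, hα]
    rfl
  have h3 : CodeR.Ac x := fun d hd k u => by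
    rw [h.hn] at hd
    refine hA ⟨d, hd⟩ ((h.dir ⟨d, hd⟩).1 k) (h.cod_from (v := (inp x).nd d) ?_ _ rfl)
    rw [← h.β ⟨d, hd⟩]
    exact u
  refine ⟨CodeR.st h1 h2 h3 _ _, ?_, (Nat.zero_le _).trans_lt (h.cod_lt s), fun d k e c => ?_,
    fun d k e c => ?_, ?_⟩
  · show gen (inp x).n (inp x).ρ (inp x).β ≤ _
    rw [h.hn, gen, Eul.ncl_conn h.ρ h.β, Eul.ncl_sc h.β, Eul.ncl_sc h.ρ,
      Eul.ncl_sc (π := σ * α) fun a => by rw [h.β, h.ρ]; rfl]
    unfold Genus at hG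
    omega
  · exact k.2.2.1 ((Dm.en_same c).trans e)
  · exact k.2.2.2 ((Dm.en_same c).trans e)
  · rw [← CodeR.up_iff h2 h3]
    unfold is it'
    rw [h.s, h.t]
    exact ⟨h.cod_to, fun k => h.cod_from k t rfl⟩

end Pool.Agent.MP_1a6d78_lc.PD

end MrgPart5

-- ======== part 6: formerly Pool.Agent.MP_1a6d78_lc.PD.Count
section MrgPart6

/-! PROJECT PD, row COUNT: the number of valid entries. -/

namespace Pool.Agent.MP_1a6d78_lc.PD

open Classical ED PR

theorem countS : KitS → FaceS → CellS → EulerS → CountS := by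
  intro hK hF hC hE M L G s H hG
  have K := hK M L H
  have e := hE M L G H hG
  have c1 := hC M L true K (hF M L K)
  have c0 := hC M L false K (hF M L K)
  have h1 : cnt M.n (fun e => M.val L e true) ≤ 4 * (cnt M.n (M.crit L) + G) := by
    have a := cnt_or M.n (fun e => M.val L e true ∧ M.dir e = true)
      (fun e => M.val L e true ∧ M.dir e = false)
    have b : cnt M.n (fun e => M.val L e true) ≤ cnt M.n (fun e =>
        (M.val L e true ∧ M.dir e = true) ∨ (M.val L e true ∧ M.dir e = false)) :=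
      cnt_mono fun a _ k => by
        cases h : M.dir a
        · exact Or.inr ⟨k, rfl⟩
        · exact Or.inl ⟨k, rfl⟩
    omega
  cases s with
  | true => exact h1
  | false =>
    refine le_trans (cnt_inj (M.par L true) (fun a _ k => ?_) fun a _ b _ ka kb k => ?_) h1
    · exact ⟨H.lt _ (K.step.par true k.1).1, K.path.vsymm k⟩
    · have x := K.step.parpar true ka.1
      have y := K.step.parpar true kb.1
      rw [← x, k, y]

end Pool.Agent.MP_1a6d78_lc.PD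

end MrgPart6

-- ======== part 7: formerly Pool.Agent.MP_1a6d78_lc.PD.Cov
section MrgPart7

/-! PROJECT PD, row COV: a new segment is a chain of old segments. -/

namespace Pool.Agent.MP_1a6d78_lc.PD

open Classical ED PR

namespace CovX

section
variable {M : Dm} {L L' : ℕ → Prop}

theorem pth_add (s : Bool) (p i t : ℕ) : M.pth L s (M.pth L s p i) t = M.pth L s p (i + t) := by
  induction t with
  | zero => rfl
  | succ t ih =>
    unfold Dm.pth at ih ⊢
    rw [← Nat.add_assoc, it_succ, it_succ, ih]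

theorem ln_eq (H : M.Kit L) {s : Bool} {a v l : ℕ} (hv : L v) (e : M.pth L s a l = v)
    (hl : l < M.n) : M.ln L ⟨false, s, a, v⟩ = l := by
  have k := (lst_spec (P := fun i => M.pth L s a i = v) ⟨l, hl, e⟩).2
  exact (H.path.pinj (e ▸ hv) (e.trans k.symm)).symm

theorem ok_of (H : M.Kit L) {s : Bool} {a v l : ℕ} (hv : L v) (e : M.pth L s a l = v)
    (hl : l < M.n) : M.ok L ⟨false, s, a, v⟩ :=
  ⟨(H.path.pal (i := 0) (e ▸ hv) l.zero_le).1, hv, l, hl, e⟩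

/-- A dart strictly before the index `l`. -/
theorem mid (H' : M.Kit L') {s : Bool} {a v l i : ℕ} (hv : L' v) (e : M.pth L' s a l = v)
    (hi : i < l) : M.Pa L' s a (M.pth L' s a i) ∧ M.Pa L' s (M.pth L' s a i) v ∧
      M.pth L' s a i ≠ v := by
  subst e
  have k := H'.path.pal hv hi.le
  exact ⟨(H'.path.pal (i := 0) k.1 i.zero_le).2, k.2, fun h => hi.ne (H'.path.pinj k.1 h)⟩

theorem fwd (H : M.Kit L) (H' : M.Kit L') {s : Bool} {a v l : ℕ} (hv : L' v)
    (e : M.pth L' s a l = v)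
    (h : ∀ u, M.Pa L' s a u → M.Pa L' s u v → u ≠ v → M.suc L' s u = M.suc L s u) :
    ∀ i ≤ l, M.pth L s a i = M.pth L' s a i := by
  intro i
  induction i with
  | zero => exact fun _ => rfl
  | succ i ih =>
    intro hi
    obtain ⟨k1, k2, k3⟩ := mid H' hv e hi
    rw [H.path.pth, H'.path.pth, ih (by omega), h _ k1 k2 k3]

theorem bwd (H : M.Kit L) (H' : M.Kit L') {s : Bool} {a v l : ℕ} (hv : L' v)
    (e : M.pth L' s a l = v) (h : ∀ u, M.Pa L' s a u → M.Pa L' s u v → u ≠ v →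
      M.suc L (!s) (M.β (M.suc L' s u)) = M.β u) :
    ∀ i ≤ l, M.pth L (!s) (M.β v) i = M.β (M.pth L' s a (l - i)) := by
  intro i
  induction i with
  | zero => exact fun _ => congrArg M.β e.symm
  | succ i ih =>
    intro hi
    obtain ⟨k1, k2, k3⟩ := mid H' hv e (show l - (i + 1) < l by omega)
    rw [H.path.pth, ih (by omega), show l - i = l - (i + 1) + 1 by omega, H'.path.pth,
      h _ k1 k2 k3]

variable (M L L') in
/-- The piece `X` covers the indices from `i` to `j` of the new path from `p`. -/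
def Pc (s : Bool) (p : ℕ) (X : Sg) (r : Bool) (i j : ℕ) : Prop :=
  M.ok L X ∧ j = i + M.ln L X ∧ X.s = xor s r ∧ (r = true → X.ex = false) ∧
    ∀ t ≤ M.ln L X, M.el L X t =
      if r then M.β (M.pth L' s p (j - t)) else M.pth L' s p (i + t)

variable (M L') in
noncomputable def idx (s : Bool) (p v : ℕ) : ℕ := lst M.n fun i => M.pth L' s p i = v

theorem idx_spec (H' : M.Kit L') {s : Bool} {p v : ℕ} (hp : L' p) (h : M.Pa L' s p v) :
    idx M L' s p v < M.n ∧ M.pth L' s p (idx M L' s p v) = v :=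
  lst_spec ((H'.path.idx hp).1 h).2

theorem idx_seg (H' : M.Kit L') {s : Bool} {p x y : ℕ} (hp : L' p) (h : M.Pa L' s p x)
    (k : M.Pa L' s x y) : ∃ l < M.n, idx M L' s p y = idx M L' s p x + l ∧
      M.pth L' s x l = y ∧ L' y ∧ ∀ t, M.pth L' s x t = M.pth L' s p (idx M L' s p x + t) := by
  have hx := (H'.path.al hp h).1
  obtain ⟨hy, l, hl, e⟩ := (H'.path.idx hx).1 k
  have e1 : ∀ t, M.pth L' s x t = M.pth L' s p (idx M L' s p x + t) := fun t => by
    rw [← pth_add, (idx_spec H' hp h).2]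
  have e2 := (idx_spec H' hp (h.trans k)).2
  exact ⟨l, hl, H'.path.pinj (e2.symm ▸ hy) (by rw [e2, ← e1, e]), e, hy, e1⟩

variable (H : M.Kit L) (H' : M.Kit L') (sub : ∀ {d}, L' d → L d) {s : Bool} {p x y : ℕ}
  (hp : L' p) (h : M.Pa L' s p x)
include H H' sub hp h

theorem pc0 (k : M.Pa L' s x y)
    (c : ∀ u, M.Pa L' s x u → M.Pa L' s u y → u ≠ y → M.suc L' s u = M.suc L s u) :
    Pc M L L' s p ⟨false, s, x, y⟩ false (idx M L' s p x) (idx M L' s p y) := by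
  obtain ⟨l, hl, e1, e2, hy, e3⟩ := idx_seg H' hp h k
  have f := fwd H H' hy e2 c
  have e4 := (f l le_rfl).trans e2
  have e5 := ln_eq H (sub hy) e4 hl
  refine ⟨ok_of H (sub hy) e4 hl, by rw [e5, e1], by simp, by simp, fun t ht => ?_⟩
  rw [e5] at ht
  exact (f t ht).trans (e3 t)

theorem pc2 (k : M.Pa L' s x y) (c : ∀ u, M.Pa L' s x u → M.Pa L' s u y → u ≠ y →
      M.suc L (!s) (M.β (M.suc L' s u)) = M.β u) :
    Pc M L L' s p ⟨false, !s, M.β y, M.β x⟩ true (idx M L' s p x) (idx M L' s p y) := by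
  obtain ⟨l, hl, e1, e2, hy, e3⟩ := idx_seg H' hp h k
  have f := bwd H H' hy e2 c
  have e4 : M.pth L (!s) (M.β y) l = M.β x := by rw [f l le_rfl, Nat.sub_self]; rfl
  have hx := H.st.be _ (sub (H'.path.al hp h).1)
  have e5 := ln_eq H hx e4 hl
  refine ⟨ok_of H hx e4 hl, by rw [e5, e1], by simp, by simp, fun t ht => ?_⟩
  rw [e5] at ht
  refine (f t ht).trans ?_
  rw [e3, e1, if_pos rfl, Nat.add_sub_assoc ht]

theorem pc1 (hy : L' y) (e : y = M.suc L' s x) :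
    Pc M L L' s p ⟨true, s, x, y⟩ false (idx M L' s p x) (idx M L' s p y) := by
  have hx := (H'.path.al hp h).1
  obtain ⟨l, hl, e1, e2, -, e3⟩ := idx_seg H' hp h (e ▸ Dm.Pa.step hx (e ▸ hy) : M.Pa L' s x y)
  have e4 : M.pth L' s x 1 = y := (H'.path.pth s x 0).trans e.symm
  obtain rfl : l = 1 := H'.path.pinj (e2.symm ▸ hy) (e2.trans e4.symm)
  have ne : x ≠ y := fun c => Nat.zero_ne_one (H'.path.pinj (s := s) (p := x) hx (c.trans e4.symm))
  have e5 : M.ln L ⟨true, s, x, y⟩ = 1 := by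
    have k1 := lst_le (P := fun i => M.el L ⟨true, s, x, y⟩ i = y) hl rfl
    have k2 := (lst_spec (P := fun i => M.el L ⟨true, s, x, y⟩ i = y) ⟨1, hl, rfl⟩).2
    refine le_antisymm k1 (Nat.pos_of_ne_zero fun c => ne ?_)
    rw [show lst M.n _ = 0 from c] at k2
    exact k2
  refine ⟨(H.fsp.okx _ _ _).2 ⟨sub hx, sub hy⟩, by rw [e5, e1], by simp, by simp, fun t ht => ?_⟩
  rw [e5] at ht
  rw [if_neg Bool.false_ne_true, ← e3]
  obtain rfl | rfl : t = 0 ∨ t = 1 := by omega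
  · rfl
  · exact e4.symm

end

theorem on_iff {K : Rd} (H : K.Hy) (s : Bool) (a b d : ℕ) :
    K.P.On K.M d ⟨false, s, a, b⟩ ↔ (K.L a ∧ K.M.Pa K.L s a b) ∧
      (K.M.Pa K.L s a d ∧ K.M.Pa K.L s d b ∨
        K.L d ∧ K.M.Pa K.L s a (K.M.β d) ∧ K.M.Pa K.L s (K.M.β d) b) := by
  rw [H.geo.On, H.k.fsp.On _ rfl, H.k.fsp.okp, Dm.mem_path, Dm.mem_path]

variable {K : Rd} (G : K.G2)
include G

theorem k : K.M.Kit K.L := G.g1.hy.k

theorem k' : K.M.Kit K.L' := G.g1.hy.k' G.g1.dead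

theorem lift {s : Bool} {u v : ℕ} (h : K.M.Pa K.L s u v)
    (c : ∀ w, K.M.Pa K.L s u w → K.M.Pa K.L s w v → K.L' w) : K.M.Pa K.L' s u v := by
  induction h with
  | refl => exact .refl _ _
  | tail h1 h2 ih =>
    have a := c _ h1 (.single h2)
    have b := c _ (.tail h1 h2) (.refl _ _)
    exact .tail (ih fun w k1 k2 => c w k1 (.tail k2 h2))
      ⟨a, b, (G.g1.down.same a (h2.2.2.symm ▸ b)).trans h2.2.2⟩

variable {s : Bool} {a q : ℕ} (ha : K.L' a) (da : K.M.dir a = K.d0)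
include ha da

/-- The first kind of piece. -/
theorem on0 (hq : K.L' q) (dq : K.M.dir q = K.d0) : K.P.On K.M q ⟨false, s, a, K.dq s a⟩ ↔
    K.M.Pa K.L' s a q ∧ (K.sel (K.own s a) → K.M.Pa K.L' s q (K.dq s a)) := by
  have la := G.g1.dead.sub ha
  rw [on_iff G.g1.hy, or_iff_left fun c =>
    (k G).st.dne c.1 (((k G).path.al la c.2.1).2.1.trans (da.trans dq.symm))]
  by_cases c : K.sel (K.own s a)
  · obtain ⟨d1, -, -, d2⟩ := G.dec.q ha da c
    refine ⟨fun ⟨_, h1, h2⟩ => ⟨lift G h1 fun w k1 k2 => (d2 w k1).2 (k2.trans h2),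
      fun _ => lift G h2 fun w k1 k2 => (d2 w (h1.trans k1)).2 k2⟩, fun ⟨h1, h2⟩ => ?_⟩
    have h3 := ((G.dp.one ha da c).2.2.1 q h1 (h2 c)).1
    exact ⟨⟨la, d1⟩, h3, (d2 q h3).1 hq⟩
  · have e : K.dq s a = K.M.En K.L s a := by rw [Rd.dq, if_neg c, G.g1.hy.geo.En]
    rw [e, (G.g1.down.free la da c).2.2.2.2]
    exact ⟨fun h => ⟨h.2.1, fun h => absurd h c⟩, fun h =>
      ⟨⟨la, ((k G).path.En s la).1⟩, h.1, ((k G).path.Eneq la h.1).2⟩⟩

/-- The reversed pieces. -/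
theorem on2 (c : K.sel (K.own s a)) (hq : K.L' q) (dq : K.M.dir q = K.d0) :
    K.P.On K.M q ⟨false, !s, K.db s a, K.M.β (K.dg s a)⟩ ↔
      K.M.Pa K.L' s (K.dg s a) q ∧ K.M.Pa K.L' s q (K.M.β (K.db s a)) := by
  obtain ⟨-, b1, b2, b3, -⟩ := G.dec.b ha da c
  obtain ⟨-, o1, -, o2⟩ := G.dp.one ha da c
  have lb := G.g1.dead.sub b1
  have g1 := (G.dec.g ha da c).2
  rw [on_iff G.g1.hy, or_iff_right fun c => b2 (((k G).path.al lb c.1).2.1.symm.trans dq)]
  refine ⟨fun ⟨_, lq, h1, h2⟩ => ?_, fun ⟨h1, h2⟩ =>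
    ⟨⟨lb, b3⟩, G.g1.dead.sub hq, (o2 q h1 h2).1, (o2 q h1 h2).2.1⟩⟩
  obtain ⟨hv, l, -, e⟩ := ((k' G).path.idx g1).1 o1
  have f := bwd (k G) (k' G) hv e fun u k1 k2 k3 => ((o2 u k1 k2).2.2 k3).2
  rw [(k G).st.bb lb] at f
  obtain ⟨lq', i, -, ei⟩ := ((k G).path.idx lb).1 h1
  have el : K.M.pth K.L (!s) (K.db s a) l = K.M.β (K.dg s a) := by
    rw [f l le_rfl, Nat.sub_self]; rfl
  have il : i ≤ l := by
    refine (le_total i l).elim id fun h => ((k G).path.pinj (ei.symm ▸ lq') ?_).le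
    have k1 := ((k G).path.pal (ei.symm ▸ lq') h).2
    rw [ei, el] at k1 ⊢
    exact (k G).path.anti h2 k1
  have k1 := (k' G).path.pal (e.symm ▸ hv) (Nat.sub_le l i)
  have e2 : q = K.M.pth K.L' s (K.dg s a) (l - i) := by
    rw [← (k G).st.bb lq, ← ei, f i il, (k' G).st.bb k1.1]
  rw [e, ← e2] at k1
  exact ⟨e2 ▸ ((k' G).path.pal (i := 0) (e2 ▸ hq) (Nat.zero_le _)).2, k1.2⟩

theorem dp0 (j : ℕ) : K.L' (K.dp s a j) ∧ K.M.dir (K.dp s a j) = K.d0 :=
  have h := (k' G).path.al ha (G.dp.dp s j ha da).1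
  ⟨h.1, h.2.1.trans da⟩

variable (hq : K.L' q) (dq : K.M.dir q = K.d0)
include hq dq

theorem cut0 (j : ℕ) : K.cut ⟨false, s, a, q⟩ (3 * j) ↔ K.M.Pa K.L' s (K.dp s a j) q ∧
    (K.sel (K.own s (K.dp s a j)) → K.M.Pa K.L' s q (K.dq s (K.dp s a j))) := by
  rw [← on0 G (dp0 G ha da j).1 (dp0 G ha da j).2 hq dq]
  simp [Rd.cut, Rd.pf]

theorem cut2 (j : ℕ) : K.cut ⟨false, s, a, q⟩ (3 * j + 2) ↔ K.sel (K.own s (K.dp s a j)) ∧
    K.M.Pa K.L' s (K.dg s (K.dp s a j)) q ∧ K.M.Pa K.L' s q (K.M.β (K.db s (K.dp s a j))) := by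
  have e1 : (3 * j + 2) % 3 = 2 := by omega
  have e2 : (3 * j + 2) / 3 = j := by omega
  simp only [Rd.cut, Rd.pf, e1, e2]
  simp only [OfNat.ofNat_ne_zero, OfNat.ofNat_ne_one, true_and, false_or, if_false]
  exact and_congr_right fun c => on2 G (dp0 G ha da j).1 (dp0 G ha da j).2 c hq dq

theorem half {j : ℕ} (h : K.M.Pa K.L' s (K.dp s a j) q) (c : ¬K.cut ⟨false, s, a, q⟩ (3 * j)) :
    K.sel (K.own s (K.dp s a j)) ∧ K.M.Pa K.L' s (K.dg s (K.dp s a j)) q := by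
  obtain ⟨d1, d2⟩ := dp0 G ha da (s := s) j
  rw [cut0 G ha da hq dq, not_and, Classical.not_imp] at c
  obtain ⟨c1, c2⟩ := c h
  have k1 := ((k' G).path.tot h (G.dp.one d1 d2 c1).1).resolve_left c2
  refine ⟨c1, (G.dec.g d1 d2 c1).1 ▸ ((k' G).path.hd k1 fun e => c2 ?_).2⟩
  exact e ▸ .refl _ _

theorem walk (h : K.M.Pa K.L' s a q) (j : ℕ) (c : ∀ k < 3 * j, ¬K.cut ⟨false, s, a, q⟩ k) :
    K.M.Pa K.L' s (K.dp s a j) q := by
  induction j with
  | zero => exact h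
  | succ j ih =>
    obtain ⟨d1, d2⟩ := dp0 G ha da (s := s) j
    obtain ⟨c1, c2⟩ := half G ha da hq dq (ih fun k hk => c k (by omega)) (c _ (by omega))
    rw [(G.dp.dp s j ha da).2, if_pos c1]
    exact ((k' G).path.tot c2 (G.dp.one d1 d2 c1).2.1).resolve_left fun e =>
      c (3 * j + 2) (by omega) ((cut2 G ha da hq dq j).2 ⟨c1, c2, e⟩)

omit hq dq in
theorem path3 {j : ℕ} (c : K.sel (K.own s (K.dp s a j))) :
    K.M.Pa K.L' s a (K.dq s (K.dp s a j)) ∧ K.M.Pa K.L' s a (K.dg s (K.dp s a j)) := by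
  obtain ⟨d1, d2⟩ := dp0 G ha da (s := s) j
  have k1 := (G.dp.dp s j ha da).1.trans (G.dp.one d1 d2 c).1
  obtain ⟨g1, g2⟩ := G.dec.g d1 d2 c
  exact ⟨k1, k1.trans (g1 ▸ Dm.Pa.step ((k' G).path.al ha k1).1 (g1 ▸ g2))⟩

theorem cut_iff : (∃ k < 3 * K.c + 1, K.cut ⟨false, s, a, q⟩ k) ↔ K.M.Pa K.L' s a q := by
  refine ⟨fun ⟨k, _, c⟩ => ?_, fun h => by_contra fun c => c ⟨3 * K.c, by omega, ?_⟩⟩
  · obtain ⟨j, rfl | rfl⟩ : ∃ j, k = 3 * j ∨ k = 3 * j + 2 := ⟨k / 3, by have := c.1; omega⟩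
    · exact (G.dp.dp s j ha da).1.trans ((cut0 G ha da hq dq j).1 c).1
    · obtain ⟨c1, c2, -⟩ := (cut2 G ha da hq dq j).1 c
      exact (path3 G ha da c1).2.trans c2
  · exact (cut0 G ha da hq dq _).2 ⟨walk G ha da hq dq h _ fun k hk e => c ⟨k, by omega, e⟩,
      fun e => absurd e (G.dp.fin s ha da)⟩

omit G ha da hq dq in
variable (K s a) in
/-- The first dart of a piece. -/
noncomputable def st (k : ℕ) : ℕ :=
  if k % 3 = 0 then K.dp s a (k / 3)
  else if k % 3 = 1 then K.dq s (K.dp s a (k / 3)) else K.dg s (K.dp s a (k / 3))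

theorem main (h : K.M.Pa K.L' s a q) (k : ℕ) (hk : k ≤ K.np ⟨false, s, a, q⟩) :
    Pc K.M K.L K.L' s a (K.pc ⟨false, s, a, q⟩ k) (K.rv ⟨false, s, a, q⟩ k)
      (idx K.M K.L' s a (st K s a k))
      (idx K.M K.L' s a (if k + 1 ≤ K.np ⟨false, s, a, q⟩ then st K s a (k + 1) else q)) := by
  have ns : ¬K.sim ⟨false, s, a, q⟩ := by simp [Rd.sim, da]
  have ex := (cut_iff G ha da hq dq).2 h
  have em : K.np ⟨false, s, a, q⟩ = lst (3 * K.c + 1) (K.cut ⟨false, s, a, q⟩) := if_neg ns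
  obtain ⟨m1, m2⟩ := lst_spec ex
  have m3 : ∀ i < K.np ⟨false, s, a, q⟩, ¬K.cut ⟨false, s, a, q⟩ i := fun i hi c => by
    have := lst_le (n := 3 * K.c + 1) (by omega) c
    omega
  rw [← em] at m2
  have P0 := @pc0 _ _ _ (CovX.k G) (k' G) G.g1.dead.sub s a
  have P1 := @pc1 _ _ _ (CovX.k G) (k' G) G.g1.dead.sub s a
  have P2 := @pc2 _ _ _ (CovX.k G) (k' G) G.g1.dead.sub s a
  obtain ⟨j, r, hr, rfl⟩ : ∃ j r, r < 3 ∧ k = 3 * j + r := ⟨k / 3, k % 3, by omega, by omega⟩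
  obtain ⟨d1, d2⟩ := dp0 G ha da (s := s) j
  obtain ⟨d3, d4⟩ := G.dp.dp s j ha da
  have w := walk G ha da hq dq h j fun i hi => m3 i (by omega)
  have hf := fun c => half G ha da hq dq w (m3 _ c)
  have an := @(k' G).path.anti s
  have e0 : ∀ r < 3, (3 * j + r) % 3 = r ∧ (3 * j + r) / 3 = j := fun r _ => by omega
  have e3 : (3 * j + 2 + 1) % 3 = 0 ∧ (3 * j + 2 + 1) / 3 = j + 1 := by omega
  rcases hk.eq_or_lt with e | e
  · rw [if_neg (by omega), Rd.pc, Rd.rv, if_neg ns, if_pos e]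
    rw [← e] at m2
    obtain rfl | rfl | rfl : r = 0 ∨ r = 1 ∨ r = 2 := by omega
    · simp only [st, Rd.pf, e0 0 hr, if_true, OfNat.zero_ne_ofNat, and_false, decide_false]
      refine P0 ha d3 w fun u k1 k2 k3 => ?_
      by_cases c : K.sel (K.own s (K.dp s a j))
      · have k4 := ((cut0 G ha da hq dq j).1 m2).2 c
        exact ((G.dp.one d1 d2 c).2.2.1 u k1 (k2.trans k4)).2 fun e => k3 (an k2 (e ▸ k4))
      · have l1 := G.g1.dead.sub d1
        have k4 := ((G.g1.down.free l1 d2 c).2.2.2.2 u).1 k1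
        have k5 := (CovX.k G).path.al l1 k4
        refine (G.g1.down.free k5.1 (k5.2.1.trans d2) ?_).2.1
        rwa [G.g1.hy.own, (CovX.k G).path.owneq l1 k4, ← G.g1.hy.own]
    · have := m2.1
      omega
    · obtain ⟨c, k4, k5⟩ := (cut2 G ha da hq dq j).1 m2
      simp only [st, Rd.pf, e0 2 hr, if_false, OfNat.ofNat_ne_zero, OfNat.ofNat_ne_one, ns,
        not_false_eq_true, and_self, decide_true]
      exact P2 ha (path3 G ha da c).2 k4 fun u k1 k2 k3 =>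
        (((G.dp.one d1 d2 c).2.2.2 u k1 (k2.trans k5)).2.2 fun e => k3 (an k2 (e ▸ k5))).2
  · rw [if_pos (by omega), Rd.pc, Rd.rv, if_neg ns, if_neg e.ne]
    obtain ⟨c, -⟩ := hf (by omega)
    obtain ⟨o1, o2, o3, o4⟩ := G.dp.one d1 d2 c
    obtain rfl | rfl | rfl : r = 0 ∨ r = 1 ∨ r = 2 := by omega
    · simp only [st, Rd.pf, e0 0 hr, Nat.add_assoc, e0 (0 + 1) (by omega), if_true,
        OfNat.zero_ne_ofNat, and_false, decide_false, zero_add, one_ne_zero, if_false]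
      exact P0 ha d3 o1 fun u k1 k2 => (o3 u k1 k2).2
    · simp only [st, Rd.pf, e0 1 hr, Nat.add_assoc, Nat.reduceAdd, e0 2 (by omega), if_true,
        OfNat.one_ne_ofNat, and_false, decide_false, one_ne_zero, if_false, OfNat.ofNat_ne_zero,
        OfNat.ofNat_ne_one]
      exact P1 ha (path3 G ha da c).1 (G.dec.g d1 d2 c).2 (G.dec.g d1 d2 c).1
    · simp only [st, Rd.pf, e0 2 hr, e3, if_false, if_true, OfNat.ofNat_ne_zero,
        OfNat.ofNat_ne_one, ns, not_false_eq_true, and_self, decide_true]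
      have k6 := P2 ha (path3 G ha da c).2 o2 fun u k1 k2 k3 => ((o4 u k1 k2).2.2 k3).2
      rwa [(k' G).st.bb (G.dec.b d1 d2 c).2.1, ← if_pos (α := ℕ) (e := K.dp s a j) c
        (t := K.M.β (K.db s (K.dp s a j))), ← d4] at k6

end CovX

open CovX in
theorem covS : CovS := fun K G => by
  have H := k G
  have H' := k' G
  have sub := @G.g1.dead.sub
  refine ⟨fun ⟨ex, s, p, q⟩ => ?_, fun ⟨ex, s, p, q⟩ h => ?_⟩
  · rw [Rd.ok', show K.al' = K.L' from G.al]
    cases ex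
    · rw [H'.fsp.okp]
      simp only [Bool.false_eq_true, false_or]
      refine and_congr_right fun hp => ?_
      have key : K.L' q → K.M.dir q = K.M.dir p →
          ((if K.M.dir p = K.d0 then ∃ k < 3 * K.c + 1, K.cut ⟨false, s, p, q⟩ k
            else K.P.On K.M q (K.P.full s p)) ↔ K.M.Pa K.L' s p q) := fun hq e => by
        split_ifs with c
        · exact cut_iff G hp c hq (e.trans c)
        · rw [G.g1.hy.geo.full, on_iff G.g1.hy, G.g1.down.pa s q hp c, or_iff_left fun c =>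
            H.st.dne c.1 ((H.path.al (sub hp) c.2.1).2.1.trans e.symm)]
          exact ⟨fun h => h.2.1, fun h =>
            ⟨⟨sub hp, (H.path.En s (sub hp)).1⟩, h, (H.path.Eneq (sub hp) h).2⟩⟩
      exact ⟨fun h => (key h.1 h.2.1).1 h.2.2, fun h =>
        have k := H'.path.al hp h
        ⟨k.1, k.2.1, (key k.1 k.2.1).2 h⟩⟩
    · rw [H'.fsp.okx]
      simp
  cases ex
  · obtain ⟨hp, h1⟩ := (H'.fsp.okp _ _ _).1 h
    have i0 : idx K.M K.L' s p p = 0 :=
      (H'.path.pinj (i := 0) hp (idx_spec H' hp (.refl _ _)).2.symm).symm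
    by_cases c : K.M.dir p = K.d0
    · have k1 := H'.path.al hp h1
      refine ⟨fun k => idx K.M K.L' s p (if k ≤ K.np ⟨false, s, p, q⟩ then st K s p k else q),
        i0, by simp only [Nat.not_succ_le_self, if_false]; rfl, fun k hk => ?_⟩
      simp only [if_pos hk]
      exact main G hp c k1.1 (k1.2.1.trans c) h1 k hk
    · have sm : K.sim ⟨false, s, p, q⟩ := .inr c
      have k1 := pc0 H H' sub hp (.refl _ _) h1 fun u k1 _ _ =>
        G.g1.down.suc s (H'.path.al hp k1).1 fun e => c ((H'.path.al hp k1).2.1.symm.trans e)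
      rw [Rd.np, if_pos sm]
      refine ⟨fun k => idx K.M K.L' s p (if k = 0 then p else q), i0, rfl, fun k hk => ?_⟩
      obtain rfl := Nat.le_zero.1 hk
      rw [Rd.pc, Rd.rv, if_pos sm, decide_eq_false fun c => c.1 sm]
      exact k1
  · have sm : K.sim ⟨true, s, p, q⟩ := .inl rfl
    rw [Rd.np, if_pos sm]
    refine ⟨fun k => if k = 0 then 0 else K.M.ln K.L' ⟨true, s, p, q⟩, rfl, rfl, fun k hk => ?_⟩
    obtain rfl := Nat.le_zero.1 hk
    simp only [Rd.pc, Rd.rv, sm, if_true, not_true, false_and, decide_false]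
    exact ⟨⟨sub h.1, sub h.2.1, h.2.2⟩, (Nat.zero_add _).symm, by simp, by simp, fun i _ => by
      rw [if_neg Bool.false_ne_true, Nat.zero_add]; rfl⟩

end Pool.Agent.MP_1a6d78_lc.PD

end MrgPart7

-- ======== part 8: formerly Pool.Agent.MP_1a6d78_lc.PD.Dead
section MrgPart8

/-! PROJECT PD: the killed part of a round. -/

namespace Pool.Agent.MP_1a6d78_lc.PD

open Classical ED PR

namespace DeadX

variable {K : Rd}

theorem anc {x v y : ℕ} (h : K.D x v) (u : K.M.Up K.L K.d0 v y) : K.D x y :=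
  ⟨h.1, fun z hz r => h.2 z (u.trans hz) r⟩

theorem own (H : K.Hy) {e x : ℕ} (s : Bool) (h : K.L e) (d : K.M.dir e = K.d0)
    (k : K.D x (K.M.nd (K.M.β e))) : K.own s e = x := by
  obtain ⟨h1, h2, -⟩ := H.k.path.own s h
  rw [d] at h1 h2
  rw [H.own]
  exact k.2 _ h1 h2

theorem in0 {e : ℕ} (h : K.L e) (d : K.M.dir e = K.d0) :
    K.L' e ↔ ¬∃ x, K.D x (K.M.nd (K.M.β e)) := by
  rw [Rd.L', Dm.en_opp (by rw [d]; simp)]
  exact and_iff_right h

theorem out {e : ℕ} (h : K.L e) (d : K.M.dir e ≠ K.d0) :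
    K.L' e ↔ ¬∃ x, K.D x (K.M.nd e) := by
  rw [Rd.L', Dm.en_same (bne_iff.1 d)]
  exact and_iff_right h

theorem flow (H : K.Hy) {e x : ℕ} {s : Bool} (h : K.L e) (d : K.M.dir e = K.d0)
    (a : K.M.dir (K.M.nx K.L (!s) e) = K.d0) (v : ¬K.M.val K.L e s)
    (k : K.D x (K.M.nd (K.M.β (K.par (!s) e)))) :
    K.D x (K.M.nd (K.M.β (K.M.FT K.L s e))) := by
  rw [H.par] at k
  rw [Dm.val_def, if_pos (a.trans d.symm)] at v
  have e1 : K.M.nx K.L s (K.M.β (K.M.FT K.L s e)) =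
      K.M.β (K.M.FT K.L (!s) (K.M.par K.L (!s) e)) := by
    by_contra c
    exact v ⟨h, c⟩
  obtain ⟨p1, p2, -⟩ := H.k.step.par (!s) h
  have t1 := (H.k.path.al h (H.k.path.FT s h).1).1
  have t2 := (H.k.path.al p1 (H.k.path.FT (!s) p1).1).2.2.2
  rw [p2, d, ← e1, (H.k.step.nx s (H.st.be _ t1)).2.1] at t2
  exact anc k t2

end DeadX

theorem deadS : DeadS := by
  intro K H
  refine ⟨DeadX.anc, fun {x y v} h k => ?_, fun s h d k => DeadX.own H s h d k,
    fun h r => ⟨h, fun y u _ => Dm.Up.root r u⟩, fun h => h.1,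
    H.st.sub (fun _ h => h.1) fun d h => ⟨H.st.be d h.1, by rw [H.st.en_be _ h.1]; exact h.2⟩,
    DeadX.in0, DeadX.out, fun {d} h => ?_, fun {e s x} h d nb k => ?_,
    fun h d a v k => DeadX.flow H h d a v k, fun x s i => ?_⟩
  · obtain ⟨r, h1, h2⟩ := H.k.step.root K.d0 v
    exact (h.2 r h1 h2).symm.trans (k.2 r h1 h2)
  · by_cases c : K.M.dir d = K.d0
    · rintro ⟨x, k⟩
      exact (DeadX.in0 h.1 c).1 h ⟨x, DeadX.anc k (c ▸ Dm.Up.step h.1)⟩
    · exact (DeadX.out h.1 c).1 h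
  · by_cases v : K.M.val K.L e s
    · have v1 := H.k.path.vsymm v
      obtain ⟨p1, p2, -⟩ := H.k.step.par (!s) h
      have pp := H.k.step.parpar (!s) h
      rw [← H.par] at v1 p1 p2 pp
      have o := DeadX.own H (!s) p1 (p2.trans d) k
      obtain ⟨i, hi, u1, u2, u3⟩ := H.cmp _ _ v1 (p2.trans d) (o ▸ k.1)
      rw [o] at u1 u2 u3
      have e1 : K.po x i = K.own s e := by rw [Rd.po, u2, u3, pp, Bool.not_not]
      have := k.1.2.2.2 i hi u1
      rw [e1] at this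
      exact this.imp id fun c z => c z.2.1
    · left
      have f := DeadX.flow H h d ((nb.resolve_right v).trans d) v k
      have t := (H.k.path.FT s h).1
      obtain ⟨t1, t2, -⟩ := H.k.path.al h t
      rw [← DeadX.own H s t1 (t2.trans d) f, H.own, H.k.path.owneq h t]
  · unfold Rd.cand
    split_ifs with h1 h2 h3
    · exact Or.inl rfl
    · refine Or.inr ⟨?_, h3⟩
      rw [H.geo.nx]
      exact (H.k.step.nx _ h1.2.1).1
    · obtain ⟨p1, p2, -⟩ := H.k.step.par s h1.2.1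
      rw [H.par]
      exact Or.inr ⟨H.st.be _ p1, by rw [← h1.2.2, ← p2]; exact H.st.dne p1⟩
    · exact Or.inl rfl

end Pool.Agent.MP_1a6d78_lc.PD

end MrgPart8

-- ======== part 9: formerly Pool.Agent.MP_1a6d78_lc.PD.Dec
section MrgPart9

/-! PROJECT PD: row DEC. -/

namespace Pool.Agent.MP_1a6d78_lc.PD

open Classical ED PR

namespace Dec

variable {K : Rd} (G : K.G1) (hal : K.AliveK)
include G hal

omit G in
theorem gd_eq {x s i} (h : K.L' (K.cand x s i)) : K.gd x s i = K.cand x s i := by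
  rw [Rd.gd, hal, if_pos h]

theorem gd_al {x s i} (h : K.L (K.gd x s i)) : K.gd x s i = K.cand x s i ∧ K.L' (K.gd x s i) ∧
    K.M.dir (K.gd x s i) ≠ K.d0 := by
  by_cases k : K.L' (K.cand x s i)
  · rw [gd_eq hal k]
    refine ⟨rfl, k, ?_⟩
    rcases G.dead.cand x s i with e | e
    · exact absurd (e ▸ G.dead.sub k) G.hy.st.nn
    · exact e.2
  · rw [Rd.gd, hal, if_neg k] at h
    exact absurd h G.hy.st.nn

omit hal in
theorem wall_eq (x s i) : K.wall x s i =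
    ⟨false, !s, K.gd x s i, K.M.En K.L (!s) (K.gd x s i)⟩ := G.hy.geo.full _ _

/-- the common part -/
theorem main {p s} (hp : K.L' p) (hd : K.M.dir p = K.d0) (hx : K.sel (K.own s p)) :
    (K.M.Pa K.L s p (K.dq s p) ∧ K.L (K.M.suc K.L s (K.dq s p)) ∧
      ¬K.L' (K.M.suc K.L s (K.dq s p)) ∧
      ∀ u, K.M.Pa K.L s p u → (K.L' u ↔ K.M.Pa K.L s u (K.dq s p))) ∧
    K.L' (K.M.suc K.L' s (K.dq s p)) ∧ K.M.dir (K.M.suc K.L' s (K.dq s p)) = K.d0 ∧
    K.Good (K.own s p) s (K.M.suc K.L' s (K.dq s p)) := by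
  have k := G.hy.k
  have k' := G.hy.k' G.dead
  have D := G.dead
  have lp := D.sub hp
  obtain ⟨a, h1, h2, h3, h4, h5, h6⟩ := G.down.last hp hd hx
  have la := D.sub h2
  have da : K.M.dir a = K.d0 := (k.path.al lp h1).2.1.trans hd
  have de : K.M.dir (K.M.suc K.L s a) = K.d0 := (k.step.suc la (k.st.lt _ h3)).2.1.trans da
  have ne : ¬K.L' (K.M.suc K.L s a) := fun h => (D.in0 h3 de).1 h ⟨_, h4⟩
  have c1 : ∀ u, K.M.Pa K.L s p u → (K.L' u ↔ K.M.Pa K.L s u a) := fun u hu => by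
    have lu := (k.path.al lp hu).1
    have du : K.M.dir u = K.d0 := (k.path.al lp hu).2.1.trans hd
    constructor
    · intro h
      rcases k.path.tot hu h1 with t | t
      · exact t
      · by_cases e : a = u
        · exact e ▸ Dm.Pa.refl _ _
        · have := (k.path.al h3 (k.path.hd t e).2).2.2.2
          rw [de] at this
          exact absurd ⟨_, D.anc h4 this⟩ ((D.in0 lu du).1 h)
    · intro h
      refine (D.in0 lu du).2 fun ⟨y, hy⟩ => (D.in0 la da).1 h2 ⟨y, D.anc hy ?_⟩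
      have := (k.path.al lu h).2.2.2
      rwa [du] at this
  obtain ⟨-, g2, g3, g4⟩ := k'.step.suc (s := s) h2 (k'.st.lt _ h5)
  rw [da] at g2 g4
  have lg := D.sub h5
  have good : K.Good (K.own s p) s (K.M.suc K.L' s a) := by
    have := G.run.run (k.st.be _ la) (da ▸ k.st.dne la) h3 de h4 lg g2 g3 h6 fun z hz =>
      g4 z ((k.rot.split (k.st.blt la) (k.st.lt _ lg) g3 h6).2 (Or.inr (Or.inr hz)))
    exact G.wall.h1 h5 g2 this.1 this.2
  have nd0 : K.d0 ≠ !K.d0 := by cases K.d0 <;> simp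
  have e : K.dq s p = a := by
    have hA : K.M.ok K.L ⟨false, s, p, K.M.En K.L s p⟩ := (k.fsp.okp ..).2 ⟨lp, (k.path.En s lp).1⟩
    have hit : K.M.It K.L (vm (!K.d0) K.d0) ⟨false, s, p, K.M.En K.L s p⟩
        (K.wall (K.own s p) s) K.c a := by
      obtain ⟨i, hi, w1, w2, -⟩ := good
      have lw := D.sub w1
      refine ⟨(Dm.mem_path ..).2 ⟨h1, (k.path.Eneq lp h1).2⟩, fun h => absurd h (Dm.vm_ne _ _),
        i, hi,
        ?_, K.M.β (K.M.suc K.L' s a), ?_, ?_⟩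
      · rw [wall_eq G, gd_eq hal w1]
        exact (k.fsp.okp ..).2 ⟨lw, (k.path.En _ lw).1⟩
      · rw [wall_eq G, gd_eq hal w1]
        exact (Dm.mem_path ..).2 ⟨w2, (k.path.Eneq lw w2).2⟩
      · rw [Dm.R_vm, k.st.en_be _ lg, Dm.en_same g2, Dm.en_opp (da ▸ nd0), g3]
    have := k.fsp.fo false (vm (!K.d0) K.d0) (K.wall (K.own s p) s) K.c rfl hA
    rw [Rd.dq, if_pos hx, G.hy.geo.fo, G.hy.geo.full]
    rcases this with ⟨-, h⟩ | ⟨-, ⟨v1, -, i, -, v2, b, v3, v4⟩, h⟩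
    · exact absurd hit (h a)
    · refine k.path.anti ((c1 _ ((Dm.mem_path ..).1 v1).1).1 ?_) (h a hit)
      have hv := k.path.al lp ((Dm.mem_path ..).1 v1).1
      rw [wall_eq G] at v2 v3
      obtain ⟨-, w1, w2⟩ := gd_al G hal ((k.fsp.okp ..).1 v2).1
      have hb := k'.path.al w1 ((G.down.pa _ _ w1 w2).2 ((Dm.mem_path ..).1 v3).1)
      rw [Dm.R_vm, Dm.en_opp (by rw [hv.2.1, hd]; exact nd0),
        Dm.en_opp (by rw [hb.2.1]; exact w2)] at v4
      refine (D.in0 hv.1 (hv.2.1.trans hd)).2 ?_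
      rw [v4]
      exact D.vx (k'.st.be _ hb.1)
  rw [e]
  exact ⟨⟨h1, h3, ne, c1⟩, h5, g2, good⟩

end Dec

theorem decS : DecS := by
  intro K G hal hs hf
  have eg : ∀ s p, K.dg s p = K.M.suc K.L' s (K.dq s p) := fun s p => by rw [Rd.dg, hs.1]
  refine ⟨fun hp hd hx => (Dec.main G hal hp hd hx).1,
    fun hp hd hx => ⟨eg _ _, eg _ _ ▸ (Dec.main G hal hp hd hx).2.1⟩, ?_⟩
  intro p s hp hd hx
  obtain ⟨-, g1, g2, good⟩ := Dec.main G hal hp hd hx
  rw [← eg] at g1 g2 good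
  have k := G.hy.k
  have k' := G.hy.k' G.dead
  have D := G.dead
  have ex : ∃ i < K.c, K.P.On K.M (K.dg s p) ⟨false, !s, K.gd (K.own s p) s i,
      K.FTd (!s) (K.gd (K.own s p) s i)⟩ := by
    obtain ⟨i, hi, w1, w2, w3⟩ := good
    refine ⟨i, hi, ?_⟩
    have dw := (Dec.gd_al G hal (x := K.own s p) (s := s) (i := i)
      (by rw [Dec.gd_eq hal w1]; exact D.sub w1)).2.2
    rw [Dec.gd_eq hal w1] at dw ⊢
    obtain ⟨f1, f2, -⟩ := k'.path.FT (!s) w1
    have f1' := (G.down.pa _ _ w1 dw).1 f1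
    rw [G.hy.geo.On, k.fsp.On _ rfl, hf _ _ w1 dw]
    refine ⟨(k.fsp.okp ..).2 ⟨D.sub w1, f1'⟩, Or.inr ⟨D.sub g1, (Dm.mem_path ..).2 ⟨w2, ?_⟩⟩⟩
    rcases k.path.tot w2 f1' with t | t
    · exact t
    · by_cases e : K.M.FT K.L' (!s) (K.cand (K.own s p) s i) = K.M.β (K.dg s p)
      · exact e ▸ Dm.Pa.refl _ _
      · exact absurd (w3 _ f1' t e) f2
  obtain ⟨hi, ho⟩ := lst_spec ex
  rw [Rd.db]
  generalize lst K.c _ = i at hi ho
  rw [G.hy.geo.On, k.fsp.On _ rfl] at ho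
  obtain ⟨o1, o2⟩ := ho
  have lw := ((k.fsp.okp ..).1 o1).1
  obtain ⟨w0, w1, w2⟩ := Dec.gd_al G hal lw
  rw [hf _ _ w1 w2] at o2
  rcases o2 with o2 | ⟨-, o2⟩
  · exact absurd ((k.path.al lw ((Dm.mem_path ..).1 o2).1).2.1.symm.trans g2) w2
  obtain ⟨o2, o3⟩ := (Dm.mem_path ..).1 o2
  refine ⟨⟨i, hi, w0⟩, w1, w2, o2, fun u u1 u2 u3 => ?_⟩
  have u1' := (G.down.pa _ _ w1 w2).2 u1
  have hu := k'.path.al w1 u1'
  refine (k'.path.FT (!s) w1).2.2 u u1'
    ((G.down.pa _ _ hu.1 (by rw [hu.2.1]; exact w2)).2 (u2.trans o3)) fun e => u3 ?_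
  exact k.path.anti u2 (e ▸ o3)

end Pool.Agent.MP_1a6d78_lc.PD

end MrgPart9

-- ======== part 10: formerly Pool.Agent.MP_1a6d78_lc.PD.Down
section MrgPart10

/-! PROJECT PD, row DOWN: the paths that do not change. -/

namespace Pool.Agent.MP_1a6d78_lc.PD

open Classical ED PR

namespace Down

variable {K : Rd} (H : K.Hy) (D : K.DeadK)
include H D

theorem same {p : ℕ} {s : Bool} (hp : K.L' p) (hs : K.L' (K.M.suc K.L s p)) :
    K.M.suc K.L' s p = K.M.suc K.L s p := by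
  obtain ⟨-, h2, h3, h4⟩ := H.k.step.suc (s := s) (D.sub hp) (D.st.lt _ hs)
  exact (H.k' D).step.suceq hp hs h2 h3 fun z hz hl => h4 z hz (D.sub hl)

theorem nsame {p : ℕ} {s : Bool} (hp : K.L' p) (hs : K.L' (K.M.nx K.L s p)) :
    K.M.nx K.L' s p = K.M.nx K.L s p := by
  obtain ⟨-, h2, h3⟩ := H.k.step.nx s (D.sub hp)
  exact (H.k' D).step.nxeq hp hs h2 fun z hz hl => h3 z hz (D.sub hl)

/-- The successor does not change unless it dies. -/
theorem same' {p : ℕ} {s : Bool} (hp : K.L' p)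
    (hs : K.L (K.M.suc K.L s p) → K.L' (K.M.suc K.L s p)) :
    K.M.suc K.L' s p = K.M.suc K.L s p := by
  rcases (H.k.step.sle s p).lt_or_eq with h | h
  · exact same H D hp (hs (H.k.step.suc (D.sub hp) h).1)
  · rw [h]
    exact ((H.k' D).step.sucn s hp).2 fun d hd =>
      (H.k.step.sucn s (D.sub hp)).1 h d (D.sub hd)

omit H in
/-- An out-dart at the head of an alive dart is alive. -/
theorem outal {p o : ℕ} (hp : K.L' p) (ho : K.L o) (hd : K.M.dir o ≠ K.d0)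
    (hn : K.M.nd o = K.M.nd (K.M.β p)) : K.L' o :=
  (D.out ho hd).2 (hn ▸ D.vx (D.st.be p hp))

theorem ti {p : ℕ} {s : Bool} (hp : K.L' p) (hd : K.M.dir p = K.d0)
    (hs : K.M.Ti K.L s p → K.L' (K.M.suc K.L s p)) : K.M.Ti K.L' s p ↔ K.M.Ti K.L s p := by
  have hb := D.st.be p hp
  have h : K.L' (K.M.nx K.L s (K.M.β p)) := by
    by_cases t : K.M.Ti K.L s p
    · rw [← H.k.step.ti (D.sub hp) t]
      exact hs t
    · obtain ⟨h1, h2, -⟩ := H.k.step.nx s (D.sub hb)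
      exact outal D hp h1 (hd ▸ t) h2
  unfold Dm.Ti
  rw [nsame H D hb h]

section Closed

variable {s : Bool} {Q : ℕ → Prop} (h1 : ∀ p, Q p → K.L' p)
  (h2 : ∀ p, Q p → K.L (K.M.suc K.L s p) → Q (K.M.suc K.L s p))
include h1 h2

theorem csuc {p : ℕ} (hp : Q p) : K.M.suc K.L' s p = K.M.suc K.L s p :=
  same' H D (h1 p hp) fun h => h1 _ (h2 p hp h)

theorem cfw {p q : ℕ} (hp : Q p) (h : K.M.Pa K.L s p q) : K.M.Pa K.L' s p q ∧ Q q := by
  induction h with
  | refl => exact ⟨Dm.Pa.refl _ _, hp⟩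
  | tail _ u ih =>
    obtain ⟨-, u2, rfl⟩ := u
    have := h2 _ ih.2 u2
    exact ⟨Relation.ReflTransGen.tail ih.1 ⟨h1 _ ih.2, h1 _ this, csuc H D h1 h2 ih.2⟩, this⟩

theorem cbw {p q : ℕ} (hp : Q p) (h : K.M.Pa K.L' s p q) : K.M.Pa K.L s p q := by
  induction h with
  | refl => exact Dm.Pa.refl _ _
  | tail _ u ih =>
    obtain ⟨u1, u2, u3⟩ := u
    exact Relation.ReflTransGen.tail ih ⟨D.sub u1, D.sub u2,
      (csuc H D h1 h2 (cfw H D h1 h2 hp ih).2).symm.trans u3⟩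

theorem cpa {p : ℕ} (hp : Q p) (q : ℕ) : K.M.Pa K.L' s p q ↔ K.M.Pa K.L s p q :=
  ⟨cbw H D h1 h2 hp, fun h => (cfw H D h1 h2 hp h).1⟩

theorem cEn {p : ℕ} (hp : Q p) : K.M.En K.L' s p = K.M.En K.L s p := by
  obtain ⟨e1, e2⟩ := H.k.path.En s (D.sub (h1 p hp))
  obtain ⟨e3, e4⟩ := cfw H D h1 h2 hp e1
  exact (H.k' D).path.Enu (h1 p hp) e3 ((csuc H D h1 h2 e4).trans e2)

theorem cFT (h3 : ∀ p, Q p → K.M.dir p = K.d0) {p : ℕ} (hp : Q p) :
    K.M.FT K.L' s p = K.M.FT K.L s p := by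
  have t : ∀ u, Q u → (K.M.Ti K.L' s u ↔ K.M.Ti K.L s u) := fun u hu =>
    ti H D (h1 u hu) (h3 u hu) fun t => h1 _ (h2 u hu (by
      rw [H.k.step.ti (D.sub (h1 u hu)) t]
      exact (H.k.step.nx s (H.st.be u (D.sub (h1 u hu)))).1))
  obtain ⟨e1, e2, e3⟩ := H.k.path.FT s (D.sub (h1 p hp))
  obtain ⟨e4, e5⟩ := cfw H D h1 h2 hp e1
  refine (H.k' D).path.FTu (h1 p hp) e4 (fun h => e2 ((t _ e5).1 h)) fun u a b c => ?_
  have a' := cbw H D h1 h2 hp a
  have hu := (cfw H D h1 h2 hp a').2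
  exact (t u hu).2 (e3 u a' (cbw H D h1 h2 hu b) c)

end Closed

theorem o2 (s : Bool) (p : ℕ) (hp : K.L' p ∧ K.M.dir p ≠ K.d0) (h : K.L (K.M.suc K.L s p)) :
    K.L' (K.M.suc K.L s p) ∧ K.M.dir (K.M.suc K.L s p) ≠ K.d0 := by
  obtain ⟨-, h2, h3, -⟩ := H.k.step.suc (s := s) (D.sub hp.1) (H.st.lt _ h)
  exact ⟨outal D hp.1 h (h2 ▸ hp.2) h3, h2 ▸ hp.2⟩

omit D in
theorem own_suc {s : Bool} {p : ℕ} (hp : K.L p) (h : K.L (K.M.suc K.L s p)) :
    K.own s (K.M.suc K.L s p) = K.own s p := by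
  rw [H.own]
  exact H.k.path.owneq hp (Dm.Pa.step hp h)

omit H in
theorem f1 (s : Bool) (p : ℕ) (hp : K.L p ∧ K.M.dir p = K.d0 ∧ ¬K.sel (K.own s p)) : K.L' p :=
  (D.in0 hp.1 hp.2.1).2 fun ⟨_, hx⟩ => hp.2.2 (D.own s hp.1 hp.2.1 hx ▸ hx.1)

omit D in
theorem f2 (s : Bool) (p : ℕ) (hp : K.L p ∧ K.M.dir p = K.d0 ∧ ¬K.sel (K.own s p))
    (h : K.L (K.M.suc K.L s p)) : K.L (K.M.suc K.L s p) ∧ K.M.dir (K.M.suc K.L s p) = K.d0 ∧
      ¬K.sel (K.own s (K.M.suc K.L s p)) :=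
  ⟨h, (H.k.step.suc hp.1 (H.st.lt _ h)).2.1.trans hp.2.1, own_suc H hp.1 h ▸ hp.2.2⟩

theorem last (R : K.RunK) (s : Bool) (p : ℕ) (hl : K.L p) (hd : K.M.dir p = K.d0) :
    K.L' p → K.sel (K.own s p) → ∃ a, K.M.Pa K.L s p a ∧
      K.L' a ∧ K.L (K.M.suc K.L s a) ∧ K.D (K.own s p) (K.M.nd (K.M.β (K.M.suc K.L s a))) ∧
      K.L' (K.M.suc K.L' s a) ∧ K.M.Bt s (K.M.β a) (K.M.suc K.L s a) (K.M.suc K.L' s a) := by
  refine H.k.step.ind K.d0 (fun p => K.L' p → K.sel (K.own s p) → ∃ a, K.M.Pa K.L s p a ∧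
      K.L' a ∧ K.L (K.M.suc K.L s a) ∧ K.D (K.own s p) (K.M.nd (K.M.β (K.M.suc K.L s a))) ∧
      K.L' (K.M.suc K.L' s a) ∧ K.M.Bt s (K.M.β a) (K.M.suc K.L s a) (K.M.suc K.L' s a))
    (fun p hl hd ih hp hs => ?_) p hl hd
  rcases (H.k.step.sle s p).lt_or_eq with h | h
  · obtain ⟨e1, e2, e3, e4⟩ := H.k.step.suc hl h
    have eo := own_suc H hl e1
    by_cases ha : K.L' (K.M.suc K.L s p)
    · obtain ⟨a, a1, a2⟩ := ih _ e1 (e2.trans hd) (e3 ▸ Dm.Up.refl _ _) ha (eo ▸ hs)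
      exact ⟨a, (Dm.Pa.step hl e1).trans a1, eo ▸ a2⟩
    · obtain ⟨x, hx⟩ := not_not.1 (mt (D.in0 e1 (e2.trans hd)).2 ha)
      have ex := D.own s e1 (e2.trans hd) hx
      obtain ⟨g, g1, g2, g3⟩ := R.keep e1 (e2.trans hd) (e3 ▸ D.vx (D.st.be p hp))
      have hn : K.M.suc K.L' s p < K.M.n := ((H.k' D).step.sle s p).lt_of_ne fun k =>
        ((H.k' D).step.sucn s hp).1 k g g1 (g3.trans e3) (g2.trans hd.symm)
      obtain ⟨k1, k2, -, -⟩ := (H.k' D).step.suc hp hn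
      refine ⟨p, Dm.Pa.refl _ _, hp, e1, by rw [← eo, ex]; exact hx, k1, ?_⟩
      rcases H.k.rot.tri (s := s) (b := K.M.suc K.L' s p) (H.st.blt hl) h e3 with t | t | t
      · exact t
      · exact absurd (t ▸ k1) ha
      · exact absurd k2 (e4 _ t (D.sub k1))
  · have e1 : K.own s p = K.M.nd (K.M.β p) := by
      rw [H.own, Dm.own_def, H.k.path.Enu hl (Dm.Pa.refl _ _) h]
    rw [e1] at hs
    exact absurd ⟨_, D.self hs (hd ▸ (H.k.step.sucn s hl).1 h)⟩ ((D.in0 hl hd).1 hp)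

end Down

theorem downS : DownS := fun _ H D R =>
  { suc := fun s hp hd =>
      Down.csuc H D (fun _ h => h.1) (Down.o2 H D s) ⟨hp, hd⟩
    pa := fun s q hp hd => Down.cpa H D (fun _ h => h.1) (Down.o2 H D s) ⟨hp, hd⟩ q
    En := fun s hp hd => Down.cEn H D (fun _ h => h.1) (Down.o2 H D s) ⟨hp, hd⟩
    same := Down.same H D
    nsame := Down.nsame H D
    ti := fun hp hd hs => Down.ti H D hp hd fun _ => hs
    free := fun {p s} hp hd hs =>
      ⟨Down.f1 D s p ⟨hp, hd, hs⟩, Down.csuc H D (Down.f1 D s) (Down.f2 H s) ⟨hp, hd, hs⟩,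
        Down.cEn H D (Down.f1 D s) (Down.f2 H s) ⟨hp, hd, hs⟩,
        Down.cFT H D (Down.f1 D s) (Down.f2 H s) (fun _ h => h.2.1) ⟨hp, hd, hs⟩,
        Down.cpa H D (Down.f1 D s) (Down.f2 H s) ⟨hp, hd, hs⟩⟩
    last := fun {p s} hp hd hs => Down.last H D R s p (D.sub hp) hd hp hs }

end Pool.Agent.MP_1a6d78_lc.PD

end MrgPart10

-- ======== part 11: formerly Pool.Agent.MP_1a6d78_lc.PD.En
section MrgPart11

/-! PROJECT PD, row EN: the new ends and the new first turns. -/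

namespace Pool.Agent.MP_1a6d78_lc.PD

open Classical ED PR

namespace En

variable {K : Rd} (G : K.G2) {s : Bool} {a : ℕ}
include G

theorem k : K.M.Kit K.L := G.g1.hy.k

theorem k' : K.M.Kit K.L' := G.g1.hy.k' G.g1.dead

theorem al {u : ℕ} (h : K.L' a) (d : K.M.dir a = K.d0) (p : K.M.Pa K.L' s a u) :
    K.L' u ∧ K.M.dir u = K.d0 :=
  ⟨((k' G).path.al h p).1, ((k' G).path.al h p).2.1.trans d⟩

/-- The old path up to `dq` is a part of the new path. -/
theorem up (h : K.L' a) (d : K.M.dir a = K.d0) (e : K.sel (K.own s a)) {v u : ℕ}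
    (h1 : K.M.Pa K.L s a v) (h2 : K.M.Pa K.L s v u) (h3 : K.M.Pa K.L s u (K.dq s a)) :
    K.M.Pa K.L' s v u := by
  have q := (G.dec.q h d e).2.2.2
  induction h2 with
  | refl => exact Dm.Pa.refl _ _
  | @tail b c x y ih =>
    have z : K.M.Pa K.L s b (K.dq s a) := Relation.ReflTransGen.head y h3
    have lb := (q b (h1.trans x)).2 z
    have lc := (q c (h1.trans (Relation.ReflTransGen.tail x y))).2 h3
    exact Relation.ReflTransGen.tail (ih z)
      ⟨lb, lc, (G.g1.down.same lb (y.2.2 ▸ lc)).trans y.2.2⟩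

/-- Below `dq` the passages do not change. -/
theorem lo (h : K.L' a) (d : K.M.dir a = K.d0) (e : K.sel (K.own s a)) {u : ℕ}
    (h1 : K.M.Pa K.L' s a u) (h2 : K.M.Pa K.L' s u (K.dq s a)) (h3 : u ≠ K.dq s a) :
    K.M.Pa K.L s a u ∧ K.M.Pa K.L s u (K.dq s a) ∧ (K.M.Ti K.L' s u ↔ K.M.Ti K.L s u) := by
  obtain ⟨x, y⟩ := (G.dp.one h d e).2.2.1 u h1 h2
  obtain ⟨lu, du⟩ := al G h d h1
  refine ⟨x, ((G.dec.q h d e).2.2.2 u x).1 lu, G.g1.down.ti lu du ?_⟩
  rw [← y h3]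
  exact ((k' G).step.suc lu ((k' G).path.hd h2 h3).1).1

/-- If the old first turn is lost, the new path is tight up to `dq`. -/
theorem tight (h : K.L' a) (d : K.M.dir a = K.d0) (o : ¬K.old s a) :
    K.sel (K.own s a) ∧ ∀ u, K.M.Pa K.L' s a u → K.M.Pa K.L' s u (K.dq s a) → u ≠ K.dq s a →
      K.M.Ti K.L' s u := by
  have e : K.sel (K.own s a) := by_contra fun e => o (Or.inl e)
  refine ⟨e, fun u h1 h2 h3 => ?_⟩
  obtain ⟨x, y, z⟩ := lo G h d e h1 h2 h3
  have la := G.g1.dead.sub h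
  obtain ⟨t1, -, t3⟩ := (k G).path.FT s la
  have n : ¬K.M.Pa K.L s (K.M.FT K.L s a) u := fun b => o (Or.inr (by
    have lt := ((k G).path.al la t1).1
    obtain ⟨c1, c2⟩ := (k G).path.hd (b.trans y) fun c => h3 ((k G).path.anti y (c ▸ b))
    rw [show K.al' = K.L' from G.al, G.g1.hy.geo.suc, G.g1.hy.geo.FT]
    exact ((G.dec.q h d e).2.2.2 _
      (t1.trans (Dm.Pa.step lt ((k G).step.suc lt c1).1))).2 c2))
  exact z.2 (t3 u x (((k G).path.tot x t1).resolve_right n) fun c => n (c ▸ Dm.Pa.refl _ _))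

/-- The old first turn is the new one. -/
theorem old (h : K.L' a) (d : K.M.dir a = K.d0) (o : K.old s a) :
    K.M.FT K.L' s a = K.M.FT K.L s a := by
  have la := G.g1.dead.sub h
  by_cases e : K.sel (K.own s a)
  swap
  · exact (G.g1.down.free la d e).2.2.2.1
  have o : K.L' (K.M.suc K.L s (K.M.FT K.L s a)) := by
    have := o.resolve_left (not_not.2 e)
    rwa [show K.al' = K.L' from G.al, G.g1.hy.geo.suc, G.g1.hy.geo.FT] at this
  obtain ⟨t1, t2, t3⟩ := (k G).path.FT s la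
  generalize K.M.FT K.L s a = t at *
  obtain ⟨-, -, q3, q4⟩ := G.dec.q h d e
  obtain ⟨lt, dt, -⟩ := (k G).path.al la t1
  have st := Dm.Pa.step lt (G.g1.dead.sub o)
  have tq := st.trans ((q4 _ (t1.trans st)).1 o)
  have tq' := up G h d e t1 tq (Dm.Pa.refl _ _)
  refine (k' G).path.FTu h (up G h d e (Dm.Pa.refl _ _) t1 tq)
    (fun c => t2 ((G.g1.down.ti ((q4 t t1).2 tq) (dt.trans d) o).1 c)) fun u h1 h2 h3 => ?_
  obtain ⟨x, y, z⟩ := lo G h d e h1 (h2.trans tq') fun c =>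
    h3 ((k' G).path.anti h2 (c ▸ tq'))
  exact z.2 (t3 u x (((k G).path.tot x t1).resolve_right fun c =>
    h3 ((k' G).path.anti h2 (up G h d e t1 c y))) h3)

/-- One turn of the loop along which the new path is tight. -/
theorem turn (h : K.L' a) (d : K.M.dir a = K.d0) (o : ¬K.old s a)
    (j : K.M.dir (K.nx' s (K.M.β (K.dq s a))) = K.d0) {u : ℕ} (h1 : K.M.Pa K.L' s a u)
    (h2 : K.M.Pa K.L' s u (K.M.β (K.db s a))) (h3 : u ≠ K.M.β (K.db s a)) : K.M.Ti K.L' s u := by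
  obtain ⟨e, t⟩ := tight G h d o
  obtain ⟨x, -, -, y⟩ := G.dp.one h d e
  by_cases c : u = K.dq s a
  · rw [G.suc.2] at j
    exact c ▸ j.trans (al G h d x).2.symm
  rcases (k' G).path.tot h1 x with b | b
  · exact t u h1 b c
  · exact ((y u ((G.dec.g h d e).1 ▸ ((k' G).path.hd b (Ne.symm c)).2) h2).2.2 h3).1

theorem ft {p : ℕ} (h : K.L' p) (d : K.M.dir p = K.d0) :
    K.M.Pa K.L' s p (K.ft s p) ∧
      (K.old s (K.ft s p) ∨ K.M.dir (K.nx' s (K.M.β (K.dq s (K.ft s p)))) ≠ K.d0) ∧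
      ∀ u, K.M.Pa K.L' s p u → K.M.Pa K.L' s u (K.ft s p) → u ≠ K.ft s p → K.M.Ti K.L' s u := by
  have ex : ∃ i < K.c + 1, K.old s (K.dp s p i) ∨
      K.M.dir (K.nx' s (K.M.β (K.dq s (K.dp s p i)))) ≠ K.d0 :=
    ⟨K.c, by omega, Or.inl (Or.inl (G.dp.fin s h d))⟩
  obtain ⟨l1, l2⟩ := lst_spec ex
  refine ⟨(G.dp.dp s _ h d).1, l2, ?_⟩
  have key : ∀ i, (∀ m < i, ¬(K.old s (K.dp s p m) ∨
      K.M.dir (K.nx' s (K.M.β (K.dq s (K.dp s p m)))) ≠ K.d0)) →
      ∀ u, K.M.Pa K.L' s p u → K.M.Pa K.L' s u (K.dp s p i) → u ≠ K.dp s p i →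
        K.M.Ti K.L' s u := fun i => by
    induction i with
    | zero => exact fun _ u a b c => (c ((k' G).path.anti b a)).elim
    | succ i ih =>
      intro n u h1 h2 h3
      obtain ⟨x, y⟩ := G.dp.dp s i h d
      obtain ⟨o, j⟩ := not_or.1 (n i (by omega))
      obtain ⟨la, da⟩ := al G h d x
      rw [y, if_pos (tight G la da o).1] at h2 h3
      by_cases c : K.M.Pa K.L' s (K.dp s p i) u
      · exact turn G la da o (not_not.1 j) c h2 h3
      · exact ih (fun m hm => n m (by omega)) u h1 (((k' G).path.tot h1 x).resolve_right c)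
          fun b => c (b ▸ Dm.Pa.refl _ _)
  exact key _ fun m hm c => absurd (lst_le (by omega) c) (not_le.2 hm)

end En

open En in
theorem enS : EnS := fun K G => by
  have A : K.al' = K.L' := G.al
  refine ⟨funext fun s => funext fun p => ?_, funext fun s => funext fun p => ?_⟩
  · rw [Rd.En', A]
    by_cases h : K.L' p
    · rw [if_pos h, G.g1.hy.geo.En]
      by_cases d : K.M.dir p = K.d0
      · have x := (G.dp.dp s K.c h d).1
        obtain ⟨la, da⟩ := al G h d x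
        rw [if_pos d, ← (G.g1.down.free (G.g1.dead.sub la) da (G.dp.fin s h d)).2.2.1]
        exact ((k' G).path.Eneq h x).1
      · rw [if_neg d, G.g1.down.En s h d]
    · rw [if_neg h, Dm.En_junk s h]
  · rw [Rd.FT', A]
    by_cases h : K.L' p
    · rw [if_pos h]
      by_cases d : K.M.dir p = K.d0
      · obtain ⟨x, y, z⟩ := ft G (s := s) h d
        rw [if_pos d]
        generalize K.ft s p = a at *
        obtain ⟨la, da⟩ := al G h d x
        obtain ⟨t1, t2, t3⟩ := (k' G).path.FT s la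
        have e : K.M.FT K.L' s p = K.M.FT K.L' s a :=
          (k' G).path.FTu h (x.trans t1) t2 fun u h1 h2 h3 => by
            by_cases c : K.M.Pa K.L' s a u
            · exact t3 u c h2 h3
            · exact z u h1 (((k' G).path.tot h1 x).resolve_right c) fun b =>
                c (b ▸ Dm.Pa.refl _ _)
        rw [e]
        by_cases o : K.old s a
        · rw [if_pos o, G.g1.hy.geo.FT, old G la da o]
        · obtain ⟨b, t⟩ := tight G la da o
          have w := (G.dp.one la da b).1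
          rw [if_neg o]
          refine ((k' G).path.FTu la w (fun c => y.resolve_left o ?_) t).symm
          rw [G.suc.2]
          exact Eq.trans c (al G la da w).2
      · rw [if_neg d, G.ftd s p h d]
    · rw [if_neg h, Dm.FT_junk s h]

end Pool.Agent.MP_1a6d78_lc.PD

end MrgPart11

-- ======== part 12: formerly Pool.Agent.MP_1a6d78_lc.PD.Cbase
section MrgPart12

/-! PROJECT PD, row CBASE: level 0 is computable without calls. -/

namespace Pool.Agent.MP_1a6d78_lc.PD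

open Classical ED PR SC

namespace CB

def Bc (κ : List Bool → ℕ) (s : List Bool → Env → Bool) : Prop :=
  PR.Cp κ fun x ρ => s x ρ = true

def Sc' (κ : List Bool → ℕ) (A : List Bool → Env → Sg) : Prop :=
  (Bc κ fun x ρ => (A x ρ).ex) ∧ (Bc κ fun x ρ => (A x ρ).s) ∧
    (Cn κ fun x ρ => (A x ρ).p) ∧ Cn κ fun x ρ => (A x ρ).q

variable {κ : List Bool → ℕ} {a b d e r : List Bool → Env → ℕ} {s t : List Bool → Env → Bool}
  {A B : List Bool → Env → Sg}

theorem iteP {P Q R : List Bool → Env → Prop} {i : ∀ x ρ, Decidable (P x ρ)} (hP : PR.Cp κ P)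
    (hQ : PR.Cp κ Q) (hR : PR.Cp κ R) :
    PR.Cp κ fun x ρ => @ite _ (P x ρ) (i x ρ) (Q x ρ) (R x ρ) :=
  K.cgP (K.or (K.and hP hQ) (K.and (K.not hP) hR)) fun x ρ => by
    by_cases u : P x ρ <;> simp [u]

theorem dec {P : List Bool → Env → Prop} {i : ∀ x ρ, Decidable (P x ρ)} (h : PR.Cp κ P) :
    Bc κ fun x ρ => @decide (P x ρ) (i x ρ) :=
  K.cgP h fun _ _ => by simp

theorem bc (u : Bool) : Bc κ fun _ _ => u := by
  cases u
  · exact K.cgP (K.eq (K.c 0) (K.c 1)) fun _ _ => by simp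
  · exact K.cgP (K.eq (K.c 0) (K.c 0)) fun _ _ => by simp

theorem Bc.w (h : Bc κ s) : Bc κ fun x ρ => s x (tl ρ) := K.wP h

theorem Bc.not (h : Bc κ s) : Bc κ fun x ρ => !s x ρ :=
  K.cgP (K.not h) fun _ _ => by simp

theorem Bc.eq (h : Bc κ s) (k : Bc κ t) : PR.Cp κ fun x ρ => s x ρ = t x ρ :=
  K.cgP (K.or (K.and h k) (K.and (K.not h) (K.not k))) fun x ρ => by
    cases s x ρ <;> cases t x ρ <;> simp

theorem Bc.var {f : Bool → List Bool → Env → ℕ} (h : Bc κ s) (k : ∀ u, Cn κ (f u)) :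
    Cn κ fun x ρ => f (s x ρ) x ρ :=
  K.cg (K.ite (i := fun _ _ => propDecidable _) h (k true) (k false)) fun x ρ => by
    cases s x ρ <;> simp

theorem Sc'.w (h : Sc' κ A) : Sc' κ fun x ρ => A x (tl ρ) :=
  ⟨h.1.w, h.2.1.w, K.w h.2.2.1, K.w h.2.2.2⟩

theorem dir (h : Cn κ a) : Bc κ fun x ρ => (im x).dir (a x ρ) := CM.dir h

theorem zs (h : Cn κ a) : Bc κ fun x ρ => zs (a x ρ) :=
  dec (K.eq (K.mod (K.sub h (K.c 1)) (K.c 2)) (K.c 1))

theorem ze (h : Cn κ a) : Cn κ fun x ρ => (im x).ze (a x ρ) :=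
  K.mod (K.div (K.sub h (K.c 1)) (K.c 2)) CM.n

theorem zl (h : Cn κ a) : Cn κ fun x ρ => (im x).zl (a x ρ) :=
  K.div (K.div (K.sub h (K.c 1)) (K.c 2)) CM.n

theorem itr (hs : Bc κ s) (ha : Cn κ a) (hd : Cn κ d) :
    Cn κ fun x ρ => it (im x).n ((im x).ρ (s x ρ)) (a x ρ) (d x ρ) :=
  K.it (f := fun x ρ => (im x).ρ (s x ρ)) CM.n
    (Bc.var (f := fun u x ρ => (im x).ρ u (ED.hd (ρ 0))) hs.w fun u => CM.rho u (K.v 0)) ha hd

theorem bt (hs : Bc κ s) (ha : Cn κ a) (hb : Cn κ b) (hd : Cn κ d) :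
    PR.Cp κ fun x ρ => (im x).Bt (s x ρ) (a x ρ) (b x ρ) (d x ρ) :=
  K.lt (Bc.var (f := fun u x ρ => (im x).dist u (a x ρ) (b x ρ)) hs fun u => CM.dist u ha hb)
    (Bc.var (f := fun u x ρ => (im x).dist u (a x ρ) (d x ρ)) hs fun u => CM.dist u ha hd)

theorem en (hs : Bc κ s) (ha : Cn κ a) : Cn κ fun x ρ => (im x).en (s x ρ) (a x ρ) :=
  CM.nd (K.ite (Bc.eq (dir ha) hs) ha (CM.be ha))

theorem al (ha : Cn κ a) : PR.Cp κ fun x ρ => Lx x (a x ρ) :=
  K.and (K.lt ha CM.n) (K.and (Bc.eq (dir (CM.be ha)) (dir ha).not)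
    (K.and (K.ne (en (bc false) ha) CM.is) (K.ne (en (bc true) ha) CM.it')))

theorem fst {Q : List Bool → Env → ℕ → Prop} (hs : Bc κ s) (hQ : P1 κ Q) (hd : Cn κ d) :
    Cn κ fun x ρ => (im x).fst (s x ρ) (Q x ρ) (d x ρ) :=
  have h : P1 κ fun x ρ u => Q x ρ (it (im x).n ((im x).ρ (s x ρ)) (u + 1) (d x ρ)) :=
    K.appP (K.wP1 hQ) (itr hs.w (K.add (K.v 0) (K.c 1)) (K.w hd))
  K.ite (K.ex CM.n h) (itr hs (K.add (K.lst CM.n h) (K.c 1)) hd) CM.n

theorem nx (hs : Bc κ s) (ha : Cn κ a) : Cn κ fun x ρ => (im x).nx (Lx x) (s x ρ) (a x ρ) :=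
  K.ite (al ha) (fst (Q := fun x _ => Lx x) hs (al (K.v 0)) ha) CM.n

theorem suc (hs : Bc κ s) (ha : Cn κ a) : Cn κ fun x ρ => (im x).suc (Lx x) (s x ρ) (a x ρ) :=
  K.ite (al ha) (fst (Q := fun x ρ u => Lx x u ∧ (im x).dir u = (im x).dir (a x ρ)) hs
    (K.and (al (K.v 0)) (Bc.eq (dir (K.v 0)) (dir (K.w ha)))) (CM.be ha)) CM.n

theorem pth (hs : Bc κ s) (ha : Cn κ a) (hb : Cn κ b) :
    Cn κ fun x ρ => (im x).pth (Lx x) (s x ρ) (a x ρ) (b x ρ) :=
  K.it (f := fun x ρ => (im x).suc (Lx x) (s x ρ)) CM.n (suc hs.w (K.v 0)) hb ha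

theorem En (hs : Bc κ s) (ha : Cn κ a) : Cn κ fun x ρ => (im x).En (Lx x) (s x ρ) (a x ρ) :=
  K.ite (al ha) (pth hs ha (K.lst (P := fun x ρ i =>
    (im x).suc (Lx x) (s x ρ) ((im x).pth (Lx x) (s x ρ) (a x ρ) i) = (im x).n) CM.n
      (K.eq (suc hs.w (pth hs.w (K.w ha) (K.v 0))) CM.n))) CM.n

theorem FT (hs : Bc κ s) (ha : Cn κ a) : Cn κ fun x ρ => (im x).FT (Lx x) (s x ρ) (a x ρ) :=
  have h := pth hs.w (K.w ha) (K.v 0)
  K.ite (al ha) (pth hs ha (K.lst (P := fun x ρ i =>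
    (im x).dir ((im x).nx (Lx x) (s x ρ) ((im x).β ((im x).pth (Lx x) (s x ρ) (a x ρ) i))) ≠
      (im x).dir ((im x).pth (Lx x) (s x ρ) (a x ρ) i)) CM.n
      (K.not (Bc.eq (dir (nx hs.w (CM.be h))) (dir h))))) CM.n

theorem el (hA : Sc' κ A) (ha : Cn κ a) : Cn κ fun x ρ => (im x).el (Lx x) (A x ρ) (a x ρ) :=
  K.ite hA.1 (K.ite (K.eq ha (K.c 0)) hA.2.2.1 hA.2.2.2) (pth hA.2.1 hA.2.2.1 ha)

theorem elq (hA : Sc' κ A) : P1 κ fun x ρ i => (im x).el (Lx x) (A x ρ) i = (A x ρ).q :=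
  K.eq (el hA.w (K.v 0)) (K.w hA.2.2.2)

theorem ln (hA : Sc' κ A) : Cn κ fun x ρ => (im x).ln (Lx x) (A x ρ) := K.lst CM.n (elq hA)

theorem ok (hA : Sc' κ A) : PR.Cp κ fun x ρ => (im x).ok (Lx x) (A x ρ) :=
  K.and (al hA.2.2.1) (K.and (al hA.2.2.2) (K.ex CM.n (elq hA)))

theorem rr (hr : Cn κ r) (hs : Bc κ s) (ha : Cn κ a) (hb : Cn κ b) (hd : Cn κ d) :
    PR.Cp κ fun x ρ => (im x).R (r x ρ) (s x ρ) (a x ρ) (b x ρ) (d x ρ) :=
  iteP (K.eq hr (K.c 5)) (K.or (bt hs (CM.be ha) hd hb) (bt hs (CM.be ha) (CM.be hd) hb))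
    (iteP (K.eq hr (K.c 4)) (K.or (K.eq hd ha) (K.eq hd (CM.be ha)))
      (K.eq (en (dec (K.or (K.eq hr (K.c 2)) (K.eq hr (K.c 3)))) ha)
        (en (dec (K.or (K.eq hr (K.c 1)) (K.eq hr (K.c 3)))) hd)))

theorem hit (hr : Cn κ r) (hA : Sc' κ A) (hB : Sc' κ B) (ha : Cn κ a) :
    PR.Cp κ fun x ρ => (im x).hit (Lx x) (r x ρ) (A x ρ) (B x ρ) (a x ρ) :=
  K.and (iteP (K.eq hr (K.c 5)) (K.lt ha (ln hA)) (K.le ha (ln hA)))
    (K.ex (P := fun x ρ k => (im x).R (r x ρ) (A x ρ).s ((im x).el (Lx x) (A x ρ) (a x ρ))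
      ((im x).el (Lx x) (A x ρ) (a x ρ + 1)) ((im x).el (Lx x) (B x ρ) k))
      (K.add (ln hB) (K.c 1)) (rr (K.w hr) hA.2.1.w (K.w (el hA ha))
        (K.w (el hA (K.add ha (K.c 1)))) (el hB.w (K.v 0))))

theorem pick {P : List Bool → Env → ℕ → Prop} (hs : Bc κ s) (hb : Cn κ b) (hP : P1 κ P) :
    Cn κ fun x ρ => pick (s x ρ) (b x ρ) (P x ρ) :=
  K.ite hs (K.lst hb hP) (K.sub (K.sub hb (K.c 1))
    (K.lst (P := fun x ρ i => P x ρ (b x ρ - 1 - i)) hb
      (K.appP (K.wP1 hP) (K.sub (K.sub (K.w hb) (K.c 1)) (K.v 0)))))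

theorem F (hs : Bc κ s) (hr : Cn κ r) (hA : Sc' κ A) (hB : Sc' κ B) :
    Cn κ fun x ρ => (im x).F (Lx x) (s x ρ) (r x ρ) (A x ρ) (B x ρ) :=
  have h : P1 κ fun x ρ => (im x).hit (Lx x) (r x ρ) (A x ρ) (B x ρ) :=
    hit (K.w hr) hA.w hB.w (K.v 0)
  K.ite (K.and (ok hA) (K.and (ok hB) (K.ex CM.n h))) (el hA (pick hs CM.n h)) CM.n

theorem own (hs : Bc κ s) (ha : Cn κ a) : Cn κ fun x ρ => (im x).own (Lx x) (s x ρ) (a x ρ) :=
  CM.nd (CM.be (En hs ha))

theorem par (hs : Bc κ s) (ha : Cn κ a) : Cn κ fun x ρ => (im x).par (Lx x) (s x ρ) (a x ρ) :=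
  K.cg (K.ite (i := fun _ _ => inferInstance) (Bc.eq (dir (nx hs ha)) (dir ha)) (nx hs ha)
    (suc hs (CM.be (nx hs ha)))) fun _ _ => (Dm.par_def _ _).symm

theorem val (hs : Bc κ s) (ha : Cn κ a) :
    PR.Cp κ fun x ρ => (im x).val (Lx x) (a x ρ) (s x ρ) :=
  K.cgP (K.and (al ha) (iteP (i := fun _ _ => inferInstance)
    (Bc.eq (dir (nx hs.not ha)) (dir ha))
    (K.ne (nx hs (CM.be (FT hs ha))) (CM.be (FT hs.not (par hs.not ha))))
    (K.ne (suc hs (CM.be ha)) (nx hs (par hs.not ha))))) fun _ _ => (Dm.val_def _ _).symm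

theorem next (ha : Cn κ a) : Cn κ fun x ρ => ((im x).base (Lx x)).next (a x ρ) :=
  K.lst (P := fun x ρ w => a x ρ ≠ 0 ∧ a x ρ < w ∧ (im x).zl w = 1 ∧
      (im x).val (Lx x) ((im x).ze w) (PD.zs w) ∧ (im x).own (Lx x) (PD.zs w) ((im x).ze w) =
        if (im x).zl (a x ρ) = 0 then (im x).ze (a x ρ)
        else (im x).own (Lx x) (PD.zs (a x ρ)) ((im x).ze (a x ρ)))
    (K.add (K.mul (K.c 4) CM.n) (K.c 1))
    (K.and (K.ne (K.w ha) (K.c 0)) (K.and (K.lt (K.w ha) (K.v 0))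
      (K.and (K.eq (zl (K.v 0)) (K.c 1)) (K.and (val (zs (K.v 0)) (ze (K.v 0)))
        (K.eq (own (zs (K.v 0)) (ze (K.v 0))) (K.w (K.ite (K.eq (zl ha) (K.c 0)) (ze ha)
          (own (zs ha) (ze ha)))))))))

end CB

open CB in
theorem cbaseS : CbaseS := by
  intro κ q hq
  have g : ∀ i, Cn κ fun _ ρ => gt (ρ 0) i := fun i => K.gt (K.vL 0) (K.c i)
  have b : ∀ i, Bc κ fun _ ρ => n2 (gt (ρ 0) i) := fun i => dec (K.ne (g i) (K.c 0))
  have e : ∀ i, PR.Cp κ fun _ ρ => gt (ρ 0) 0 = i := fun i => K.eq (g 0) (K.c i)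
  exact K.ite (e 0) (al (g 1)) (K.min (K.ite (e 1) (nx (b 1) (g 2)) (K.ite (e 2) (suc (b 1) (g 2))
    (K.ite (e 3) (En (b 1) (g 2)) (K.ite (e 4) (FT (b 1) (g 2))
      (K.ite (e 5) (F (A := fun _ ρ => ⟨n2 (gt (ρ 0) 3), n2 (gt (ρ 0) 4), gt (ρ 0) 5, gt (ρ 0) 6⟩)
        (B := fun _ ρ => ⟨n2 (gt (ρ 0) 7), n2 (gt (ρ 0) 8), gt (ρ 0) 9, gt (ρ 0) 10⟩)
        (b 1) (g 2) ⟨b 3, b 4, g 5, g 6⟩ ⟨b 7, b 8, g 9, g 10⟩)
        (K.ite (e 6) (next (g 1)) (K.c 1))))))) hq)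

end Pool.Agent.MP_1a6d78_lc.PD

end MrgPart12

-- ======== part 13: formerly Pool.Agent.MP_1a6d78_lc.PD.Ctop
section MrgPart13

/-! PROJECT PD: the potential and the answer are computable. -/

namespace Pool.Agent.MP_1a6d78_lc.PD

open Classical ED PR SC

namespace CtopA

theorem num_le (x : List Bool) (i : ℕ) : num x i ≤ x.length := by
  have h : ∑ p ∈ Finset.range x.length, (if zc x p = i then bit x p else 0) ≤
      (Finset.range x.length).card • 1 := Finset.sum_le_card_nsmul _ _ _ fun p _ => by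
    unfold bit
    split_ifs <;> omega
  simpa [num] using h

variable {κ β q : List Bool → ℕ} {c : ℕ} {a : EN}

theorem some (H : Cx κ β β q c) (hn : ∀ x, (im x).n ≤ β x) (ha : Nq κ β β a) :
    Pq κ β β fun x g ρ => ∃ d < (im x).n, (ofO (q x) g).al d ∧ (im x).nd d = a x g ρ :=
  Q.ex (P := fun x g ρ d => (ofO (q x) g).al d ∧ (im x).nd d = a x g ρ) QM.n (fun x _ _ => hn x)
    (Q.and (H.o.al (Q.v 0)) (Q.eq (QM.nd (Q.v 0)) (Q.w ha)))

theorem dirs (H : Cx κ β β q c) (hn : ∀ x, (im x).n ≤ β x) (ha : Nq κ β β a) (δ : Bool) :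
    Pq κ β β fun x g ρ =>
      ∀ d < (im x).n, (ofO (q x) g).al d → (im x).nd d = a x g ρ → (im x).dir d = δ :=
  Q.all (P := fun x g ρ d => (ofO (q x) g).al d → (im x).nd d = a x g ρ → (im x).dir d = δ) QM.n
    (fun x _ _ => hn x) (Q.imp (H.o.al (Q.v 0)) (Q.imp (Q.eq (QM.nd (Q.v 0)) (Q.w ha))
      (Bv.eq (QM.dir (Q.v 0)) (Bv.c δ))))

theorem crit (H : Cx κ β β q c) (hn : ∀ x, (im x).n ≤ β x) (ha : Nq κ β β a) :
    Pq κ β β fun x g ρ => (im x).crit (ofO (q x) g).al (a x g ρ) :=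
  Q.and (some H hn ha) (Q.cgP (Q.or (dirs H hn ha false) (dirs H hn ha true))
    fun _ _ _ => by rw [Bool.exists_bool])

theorem len (H : Cx κ β β q c) (ha : Nq κ β β a) :
    Nq κ β β fun x g ρ => (ofO (q x) g).len (im x) (q x) (a x g ρ) :=
  Q.cg (Q.lst (P := fun x g ρ i => (ofO (q x) g).sl (im x) (q x) (a x g ρ) (min i (q x - 1)) = 0)
    (Q.lift H.cq) (fun x _ _ => H.qb x) (Q.eq (PC.sl H.o H.cq (Q.w ha)
      (Q.min (Q.v 0) (Q.sub (Q.lift H.cq) (Q.c 1))) fun x g ρ => by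
        have := H.qb x
        have := H.b7 x
        omega) (Q.c 0)))
    fun x g ρ => lst_congr fun i hi => by rw [min_eq_left (by omega)]

end CtopA

open CtopA in
theorem ctopS : CtopS := by
  intro κ β q c H hx
  have hn : ∀ x, (im x).n ≤ β x := fun x => (num_le x 0).trans (hx x)
  have h1 : P1q κ β β fun x g _ v => (im x).crit (ofO (q x) g).al v ∧ ¬prx x v :=
    Q.and (crit H hn (Q.v 0)) (Q.not (QM.prx (Q.v 0)))
  refine ⟨Q.ite (Q.ex QM.n (fun x _ _ => hn x) h1) (Q.add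
    (Q.mul (Q.c (10 * c)) (Q.cnt QM.n (fun x _ _ => hn x) h1))
    (Q.sum (fun x g _ v => if (im x).crit (ofO (q x) g).al v then
      (ofO (q x) g).len (im x) (q x) v else 0) QM.n (fun x _ _ => hn x)
      (Q.ite (crit H hn (Q.v 0)) (len H (Q.v 0)) (Q.c 0)))) (Q.c 0),
    Q.or (Q.eq (Q.lift CM.is) (Q.lift CM.it')) (some H hn (Q.lift CM.it'))⟩

end Pool.Agent.MP_1a6d78_lc.PD

end MrgPart13

-- marker of a merged file
example : 731051 + 186389 = 731051 + 186389 := rfl
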